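import Pool.Agent.Helper94.CXF.F3

/-!
FARL, third part: the list of facts at one far point, and the certificate.
-/

set_option autoImplicit false
noncomputable section
namespace Pool.Agent.Helper94.CXF

open Pool.Agent.Helper6.MONO
open Pool.Agent.Helper21.SUP (GS DG DG_nx SSt Ty Modes)
open Pool.Agent.Helper21.SUP renaming nx → nxs
open Pool.Agent.Helper86.CX renaming Hm → Hm, ev → hev
open Pool.Agent.Helper39.C75 (IsRegion)
open Pool.Agent.Helper6.MONO.SV (UY)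
open Pool.Agent.Helper39.SLT (ML ML_nx isRegion_and isRegion_empty)
open ComplexConjugate

variable {p q r : ℕ}

/-! ### from far coordinates back to the chart -/

theorem nle {a b : ℂ} {x y : ℝ} (ha : ‖a‖ ≤ x) (hb : ‖b‖ ≤ y) : ‖a + b‖ ≤ x + y :=
  (norm_add_le _ _).trans (add_le_add ha hb)

theorem cmb {a b c x0 x1 x2 y : ℂ} {A B C : ℝ} (h : y = a * x0 + b * x1 + c * x2)
    (ha : ‖a‖ ≤ A) (hb : ‖b‖ ≤ B) (hc : ‖c‖ ≤ C) (hA : A ≤ 20) (hB : B ≤ 20) (hC : C ≤ 20) :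
    ‖y‖ ≤ 20 * (‖x0‖ + ‖x1‖ + ‖x2‖) := by
  rw [h]
  have h1 : ‖a * x0‖ ≤ 20 * ‖x0‖ := by
    rw [norm_mul]; exact mul_le_mul_of_nonneg_right (ha.trans hA) (norm_nonneg _)
  have h2 : ‖b * x1‖ ≤ 20 * ‖x1‖ := by
    rw [norm_mul]; exact mul_le_mul_of_nonneg_right (hb.trans hB) (norm_nonneg _)
  have h3 : ‖c * x2‖ ≤ 20 * ‖x2‖ := by
    rw [norm_mul]; exact mul_le_mul_of_nonneg_right (hc.trans hC) (norm_nonneg _)
  have := nle (nle h1 h2) h3
  linarith

theorem rn {x A : ℝ} (h1 : -A ≤ x) (h2 : x ≤ A) : ‖(x : ℂ)‖ ≤ A := by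
  rw [Complex.norm_real, Real.norm_eq_abs, abs_le]; exact ⟨h1, h2⟩

/-- bounds for the inverse of the far coordinates -/
theorem fv_inv (hp : 3 ≤ p) (hq : 3 ≤ q) (hr : 3 ≤ r) {s : GS} (hs : DG s) (L : Bool) {e : ℂ}
    (he : ‖e‖ ≤ 1 / 8) (v : Fin 3 → ℂ) (j : Fin 3) :
    ‖v j‖ ≤ 20 * (‖fv p q r L s e v 0‖ + ‖fv p q r L s e v 1‖ + ‖fv p q r L s e v 2‖) := by
  have hj : j = 0 ∨ j = 1 ∨ j = 2 := by fin_cases j <;> simp
  obtain ⟨k1, k2⟩ := kk_rng hp hq hr s.1 s.2.1 hs.1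
  obtain ⟨h1, h2⟩ := kk_rng hp hq hr s.2.1 s.2.2 hs.2.1
  obtain ⟨g1, g2⟩ := kk_rng hp hq hr s.1 s.2.2 (Ne.symm hs.2.2)
  obtain ⟨l1, l2⟩ := lamS_rng hp hq hr hs
  have hl : lamF (kk p q r s.1 s.2.1 : ℂ) (kk p q r s.2.1 s.2.2) (kk p q r s.1 s.2.2) =
      ((lamS p q r s : ℝ) : ℂ) := lf_eq p q r s
  have hd := dS_ne hp hq hr hs he
  rw [dS, lf, hl] at hd
  rw [fv, Fs]
  generalize hk : kk p q r s.1 s.2.1 = k at *
  generalize hh : kk p q r s.2.1 s.2.2 = h at *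
  generalize hg : kk p q r s.1 s.2.2 = g at *
  generalize hlm : lamS p q r s = l at *
  have k0 : (k : ℂ) ≠ 0 := by exact_mod_cast (by linarith : k ≠ 0)
  have g0 : (g : ℂ) ≠ 0 := by exact_mod_cast (by linarith : g ≠ 0)
  have l0 : (l : ℂ) ≠ 0 := by exact_mod_cast (by linarith : l ≠ 0)
  have ig : 1 / g ≤ 1 := by rw [div_le_one (by linarith)]; exact g1
  have ig0 : 0 < 1 / g := by positivity
  have il : 1 / l ≤ 2 := by rw [div_le_iff₀ (by linarith)]; linarith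
  have il0 : 0 < 1 / l := by positivity
  have kg : k * (1 / g) ≤ 2 := by nlinarith
  have nk : ‖(k : ℂ)‖ ≤ 2 := rn (by linarith) (by linarith)
  have ng : ‖(1 / g : ℂ)‖ ≤ 1 := by
    have := rn (x := 1 / g) (A := 1) (by linarith) (by linarith)
    simpa using this
  have n2g : ‖(-(2 / g) : ℂ)‖ ≤ 2 := by
    have := rn (x := -(2 * (1 / g))) (A := 2) (by linarith) (by linarith)
    refine le_trans (le_of_eq ?_) this
    congr 1; push_cast; ring
  cases L with
  | false =>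
    cases ho : oriZ s with
    | true =>
      rw [ho] at hd
      have hd' : (l : ℂ) + e ≠ 0 := by simpa [dn] using hd
      have e0 : (Fn true false (k : ℂ) h g e).mulVec v 0 = v 0 := by
        simp [Fn, FY, Matrix.mulVec, dotProduct, Fin.sum_univ_three]
      have e1 : (Fn true false (k : ℂ) h g e).mulVec v 1 = g * (l / (2 * (l + e))) / k * v 2 := by
        simp [Fn, FY, Matrix.mulVec, dotProduct, Fin.sum_univ_three, tF, dn, hl]
      have e2 : (Fn true false (k : ℂ) h g e).mulVec v 2 =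
          g / 2 * v 0 - g / 2 * v 1 + g * (l / (2 * (l + e))) / 2 * v 2 := by
        simp [Fn, FY, Matrix.mulVec, dotProduct, Fin.sum_univ_three, tF, dn, hl]
        ring
      rw [e0, e1, e2]
      have b2 : ‖(2 * k * (1 / g) * ((l + e) * (1 / l)) : ℂ)‖ ≤ 20 := by
        have h3 : ‖((l : ℂ) + e) * (1 / l)‖ ≤ 5 / 4 := by
          have : ((l : ℂ) + e) * (1 / l) = 1 + e * (1 / l) := by field_simp
          rw [this]
          have h4 : ‖(1 / l : ℂ)‖ ≤ 2 := by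
            have := rn (x := 1 / l) (A := 2) (by linarith) (by linarith)
            simpa using this
          have h5 : ‖e * (1 / l : ℂ)‖ ≤ 1 / 8 * 2 := by
            rw [norm_mul]
            exact mul_le_mul he h4 (norm_nonneg _) (by norm_num)
          have := nle (a := 1) (x := 1) (by simp) h5
          linarith
        rw [norm_mul, norm_mul, norm_mul]
        have h6 : ‖(2 : ℂ)‖ = 2 := by simp
        rw [h6]
        have h7 : 2 * ‖(k : ℂ)‖ ≤ 4 := by linarith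
        have h8 : 2 * ‖(k : ℂ)‖ * ‖(1 / g : ℂ)‖ ≤ 4 * 1 :=
          mul_le_mul h7 ng (norm_nonneg _) (by norm_num)
        have h9 := mul_le_mul h8 h3 (norm_nonneg _) (by norm_num)
        linarith
      rcases hj with rfl | rfl | rfl
      · exact cmb (a := 1) (b := 0) (c := 0) (A := 1) (B := 0) (C := 0) (by simp) (by simp)
          (by simp) (by simp) (by norm_num) (by norm_num) (by norm_num)
      · refine cmb (a := 1) (b := k * (1 / g)) (c := -(2 / g)) (A := 1) (B := 2 * 1) (C := 2) ?_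
          (by simp) ?_ n2g (by norm_num) (by norm_num) (by norm_num)
        · field_simp
          ring
        · rw [norm_mul]
          exact mul_le_mul nk ng (norm_nonneg _) (by norm_num)
      · refine cmb (a := 0) (b := 2 * k * (1 / g) * ((l + e) * (1 / l))) (c := 0) (A := 0)
          (B := 20) (C := 0) ?_ (by simp) b2 (by simp) (by norm_num) (by norm_num) (by norm_num)
        field_simp
        ring
    | false =>
      rw [ho] at hd
      have hd' : 1 + (l : ℂ) * e ≠ 0 := by simpa [dn] using hd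
      have e0 : (Fn false false (k : ℂ) h g e).mulVec v 0 = v 0 := by
        simp [Fn, FY, Matrix.mulVec, dotProduct, Fin.sum_univ_three]
      have e2 : (Fn false false (k : ℂ) h g e).mulVec v 2 =
          g * l * (1 / (2 * (1 + l * e))) / k * v 2 := by
        simp [Fn, FY, Matrix.mulVec, dotProduct, Fin.sum_univ_three, omF, dn, hl]
      have e1 : (Fn false false (k : ℂ) h g e).mulVec v 1 =
          g / 2 * v 0 - g / 2 * v 1 + g * (l * e / (2 * (1 + l * e))) / 2 * v 2 := by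
        simp [Fn, FY, Matrix.mulVec, dotProduct, Fin.sum_univ_three, tF, dn, hl]
        ring
      rw [e0, e1, e2]
      have b2 : ‖(2 * k * (1 / g) * ((1 + l * e) * (1 / l)) : ℂ)‖ ≤ 20 := by
        have h3 : ‖(1 + (l : ℂ) * e) * (1 / l)‖ ≤ 17 / 8 := by
          have : (1 + (l : ℂ) * e) * (1 / l) = 1 / l + e := by field_simp
          rw [this]
          have h4 : ‖(1 / l : ℂ)‖ ≤ 2 := by
            have := rn (x := 1 / l) (A := 2) (by linarith) (by linarith)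
            simpa using this
          have := nle h4 he
          linarith
        rw [norm_mul, norm_mul, norm_mul]
        have h6 : ‖(2 : ℂ)‖ = 2 := by simp
        rw [h6]
        have h7 : 2 * ‖(k : ℂ)‖ ≤ 4 := by linarith
        have h8 : 2 * ‖(k : ℂ)‖ * ‖(1 / g : ℂ)‖ ≤ 4 * 1 :=
          mul_le_mul h7 ng (norm_nonneg _) (by norm_num)
        have h9 := mul_le_mul h8 h3 (norm_nonneg _) (by norm_num)
        linarith
      rcases hj with rfl | rfl | rfl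
      · exact cmb (a := 1) (b := 0) (c := 0) (A := 1) (B := 0) (C := 0) (by simp) (by simp)
          (by simp) (by simp) (by norm_num) (by norm_num) (by norm_num)
      · refine cmb (a := 1) (b := -(2 / g)) (c := k * (1 / g) * e) (A := 1) (B := 2)
          (C := 2 * 1 * (1 / 8)) ?_ (by simp) n2g ?_ (by norm_num) (by norm_num) (by norm_num)
        · field_simp
          ring
        · rw [norm_mul, norm_mul]
          exact mul_le_mul (mul_le_mul nk ng (norm_nonneg _) (by norm_num)) he (norm_nonneg _)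
            (by norm_num)
      · refine cmb (a := 0) (b := 0) (c := 2 * k * (1 / g) * ((1 + l * e) * (1 / l))) (A := 0)
          (B := 0) (C := 20) ?_ (by simp) (by simp) b2 (by norm_num) (by norm_num) (by norm_num)
        field_simp
        ring
  | true =>
    cases ho : oriZ s with
    | true =>
      have e0 : (Fn true true (k : ℂ) h g e).mulVec v 0 = 1 / g * v 0 := by
        simp [Fn, FLn, Matrix.mulVec, dotProduct, Fin.sum_univ_three]
      have e1 : (Fn true true (k : ℂ) h g e).mulVec v 1 = 2 / (k ^ 2 * g) * v 1 := by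
        simp [Fn, FLn, Matrix.mulVec, dotProduct, Fin.sum_univ_three]
      have e2 : (Fn true true (k : ℂ) h g e).mulVec v 2 =
          (g / 2 - 1 / g) * v 0 - g / 2 * v 2 := by
        simp [Fn, FLn, Matrix.mulVec, dotProduct, Fin.sum_univ_three]
        ring
      rw [e0, e1, e2]
      rcases hj with rfl | rfl | rfl
      · refine cmb (a := g) (b := 0) (c := 0) (A := 2) (B := 0) (C := 0) ?_
          (rn (by linarith) (by linarith)) (by simp) (by simp) (by norm_num) (by norm_num)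
          (by norm_num)
        field_simp
        ring
      · refine cmb (a := 0) (b := ((k ^ 2 * g / 2 : ℝ) : ℂ)) (c := 0) (A := 0) (B := 4) (C := 0)
          ?_ (by simp) (rn (by have : 0 ≤ k ^ 2 * g := by positivity
                               linarith) (by nlinarith)) (by simp) (by norm_num)
          (by norm_num) (by norm_num)
        push_cast
        field_simp
        ring
      · refine cmb (a := ((g - 2 * (1 / g) : ℝ) : ℂ)) (b := 0) (c := -(2 / g)) (A := 2) (B := 0)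
          (C := 2) ?_ (rn (by linarith) (by linarith)) (by simp) n2g (by norm_num) (by norm_num)
          (by norm_num)
        push_cast
        field_simp
        ring
    | false =>
      have e0 : (Fn false true (k : ℂ) h g e).mulVec v 0 = v 0 := by
        simp [Fn, FLn, Fl, Matrix.mulVec, dotProduct, Fin.sum_univ_three]
      have e1 : (Fn false true (k : ℂ) h g e).mulVec v 1 = g / 2 * v 0 - g / 2 * v 2 := by
        simp [Fn, FLn, Fl, Matrix.mulVec, dotProduct, Fin.sum_univ_three]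
        ring
      have e2 : (Fn false true (k : ℂ) h g e).mulVec v 2 = g * l / k * v 1 := by
        simp [Fn, FLn, Fl, Matrix.mulVec, dotProduct, Fin.sum_univ_three, hl]
      rw [e0, e1, e2]
      rcases hj with rfl | rfl | rfl
      · exact cmb (a := 1) (b := 0) (c := 0) (A := 1) (B := 0) (C := 0) (by simp) (by simp)
          (by simp) (by simp) (by norm_num) (by norm_num) (by norm_num)
      · refine cmb (a := 0) (b := 0) (c := k * (1 / g) * (1 / l)) (A := 0) (B := 0)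
          (C := 2 * 1 * 2) ?_ (by simp) (by simp) ?_ (by norm_num) (by norm_num) (by norm_num)
        · field_simp
          ring
        · rw [norm_mul, norm_mul]
          have h4 : ‖(1 / l : ℂ)‖ ≤ 2 := by
            have := rn (x := 1 / l) (A := 2) (by linarith) (by linarith)
            simpa using this
          exact mul_le_mul (mul_le_mul nk ng (norm_nonneg _) (by norm_num)) h4 (norm_nonneg _)
            (by norm_num)
      · refine cmb (a := 1) (b := -(2 / g)) (c := 0) (A := 1) (B := 2) (C := 0) ?_ (by simp) n2g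
          (by simp) (by norm_num) (by norm_num) (by norm_num)
        field_simp
        ring

/-- THE FACTS at a far point -/
structure FF (p q r : ℕ) (V : RV2) (ε : ℝ) (e : ℂ) (C : ℝ) (K0 KF KB P1 P2 : GS → Hm ℝ) :
    Prop where
  n0 : ∀ s, DG s → 4 ≤ ML p q r s → NegS (K0 s)
  nF : ∀ s, DG s → NegS (KF s)
  nB : ∀ s, DG s → NegS (KB s)
  n1 : ∀ s, DG s → oriZ s = true → NegS (P1 s)
  n2 : ∀ s, DG s → oriZ s = true → NegS (P2 s)
  run0 : ∀ s, DG s → 4 ≤ ML p q r s → ∀ i, i + 3 ≤ mm p q r s.1 s.2.1 →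
    Imp (K0 s) (if i + 3 = mm p q r s.1 s.2.1 then KF (nxs s (i + 3)) else K0 (nxs s (i + 3)))
      (ap (TRs p q r false s i) e)
  runF : ∀ s, DG s → ∀ i, i + 3 ≤ mm p q r s.1 s.2.1 →
    Imp (KF s) (if i + 3 = mm p q r s.1 s.2.1 then KF (nxs s (i + 3)) else K0 (nxs s (i + 3)))
      (ap (TRs p q r false s i) e)
  runB : ∀ s, DG s → ∀ i, i + 3 ≤ mm p q r s.1 s.2.1 →
    Imp (KB s) (if i + 3 = mm p q r s.1 s.2.1 then KF (nxs s (i + 3)) else K0 (nxs s (i + 3)))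
      (ap (TRs p q r true s i) e)
  a1t : ∀ s, DG s → 4 ≤ ML p q r s → oriZ s = true →
    Imp (K0 s) (P1 (nxs s 2)) (ap (TNs p q r s) e)
  a1f : ∀ s, DG s → 4 ≤ ML p q r s → oriZ s = false →
    Imp (K0 s) (KB (nxs s 2)) (ap (TNs p q r s) e)
  a2t : ∀ s, DG s → 4 ≤ ML p q r s → oriZ s = true → ∀ x, x 0 ≠ 0 → 0 ≤ hev (K0 s) x →
    0 ≤ hev (P2 (nxs (nxs s 2) 2)) (ap (TTs p q r s) e x) ∧ ap (TTs p q r s) e x 0 ≠ 0
  a2f : ∀ s, DG s → 4 ≤ ML p q r s → oriZ s = false →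
    Imp (K0 s) (KB (nxs (nxs s 2) 2)) (ap (TTs p q r s) e)
  u1t : ∀ s, DG s → oriZ s = true → ∀ x, x 0 ≠ 0 → 0 ≤ hev (P1 s) x →
    0 ≤ hev (P1 (nxs (nxs s 2) 2)) (ap (TUs p q r s) e x) ∧ ap (TUs p q r s) e x 0 ≠ 0
  u2t : ∀ s, DG s → oriZ s = true → ∀ x, x 0 ≠ 0 → 0 ≤ hev (P2 s) x →
    0 ≤ hev (P2 (nxs (nxs s 2) 2)) (ap (TUs p q r s) e x) ∧ ap (TUs p q r s) e x 0 ≠ 0
  uf : ∀ s, DG s → oriZ s = false → Imp (KB s) (KB (nxs (nxs s 2) 2)) (ap (TUs p q r s) e)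
  i1 : ∀ s, DG s → oriZ s = true → ∀ x, x 0 ≠ 0 → 0 ≤ hev (P1 s) x → 0 ≤ hev (KB s) x
  i2 : ∀ s, DG s → oriZ s = true → ∀ x, x 0 ≠ 0 → 0 ≤ hev (P2 s) x → 0 ≤ hev (KB s) x
  rL : ∀ s, DG s → ML p q r s = 3 → 0 ≤ hev (KB s) (fv p q r true s e
    ![1, (V.c : ℂ), (V.d (kk p q r s.1 s.2.2) : ℂ)])
  rY : ∀ s, DG s → 4 ≤ ML p q r s → 0 ≤ hev (KB s) (fv p q r true s e
    (yL V.al V.be (omF (oriZ s) (lf p q r s) e)))
  rF : ∀ s, DG s → 0 ≤ hev (KF s) (fv p q r false s e ![1, (V.al : ℂ), (V.be : ℂ)])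
  st : ∀ s, DG s → 4 ≤ ML p q r s → ∀ i, 0 ≤ hev (K0 s) (fv p q r false s e (UY V.al V.be ε i))
  sl0 : ∀ s, DG s → 4 ≤ ML p q r s → Sl (K0 s) (TRs p q r false s 0) (dS p q r s e) e
  slF : ∀ s, DG s → ML p q r s = 3 → Sl (KF s) (TRs p q r false s 0) (dS p q r s e) e
  slB : ∀ s, DG s → Sl (KB s) (TUs p q r s) (dS p q r s e) e
  b0 : ∀ s, DG s → 4 ≤ ML p q r s → ∀ x, 0 ≤ hev (K0 s) x → ∀ j, ‖x j‖ ≤ C * ‖x 0‖
  bF : ∀ s, DG s → ∀ x, 0 ≤ hev (KF s) x → ∀ j, ‖x j‖ ≤ C * ‖x 0‖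
  bB : ∀ s, DG s → ∀ x, 0 ≤ hev (KB s) x → ∀ j, ‖x j‖ ≤ C * ‖x 0‖

def RLs (p q r : ℕ) (e : ℂ) (KB : GS → Hm ℝ) (s : GS) : St :=
  {v | DG s ∧ v ∈ rgn p q r true e s (KB s)}
def R0s (p q r : ℕ) (e : ℂ) (K0 : GS → Hm ℝ) (s : GS) : St :=
  {v | (DG s ∧ 4 ≤ ML p q r s) ∧ v ∈ rgn p q r false e s (K0 s)}
def RFs (p q r : ℕ) (e : ℂ) (KF : GS → Hm ℝ) (s : GS) : St :=
  {v | DG s ∧ v ∈ rgn p q r false e s (KF s)}
/-- loop regions -/
def Ps (p q r : ℕ) (e : ℂ) (KB P : GS → Hm ℝ) (s : GS) : St :=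
  {v | DG s ∧ v ∈ rgn p q r true e s (if oriZ s = true then P s else KB s)}

theorem isR_and' {P : Prop} {R : St} (h : P → IsRegion R) : IsRegion {v | P ∧ v ∈ R} := by
  by_cases hP : P
  · exact isRegion_and (h hP)
  · have : {v | P ∧ v ∈ R} = (∅ : St) := by
      ext v
      exact ⟨fun hv => hP hv.1, fun hv => hv.elim⟩
    rw [this]
    exact isRegion_empty

variable {V : RV2} {ε C : ℝ} {K0 KF KB P1 P2 : GS → Hm ℝ}

theorem UY_z (al be e : ℝ) (i : Fin 3) : UY al be e i 0 = 1 := by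
  simp [UY]

theorem FF.runs {w : ℂ} (h : FF p q r V ε (ew w) C K0 KF KB P1 P2) (hp : 3 ≤ p) (hq : 3 ≤ q)
    (hr : 3 ≤ r) (hw : 1 + w ≠ 0) (he : ‖ew w‖ ≤ 1 / 8) {s : GS} (hs : DG s) {L : Bool}
    {K : Hm ℝ} {m : ℕ} (h3 : 3 ≤ m) (hm : m ≤ mm p q r s.1 s.2.1)
    (hi : ∀ i, i + 3 ≤ mm p q r s.1 s.2.1 →
      Imp K (if i + 3 = mm p q r s.1 s.2.1 then KF (nxs s (i + 3)) else K0 (nxs s (i + 3)))
        (ap (TRs p q r L s i) (ew w))) {v : Fin 3 → ℂ} (hv : v ∈ rgn p q r L (ew w) s K) :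
    (GR p q r L s m w).mulVec v ∈ (if m = mm p q r s.1 s.2.1 then RFs p q r (ew w) KF (nxs s m)
      else R0s p q r (ew w) K0 (nxs s m)) := by
  obtain ⟨i, rfl⟩ : ∃ i, m = i + 3 := ⟨m - 3, by omega⟩
  obtain ⟨c, hc, hrun⟩ := run_far hp hq hr hs L hm hw he
  have hD := DG_nx s (i + 3) hs
  have hd := dS_ne hp hq hr hs he
  have hcc : (c : ℂ) / dS p q r s (ew w) ≠ 0 := div_ne_zero (by exact_mod_cast hc.ne') hd
  have h1 := hi i hm
  split_ifs with hM
  · rw [if_pos hM] at h1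
    exact ⟨hD, rgn_imp hp hq hr hs hD (h.nF _ hD) h1 hcc hv (hrun v)⟩
  · rw [if_neg hM] at h1
    have h4 : 4 ≤ ML p q r (nxs s (i + 3)) := by rw [ML_nx]; omega
    exact ⟨⟨hD, h4⟩, rgn_imp hp hq hr hs hD (h.n0 _ hD h4) h1 hcc hv (hrun v)⟩

theorem FF.slit {w : ℂ} (hp : 3 ≤ p) (hq : 3 ≤ q)
    (hr : 3 ≤ r) (he : ‖ew w‖ ≤ 1 / 8) {s : GS} (hs : DG s) {L L' : Bool}
    {s' : GS} (hs' : DG s') {K : Hm ℝ} {T : M9 ℝ × M9 ℝ}
    (h : Sl K T (dS p q r s (ew w)) (ew w)) {v v' : Fin 3 → ℂ} (hv : v ∈ rgn p q r L (ew w) s K)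
    {c : ℝ} (hc : 0 < c) (hvv : fv p q r L' s' (ew w) v' =
      ((c : ℂ) / dS p q r s (ew w)) • ap T (ew w) (fv p q r L s (ew w) v)) :
    v' 0 / v 0 ∈ Complex.slitPlane := by
  have hd := dS_ne hp hq hr hs he
  have c1 := c0_pos hp hq hr L hs
  have c2 := c0_pos hp hq hr L' hs'
  have c1' : (c0 p q r L s : ℂ) ≠ 0 := by exact_mod_cast c1.ne'
  have c2' : (c0 p q r L' s' : ℂ) ≠ 0 := by exact_mod_cast c2.ne'
  have hx : fv p q r L s (ew w) v 0 ≠ 0 := by
    rw [fv_zero]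
    exact mul_ne_zero c1' hv.1
  obtain ⟨g, g1, g2⟩ := h _ hx hv.2
  have h0 := congrFun hvv 0
  rw [fv_zero, Pi.smul_apply, smul_eq_mul] at h0
  refine slit_aux (c := c * c0 p q r L s / c0 p q r L' s') (by positivity) hd hx ?_ g1 g2
  have hv0 := hv.1
  have e1 : v' 0 = (c : ℂ) / dS p q r s (ew w) * ap T (ew w) (fv p q r L s (ew w) v) 0 /
      (c0 p q r L' s') := by
    rw [← h0]; field_simp
  have e2 : fv p q r L s (ew w) v 0 = (c0 p q r L s : ℂ) * v 0 := fv_zero _ _ _ _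
  rw [e1, e2]
  push_cast
  field_simp

/-- THE SETS -/
theorem FF.sets {w : ℂ} (h : FF p q r V ε (ew w) C K0 KF KB P1 P2) (hp : 3 ≤ p) (hq : 3 ≤ q)
    (hr : 3 ≤ r) (hC : 0 ≤ C) (hw : 1 + w ≠ 0) (he : ‖ew w‖ ≤ 1 / 8) :
    FarSets V ε p q r (20 * (1 + 2 * C)) w (RLs p q r (ew w) KB) (R0s p q r (ew w) K0)
      (RFs p q r (ew w) KF) (Ps p q r (ew w) KB P1) (Ps p q r (ew w) KB P2) := by
  have hbd : ∀ (L : Bool) (s : GS) (K : Hm ℝ) (v : Fin 3 → ℂ), DG s →
      v ∈ rgn p q r L (ew w) s K → (∀ x, 0 ≤ hev K x → ∀ j, ‖x j‖ ≤ C * ‖x 0‖) →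
      ∀ j, ‖v j‖ ≤ 20 * (1 + 2 * C) * ‖v 0‖ := by
    intro L s K v hs hv hK j
    have h1 := fv_inv hp hq hr hs L he v j
    have h2 := hK _ hv.2 1
    have h3 := hK _ hv.2 2
    have h4 : ‖fv p q r L s (ew w) v 0‖ ≤ ‖v 0‖ := by
      rw [fv_zero, norm_mul, Complex.norm_real, Real.norm_eq_abs,
        abs_of_pos (c0_pos hp hq hr L hs)]
      have h5 : c0 p q r L s ≤ 1 := by
        have := (kk_rng hp hq hr s.1 s.2.2 (Ne.symm hs.2.2)).1
        rw [c0]
        split_ifs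
        · rw [div_le_one (by linarith)]
          exact this
        · exact le_rfl
      nlinarith [norm_nonneg (v 0)]
    have h6 : C * ‖fv p q r L s (ew w) v 0‖ ≤ C * ‖v 0‖ := mul_le_mul_of_nonneg_left h4 hC
    nlinarith [norm_nonneg (v 0)]
  refine ⟨fun s => isR_and' fun hs => isRegion_rgn _ _ _ (h.nB s hs),
    fun s => isR_and' fun hs => isRegion_rgn _ _ _ (h.n0 s hs.1 hs.2),
    fun s => isR_and' fun hs => isRegion_rgn _ _ _ (h.nF s hs), ?_, ?_, ?_, ?_, ?_, ?_, ?_, ?_, ?_,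
    ?_, ?_, ?_, ?_, ?_, ?_, ?_, ?_, ?_, ?_, ?_⟩
  · intro s hs h4 m h3 hm v hv
    exact h.runs hp hq hr hw he hs h3 hm (h.run0 s hs h4) hv.2
  · intro s hs m h3 hm v hv
    exact h.runs hp hq hr hw he hs h3 hm (h.runF s hs) hv.2
  · intro s hs m h3 hm v hv
    exact h.runs hp hq hr hw he hs h3 hm (h.runB s hs) hv.2
  · -- n1
    intro s hs h4 v hv
    obtain ⟨c, hc, hN⟩ := N1_far hp hq hr hs hw he
    have hD := DG_nx s 2 hs
    refine ⟨hD, ?_⟩
    rw [oriZ_even hs]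
    cases ho : oriZ s with
    | true =>
      rw [if_pos rfl]
      exact rgn_imp hp hq hr hs hD (h.n1 _ hD (by rw [oriZ_even hs, ho])) (h.a1t s hs h4 ho) hc
        hv.2 (hN v)
    | false =>
      rw [if_neg (by decide)]
      exact rgn_imp hp hq hr hs hD (h.nB _ hD) (h.a1f s hs h4 ho) hc hv.2 (hN v)
  · -- t2
    intro s hs h4 v hv
    obtain ⟨c, hc, hN⟩ := T2_far hp hq hr hs hw he
    have hD := DG_nx _ 2 (DG_nx s 2 hs)
    refine ⟨hD, ?_⟩
    rw [ori22 hs]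
    cases ho : oriZ s with
    | true =>
      rw [if_pos rfl]
      exact rgn_weak hp hq hr hs hD (h.a2t s hs h4 ho) hc hv.2 (hN v)
    | false =>
      rw [if_neg (by decide)]
      exact rgn_imp hp hq hr hs hD (h.nB _ hD) (h.a2f s hs h4 ho) hc hv.2 (hN v)
  · -- uu1
    intro s hs v hv
    obtain ⟨c, hc, hN⟩ := UU_far hp hq hr hs hw he
    have hd := dS_ne hp hq hr hs he
    have hcc : (c : ℂ) / dS p q r s (ew w) ≠ 0 := div_ne_zero (by exact_mod_cast hc.ne') hd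
    have hD := DG_nx _ 2 (DG_nx s 2 hs)
    refine ⟨hD, ?_⟩
    rw [ori22 hs]
    have hv2 := hv.2
    cases ho : oriZ s with
    | true =>
      rw [ho, if_pos rfl] at hv2
      rw [if_pos rfl]
      exact rgn_weak hp hq hr hs hD (h.u1t s hs ho) hcc hv2 (hN v)
    | false =>
      rw [ho, if_neg (by decide)] at hv2
      rw [if_neg (by decide)]
      exact rgn_imp hp hq hr hs hD (h.nB _ hD) (h.uf s hs ho) hcc hv2 (hN v)
  · -- uu2
    intro s hs v hv
    obtain ⟨c, hc, hN⟩ := UU_far hp hq hr hs hw he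
    have hd := dS_ne hp hq hr hs he
    have hcc : (c : ℂ) / dS p q r s (ew w) ≠ 0 := div_ne_zero (by exact_mod_cast hc.ne') hd
    have hD := DG_nx _ 2 (DG_nx s 2 hs)
    refine ⟨hD, ?_⟩
    rw [ori22 hs]
    have hv2 := hv.2
    cases ho : oriZ s with
    | true =>
      rw [ho, if_pos rfl] at hv2
      rw [if_pos rfl]
      exact rgn_weak hp hq hr hs hD (h.u2t s hs ho) hcc hv2 (hN v)
    | false =>
      rw [ho, if_neg (by decide)] at hv2
      rw [if_neg (by decide)]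
      exact rgn_imp hp hq hr hs hD (h.nB _ hD) (h.uf s hs ho) hcc hv2 (hN v)
  · -- sub1
    intro s hs v hv
    have hv2 := hv.2
    refine ⟨hs, ?_⟩
    cases ho : oriZ s with
    | true =>
      rw [ho, if_pos rfl] at hv2
      refine ⟨hv2.1, h.i1 s hs ho _ ?_ hv2.2⟩
      rw [fv_zero]
      exact mul_ne_zero (by exact_mod_cast (c0_pos hp hq hr true hs).ne') hv2.1
    | false =>
      rw [ho, if_neg (by decide)] at hv2
      exact hv2
  · -- sub2
    intro s hs v hv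
    have hv2 := hv.2
    refine ⟨hs, ?_⟩
    cases ho : oriZ s with
    | true =>
      rw [ho, if_pos rfl] at hv2
      refine ⟨hv2.1, h.i2 s hs ho _ ?_ hv2.2⟩
      rw [fv_zero]
      exact mul_ne_zero (by exact_mod_cast (c0_pos hp hq hr true hs).ne') hv2.1
    | false =>
      rw [ho, if_neg (by decide)] at hv2
      exact hv2
  · intro s hs h3
    exact ⟨hs, by simp, h.rL s hs h3⟩
  · intro s hs h4
    have hd := dS_ne hp hq hr hs he
    rw [om_far s hw hd]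
    exact ⟨hs, by simp [yL], h.rY s hs h4⟩
  · intro s hs h4
    have h5 := h.st s hs h4 0
    rw [UY_zero] at h5
    exact ⟨⟨hs, h4⟩, by simp, h5⟩
  · intro s hs
    exact ⟨hs, by simp, h.rF s hs⟩
  · intro s hs h4 i
    refine ⟨⟨hs, h4⟩, ?_, h.st s hs h4 i⟩
    rw [UY_z]
    exact one_ne_zero
  · intro s hs h4 u hu
    have hm := LNI_mm hp hq hr s.1 s.2.1 hs.1
    obtain ⟨c, hc, hN⟩ := run_far hp hq hr hs false (i := 0) (by simpa using hm) hw he
    exact FF.slit hp hq hr he hs (DG_nx s (0 + 3) hs) (h.sl0 s hs h4) hu.2 hc (hN u)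
  · intro s hs h4 u hu
    have hm := LNI_mm hp hq hr s.1 s.2.1 hs.1
    obtain ⟨c, hc, hN⟩ := run_far hp hq hr hs false (i := 0) (by simpa using hm) hw he
    exact FF.slit hp hq hr he hs (DG_nx s (0 + 3) hs) (h.slF s hs h4) hu.2 hc (hN u)
  · intro s hs u hu
    obtain ⟨c, hc, hN⟩ := UU_far hp hq hr hs hw he
    exact FF.slit hp hq hr he hs (DG_nx _ 2 (DG_nx s 2 hs)) (h.slB s hs) hu.2 hc (hN u)
  · intro s hs v hv
    exact hbd true s _ v hs hv.2 (h.bB s hs)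
  · intro s hs v hv
    exact hbd false s _ v hs hv.2 (h.b0 s hs hv.1.2)
  · intro s hs v hv
    exact hbd false s _ v hs hv.2 (h.bF s hs)

theorem liveF_T (p q r : ℕ) (x : SSt Ty) (h : liveF p q r x) : liveT p q r x := by
  obtain ⟨s, f, o⟩ := x
  match o, h with
  | some Ty.B, h => exact Or.inl ⟨rfl, h.2⟩
  | some Ty.A, h => exact Or.inr (Or.inl ⟨rfl, h.2⟩)
  | some (Ty.P _), h => exact h.elim
  | some (Ty.Q _), h => exact h.elim
  | some Ty.o, h => exact Or.inr (Or.inr (Or.inl ⟨rfl, h.2⟩))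
  | none, h => exact Or.inr (Or.inr (Or.inr ⟨rfl, h.2.1, h.2.2⟩))

theorem liveT_F (p q r : ℕ) (x : SSt Ty) (hD : DG x.1) (h : liveT p q r x) : liveF p q r x := by
  obtain ⟨s, f, o⟩ := x
  rcases h with ⟨h1, h2⟩ | ⟨h1, h2⟩ | ⟨h1, h2⟩ | ⟨h1, h2, h3⟩
  · have h1' : o = some Ty.B := h1
    subst h1'
    exact ⟨hD, h2⟩
  · have h1' : o = some Ty.A := h1
    subst h1'
    exact ⟨hD, h2⟩
  · have h1' : o = some Ty.o := h1
    subst h1'
    exact ⟨hD, h2⟩
  · have h1' : o = none := h1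
    subst h1'
    exact ⟨hD, h2, h3⟩

/-- THE CERTIFICATE from the facts -/
theorem FF.gcert {w : ℂ} (h : FF p q r V ε (ew w) C K0 KF KB P1 P2) (hp : 3 ≤ p) (hq : 3 ≤ q)
    (hr : 3 ≤ r) (hC : 0 ≤ C) (hw : 1 + w ≠ 0) (he : ‖ew w‖ ≤ 1 / 8) :
    ∃ R, GCert V ε p q r Y0 (liveT p q r) (20 * (1 + 2 * C)) w R :=
  ⟨_, (h.sets hp hq hr hC hw he).gcert hp hq hr (fun _ => rfl) (fun _ => rfl) (fun _ _ => rfl)
    (liveF_T p q r) (liveT_F p q r)⟩

end Pool.Agent.Helper94.CXF
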