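import Pool.Agent.Helper94.CXF.S11
import Pool.Agent.Helper94.CXF.F3b
import Pool.Agent.Helper12.CX.BRG

/-!
FARL: from the checks of a piece to the facts at a point.
-/

set_option autoImplicit false
set_option exponentiation.threshold 4000
noncomputable section
namespace Pool.Agent.Helper94.CXF.SD

open Pool.Agent.Helper6.MONO
open Pool.Agent.Helper6.MONO.SV (UY)
open Pool.Agent.Helper6.MONO.QTR (V0 e0)
open Pool.Agent.Helper21.SUP (GS DG DG_nx)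
open Pool.Agent.Helper21.SUP renaming nx → nxs
open Pool.Agent.Helper86.CX renaming Hm → Hm, ev → hev
open Pool.Agent.Helper39.SLT (ML)
open Pool.Agent.Helper94.CXF (M9)
open Pool.Agent.Helper94.CXF
open Complex ComplexConjugate

variable {p q r : ℕ}

/-- the forms of a piece -/
def K0f (P : KN.Pc) (s : GS) : Hm ℝ := rH (decz (SDs P s).K0)
def KFf (P : KN.Pc) (s : GS) : Hm ℝ := rH (decz (SDs P s).KF)
def KBf (P : KN.Pc) (s : GS) : Hm ℝ := rH (decz (SDs P s).KB)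
def P1f (P : KN.Pc) (σ : ℝ) (s : GS) : Hm ℝ := lpf (SDs P s).A1 (SDs P s).B1 σ
def P2f (P : KN.Pc) (σ : ℝ) (s : GS) : Hm ℝ := lpf (SDs P s).A2 (SDs P s).B2 σ

/-- a reference vector -/
def RefP (N : M9 ℕ × M9 ℕ) (f : ℂ → Fin 3 → ℂ) : Prop :=
  ∃ (T : M9 ℝ × M9 ℝ) (Z0 Z1 : M9 ℤ), OkT T.1 N.1 Z0 ∧ OkT T.2 N.2 Z1 ∧
    ∀ e : ℂ, ‖e‖ ≤ 1 / 8 → ∃ c : ℂ, c ≠ 0 ∧ ap T e ![1, 0, 0] = c • f e

/-- the reference vectors of a class -/
structure RefOk (p q r : ℕ) : Prop where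
  y0 : ∀ s, DG s → RefP (KN.TYN (oriZ s) (kN p q r s.1 s.2.1) (kN p q r s.2.1 s.2.2)
    (kN p q r s.1 s.2.2) KN.a03 KN.u1N) (fun e => fv p q r false s e ![1, 3 / 10, 1])
  y1 : ∀ s, DG s → RefP (KN.TYN (oriZ s) (kN p q r s.1 s.2.1) (kN p q r s.2.1 s.2.2)
    (kN p q r s.1 s.2.2) KN.a03e KN.u1N) (fun e => fv p q r false s e ![1, 3 / 10 + 1 / 128, 1])
  y2 : ∀ s, DG s → RefP (KN.TYN (oriZ s) (kN p q r s.1 s.2.1) (kN p q r s.2.1 s.2.2)
    (kN p q r s.1 s.2.2) KN.a03 KN.b1e) (fun e => fv p q r false s e ![1, 3 / 10, 1 + 1 / 128])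
  l3 : ∀ s, DG s → RefP (KN.TLN (oriZ s) (kN p q r s.1 s.2.1) (kN p q r s.2.1 s.2.2)
    (kN p q r s.1 s.2.2)) (fun e => fv p q r true s e ![1, 2 / 5, 1 / 2])
  ly : ∀ s, DG s → RefP (KN.TLY (oriZ s) (kN p q r s.1 s.2.1) (kN p q r s.2.1 s.2.2)
    (kN p q r s.1 s.2.2)) (fun e => fv p q r true s e (yL (3 / 10) 1 (omF (oriZ s) (lf p q r s) e)))

/-- the statement about two runs of two from `L` -/
def UUst (x0 : ℝ) (P : KN.Pc) : Prop :=
  ∀ {KA KB HA HB : ℕ} {t : KN.LU} {k h g : ℝ} {N : M9 ℕ × M9 ℕ} {Z0 Z1 : M9 ℤ},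
    0 < k → 0 < h → 0 < g → OkA (decz KA) → OkA (decz HA) → OkB (decz KB) → OkB (decz HB) →
    (decz KA).d = (decz HA).d → (decz KA).e = (decz HA).e → OkT (TUm k h g).1 N.1 Z0 →
    OkT (TUm k h g).2 N.2 Z1 → NegS (rH (decz KA)) →
    KN.uu P.ns P.x (KN.kst P) (KN.ken P) t (KN.dec KA) (KN.dec KB) (KN.dec HA) (KN.dec HB) N =
      true → ∀ {s : ℝ} {u : ℂ}, InP x0 P s u → ∀ x : Fin 3 → ℂ, x 0 ≠ 0 →
      0 ≤ hev (rH (decz HA)) x + s * hev (rH (decz HB)) x →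
      0 ≤ hev (rH (decz KA)) (ap (TUm k h g) (s * u) x) +
        s * hev (rH (decz KB)) (ap (TUm k h g) (s * u) x) ∧ ap (TUm k h g) (s * u) x 0 ≠ 0

/-- the checks of a piece for a state -/
theorem cS_un {P : KN.Pc} {s : GS} (hs : DG s) (h : KN.cS p q r P s.1 s.2.1 s.2.2 = true) :
    KN.cS2 P (Nat.ble 4 (ML p q r s)) (oriZ s) (SDs P s) (SDs P (nxs s 2))
      (SDs P (nxs (nxs s 2) 2)) (kN p q r s.1 s.2.1) (kN p q r s.2.1 s.2.2)
      (kN p q r s.1 s.2.2) (mm p q r s.1 s.2.1) s.1 s.2.1 s.2.2 = true := by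
  unfold KN.cS at h
  rw [mo_eq, mo_eq, mo_eq, orN_eq hs] at h
  exact h

theorem ble4 {M : ℕ} (h : 4 ≤ M) : Nat.ble 4 M = true := Nat.ble_eq_true_of_le h
theorem ble4' {M : ℕ} (h : M = 3) : Nat.ble 4 M = false := by
  rw [h]; rfl

section
variable {x0 : ℝ} {P : KN.Pc} {σ : ℝ} {u : ℂ}

theorem norm_e (hu : InP x0 P σ u) : ‖(σ : ℂ) * u‖ ≤ 1 / 8 := by
  rw [norm_mul, Complex.norm_real, Real.norm_eq_abs, abs_of_nonneg hu.cv.s0, hu.cv.norm, mul_one]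
  exact hu.cv.s1

theorem run_sound (hP : PcOk x0 P) (T : TabOk p q r) (hu : InP x0 P σ u) {s : GS} (hs : DG s)
    {L : Bool} {K : ℕ} {l : List KN.Lm}
    (h : KN.rns P (KN.dec K) (oriZ s) L (kN p q r s.2.1 s.2.2) (kN p q r s.1 s.2.2)
      (mm p q r s.1 s.2.1) s.1 s.2.1 s.2.2 l 0 = true) {i : ℕ}
    (hi : i + 3 ≤ mm p q r s.1 s.2.1) :
    Imp (rH (decz K)) (if i + 3 = mm p q r s.1 s.2.1 then KFf P (nxs s (i + 3))
      else K0f P (nxs s (i + 3))) (ap (TRs p q r L s i) (σ * u)) := by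
  obtain ⟨t, ht⟩ := rns_sound l 0 h i (Nat.zero_le _) hi
  obtain ⟨Z0, Z1, o0, o1⟩ := T.R s hs L i hi
  unfold KN.rn1 at ht
  rw [tg_SD, tg_or hs, selN_if] at ht
  by_cases hM : i + 3 = mm p q r s.1 s.2.1
  · have hb : Nat.beq (Nat.add i 3) (mm p q r s.1 s.2.1) = true := by
      rw [Nat.beq_eq]; exact hM
    rw [if_pos hb] at ht
    rw [if_pos hM]
    exact pl_sound hP (dec_rep _) (dec_bd _) (dec_rep _) (dec_bd _) o0 o1 ht hu
  · have hb : ¬ Nat.beq (Nat.add i 3) (mm p q r s.1 s.2.1) = true := by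
      rw [Nat.beq_eq]; exact hM
    rw [if_neg hb] at ht
    rw [if_neg hM]
    exact pl_sound hP (dec_rep _) (dec_bd _) (dec_rep _) (dec_bd _) o0 o1 ht hu

def krefz : Hm ℤ := ⟨1, -2 ^ 20, -2 ^ 20, 0, 0, 0, 0, 0, 0⟩

theorem rp_one : Rp 1 1 := Pool.Agent.Helper17.PAK.Rep.nat KN.MM 1

theorem kref_rep : RH KN.kref krefz :=
  ⟨rp_one, rep_c20, rep_c20, rp_zero, rp_zero, rp_zero, rp_zero, rp_zero, rp_zero⟩

theorem kref_bd : BH (2 ^ 27) krefz := by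
  constructor <;> norm_num [krefz]

theorem ref_sound (hP : PcOk x0 P) (hu : InP x0 P σ u) {K : ℕ} {N : M9 ℕ × M9 ℕ}
    {f : ℂ → Fin 3 → ℂ} (hN : RefP N f) {t : KN.Lm}
    (h : KN.pl P t (KN.dec K) KN.kref N = true) : 0 ≤ hev (rH (decz K)) (f (σ * u)) := by
  obtain ⟨T, Z0, Z1, o0, o1, hc⟩ := hN
  obtain ⟨c, c0, hc⟩ := hc _ (norm_e hu)
  have h1 := pl_sound hP (dec_rep K) (dec_bd K) kref_rep kref_bd o0 o1 h hu ![1, 0, 0] (by
    intro h0
    have := congrFun h0 0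
    simp at this) (by
    simp [hev, rH, GR.mpH, krefz, cI])
  rw [hc, ev_smul] at h1
  have h2 : 0 < ‖c‖ ^ 2 := by
    have := norm_pos_iff.2 c0
    positivity
  exact ((pos_iff_pos_of_mul_pos h1).1 h2).le

theorem ap_z9 (T : M9 ℝ) (e : ℂ) (x : Fin 3 → ℂ) : ap (T, z9) e x = ap1 T x := by
  have h : ap1 z9 x = 0 := by
    funext j
    fin_cases j
    · show ap1 z9 x 0 = 0
      rw [ap1_0]; simp [z9]
    · show ap1 z9 x 1 = 0
      rw [ap1_1]; simp [z9]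
    · show ap1 z9 x 2 = 0
      rw [ap1_2]; simp [z9]
  rw [ap_eq, h, smul_zero, add_zero]

def z9Z : Hm ℤ := ⟨0, 0, 0, 0, 0, 0, 0, 0, 0⟩
theorem z9N_rep : RH KN.z9N z9Z :=
  ⟨rp_zero, rp_zero, rp_zero, rp_zero, rp_zero, rp_zero, rp_zero, rp_zero, rp_zero⟩
theorem z9_bd {b : ℤ} (hb : 0 ≤ b) : BH b z9Z := by
  have h : |(0 : ℤ)| ≤ b := by simpa using hb
  exact ⟨h, h, h, h, h, h, h, h, h⟩
theorem hev_z9Z (x : Fin 3 → ℂ) : hev (rH z9Z) x = 0 := by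
  simp [hev, rH, GR.mpH, z9Z, cI]

/-- one run of two, orientation `-` -/
theorem a1_sound (hP : PcOk x0 P) (hu : InP x0 P σ u) {K A B : ℕ} {T : M9 ℝ} {N : M9 ℕ}
    {Z : M9 ℤ} (o : OkT T N Z) {c : List ℕ}
    (h : KN.aff P.ns (KN.kst P) (KN.ken P) c (KN.hm (KN.qr (KN.dec A) N N) (KN.qi (KN.dec A) N N))
      (KN.hm (KN.qr (KN.dec B) N N) (KN.qi (KN.dec B) N N)) (KN.dec K) KN.z9N = true) :
    Imp (rH (decz K)) (lpf A B σ) (ap (T, z9) (σ * u)) := by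
  intro x hx hK
  have RA := qr_rep (dec_rep A) o.rep o.rep
  have JA := qi_rep (dec_rep A) o.rep o.rep
  have RB := qr_rep (dec_rep B) o.rep o.rep
  have JB := qi_rep (dec_rep B) o.rep o.rep
  have bd := fun (K : ℕ) => And.intro
    ((qr_bd (dec_bd K) o.bd o.bd).mono (b := 2 ^ 140) (by norm_num))
    ((qi_bd (dec_bd K) o.bd o.bd).mono (b := 2 ^ 140) (by norm_num))
  have M := aff_sound hP (hm_rep RA JA) (hm_rep RB JB) (dec_rep K) z9N_rep
    (hm_bd (bd A).1 (bd A).2) (hm_bd (bd B).1 (bd B).2) (dec_bd K) (z9_bd (by norm_num)) h hu x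
    (by rw [hev_z9Z, mul_zero, add_zero]; exact hK)
  rw [hev_PZ, hev_PZ] at M
  have a := Q_near (dec_bd A) o o x
  have b := Q_near (dec_bd B) o o x
  rw [ap_z9, hev_lpf]
  have HA : 2 ^ 96 * hev (rH (decz A)) (ap1 T x) = (sq2 (GR.qr (rH (decz A)) (smM (2 ^ 48) T)
      (smM (2 ^ 48) T)) (GR.qi (rH (decz A)) (smM (2 ^ 48) T) (smM (2 ^ 48) T)) x x).re := by
    rw [← hev_hmQ, ← hev_P, ap1_sm, ev_smul, Complex.norm_real]
    norm_num
  have HB : 2 ^ 96 * hev (rH (decz B)) (ap1 T x) = (sq2 (GR.qr (rH (decz B)) (smM (2 ^ 48) T)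
      (smM (2 ^ 48) T)) (GR.qi (rH (decz B)) (smM (2 ^ 48) T) (smM (2 ^ 48) T)) x x).re := by
    rw [← hev_hmQ, ← hev_P, ap1_sm, ev_smul, Complex.norm_real]
    norm_num
  have s0 := hu.cv.s0
  have s1 := hu.cv.s1
  have ns : ‖(σ : ℂ)‖ ≤ 1 / 8 := by
    rw [Complex.norm_real, Real.norm_eq_abs, abs_of_nonneg s0]; exact s1
  have r1 := re_near9 (c := 1) (m := 1) (by simp) a
  have r2 := re_near9 ns b
  rw [re_ofReal_mul, re_ofReal_mul, ← HB] at r2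
  rw [one_mul, one_mul, ← HA] at r1
  have npos := nr_pos hx
  generalize hev (rH (decz A)) (ap1 T x) = vA at *
  generalize hev (rH (decz B)) (ap1 T x) = vB at *
  have e1 : (0 : ℝ) < 2 ^ 96 * nr x - 60 * 2 ^ 90 * nr x := by
    have : (0 : ℝ) < (2 ^ 96 - 60 * 2 ^ 90) * nr x := mul_pos (by norm_num) npos
    linarith
  have e2 : (0 : ℝ) < 2 ^ 96 * (vA + σ * vB) := by
    linarith
  exact (pos_iff_pos_of_mul_pos e2).1 (by positivity)

theorem p96_rep : Rp KN.p96 (2 ^ 96) := by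
  unfold Rp Pool.Agent.Helper17.PAK.Rep Int.ModEq
  decide +kernel

/-- the loop regions are contained in the regions of `B` -/
theorem i_sound (hP : PcOk x0 P) (hu : InP x0 P σ u) {K A B : ℕ} {c : List ℕ}
    (h : KN.aff P.ns (KN.kst P) (KN.ken P) c (KN.smH KN.p96 (KN.dec K)) KN.z9N (KN.dec A)
      (KN.dec B) = true) (x : Fin 3 → ℂ) (hx : 0 ≤ hev (lpf A B σ) x) :
    0 ≤ hev (rH (decz K)) x := by
  rw [hev_lpf] at hx
  have M := aff_sound hP (smH_rep p96_rep (dec_rep K)) z9N_rep (dec_rep A) (dec_rep B)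
    ((smH_bd (r := 2 ^ 96) (by norm_num) (dec_bd K)).mono (by norm_num)) (z9_bd (by norm_num))
    (dec_bd A) (dec_bd B) h hu x hx
  rw [hev_z9Z, mul_zero, add_zero, hev_sm'] at M
  push_cast at M
  have n0 := nr_nonneg x
  have h2 := le_trans (mul_nonneg (by positivity) n0) M
  exact nonneg_of_mul_nonneg_right h2 (by norm_num)

/-- two runs of two from `Y`, orientation `-` -/
theorem a2_sound (hP : PcOk x0 P) (hu : InP x0 P σ u) {K A B : ℕ} {k h g : ℝ} (hk : 0 < k)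
    (hh : 0 < h) {N : M9 ℕ × M9 ℕ} {Z0 Z1 : M9 ℤ} (o0 : OkT (TTm k h g).1 N.1 Z0)
    (o1 : OkT (TTm k h g).2 N.2 Z1) (hA : OkA (decz A)) (hB : OkB (decz B))
    (hn : NegS (rH (decz A))) {t : KN.L2}
    (ht : KN.t2 P.ns P.x (KN.kst P) (KN.ken P) t (KN.dec A) (KN.dec B) (KN.dec K) N = true)
    (x : Fin 3 → ℂ) (hx : x 0 ≠ 0) (hK : 0 ≤ hev (rH (decz K)) x) :
    0 ≤ hev (lpf A B σ) (ap (TTm k h g) (σ * u) x) ∧ ap (TTm k h g) (σ * u) x 0 ≠ 0 := by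
  have hx' : x ≠ 0 := fun h0 => hx (by rw [h0]; rfl)
  have hT : hev (rH (decz A)) (ap1 (TTm k h g).1 x) = 0 := by
    have h1 : ap1 (TTm k h g).1 x 1 = 0 := by
      rw [ap1_1]; simp [TTm]
    have h2 : ap1 (TTm k h g).1 x 2 = 0 := by
      rw [ap1_2]; simp [TTm]
    simp only [hev, rH, GR.mpH, hA.a, h1, h2, map_zero]
    simp
  obtain ⟨c, hc, hv⟩ := t2_sound hP (dec_rep A) (dec_bd A) (dec_rep B) (dec_bd B) (dec_rep K)
    (dec_bd K) o0 o1 ht hu hx' hK hT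
  rw [← hev_lpf] at hv
  refine ⟨by rw [hv]; exact mul_nonneg hu.cv.s0 hc.le, ?_⟩
  rcases hu.cv.s0.eq_or_lt with h0 | h0
  · rw [← h0]
    have e : ap (TTm k h g) (((0 : ℝ) : ℂ) * u) x 0 = ((k * h : ℝ) : ℂ) * x 0 := by
      rw [ap_eq]
      simp only [Pi.add_apply, Pi.smul_apply, ap1_0]
      simp [TTm]
    rw [e]
    exact mul_ne_zero (by exact_mod_cast (mul_pos hk hh).ne') hx
  · exact (NegS_lpf hn hB).ne0 (by rw [hv]; exact mul_pos h0 hc)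

/-- the negativity checks -/
structure NegOk (P : KN.Pc) (L4 o : Bool) (D : KN.SD) : Prop where
  K0 : L4 = true → NegS (rH (decz D.K0))
  KF : NegS (rH (decz D.KF))
  KB : NegS (rH (decz D.KB))
  A1 : o = true → NegS (rH (decz D.A1))
  A2 : o = true → NegS (rH (decz D.A2))
  a1 : o = true → OkA (decz D.A1)
  a2 : o = true → OkA (decz D.A2)
  b1 : o = true → OkB (decz D.B1)
  b2 : o = true → OkB (decz D.B2)

theorem cN_sound {L4 o : Bool} {D : KN.SD} (h : KN.cN L4 o D = true) : NegOk P L4 o D := by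
  unfold KN.cN at h
  simp only [andB_iff, impB_iff] at h
  obtain ⟨h0, hF, hB, ho⟩ := h
  exact ⟨fun h4 => ngs_sound (dec_rep _) (dec_bd _) (h0 h4), ngs_sound (dec_rep _) (dec_bd _) hF,
    ngs_sound (dec_rep _) (dec_bd _) hB, fun h => ngs_sound (dec_rep _) (dec_bd _) (ho h).1,
    fun h => ngs_sound (dec_rep _) (dec_bd _) (ho h).2.1, fun h => okA_sound (ho h).2.2.1,
    fun h => okA_sound (ho h).2.2.2.1, fun h => okB_sound (ho h).2.2.2.2.1,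
    fun h => okB_sound (ho h).2.2.2.2.2⟩

/-- the slits -/
theorem sl_sound (hp : 3 ≤ p) (hq : 3 ≤ q) (hr : 3 ≤ r) (hP : PcOk x0 P) (T : TabOk p q r)
    (hu : InP x0 P σ u) {s : GS} (hs : DG s) {K : ℕ} {A : M9 ℝ × M9 ℝ} {N : M9 ℕ × M9 ℕ}
    {Z0 Z1 : M9 ℤ} (o0 : OkT A.1 N.1 Z0) (o1 : OkT A.2 N.2 Z1) {l : List KN.Sg}
    (h : KN.slit P.ns P.x (KN.dc0 (oriZ s) (kN p q r s.1 s.2.1) (kN p q r s.2.1 s.2.2)
      (kN p q r s.1 s.2.2)) (KN.dc1 (oriZ s) (kN p q r s.1 s.2.1) (kN p q r s.2.1 s.2.2)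
      (kN p q r s.1 s.2.2)) (KN.dec K) N (KN.ken P) l (KN.kst P) = true) :
    Sl (rH (decz K)) A (dS p q r s (σ * u)) (σ * u) := by
  obtain ⟨c0, c1, h0, h1, b0, b1, hd⟩ := T.k0 s hs (oriZ s)
  intro x hx hK
  have hx' : x ≠ 0 := fun h0 => hx (by rw [h0]; rfl)
  obtain ⟨g, g1, g2⟩ := slit_sound hP (dec_rep K) (dec_bd K) o0 o1 h0 h1 b0 b1 l _ hP.st h hP.lt
    σ u hu.cv hu.s0 hu.s1 x hx' hK
  refine ⟨g, g1, ?_⟩
  rw [hd] at g2
  have hk := (LNI_kk hp hq hr s.1 s.2.1 hs.1).1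
  have hg := (LNI_kk hp hq hr s.1 s.2.2 (Ne.symm hs.2.2)).1
  have e : g * (((kk p q r s.1 s.2.1 * kk p q r s.1 s.2.2 : ℝ) : ℂ) *
      dn (oriZ s) (lf p q r s) (σ * u)) = ((kk p q r s.1 s.2.1 * kk p q r s.1 s.2.2 : ℝ) : ℂ) *
      (g * dS p q r s (σ * u)) := by
    rw [dS]; ring
  rw [e, re_ofReal_mul] at g2
  exact ((pos_iff_pos_of_mul_pos g2).1 (mul_pos hk hg)).le

theorem ori2 {s : GS} (hs : DG s) : oriZ (nxs s 2) = oriZ s := by
  rcases DG_cases hs with rfl | rfl | rfl | rfl | rfl | rfl <;> rfl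

/-- THE FACTS at a point of a piece -/
theorem ff_of (hp : 3 ≤ p) (hq : 3 ≤ q) (hr : 3 ≤ r) (hP : PcOk x0 P) (T : TabOk p q r)
    (hR : RefOk p q r) (hU : UUst x0 P)
    (hS : ∀ s, DG s → KN.cS p q r P s.1 s.2.1 s.2.2 = true) {C : ℝ}
    (hC : ∀ s, DG s → (4 ≤ ML p q r s → ∀ x, 0 ≤ hev (K0f P s) x → ∀ j, ‖x j‖ ≤ C * ‖x 0‖) ∧
      (∀ x, 0 ≤ hev (KFf P s) x → ∀ j, ‖x j‖ ≤ C * ‖x 0‖) ∧
      (∀ x, 0 ≤ hev (KBf P s) x → ∀ j, ‖x j‖ ≤ C * ‖x 0‖)) (hu : InP x0 P σ u) :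
    FF p q r V0 e0 (σ * u) C (K0f P) (KFf P) (KBf P) (P1f P σ) (P2f P σ) := by
  have ten : ∀ s, DG s → _ := fun s hs => cS_un hs (hS s hs)
  unfold KN.cS2 at ten
  simp only [andB_iff] at ten
  have N : ∀ s, DG s → NegOk P (Nat.ble 4 (ML p q r s)) (oriZ s) (SDs P s) :=
    fun s hs => cN_sound (ten s hs).1
  have K : ∀ s, DG s → 0 < kk p q r s.1 s.2.1 ∧ 0 < kk p q r s.2.1 s.2.2 ∧
      0 < kk p q r s.1 s.2.2 := fun s hs =>
    ⟨(LNI_kk hp hq hr s.1 s.2.1 hs.1).1, (LNI_kk hp hq hr s.2.1 s.2.2 hs.2.1).1,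
      (LNI_kk hp hq hr s.1 s.2.2 (Ne.symm hs.2.2)).1⟩
  have hV1 : (V0.al : ℝ) = 3 / 10 := rfl
  have hV2 : (V0.be : ℝ) = 1 := rfl
  refine ⟨?_, ?_, ?_, ?_, ?_, ?_, ?_, ?_, ?_, ?_, ?_, ?_, ?_, ?_, ?_, ?_, ?_, ?_, ?_, ?_, ?_,
    ?_, ?_, ?_, ?_, ?_, ?_⟩
  · exact fun s hs h4 => (N s hs).K0 (ble4 h4)
  · exact fun s hs => (N s hs).KF
  · exact fun s hs => (N s hs).KB
  · exact fun s hs ho => NegS_lpf ((N s hs).A1 ho) ((N s hs).b1 ho)
  · exact fun s hs ho => NegS_lpf ((N s hs).A2 ho) ((N s hs).b2 ho)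
  · intro s hs h4 i hi
    have h := (ten s hs).2.1
    unfold KN.cR0 at h
    exact run_sound hP T hu hs (impB_iff.1 h (ble4 h4)) hi
  · intro s hs i hi
    exact run_sound hP T hu hs (ten s hs).2.2.1 hi
  · intro s hs i hi
    exact run_sound hP T hu hs (ten s hs).2.2.2.1 hi
  · -- a1t
    intro s hs h4 ho
    have h := (ten s hs).2.2.2.2.1
    unfold KN.cA1 at h
    have h := impB_iff.1 h (ble4 h4)
    rw [selB_iff, if_pos ho] at h
    obtain ⟨Z, o⟩ := T.Nm s hs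
    rw [TNs, if_pos ho]
    exact a1_sound hP hu o h
  · -- a1f
    intro s hs h4 ho
    have h := (ten s hs).2.2.2.2.1
    unfold KN.cA1 at h
    have h := impB_iff.1 h (ble4 h4)
    rw [selB_iff, if_neg (by rw [ho]; decide)] at h
    obtain ⟨Z0, Z1, o0, o1⟩ := T.Np s hs
    rw [TNs, if_neg (by rw [ho]; decide)]
    exact pl_sound hP (dec_rep _) (dec_bd _) (dec_rep _) (dec_bd _) o0 o1 h hu
  · -- a2t
    intro s hs h4 ho x hx hK
    have h := (ten s hs).2.2.2.2.2.1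
    unfold KN.cA2 at h
    have h := impB_iff.1 h (ble4 h4)
    rw [selB_iff, if_pos ho] at h
    obtain ⟨Z0, Z1, o0, o1⟩ := T.Tm s hs
    have hs2 := DG_nx _ 2 (DG_nx s 2 hs)
    have ho2 : oriZ (nxs (nxs s 2) 2) = true := by
      rw [ori2 (DG_nx s 2 hs), ori2 hs, ho]
    rw [TTs, if_pos ho]
    exact a2_sound hP hu (K s hs).1 (K s hs).2.1 o0 o1 ((N _ hs2).a2 ho2) ((N _ hs2).b2 ho2)
      ((N _ hs2).A2 ho2) h x hx hK
  · -- a2f
    intro s hs h4 ho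
    have h := (ten s hs).2.2.2.2.2.1
    unfold KN.cA2 at h
    have h := impB_iff.1 h (ble4 h4)
    rw [selB_iff, if_neg (by rw [ho]; decide)] at h
    obtain ⟨Z0, Z1, o0, o1⟩ := T.Pp s hs
    rw [TTs, if_neg (by rw [ho]; decide)]
    exact pl_sound hP (dec_rep _) (dec_bd _) (dec_rep _) (dec_bd _) o0 o1 h hu
  · -- u1t
    intro s hs ho x hx hK
    have h := (ten s hs).2.2.2.2.2.2.2.1
    unfold KN.cU at h
    rw [selB_iff, if_pos ho] at h
    simp only [andB_iff] at h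
    obtain ⟨e1, e2, h1, h2⟩ := h
    obtain ⟨Z0, Z1, o0, o1⟩ := T.Um s hs
    have hs2 := DG_nx _ 2 (DG_nx s 2 hs)
    have ho2 : oriZ (nxs (nxs s 2) 2) = true := by
      rw [ori2 (DG_nx s 2 hs), ori2 hs, ho]
    obtain ⟨d1, d2⟩ := eqo_sound e1
    rw [TUs, if_pos ho]
    rw [P1f, hev_lpf] at hK ⊢
    exact hU (K s hs).1 (K s hs).2.1 (K s hs).2.2 ((N _ hs2).a1 ho2) ((N s hs).a1 ho)
      ((N _ hs2).b1 ho2) ((N s hs).b1 ho) d1.symm d2.symm o0 o1 ((N _ hs2).A1 ho2) h1 hu x hx hK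
  · -- u2t
    intro s hs ho x hx hK
    have h := (ten s hs).2.2.2.2.2.2.2.1
    unfold KN.cU at h
    rw [selB_iff, if_pos ho] at h
    simp only [andB_iff] at h
    obtain ⟨e1, e2, h1, h2⟩ := h
    obtain ⟨Z0, Z1, o0, o1⟩ := T.Um s hs
    have hs2 := DG_nx _ 2 (DG_nx s 2 hs)
    have ho2 : oriZ (nxs (nxs s 2) 2) = true := by
      rw [ori2 (DG_nx s 2 hs), ori2 hs, ho]
    obtain ⟨d1, d2⟩ := eqo_sound e2
    rw [TUs, if_pos ho]
    rw [P2f, hev_lpf] at hK ⊢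
    exact hU (K s hs).1 (K s hs).2.1 (K s hs).2.2 ((N _ hs2).a2 ho2) ((N s hs).a2 ho)
      ((N _ hs2).b2 ho2) ((N s hs).b2 ho) d1.symm d2.symm o0 o1 ((N _ hs2).A2 ho2) h2 hu x hx hK
  · -- uf
    intro s hs ho
    have h := (ten s hs).2.2.2.2.2.2.2.1
    unfold KN.cU at h
    rw [selB_iff, if_neg (by rw [ho]; decide)] at h
    obtain ⟨Z0, Z1, o0, o1⟩ := T.Pp s hs
    rw [TUs, if_neg (by rw [ho]; decide)]
    exact pl_sound hP (dec_rep _) (dec_bd _) (dec_rep _) (dec_bd _) o0 o1 h hu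
  · -- i1
    intro s hs ho x _ hK
    have h := (ten s hs).2.2.2.2.2.2.1
    unfold KN.cI at h
    have h := andB_iff.1 (impB_iff.1 h ho)
    exact i_sound hP hu h.1 x hK
  · -- i2
    intro s hs ho x _ hK
    have h := (ten s hs).2.2.2.2.2.2.1
    unfold KN.cI at h
    have h := andB_iff.1 (impB_iff.1 h ho)
    exact i_sound hP hu h.2 x hK
  · -- rL
    intro s hs h3
    have h := (ten s hs).2.2.2.2.2.2.2.2.1
    unfold KN.cV at h
    simp only [andB_iff] at h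
    have h := h.2.2
    rw [ble4' h3] at h
    have := ref_sound hP hu (hR.l3 s hs) h
    have e : (![1, (V0.c : ℂ), (V0.d (kk p q r s.1 s.2.2) : ℂ)] : Fin 3 → ℂ) =
        ![1, 2 / 5, 1 / 2] := by
      simp [V0]
    rw [e]
    exact this
  · -- rY
    intro s hs h4
    have h := (ten s hs).2.2.2.2.2.2.2.2.1
    unfold KN.cV at h
    simp only [andB_iff] at h
    have h := h.2.2
    rw [ble4 h4] at h
    have := ref_sound hP hu (hR.ly s hs) h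
    rw [hV1, hV2]
    exact this
  · -- rF
    intro s hs
    have h := (ten s hs).2.2.2.2.2.2.2.2.1
    unfold KN.cV at h
    simp only [andB_iff] at h
    have := ref_sound hP hu (hR.y0 s hs) h.2.1
    have e : (![1, (V0.al : ℂ), (V0.be : ℂ)] : Fin 3 → ℂ) = ![1, 3 / 10, 1] := by
      simp [V0]
    rw [e]
    exact this
  · -- st
    intro s hs h4 i
    have h := (ten s hs).2.2.2.2.2.2.2.2.1
    unfold KN.cV at h
    simp only [andB_iff, impB_iff] at h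
    obtain ⟨g0, g1, g2⟩ := h.1 (ble4 h4)
    fin_cases i
    · have := ref_sound hP hu (hR.y0 s hs) g0
      have e : UY V0.al V0.be e0 0 = ![1, 3 / 10, 1] := by
        simp [V0, UY]
      show 0 ≤ hev (K0f P s) (fv p q r false s (σ * u) (UY V0.al V0.be e0 0))
      rw [e]
      exact this
    · have := ref_sound hP hu (hR.y1 s hs) g1
      have e : UY V0.al V0.be e0 1 = ![1, 3 / 10 + 1 / 128, 1] := by
        simp [V0, UY, e0]
      show 0 ≤ hev (K0f P s) (fv p q r false s (σ * u) (UY V0.al V0.be e0 1))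
      rw [e]
      exact this
    · have := ref_sound hP hu (hR.y2 s hs) g2
      have e : UY V0.al V0.be e0 2 = ![1, 3 / 10, 1 + 1 / 128] := by
        simp [V0, UY, e0]
      show 0 ≤ hev (K0f P s) (fv p q r false s (σ * u) (UY V0.al V0.be e0 2))
      rw [e]
      exact this
  · -- sl0
    intro s hs h4
    have h := (ten s hs).2.2.2.2.2.2.2.2.2
    unfold KN.cG at h
    simp only [andB_iff] at h
    have h := h.1
    rw [selB_iff, if_pos (ble4 h4)] at h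
    have h3 : 0 + 3 ≤ mm p q r s.1 s.2.1 := LNI_mm hp hq hr s.1 s.2.1 hs.1
    obtain ⟨Z0, Z1, o0, o1⟩ := T.R s hs false 0 h3
    have et : KN.orN s.1 s.2.1 = oriZ (nxs s (0 + 3)) := by
      have := tg_or hs 0
      rw [selB_iff] at this
      exact this
    rw [et] at h
    exact sl_sound hp hq hr hP T hu hs o0 o1 h
  · -- slF
    intro s hs h3'
    have h := (ten s hs).2.2.2.2.2.2.2.2.2
    unfold KN.cG at h
    simp only [andB_iff] at h
    have h := h.1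
    rw [selB_iff, ble4' h3'] at h
    have h : KN.slit _ _ _ _ _ _ _ _ _ = true := h
    have h3 : 0 + 3 ≤ mm p q r s.1 s.2.1 := LNI_mm hp hq hr s.1 s.2.1 hs.1
    obtain ⟨Z0, Z1, o0, o1⟩ := T.R s hs false 0 h3
    have et : KN.orN s.1 s.2.1 = oriZ (nxs s (0 + 3)) := by
      have := tg_or hs 0
      rw [selB_iff] at this
      exact this
    rw [et] at h
    exact sl_sound hp hq hr hP T hu hs o0 o1 h
  · -- slB
    intro s hs
    have h := (ten s hs).2.2.2.2.2.2.2.2.2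
    unfold KN.cG at h
    simp only [andB_iff] at h
    have h := h.2
    cases ho : oriZ s
    · rw [TUs, if_neg (by rw [ho]; decide)]
      obtain ⟨Z0, Z1, o0, o1⟩ := T.Pp s hs
      rw [ho] at h
      refine sl_sound hp hq hr hP T hu hs o0 o1 (l := (SDs P s).gB) ?_
      rw [ho]; exact h
    · rw [TUs, if_pos ho]
      obtain ⟨Z0, Z1, o0, o1⟩ := T.Um s hs
      rw [ho] at h
      refine sl_sound hp hq hr hP T hu hs o0 o1 (l := (SDs P s).gB) ?_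
      rw [ho]; exact h
  · exact fun s hs h4 => (hC s hs).1 h4
  · exact fun s hs => (hC s hs).2.1
  · exact fun s hs => (hC s hs).2.2

end

end Pool.Agent.Helper94.CXF.SD
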