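import Pool.Agent.Helper94.CXF.S7

/-!
FARL: nodes and lists of chords.
-/

set_option autoImplicit false
set_option exponentiation.threshold 4000
noncomputable section
namespace Pool.Agent.Helper94.CXF.SD

open Pool.Agent.Helper86.CX renaming Hm → Hm, ev → hev
open Pool.Agent.Helper94.CXF (M9)
open Pool.Agent.Helper94.CXF
open Complex ComplexConjugate

/-- a certified node -/
def Ndd (x0 : ℝ) (k : KN.Nd) : Prop := ∃ u, NdR x0 k u

theorem nthN_mem (l : List KN.Nd) : ∀ k, KN.nthN l k ∈ l ∨ KN.nthN l k = KN.nd0 := by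
  induction l with
  | nil => intro k; right; rfl
  | cons x l ih =>
    intro k
    cases k with
    | zero => left; exact List.mem_cons_self
    | succ k =>
      rcases ih k with h | h
      · left; exact List.mem_cons_of_mem _ h
      · right; exact h

theorem nthN_lt {l : List KN.Nd} {k : ℕ} {j : ℕ} (h : j < (KN.nthN l k).i) : KN.nthN l k ∈ l := by
  rcases nthN_mem l k with h1 | h1
  · exact h1
  · rw [h1] at h
    exact absurd h (Nat.not_lt_zero _)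

theorem chs_sound {x0 : ℝ} {ns : List KN.Nd} {f : KN.Nd → KN.Nd → ℕ → Bool} {e : ℕ}
    {Q : ℝ → Prop} (hns : ∀ n ∈ ns, Ndd x0 n)
    (hfi : ∀ k0 k1 l, f k0 k1 l = true → k0.i < k1.i)
    (hfQ : ∀ k0 k1 l, Ndd x0 k0 → Ndd x0 k1 → f k0 k1 l = true →
      ∀ s : ℝ, (k0.i : ℝ) / 2048 ≤ s → s ≤ (k1.i : ℝ) / 2048 → Q s) :
    ∀ (c : List ℕ) (k : KN.Nd), Ndd x0 k → KN.chs ns f e c k = true → k.i < e →
      ∀ s : ℝ, (k.i : ℝ) / 2048 ≤ s → s ≤ (e : ℝ) / 2048 → Q s := by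
  intro c
  induction c with
  | nil =>
    intro k _ h hlt
    have h' : Nat.beq k.i e = true := h
    rw [Nat.beq_eq] at h'
    omega
  | cons x c ih =>
    intro k hk h hlt s h0 h1
    have h' : KN.andB (f k (KN.nthN ns (Nat.mod x 64)) (Nat.div x 64))
      (KN.chs ns f e c (KN.nthN ns (Nat.mod x 64))) = true := h
    rw [andB_iff] at h'
    obtain ⟨a, b⟩ := h'
    have hi := hfi _ _ _ a
    have hn := hns _ (nthN_lt hi)
    rcases le_or_gt s ((KN.nthN ns (Nat.mod x 64)).i / 2048 : ℝ) with h2 | h2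
    · exact hfQ _ _ _ hk hn a s h0 h2
    · refine ih _ hn b ?_ s h2.le h1
      have : ((KN.nthN ns (Nat.mod x 64)).i : ℝ) / 2048 < (e : ℝ) / 2048 := lt_of_lt_of_le h2 h1
      have : ((KN.nthN ns (Nat.mod x 64)).i : ℝ) < e := by linarith
      exact_mod_cast this

/-! ### nodes -/

theorem nd_real {i z Y W x0 X R : ℝ} (i0 : 0 ≤ i) (i1 : i ≤ 256) (Y0 : 0 ≤ Y)
    (hx : |x0 * 2 ^ 48 - W| ≤ 32) (hx2 : |x0| ≤ 2)
    (a1 : z * (2 ^ 22 + i * i) ≤ 8 * W * i + 2 ^ 23) (a2 : 8 * W * i ≤ z * (2 ^ 22 + i * i) + 2 ^ 23)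
    (b1 : z * z + Y * Y ≤ 2 ^ 80 + 2 ^ 42) (b2 : 2 ^ 80 ≤ z * z + Y * Y + 2 ^ 42)
    (hX : X * (2 ^ 22 + i * i) = x0 * i * 2048) (R0 : 0 ≤ R) (hR : R * R = 1 - X * X) :
    |2 ^ 40 * X - z| ≤ 3 ∧ |2 ^ 40 * R - Y| ≤ 6 := by
  have hx' := abs_le.1 hx
  have hx2' := abs_le.1 hx2
  have D0 : (2 : ℝ) ^ 22 ≤ 2 ^ 22 + i * i := le_add_of_nonneg_right (mul_self_nonneg _)
  generalize hD : (2 : ℝ) ^ 22 + i * i = D at *
  have Dp : 0 < D := by linarith [show (0 : ℝ) < 2 ^ 22 by positivity]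
  have e1 : (2 ^ 40 * X - z) * D = 8 * i * (x0 * 2 ^ 48) - z * D := by
    have : 2 ^ 40 * (X * D) = 8 * i * (x0 * 2 ^ 48) := by rw [hX]; ring
    linear_combination this
  have c1 : 8 * i * (x0 * 2 ^ 48) ≤ 8 * W * i + 2 ^ 16 := by
    have : 8 * i * (x0 * 2 ^ 48 - W) ≤ 8 * i * 32 :=
      mul_le_mul_of_nonneg_left hx'.2 (by linarith)
    have e5 : 8 * i * (x0 * 2 ^ 48) = 8 * i * (x0 * 2 ^ 48 - W) + 8 * W * i := by ring
    rw [e5]
    norm_num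
    linarith
  have c2 : 8 * W * i - 2 ^ 16 ≤ 8 * i * (x0 * 2 ^ 48) := by
    have : 8 * i * (-32) ≤ 8 * i * (x0 * 2 ^ 48 - W) :=
      mul_le_mul_of_nonneg_left hx'.1 (by linarith)
    have e5 : 8 * i * (x0 * 2 ^ 48) = 8 * i * (x0 * 2 ^ 48 - W) + 8 * W * i := by ring
    rw [e5]
    norm_num
    linarith
  have ha : |2 ^ 40 * X - z| ≤ 3 := by
    have h3 : |(2 ^ 40 * X - z) * D| ≤ 3 * D := by
      rw [e1, abs_le]
      clear hx' hx hx2 hx2' b1 b2 hX hR e1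
      generalize 8 * i * (x0 * 2 ^ 48) = q at c1 c2 ⊢
      generalize z * D = q1 at a1 a2 ⊢
      generalize 8 * W * i = q2 at a1 a2 c1 c2
      norm_num at D0 a1 a2 c1 c2
      constructor <;> linarith
    rw [abs_mul, abs_of_pos Dp] at h3
    exact le_of_mul_le_mul_right h3 Dp
  refine ⟨ha, ?_⟩
  have hXb : |X| ≤ 1 / 4 := by
    have h3 : |X * D| ≤ 1 / 4 * D := by
      rw [hX, abs_mul, abs_mul]
      have : |x0| * |i| ≤ 2 * 256 := by
        rw [abs_of_nonneg i0]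
        exact mul_le_mul hx2 i1 i0 (by norm_num)
      have h4 : |(2048 : ℝ)| = 2048 := by norm_num
      rw [h4]
      norm_num at D0
      linarith
    rw [abs_mul, abs_of_pos Dp] at h3
    exact le_of_mul_le_mul_right h3 Dp
  have hXb' := abs_le.1 hXb
  have hX2 : X * X ≤ 1 / 16 := by nlinarith
  have hR1 : 24 / 25 ≤ R := by nlinarith
  have ha' := abs_le.1 ha
  generalize hA : 2 ^ 40 * X - z = a at *
  have e2 : Y * Y - (2 ^ 40 * R) * (2 ^ 40 * R) =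
      (z * z + Y * Y - 2 ^ 80) + a * (2 * (2 ^ 40 * X) - a) := by
    have : (2 ^ 40 * R) * (2 ^ 40 * R) = 2 ^ 80 - (2 ^ 40 * X) * (2 ^ 40 * X) := by
      have : (2 ^ 40 * R) * (2 ^ 40 * R) = 2 ^ 80 * (R * R) := by ring
      rw [this, hR]; ring
    rw [this, ← hA]; ring
  have e3 : |a * (2 * (2 ^ 40 * X) - a)| ≤ 3 * (2 ^ 39 + 3) := by
    rw [abs_mul]
    refine mul_le_mul ha ?_ (abs_nonneg _) (by norm_num)
    rw [abs_le]
    constructor <;> linarith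
  have e3' := abs_le.1 e3
  have e4 : |(Y - 2 ^ 40 * R) * (Y + 2 ^ 40 * R)| ≤ 6 * (Y + 2 ^ 40 * R) := by
    have : (Y - 2 ^ 40 * R) * (Y + 2 ^ 40 * R) = Y * Y - (2 ^ 40 * R) * (2 ^ 40 * R) := by ring
    rw [this, e2, abs_le]
    have e6 := e3'.1
    have e7 := e3'.2
    generalize a * (2 * (2 ^ 40 * X) - a) = q at e6 e7 ⊢
    generalize z * z + Y * Y = q1 at b1 b2 ⊢
    clear this e2 e3 e3' hX2 hR ha' hXb hXb' ha a1 a2 c1 c2 D0 hX hx hx' hx2 hx2' e1 hD hA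
    norm_num at b1 b2 e6 e7 ⊢
    constructor <;> linarith
  have hp : 0 < Y + 2 ^ 40 * R := by positivity
  rw [abs_mul, abs_of_pos hp] at e4
  rw [abs_sub_comm]
  exact le_of_mul_le_mul_right e4 hp

theorem okNd_sound {xv : ℕ} {x0 : ℝ} (hx : |x0 * 2 ^ 48 - ((xv : ℝ) - 2 ^ 50)| ≤ 32)
    (hx2 : |x0| ≤ 2) {n : KN.Nd} (h : KN.okNd xv n = true) : Ndd x0 n := by
  unfold KN.okNd at h
  simp only [andB_iff] at h
  obtain ⟨h1, h2, h3, h4, h5⟩ := h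
  have h1 : n.i ≤ 256 := Nat.le_of_ble_eq_true h1
  have h2 : n.X * (4194304 + n.i * n.i) + n.i * 9007199254740992 ≤
      8 * xv * n.i + 4398046511104 * (4194304 + n.i * n.i) + 8388608 :=
    Nat.le_of_ble_eq_true h2
  have h3 : 8 * xv * n.i + 4398046511104 * (4194304 + n.i * n.i) ≤
      n.X * (4194304 + n.i * n.i) + n.i * 9007199254740992 + 8388608 :=
    Nat.le_of_ble_eq_true h3
  have h4 : n.X * n.X + 19342813113834066795298816 + n.Y * n.Y ≤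
      1208925819614629174706176 + 8796093022208 * n.X + 4398046511104 :=
    Nat.le_of_ble_eq_true h4
  have h5 : 1208925819614629174706176 + 8796093022208 * n.X ≤
      n.X * n.X + 19342813113834066795298816 + n.Y * n.Y + 4398046511104 :=
    Nat.le_of_ble_eq_true h5
  have h1' : (n.i : ℝ) ≤ 256 := by exact_mod_cast h1
  have h2' : (n.X : ℝ) * (4194304 + n.i * n.i) + n.i * 9007199254740992 ≤
      8 * xv * n.i + 4398046511104 * (4194304 + n.i * n.i) + 8388608 := by exact_mod_cast h2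
  have h3' : (8 : ℝ) * xv * n.i + 4398046511104 * (4194304 + n.i * n.i) ≤
      n.X * (4194304 + n.i * n.i) + n.i * 9007199254740992 + 8388608 := by exact_mod_cast h3
  have h4' : (n.X : ℝ) * n.X + 19342813113834066795298816 + n.Y * n.Y ≤
      1208925819614629174706176 + 8796093022208 * n.X + 4398046511104 := by
    exact_mod_cast h4
  have h5' : (1208925819614629174706176 : ℝ) + 8796093022208 * n.X ≤
      n.X * n.X + 19342813113834066795298816 + n.Y * n.Y + 4398046511104 := by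
    exact_mod_cast h5
  have i0 : (0 : ℝ) ≤ n.i := Nat.cast_nonneg _
  have Y0 : (0 : ℝ) ≤ n.Y := Nat.cast_nonneg _
  have Dp : (0 : ℝ) < 1 + ((n.i : ℝ) / 2048) ^ 2 := by positivity
  obtain ⟨X, hX⟩ : ∃ X : ℝ, X = x0 * ((n.i : ℝ) / 2048) / (1 + ((n.i : ℝ) / 2048) ^ 2) := ⟨_, rfl⟩
  have hX1 : X * (1 + ((n.i : ℝ) / 2048) ^ 2) = x0 * ((n.i : ℝ) / 2048) := by
    rw [hX]; field_simp
  have hX2 : X * (2 ^ 22 + (n.i : ℝ) * n.i) = x0 * n.i * 2048 := by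
    linear_combination 2 ^ 22 * hX1
  have hXb : X * X ≤ 1 := by
    have D0 : (2 : ℝ) ^ 22 ≤ 2 ^ 22 + (n.i : ℝ) * n.i :=
      le_add_of_nonneg_right (mul_self_nonneg _)
    have h3 : |X * (2 ^ 22 + (n.i : ℝ) * n.i)| ≤ 1 * (2 ^ 22 + (n.i : ℝ) * n.i) := by
      rw [hX2, abs_mul, abs_mul]
      have : |x0| * |(n.i : ℝ)| ≤ 2 * 256 := by
        rw [abs_of_nonneg i0]
        exact mul_le_mul hx2 h1' i0 (by norm_num)
      have h4 : |(2048 : ℝ)| = 2048 := by norm_num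
      rw [h4]
      have q3 : |x0| * |(n.i : ℝ)| * 2048 ≤ 2 * 256 * 2048 :=
        mul_le_mul_of_nonneg_right this (by norm_num)
      refine q3.trans (le_trans ?_ (mul_le_mul_of_nonneg_left D0 (by norm_num)))
      norm_num
    have Dq : (0 : ℝ) < 2 ^ 22 + (n.i : ℝ) * n.i := by positivity
    rw [abs_mul, abs_of_pos Dq] at h3
    have h5 : |X| ≤ 1 := le_of_mul_le_mul_right h3 Dq
    have := mul_self_le_mul_self (abs_nonneg X) h5
    rw [abs_mul_abs_self] at this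
    linarith
  have hR : Real.sqrt (1 - X * X) * Real.sqrt (1 - X * X) = 1 - X * X :=
    Real.mul_self_sqrt (by linarith)
  have R0 : 0 ≤ Real.sqrt (1 - X * X) := Real.sqrt_nonneg _
  generalize Real.sqrt (1 - X * X) = R at hR R0
  obtain ⟨ha, hb⟩ := nd_real (z := (n.X : ℝ) - 2 ^ 42) (W := (xv : ℝ) - 2 ^ 50) i0 h1' Y0 hx hx2
    (by norm_num; linarith) (by norm_num; linarith) (by norm_num; linarith)
    (by norm_num; linarith) hX2 R0 hR
  refine ⟨⟨X, -R⟩, ⟨by positivity, ?_, hX1, ?_, ?_⟩, ?_⟩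
  · rw [div_le_iff₀ (by norm_num)]; linarith
  · simpa using R0
  · rw [normSq_apply]; simp only; linarith
  · have e1 : (2 ^ 40 * (⟨X, -R⟩ : ℂ) - Zu n).re = 2 ^ 40 * X - ((n.X : ℝ) - 2 ^ 42) := by
      have : (2 : ℂ) ^ 40 = ((2 ^ 40 : ℝ) : ℂ) := by norm_num
      rw [this, sub_re, re_ofReal_mul, Zu, sub_re, ofReal_re, re_ofReal_mul, I_re, mul_zero,
        sub_zero]
    have e2 : (2 ^ 40 * (⟨X, -R⟩ : ℂ) - Zu n).im = -(2 ^ 40 * R - (n.Y : ℝ)) := by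
      have : (2 : ℂ) ^ 40 = ((2 ^ 40 : ℝ) : ℂ) := by norm_num
      rw [this, sub_im, im_ofReal_mul, Zu, sub_im, ofReal_im, im_ofReal_mul, I_im, mul_one]
      ring
    refine nrm_le (by norm_num) ?_
    rw [e1, e2]
    have q1 : (2 ^ 40 * X - ((n.X : ℝ) - 2 ^ 42)) ^ 2 ≤ 3 ^ 2 := by
      rw [← sq_abs]
      exact pow_le_pow_left₀ (abs_nonneg _) ha 2
    have q2 : (-(2 ^ 40 * R - (n.Y : ℝ))) ^ 2 ≤ 6 ^ 2 := by
      rw [neg_sq, ← sq_abs]
      exact pow_le_pow_left₀ (abs_nonneg _) hb 2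
    exact (add_le_add q1 q2).trans (by norm_num)

/-- the facts about a piece -/
structure PcOk (x0 : ℝ) (P : KN.Pc) : Prop where
  hx : |x0| ≤ (P.x : ℝ) / 2 ^ 16
  hx2 : P.x ≤ 2 ^ 17
  ns : ∀ n ∈ P.ns, Ndd x0 n
  st : Ndd x0 (KN.kst P)
  lt : (KN.kst P).i < KN.ken P

/-- the parameters of a piece -/
structure InP (x0 : ℝ) (P : KN.Pc) (s : ℝ) (u : ℂ) : Prop where
  cv : Cv x0 s u
  s0 : ((KN.kst P).i : ℝ) / 2048 ≤ s
  s1 : s ≤ (KN.ken P : ℝ) / 2048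

section
variable {x0 : ℝ} {x : ℕ} {u : ℂ} {s : ℝ} {ns : List KN.Nd} {k : KN.Nd} {e : ℕ}
  {K' K : Hm ℕ} {Kz' Kz : Hm ℤ} {T : M9 ℝ × M9 ℝ} {N : M9 ℕ × M9 ℕ} {Z0 Z1 : M9 ℤ}

/-- THE MAIN TEST -/
theorem lmi_sound (hK' : RH K' Kz') (bK' : BH (2 ^ 27) Kz') (hK : RH K Kz) (bK : BH (2 ^ 27) Kz)
    (o0 : OkT T.1 N.1 Z0) (o1 : OkT T.2 N.2 Z1) (hx : |x0| ≤ (x : ℝ) / 2 ^ 16) (hx2 : x ≤ 2 ^ 17)
    (hns : ∀ n ∈ ns, Ndd x0 n) (hk : Ndd x0 k) (hlt : k.i < e) {t : KN.Lm}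
    (h : KN.lmi ns x k e t K' K N = true) (hu : Cv x0 s u) (s0 : (k.i : ℝ) / 2048 ≤ s)
    (s1 : s ≤ (e : ℝ) / 2048) : Imp (rH Kz) (rH Kz') (ap T (s * u)) := by
  unfold KN.lmi KN.lm2 at h
  simp only [andB_iff] at h
  obtain ⟨hn, hm, qn, qm, hc⟩ := h
  have hn : t.n ≤ 2 ^ 145 := Nat.le_of_ble_eq_true hn
  have hm : t.m ≤ 2 ^ 145 := Nat.le_of_ble_eq_true hm
  refine chs_sound (x0 := x0) (Q := fun s => ∀ u, Cv x0 s u →
    Imp (rH Kz) (rH Kz') (ap T (s * u))) hns ?_ ?_ t.c k hk hc hlt s s0 s1 u hu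
  · intro k0 k1 l hc
    unfold KN.ct at hc
    simp only [andB_iff] at hc
    exact Nat.le_of_ble_eq_true hc.2.1
  · rintro k0 k1 l ⟨u0, h0⟩ ⟨u1, h1⟩ hc s s0 s1 u hu v hv hKv
    exact ct_sound hK' bK' hK bK o0 o1 hx hx2 hn hm qn qm h0 h1 hc hu s0 s1 hv hKv

theorem pl_sound {P : KN.Pc} (hP : PcOk x0 P) (hK' : RH K' Kz') (bK' : BH (2 ^ 27) Kz')
    (hK : RH K Kz) (bK : BH (2 ^ 27) Kz) (o0 : OkT T.1 N.1 Z0) (o1 : OkT T.2 N.2 Z1)
    {t : KN.Lm} (h : KN.pl P t K' K N = true) (hu : InP x0 P s u) :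
    Imp (rH Kz) (rH Kz') (ap T (s * u)) :=
  lmi_sound hK' bK' hK bK o0 o1 hP.hx hP.hx2 hP.ns hP.st hP.lt h hu.cv hu.s0 hu.s1

end

end Pool.Agent.Helper94.CXF.SD
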