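import Pool.Agent.Helper94.CXF.F1
import Pool.Agent.Helper12.CX.KAP

/-!
FARL: the far run matrices in terms of the Chebyshev numbers `u_j = sin (j f) / sin f`, and their
sums `e_j = u_j + u_(j-2) + ...`.
-/

set_option autoImplicit false
noncomputable section
namespace Pool.Agent.Helper94.CXF

open Pool.Agent.Helper6.MONO

def uC (k : ℝ) : ℕ → ℝ
  | 0 => 0
  | 1 => 1
  | n + 2 => k * uC k (n + 1) - uC k n

def eC (k : ℝ) : ℕ → ℝ
  | 0 => 0
  | 1 => 1
  | n + 2 => uC k (n + 2) + eC k n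

theorem uC_two (k : ℝ) (n : ℕ) : uC k (n + 2) = k * uC k (n + 1) - uC k n := rfl

theorem eC_two (k : ℝ) (n : ℕ) : eC k (n + 2) = uC k (n + 2) + eC k n := rfl

/-- `(4 - k²) e_j = c - (u_(j+2) - u_j)` -/
theorem eC_form (k : ℝ) (n : ℕ) :
    (4 - k ^ 2) * eC k n = (if n % 2 = 0 then k else 2) - (uC k (n + 2) - uC k n) := by
  induction n using Nat.twoStepInduction with
  | zero => simp [eC, uC]
  | one => simp [eC, uC]; ring
  | more n ih _ =>
    have e1 : (n + 2) % 2 = n % 2 := by omega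
    rw [eC_two, mul_add, ih, e1]
    have h4 : uC k (n + 2 + 2) = k * uC k (n + 2 + 1) - uC k (n + 2) := rfl
    have h3 : uC k (n + 2 + 1) = k * uC k (n + 2) - uC k (n + 1) := rfl
    have h2 : uC k (n + 2) = k * uC k (n + 1) - uC k n := rfl
    rw [h4, h3]
    linear_combination h2


theorem SbP_k {k : ℝ} (hk : k ≠ 0) : SbP k = 4 / k ^ 2 - 1 := by
  rw [SbP]
  field_simp
  ring

/-- `P = W u_(j+1)`, `Q = W u_j`, real -/
theorem cheb (M : ℕ) (hM : 3 ≤ M) : ∀ j : ℕ, 1 ≤ j → j + 1 ≤ M →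
    Rb M j ^ 2 + 2 * Rb M j - SbP (Kp M) = (Rb M j ^ 2 + SbP (Kp M)) * uC (Kp M) (j + 1) ∧
      4 * Rb M j / Kp M = (Rb M j ^ 2 + SbP (Kp M)) * uC (Kp M) j := by
  obtain ⟨hk, hk2⟩ := LNI_Kp hM
  have hR1 := RJ_one M hM
  have p1 := (RJ_pos M 1 hM le_rfl (by omega)).2 (by omega)
  obtain ⟨t, t2⟩ := tan_pos' M hM
  have hS : 0 < SbP (Kp M) := by rw [← t2]; positivity
  have hS' := SbP_k hk.ne'
  intro j
  induction j with
  | zero => intro h; omega
  | succ j ih =>
    intro _ hjM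
    rcases Nat.eq_zero_or_pos j with h0 | hj
    · subst h0
      rw [zero_add, hR1, hS']
      have e2 : uC (Kp M) (1 + 1) = Kp M := by simp [uC]
      have e1 : uC (Kp M) 1 = 1 := rfl
      rw [e2, e1]
      constructor
      · field_simp
        ring
      · field_simp
        ring
    · obtain ⟨h1, h2⟩ := ih hj (by omega)
      have p2 := (RJ_pos M j hM hj (by omega)).2 (by omega)
      have hs := RJ_succ M j hM hj (by omega)
      have hW : 0 < Rb M j ^ 2 + SbP (Kp M) := by positivity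
      have u1 : uC (Kp M) (j + 1) = (Rb M j ^ 2 + 2 * Rb M j - SbP (Kp M)) /
          (Rb M j ^ 2 + SbP (Kp M)) := by
        rw [h1]; field_simp
      have u0 : uC (Kp M) j = (4 * Rb M j / Kp M) / (Rb M j ^ 2 + SbP (Kp M)) := by
        rw [h2]; field_simp
      have u2 : uC (Kp M) (j + 1 + 1) = Kp M * uC (Kp M) (j + 1) - uC (Kp M) j := rfl
      rw [u2, u1, u0, hs, hR1]
      rw [hR1] at p1
      generalize Rb M j = R at *
      generalize Kp M = k at *
      have hk0 := hk.ne'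
      have hD : k + 2 + R * k ≠ 0 := by positivity
      have hQ : R ^ 2 * k ^ 2 + (4 - k ^ 2) ≠ 0 := by
        have : (R ^ 2 * k ^ 2 + (4 - k ^ 2)) = k ^ 2 * (R ^ 2 + SbP k) := by
          rw [hS']; field_simp
        rw [this]
        positivity
      rw [hS']
      have e3 : R ^ 2 + (4 / k ^ 2 - 1) = (R ^ 2 * k ^ 2 + (4 - k ^ 2)) / k ^ 2 := by
        field_simp
      have e4 : 1 + 2 / k + R = (k + 2 + R * k) / k := by field_simp
      rw [e3, e4]
      generalize hQd : R ^ 2 * k ^ 2 + (4 - k ^ 2) = Q at hQ ⊢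
      generalize hDd : k + 2 + R * k = D at hD ⊢
      constructor
      · field_simp
        rw [← hQd, ← hDd]
        ring
      · field_simp
        rw [← hQd, ← hDd]
        ring

/-- everything at `j = i + 2` -/
theorem cheb2 (M : ℕ) (hM : 3 ≤ M) (i : ℕ) (h : i + 3 ≤ M) :
    ∃ W : ℝ, 0 < W ∧ (W : ℂ) = fW (Kp M) (Rb M (i + 2)) ∧
      fP (Kp M) (Rb M (i + 2)) = W * (uC (Kp M) (i + 3) : ℂ) ∧
      fQ (Kp M) (Rb M (i + 2)) = W * (uC (Kp M) (i + 2) : ℂ) ∧
      fT (Kp M) (Rb M (i + 2)) = W * (uC (Kp M) (i + 1) : ℂ) ∧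
      nu1 (decide (i % 2 = 0)) (Kp M) (Rb M (i + 2)) = W * (eC (Kp M) (i + 2) : ℂ) ∧
      nu2 (decide (i % 2 = 0)) (Kp M) (Rb M (i + 2)) = W * (eC (Kp M) (i + 1) : ℂ) ∧
      mu1 (decide (i % 2 = 0)) (Kp M) (Rb M (i + 2)) = W * (eC (Kp M) (i + 1) : ℂ) ∧
      mu2 (decide (i % 2 = 0)) (Kp M) (Rb M (i + 2)) = W * (eC (Kp M) i : ℂ) := by
  obtain ⟨hk, hk2⟩ := LNI_Kp hM
  obtain ⟨hP, hQ⟩ := cheb M hM (i + 2) (by omega) h
  obtain ⟨t, t2⟩ := tan_pos' M hM
  have hS : 0 < SbP (Kp M) := by rw [← t2]; positivity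
  have hW : 0 < Rb M (i + 2) ^ 2 + SbP (Kp M) := by positivity
  have hS' := SbP_k hk.ne'
  have u3 : uC (Kp M) (i + 2 + 1) = Kp M * uC (Kp M) (i + 2) - uC (Kp M) (i + 1) := rfl
  have u2 : uC (Kp M) (i + 2) = Kp M * uC (Kp M) (i + 1) - uC (Kp M) i := rfl
  have u4 : uC (Kp M) (i + 2 + 2) = Kp M * uC (Kp M) (i + 2 + 1) - uC (Kp M) (i + 2) := rfl
  have f2 := eC_form (Kp M) (i + 2)
  have f1 := eC_form (Kp M) (i + 1)
  have f0 := eC_form (Kp M) i
  rw [u4] at f2
  have e1 : (i + 2) % 2 = i % 2 := by omega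
  rw [e1] at f2
  have e3 : i + 1 + 2 = i + 2 + 1 := by omega
  rw [e3] at f1
  have e5 : uC (Kp M) (i + 3) = uC (Kp M) (i + 2 + 1) := rfl
  rw [e5]
  generalize uC (Kp M) (i + 2 + 1) = v3 at *
  generalize uC (Kp M) (i + 2) = v2 at *
  generalize uC (Kp M) (i + 1) = v1 at *
  generalize uC (Kp M) i = v0 at *
  generalize eC (Kp M) (i + 2) = w2 at *
  generalize eC (Kp M) (i + 1) = w1 at *
  generalize eC (Kp M) i = w0 at *
  generalize Rb M (i + 2) = R at *
  generalize Kp M = k at *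
  have hk0 := hk.ne'
  have h4 : (4 - k ^ 2) ≠ 0 := by nlinarith
  have h2k : 2 + k ≠ 0 := by positivity
  have v1e : v1 = k * v2 - v3 := by linarith
  have v0e : v0 = k * v1 - v2 := by linarith
  have hSk : k ^ 2 * SbP k = 4 - k ^ 2 := by
    rw [hS']; field_simp
  have hQ' : 4 * R = k * ((R ^ 2 + SbP k) * v2) := by
    rw [← hQ]; field_simp
  set W := R ^ 2 + SbP k with hWd
  have hRW : R ^ 2 = W - SbP k := by linarith
  have cW : (4 / (k : ℂ) ^ 2 - 1) = ((SbP k : ℝ) : ℂ) := by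
    rw [hS']; push_cast; ring
  refine ⟨W, hW, ?_, ?_, ?_, ?_, ?_⟩
  · rw [fW, cW, hWd]; push_cast; ring
  · rw [fP, cW]
    exact_mod_cast hP
  · rw [fQ]
    exact_mod_cast hQ
  · rw [fT, cW]
    have : 2 * R - R ^ 2 + SbP k = W * v1 := by
      rw [v1e]
      linear_combination hP + hQ' - 2 * hP + (0 : ℝ) * hP
    exact_mod_cast this
  · have hW0 : W ≠ 0 := hW.ne'
    have hv3 : v3 = (R ^ 2 + 2 * R - SbP k) / W := by rw [hP]; field_simp
    have hv2 : v2 = (4 * R / k) / W := by rw [hQ]; field_simp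
    have hWQ : W = (R ^ 2 * k ^ 2 + (4 - k ^ 2)) / k ^ 2 := by rw [hWd, hS']; field_simp
    have hQ0 : R ^ 2 * k ^ 2 + (4 - k ^ 2) ≠ 0 := by
      intro h0
      rw [h0, zero_div] at hWQ
      exact hW0 hWQ
    have g2' : w2 = ((if i % 2 = 0 then k else 2) - (k * v3 - v2 - v2)) / (4 - k ^ 2) := by
      rw [← f2]; field_simp
    have g1' : w1 = ((if (i + 1) % 2 = 0 then k else 2) - (v3 - v1)) / (4 - k ^ 2) := by
      rw [← f1]; field_simp
    have g0' : w0 = ((if i % 2 = 0 then k else 2) - (v2 - v0)) / (4 - k ^ 2) := by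
      rw [← f0]; field_simp
    rw [v0e, v1e] at g0'
    rw [v1e] at g1'
    rw [hv3, hv2, hWQ, hS'] at g2' g1' g0'
    generalize hQd : R ^ 2 * k ^ 2 + (4 - k ^ 2) = Q at *
    have hR2 : R ^ 2 * k ^ 2 = Q - (4 - k ^ 2) := by linarith
    rcases Nat.mod_two_eq_zero_or_one i with hi | hi
    · have hi1 : ¬ ((i + 1) % 2 = 0) := by omega
      rw [if_pos hi] at g2' g0'
      rw [if_neg hi1] at g1'
      have g2 : 2 / k * (1 + R) = W * w2 := by
        rw [g2', hWQ]
        field_simp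
        rw [← hQd]
        ring
      have g1 : 4 / k ^ 2 = W * w1 := by
        rw [g1', hWQ]
        field_simp
        rw [← hQd]
        ring
      have g0 : 2 / k * (1 - R) = W * w0 := by
        rw [g0', hWQ]
        field_simp
        rw [← hQd]
        ring
      simp only [nu1, nu2, mu1, mu2, hi, decide_true, if_true]
      refine ⟨?_, ?_, ?_, ?_⟩
      · exact_mod_cast g2
      · exact_mod_cast g1
      · exact_mod_cast g1
      · exact_mod_cast g0
    · have hi1 : (i + 1) % 2 = 0 := by omega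
      have hi0 : ¬ (i % 2 = 0) := by omega
      rw [if_neg hi0] at g2' g0'
      rw [if_pos hi1] at g1'
      have g2 : 2 / k * (1 + R + (k ^ 2 * W / (2 * (2 + k))) / k) = W * w2 := by
        rw [g2', hWQ]
        field_simp
        rw [← hQd]
        ring
      have g1 : 4 / k ^ 2 * (1 - (k ^ 2 * W / (2 * (2 + k))) / 2) = W * w1 := by
        rw [g1', hWQ]
        field_simp
        rw [← hQd]
        ring
      have g1b : 1 + (k ^ 2 * W / (2 * (2 + k))) / k - (R ^ 2 - (4 / k ^ 2 - 1)) / 2 = W * w1 := by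
        rw [g1', hWQ]
        field_simp
        rw [← hQd]
        ring
      have g0 : 2 / k * (1 - R + (k ^ 2 * W / (2 * (2 + k))) / k) = W * w0 := by
        rw [g0', hWQ]
        field_simp
        rw [← hQd]
        ring
      have eW : fW (k : ℂ) (R : ℂ) = (W : ℂ) := by
        rw [fW, cW, hWd]; push_cast; ring
      simp only [nu1, nu2, mu1, mu2, fY, eW, hi0, decide_false, if_false, Bool.false_eq_true]
      refine ⟨?_, ?_, ?_, ?_⟩
      · exact_mod_cast g2
      · exact_mod_cast g1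
      · exact_mod_cast g1b
      · exact_mod_cast g0

end Pool.Agent.Helper94.CXF
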