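import Pool.Agent.Helper94.CXF.F2
import Pool.Agent.Helper94.CXF.Cheb

/-!
FARL: the global run matrices in far coordinates, as affine functions of `e = 1/z` with real
coefficients.
-/

set_option autoImplicit false
noncomputable section
namespace Pool.Agent.Helper94.CXF

open Pool.Agent.Helper6.MONO
open Pool.Agent.Helper21.SUP (GS DG DG_nx)
open Pool.Agent.Helper21.SUP renaming nx → nxs

/-! ### real three by three matrices -/

/-- nine entries, by rows -/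
structure M9 (R : Type) where
  a : R
  b : R
  c : R
  d : R
  e : R
  f : R
  g : R
  h : R
  i : R

/-- rows `ρ`, `σ`, `N` in the order of the target -/
def mkM {R : Type} (tg : Bool) (r0 r1 r2 s0 s1 s2 n0 n1 n2 : R) : M9 R :=
  if tg then ⟨r0, r1, r2, n0, n1, n2, s0, s1, s2⟩ else ⟨r0, r1, r2, s0, s1, s2, n0, n1, n2⟩

/-- as a complex matrix -/
def toM (T : M9 ℝ) : M3 :=
  !![(T.a : ℂ), T.b, T.c; (T.d : ℂ), T.e, T.f; (T.g : ℂ), T.h, T.i]

/-- `T₀ + e T₁` -/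
def at2 (T : M9 ℝ × M9 ℝ) (e : ℂ) : M3 := toM T.1 + e • toM T.2

/-! ### the families -/

/-- a run; `tg` the orientation of the target, `u1 = u_(j+1)`, `u0 = u_j`, `um = u_(j-1)`, and the
same for `e` one step below -/
def TRr (o L tg : Bool) (h h' u1 u0 um e1 e0 em : ℝ) : M9 ℝ × M9 ℝ :=
  if o then
    (if L then
      (mkM tg (e0 * (h * h')) (u1 * (h * h')) 0 (em * (h * h')) (u0 * (h * h')) 0 h' 0 0,
        mkM tg (e1 * (h' * h') - u0) 0 (-u0) (e0 * (h' * h') - um) 0 (-um) 0 0 0)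
    else
      (mkM tg (e0 * h) 0 0 (em * h) 0 0 1 0 0,
        mkM tg (e1 * h') u1 (-u0) (e0 * h') u0 (-um) 0 0 0))
  else
    (mkM tg (e1 * h') (-u0) 0 (e0 * h') (-um) 0 1 0 0,
      mkM tg (e0 * h) 0 u1 (em * h) 0 u0 0 0 0)

/-- orientation `-`: one run of two, times `k h'` -/
def TNm (k h' : ℝ) : M9 ℝ := ⟨h' * h', h' * k, -h', 1, 0, 0, -(h' * h'), 0, h'⟩

/-- orientation `+`: one run of two -/
def TNp (k h' : ℝ) : M9 ℝ × M9 ℝ := (⟨h', -1, 0, 0, 0, 0, 1, 0, 0⟩, ⟨0, 0, k, 0, 0, 1, 0, 0, 0⟩)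

/-- orientation `+`: two runs of two -/
def TPp (k h h' : ℝ) : M9 ℝ × M9 ℝ :=
  (⟨k * h', -k, 0, 0, 0, 0, h', -1, 0⟩, ⟨h, 0, k * k - 1, 1, 0, 0, 0, 0, k⟩)

/-- orientation `-`: two runs of two from `Y`, times `k h` -/
def TTm (k h h' : ℝ) : M9 ℝ × M9 ℝ :=
  (⟨k * h, 0, 0, 0, 0, 0, 0, 0, 0⟩,
    ⟨k * k * h', k * (k * k - 1), -(k * k), h', k, -1, -(k * k * h'), -(k * (k * k - 1)), k * k⟩)

/-- orientation `-`: two runs of two from `L`, times `k h` -/
def TUm (k h h' : ℝ) : M9 ℝ × M9 ℝ :=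
  (⟨k * (h * h'), k * (h * h') * (k * k - 1), 0, 0, k * (h * h'), 0, 0,
      -(k * (h * h') * (k * k - 1)), 0⟩,
    ⟨k * k * (h' * h' - 1), 0, -(k * k), h' * h' - 1, 0, -1, -(k * k * (h' * h' - 1)), 0, k * k⟩)

/-! ### far coordinates -/

/-- chart `L` to the far coordinates, normalised -/
def FLn (o : Bool) (k h h' : ℂ) : M3 :=
  if o then !![1 / h', 0, 0; 0, 2 / (k ^ 2 * h'), 0; h' / 2 - 1 / h', 0, -(h' / 2)]
  else Fl false k h h'

def Fn (o L : Bool) (k h h' e : ℂ) : M3 := if L then FLn o k h h' else FY o k h h' e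

/-- the normalisation -/
def Dg (o L : Bool) (h h' : ℂ) : M3 :=
  if o && L then !![h', 0, 0; 0, h * h', 0; 0, 0, 1] else 1

theorem Fl_Dg (o : Bool) (k h h' : ℂ) (hk : k ≠ 0) (hh' : h' ≠ 0) :
    Fl o k h h' = Dg o true h h' * FLn o k h h' := by
  cases o
  · simp [FLn, Dg]
  · simp only [FLn, Dg, Bool.and_self, if_true]
    ext i j
    fin_cases i <;> fin_cases j <;>
      simp [Fl, Matrix.mul_apply, Fin.sum_univ_three, lamF] <;> (try field_simp)

theorem Fsrc (o L : Bool) (k h h' e : ℂ) (hk : k ≠ 0) (hh' : h' ≠ 0) :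
    (if L then Fl o k h h' else FY o k h h' e) = Dg o L h h' * Fn o L k h h' e := by
  cases L
  · simp [Fn, Dg]
  · simp only [Fn, if_true]
    exact Fl_Dg o k h h' hk hh'

/-- the run matrix in far coordinates is affine in `e` -/
theorem Ar_at2 (o L d : Bool) (k h h' W u1 u0 um e1 e0 em : ℝ) (R e : ℂ) (hh' : h' ≠ 0)
    (gW : (W : ℂ) = fW k R) (gP : fP k R = W * (u1 : ℂ)) (gQ : fQ k R = W * (u0 : ℂ))
    (gT : fT k R = W * (um : ℂ)) (g1 : nu1 d k R = W * (e1 : ℂ)) (g2 : nu2 d k R = W * (e0 : ℂ))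
    (g3 : mu1 d k R = W * (e0 : ℂ)) (g4 : mu2 d k R = W * (em : ℂ)) :
    Ar o L d k h h' R e * Dg o L h h' =
      (W : ℂ) • at2 (TRr o L (xor o d) h h' u1 u0 um e1 e0 em) e := by
  have hh2 : (h' : ℂ) ≠ 0 := by exact_mod_cast hh'
  rw [Ar]
  simp only [rowR, rowS, gP, gQ, gT, g1, g2, g3, g4, ← gW]
  generalize xor o d = tg
  cases o <;> cases L <;> cases tg <;>
  · ext i j
    fin_cases i <;> fin_cases j <;>
      simp [G0, Gm, Gp, Gl, Dg, at2, TRr, mkM, toM, Matrix.mul_apply, Fin.sum_univ_three] <;>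
      (try field_simp) <;> (try ring)

end Pool.Agent.Helper94.CXF
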