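import Pool.Agent.Helper94.CXF.Br

/-!
FARL: the global run matrices in far coordinates.
-/

set_option autoImplicit false
noncomputable section
namespace Pool.Agent.Helper94.CXF

open Pool.Agent.Helper6.MONO
open Pool.Agent.Helper21.SUP (GS DG DG_nx)
open Pool.Agent.Helper21.SUP renaming nx → nxs

/-- `e = 1/z` -/
def ew (w : ℂ) : ℂ := (1 - w) / (1 + w)

theorem ew_num {w : ℂ} (h : 1 + w ≠ 0) : 1 - w = (1 + w) * ew w := by
  rw [ew]; field_simp

/-- `λ` -/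
def lf (p q r : ℕ) (s : GS) : ℂ := lamF (kk p q r s.1 s.2.1) (kk p q r s.2.1 s.2.2) (kk p q r s.1 s.2.2)

theorem lf_eq (p q r : ℕ) (s : GS) : lf p q r s = (lamS p q r s : ℂ) := by
  rw [lf, lamF, lamS]
  push_cast
  ring

/-- the denominator at a state -/
def dS (p q r : ℕ) (s : GS) (e : ℂ) : ℂ := dn (oriZ s) (lf p q r s) e

theorem denS_dn (p q r : ℕ) (s : GS) {w : ℂ} (h : 1 + w ≠ 0) :
    denS p q r s w = (1 + w) * dS p q r s (ew w) := by
  rw [denS, dS, dn, lf_eq, ew_num h]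
  cases oriZ s <;> simp <;> ring

theorem dn_ne {o : Bool} {l : ℝ} (h1 : 1 / 2 ≤ l) (h2 : l ≤ 4) {e : ℂ} (he : ‖e‖ ≤ 1 / 8) :
    dn o (l : ℂ) e ≠ 0 := by
  intro h0
  cases o
  · have h3 : (l : ℂ) * e = -1 := by
      simp only [dn, Bool.false_eq_true, if_false] at h0
      linear_combination h0
    have h4 := congrArg norm h3
    rw [norm_mul, norm_neg, norm_one, Complex.norm_real, Real.norm_eq_abs,
      abs_of_nonneg (by linarith)] at h4
    nlinarith [norm_nonneg e]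
  · have h3 : e = -(l : ℂ) := by
      simp only [dn, if_true] at h0
      linear_combination h0
    have h4 := congrArg norm h3
    rw [norm_neg, Complex.norm_real, Real.norm_eq_abs, abs_of_nonneg (by linarith)] at h4
    linarith

theorem kk_rng {p q r : ℕ} (hp : 3 ≤ p) (hq : 3 ≤ q) (hr : 3 ≤ r) (i j : Fin 3) (h : i ≠ j) :
    1 ≤ kk p q r i j ∧ kk p q r i j < 2 :=
  ⟨Kp_ge1 (LNI_mm hp hq hr i j h), (LNI_kk hp hq hr i j h).2⟩

theorem lamS_rng {p q r : ℕ} (hp : 3 ≤ p) (hq : 3 ≤ q) (hr : 3 ≤ r) {s : GS} (hs : DG s) :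
    1 / 2 ≤ lamS p q r s ∧ lamS p q r s ≤ 4 := by
  obtain ⟨h1, h2, h3⟩ := hs
  obtain ⟨a1, a2⟩ := kk_rng hp hq hr s.1 s.2.1 h1
  obtain ⟨b1, b2⟩ := kk_rng hp hq hr s.2.1 s.2.2 h2
  obtain ⟨c1, c2⟩ := kk_rng hp hq hr s.1 s.2.2 (Ne.symm h3)
  rw [lamS]
  have h0 : 0 < kk p q r s.1 s.2.1 * kk p q r s.1 s.2.2 := by positivity
  constructor
  · rw [le_div_iff₀ h0]
    nlinarith
  · rw [div_le_iff₀ h0]
    nlinarith

theorem dS_ne {p q r : ℕ} (hp : 3 ≤ p) (hq : 3 ≤ q) (hr : 3 ≤ r) {s : GS} (hs : DG s) {e : ℂ}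
    (he : ‖e‖ ≤ 1 / 8) : dS p q r s e ≠ 0 := by
  rw [dS, lf_eq]
  obtain ⟨h1, h2⟩ := lamS_rng hp hq hr hs
  exact dn_ne h1 h2 he

variable {p q r : ℕ}

theorem om_far (s : GS) {w : ℂ} (h : 1 + w ≠ 0) (_hd : dS p q r s (ew w) ≠ 0) :
    omS p q r s w = omF (oriZ s) (lf p q r s) (ew w) := by
  rw [omS_eq, denS_dn p q r s h, omF, numS]
  rw [dS] at *
  have h1 : 1 - w = (1 + w) * ew w := ew_num h
  cases oriZ s
  · simp only [Bool.false_eq_true, if_false] at *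
    field_simp
  · simp only [if_true] at *
    rw [h1]
    field_simp

theorem te_far (s : GS) {w : ℂ} (h : 1 + w ≠ 0) (hd : dS p q r s (ew w) ≠ 0) :
    teS p q r s w = tF (oriZ s) (lf p q r s) (ew w) := by
  rw [teS, om_far s h hd, omF, tF]
  rw [dS] at hd
  cases ho : oriZ s
  · rw [ho] at hd
    simp only [dn, Bool.false_eq_true, if_false] at *
    field_simp
    ring
  · rw [ho] at hd
    simp only [dn, if_true] at *
    field_simp
    ring

/-- the parameters of the next star, odd run -/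
theorem nx3 (s : GS) : nxs s 3 = (s.1, s.2.2, s.2.1) := rfl
theorem nx2 (s : GS) : nxs s 2 = (s.2.1, s.2.2, s.1) := rfl

theorem Bm_Bf (k R : ℝ) (hk : k ≠ 0) : Bm k R = Bf k R := by
  have e : (SbP k : ℂ) = 4 / (k : ℂ) ^ 2 - 1 := by
    rw [SbP_k hk]; push_cast; ring
  rw [Bm, Bf, e]

theorem DK_Dc (L : Bool) (s : GS) {w : ℂ} (h : 1 + w ≠ 0) (hd : dS p q r s (ew w) ≠ 0) :
    DKm L (omS p q r s w) =
      Dc L (omF (oriZ s) (lf p q r s) (ew w)) (tF (oriZ s) (lf p q r s) (ew w)) := by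
  rw [← om_far s h hd, ← te_far s h hd, teS]
  cases L
  · rw [DKm, Dc, if_neg (by decide), if_neg (by decide), DYm]
  · rw [DKm, Dc, if_pos rfl, if_pos rfl, DLm]

theorem symK (i j : Fin 3) : kk p q r i j = kk p q r j i := LNI_kk_symm p q r i j

/-- the matrix of a run in far coordinates -/
theorem GR_far (hp : 3 ≤ p) (hq : 3 ≤ q) (hr : 3 ≤ r) {s : GS} (hs : DG s) (L : Bool) {i : ℕ}
    (hm : i + 3 ≤ mm p q r s.1 s.2.1) {w : ℂ} (hw : 1 + w ≠ 0) (he : ‖ew w‖ ≤ 1 / 8) :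
    ∃ c : ℝ, 0 < c ∧
      FY (oriZ (nxs s (i + 3))) (kk p q r (nxs s (i + 3)).1 (nxs s (i + 3)).2.1)
        (kk p q r (nxs s (i + 3)).2.1 (nxs s (i + 3)).2.2)
        (kk p q r (nxs s (i + 3)).1 (nxs s (i + 3)).2.2) (ew w) * GR p q r L s (i + 3) w =
      ((c : ℂ) / dS p q r s (ew w)) •
        (at2 (TRr (oriZ s) L (oriZ (nxs s (i + 3))) (kk p q r s.2.1 s.2.2) (kk p q r s.1 s.2.2)
          (uC (kk p q r s.1 s.2.1) (i + 3)) (uC (kk p q r s.1 s.2.1) (i + 2))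
          (uC (kk p q r s.1 s.2.1) (i + 1)) (eC (kk p q r s.1 s.2.1) (i + 2))
          (eC (kk p q r s.1 s.2.1) (i + 1)) (eC (kk p q r s.1 s.2.1) i)) (ew w) *
          Fn (oriZ s) L (kk p q r s.1 s.2.1) (kk p q r s.2.1 s.2.2) (kk p q r s.1 s.2.2)
            (ew w)) := by
  obtain ⟨g1, g2, g3⟩ := hs
  have hs : DG s := ⟨g1, g2, g3⟩
  have hk := (LNI_kk hp hq hr s.1 s.2.1 g1)
  have hh := (LNI_kk hp hq hr s.2.1 s.2.2 g2)
  have hh' := (LNI_kk hp hq hr s.1 s.2.2 (Ne.symm g3))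
  have hk0 : (kk p q r s.1 s.2.1 : ℂ) ≠ 0 := by exact_mod_cast hk.1.ne'
  have hh0 : (kk p q r s.2.1 s.2.2 : ℂ) ≠ 0 := by exact_mod_cast hh.1.ne'
  have hg0 : (kk p q r s.1 s.2.2 : ℂ) ≠ 0 := by exact_mod_cast hh'.1.ne'
  have hM : 3 ≤ mm p q r s.1 s.2.1 := by omega
  obtain ⟨W, hW, gW, gP, gQ, gT, n1, n2, n3, n4⟩ := cheb2 (mm p q r s.1 s.2.1) hM i hm
  have hKp : Kp (mm p q r s.1 s.2.1) = kk p q r s.1 s.2.1 := rfl
  rw [hKp] at gW gP gQ gT n1 n2 n3 n4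
  have d1 := dS_ne hp hq hr hs he
  have d2 := dS_ne hp hq hr (DG_nx s (i + 3) hs) he
  refine ⟨kk p q r s.1 s.2.1 * W / (2 * kk p q r s.1 s.2.2), by
    have := hk.1; have := hh'.1; positivity, ?_⟩
  have hA := Ar_at2 (oriZ s) L (decide (i % 2 = 0)) (kk p q r s.1 s.2.1) (kk p q r s.2.1 s.2.2)
    (kk p q r s.1 s.2.2) W (uC (kk p q r s.1 s.2.1) (i + 3)) (uC (kk p q r s.1 s.2.1) (i + 2))
    (uC (kk p q r s.1 s.2.1) (i + 1)) (eC (kk p q r s.1 s.2.1) (i + 2))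
    (eC (kk p q r s.1 s.2.1) (i + 1)) (eC (kk p q r s.1 s.2.1) i)
    (Rb (mm p q r s.1 s.2.1) (i + 2)) (ew w) hh'.1.ne' gW gP gQ gT n1 n2 n3 n4
  have hF := Fsrc (oriZ s) L (kk p q r s.1 s.2.1) (kk p q r s.2.1 s.2.2) (kk p q r s.1 s.2.2)
    (ew w) hk0 hg0
  have hsc : ((kk p q r s.1 s.2.1 * W / (2 * kk p q r s.1 s.2.2) : ℝ) : ℂ) / dS p q r s (ew w) =
      gF (oriZ s) (kk p q r s.1 s.2.1) (kk p q r s.2.1 s.2.2) (kk p q r s.1 s.2.2) (ew w) *
        (W : ℂ) := by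
    rw [gF]
    change _ = (kk p q r s.1 s.2.1 : ℂ) / (2 * (kk p q r s.1 s.2.2 : ℂ) * dS p q r s (ew w)) * W
    push_cast
    field_simp
  rcases Nat.mod_two_eq_zero_or_one i with hi | hi
  · -- odd run
    have hnx : nxs s (i + 3) = (s.1, s.2.2, s.2.1) := by
      rw [nx_par, if_pos (by omega)]; rfl
    have ho : oriZ (nxs s (i + 3)) = !oriZ s := by
      rw [hnx]; exact oriZ_odd hs
    have key := far_odd (oriZ s) L (kk p q r s.1 s.2.1) (kk p q r s.2.1 s.2.2)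
      (kk p q r s.1 s.2.2) (Rb (mm p q r s.1 s.2.1) (i + 2)) (ew w) hk0 hh0 hg0 d1 (by
        have := d2
        rw [dS, ho, hnx, lf] at this
        rw [symK s.2.1 s.2.2]
        exact this)
    have eG : GR p q r L s (i + 3) w =
        Pod (dn (!oriZ s) (lamF (kk p q r s.1 s.2.2) (kk p q r s.2.1 s.2.2) (kk p q r s.1 s.2.1))
          (ew w) / (lf p q r s * dS p q r s (ew w))) *
        Bf (kk p q r s.1 s.2.1) (Rb (mm p q r s.1 s.2.1) (i + 2)) *
        Dc L (omF (oriZ s) (lf p q r s) (ew w)) (tF (oriZ s) (lf p q r s) (ew w)) := by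
      rw [GR, DK_Dc L s hw d1, Bm_Bf _ _ hk.1.ne', CGm, if_pos (by omega), kapG,
        denS_dn p q r s hw, denS_dn p q r _ hw, ← lf_eq, Matrix.mul_assoc]
      have e1 : dS p q r (nxs s 3) (ew w) = dn (!oriZ s) (lamF (kk p q r s.1 s.2.2)
          (kk p q r s.2.1 s.2.2) (kk p q r s.1 s.2.1)) (ew w) := by
        rw [dS, lf, nx3, ← symK s.2.1 s.2.2]
        congr 1
        exact oriZ_odd hs
      rw [e1, Pod]
      have e2 : (1 + w) * dn (!oriZ s) (lamF (kk p q r s.1 s.2.2)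
          (kk p q r s.2.1 s.2.2) (kk p q r s.1 s.2.1)) (ew w) /
          (lf p q r s * ((1 + w) * dS p q r s (ew w))) =
          dn (!oriZ s) (lamF (kk p q r s.1 s.2.2)
          (kk p q r s.2.1 s.2.2) (kk p q r s.1 s.2.1)) (ew w) /
          (lf p q r s * dS p q r s (ew w)) := by
        have hl : lf p q r s ≠ 0 := by
          rw [lf_eq]
          exact_mod_cast (LNI_lam_pos hp hq hr hs).ne'
        field_simp
      rw [e2]
      rfl
    rw [eG, ho, hnx, hsc]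
    rw [symK s.2.2 s.2.1]
    have hd : decide (i % 2 = 0) = true := by simp [hi]
    rw [hd] at hA
    change FY (!oriZ s) (kk p q r s.1 s.2.2) (kk p q r s.2.1 s.2.2) (kk p q r s.1 s.2.1) (ew w) * _ = _
    rw [show lf p q r s = lamF (kk p q r s.1 s.2.1) (kk p q r s.2.1 s.2.2) (kk p q r s.1 s.2.2)
      from rfl, show dS p q r s (ew w) = dn (oriZ s) (lamF (kk p q r s.1 s.2.1)
      (kk p q r s.2.1 s.2.2) (kk p q r s.1 s.2.2)) (ew w) from rfl, key, hF, ← Matrix.mul_assoc, hA,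
      Matrix.smul_mul, smul_smul]
    have hx : (oriZ s ^^ true) = !oriZ s := by cases oriZ s <;> rfl
    rw [hx]
  · -- even run
    have hnx : nxs s (i + 3) = (s.2.1, s.2.2, s.1) := by
      rw [nx_par, if_neg (by omega)]; rfl
    have ho : oriZ (nxs s (i + 3)) = oriZ s := by
      rw [hnx]; exact oriZ_even hs
    have h2k : (2 : ℂ) + kk p q r s.1 s.2.1 ≠ 0 := by
      have : (0 : ℝ) < 2 + kk p q r s.1 s.2.1 := by linarith [hk.1]
      exact_mod_cast this.ne'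
    have d2' : dn (oriZ s) (lamF (kk p q r s.2.1 s.2.2) (kk p q r s.1 s.2.2)
        (kk p q r s.1 s.2.1)) (ew w) ≠ 0 := by
      have := d2
      rw [dS, ho, hnx, lf] at this
      rw [symK s.1 s.2.2, symK s.1 s.2.1]
      exact this
    have key := far_even (oriZ s) L (kk p q r s.1 s.2.1) (kk p q r s.2.1 s.2.2)
      (kk p q r s.1 s.2.2) (Rb (mm p q r s.1 s.2.1) (i + 2)) (ew w) hk0 hh0 hg0 h2k d1 d2'
    have hl : lf p q r s ≠ 0 := by
      rw [lf_eq]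
      exact_mod_cast (LNI_lam_pos hp hq hr hs).ne'
    have e0 : lf p q r (nxs s 2) = lamF (kk p q r s.2.1 s.2.2) (kk p q r s.1 s.2.2)
        (kk p q r s.1 s.2.1) := by
      rw [lf, nx2, ← symK s.1 s.2.2, ← symK s.1 s.2.1]
    have hl' : lf p q r (nxs s 2) ≠ 0 := by
      rw [lf_eq]
      exact_mod_cast (LNI_lam_pos hp hq hr (DG_nx s 2 hs)).ne'
    have e1 : dS p q r (nxs s 2) (ew w) = dn (oriZ s) (lamF (kk p q r s.2.1 s.2.2)
        (kk p q r s.1 s.2.2) (kk p q r s.1 s.2.1)) (ew w) := by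
      rw [dS, e0]
      congr 1
      exact oriZ_even hs
    have eG : GR p q r L s (i + 3) w =
        Pev (kk p q r s.1 s.2.1) (omF (oriZ s) (lf p q r s) (ew w))
          ((kk p q r s.1 s.2.1 : ℂ) / 2 * (lf p q r s * dn (oriZ s) (lamF (kk p q r s.2.1 s.2.2)
            (kk p q r s.1 s.2.2) (kk p q r s.1 s.2.1)) (ew w) /
            (lamF (kk p q r s.2.1 s.2.2) (kk p q r s.1 s.2.2)
        (kk p q r s.1 s.2.1) * dS p q r s (ew w)))) *
        Bf (kk p q r s.1 s.2.1) (Rb (mm p q r s.1 s.2.1) (i + 2)) *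
        Dc L (omF (oriZ s) (lf p q r s) (ew w)) (tF (oriZ s) (lf p q r s) (ew w)) := by
      rw [GR, DK_Dc L s hw d1, Bm_Bf _ _ hk.1.ne', CGm, if_neg (by omega), tauG,
        denS_dn p q r s hw, denS_dn p q r _ hw, Matrix.mul_assoc, om_far s hw d1, Pev]
      push_cast
      rw [← lf_eq, ← lf_eq, e1, e0]
      have e2 : lf p q r s / lamF (kk p q r s.2.1 s.2.2) (kk p q r s.1 s.2.2)
          (kk p q r s.1 s.2.1) * ((1 + w) * dn (oriZ s) (lamF (kk p q r s.2.1 s.2.2)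
          (kk p q r s.1 s.2.2) (kk p q r s.1 s.2.1)) (ew w) / ((1 + w) * dS p q r s (ew w))) =
          lf p q r s * dn (oriZ s) (lamF (kk p q r s.2.1 s.2.2)
            (kk p q r s.1 s.2.2) (kk p q r s.1 s.2.1)) (ew w) /
            (lamF (kk p q r s.2.1 s.2.2) (kk p q r s.1 s.2.2)
        (kk p q r s.1 s.2.1) * dS p q r s (ew w)) := by
        rw [← e0]
        field_simp
      rw [e2]
    rw [eG, ho, hnx, hsc]
    have hd : decide (i % 2 = 0) = false := by simp [hi]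
    rw [hd] at hA
    change FY (oriZ s) (kk p q r s.2.1 s.2.2) (kk p q r s.2.2 s.1) (kk p q r s.2.1 s.1) (ew w) * _ = _
    rw [← symK s.1 s.2.2, ← symK s.1 s.2.1]
    rw [show lf p q r s = lamF (kk p q r s.1 s.2.1) (kk p q r s.2.1 s.2.2) (kk p q r s.1 s.2.2)
      from rfl, show dS p q r s (ew w) = dn (oriZ s) (lamF (kk p q r s.1 s.2.1)
      (kk p q r s.2.1 s.2.2) (kk p q r s.1 s.2.2)) (ew w) from rfl, key, hF, ← Matrix.mul_assoc, hA,
      Matrix.smul_mul, smul_smul]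
    have hx : (oriZ s ^^ false) = oriZ s := by cases oriZ s <;> rfl
    rw [hx]

end Pool.Agent.Helper94.CXF
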