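import Pool.Agent.Helper94.CXF.Br2

/-!
FARL: the runs of two letters in far coordinates.
-/

set_option autoImplicit false
noncomputable section
namespace Pool.Agent.Helper94.CXF

open Pool.Agent.Helper6.MONO
open Pool.Agent.Helper21.SUP (GS DG DG_nx)
open Pool.Agent.Helper21.SUP renaming nx → nxs

/-! ### generic -/

/-- `L` coordinates of a target `(k', h', ..)` -/
def Dt (h h' : ℂ) : M3 := !![1 / h', 0, 0; 0, 1 / (h * h'), 0; 0, 0, 1]

theorem FLn_Dt (k h h' : ℂ) (hk : k ≠ 0) (hh : h ≠ 0) (hh' : h' ≠ 0) :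
    FLn true k h h' = Dt h h' * Fl true k h h' := by
  ext i j
  fin_cases i <;> fin_cases j <;>
    simp [FLn, Dt, Fl, Matrix.mul_apply, Fin.sum_univ_three, lamF] <;> (try field_simp)

theorem g_N1t (k h h' : ℝ) (e : ℂ) (hk : (k : ℂ) ≠ 0) (hh : (h : ℂ) ≠ 0) (hh' : (h' : ℂ) ≠ 0)
    (h1 : dn true (lamF k h h') e ≠ 0) :
    FLn true h h' k * N1m k (tF true (lamF k h h') e) (lamF k h h' / lamF h h' k) =
      ((2 / (h' * (k * h')) : ℝ) : ℂ) • (toM (TNm k h') * FY true k h h' e) := by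
  rw [FLn_Dt _ _ _ hh hh' hk, Matrix.mul_assoc, far_N1 true _ _ _ _ hk hh hh' h1, Matrix.mul_smul,
    ← Matrix.mul_assoc]
  have e1 : Dt (h' : ℂ) k * T1f true k h' e = ((1 / (k * h') : ℝ) : ℂ) • toM (TNm k h') := by
    ext i j
    fin_cases i <;> fin_cases j <;>
      simp [Dt, T1f, toM, TNm, Matrix.mul_apply, Fin.sum_univ_three] <;> (try field_simp)
  rw [e1, Matrix.smul_mul, smul_smul]
  congr 1
  push_cast
  field_simp

theorem g_N1f (k h h' : ℝ) (e : ℂ) (hk : (k : ℂ) ≠ 0) (hh : (h : ℂ) ≠ 0) (hh' : (h' : ℂ) ≠ 0)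
    (h1 : dn false (lamF k h h') e ≠ 0) :
    FLn false h h' k * N1m k (tF false (lamF k h h') e) (lamF k h h' / lamF h h' k) =
      ((2 / h' : ℝ) : ℂ) • (at2 (TNp k h') e * FY false k h h' e) := by
  have e0 : FLn false h h' k = Fl false h h' k := by simp [FLn]
  rw [e0, far_N1 false _ _ _ _ hk hh hh' h1]
  have e1 : T1f false k h' e = at2 (TNp k h') e := by
    ext i j
    fin_cases i <;> fin_cases j <;>
      simp [at2, T1f, toM, TNp] <;> (try ring)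
  rw [e1]
  push_cast
  rfl

theorem g_T2t (k h h' : ℝ) (e : ℂ) (hk : (k : ℂ) ≠ 0) (hh : (h : ℂ) ≠ 0) (hh' : (h' : ℂ) ≠ 0)
    (h1 : dn true (lamF k h h') e ≠ 0) (h2 : dn true (lamF h h' k) e ≠ 0) :
    FLn true h' k h * T2m k h (tF true (lamF k h h') e) (omF true (lamF h h' k) e)
        (dn true (lamF k h h') e / dn true (lamF h h' k) e) (lamF h h' k / lamF h' k h) =
      (((2 / (h' * k * (k * h)) : ℝ) : ℂ) / dn true (lamF h h' k) e) •
        (at2 (TTm k h h') e * FY true k h h' e) := by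
  rw [FLn_Dt _ _ _ hh' hk hh, Matrix.mul_assoc, far_T2t _ _ _ _ hk hh hh' h1 h2, Matrix.mul_smul,
    ← Matrix.mul_assoc]
  have e1 : Dt (k : ℂ) h * T2f k h h' e = ((1 / (k * h) : ℝ) : ℂ) • at2 (TTm k h h') e := by
    ext i j
    fin_cases i <;> fin_cases j <;>
      simp [Dt, T2f, at2, toM, TTm, Matrix.mul_apply, Fin.sum_univ_three] <;> (try field_simp) <;>
      (try exact Or.inl trivial)
  rw [e1, Matrix.smul_mul, smul_smul, gT]
  congr 1
  push_cast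
  field_simp

theorem g_TPp (k h h' : ℝ) (e : ℂ) :
    T1f false h k e * T1f false k h' e = at2 (TPp k h h') e := by
  ext i j
  fin_cases i <;> fin_cases j <;>
    simp [at2, T1f, toM, TPp, Matrix.mul_apply, Fin.sum_univ_three] <;> (try ring)

theorem g_T2f (k h h' : ℝ) (e : ℂ) (hk : (k : ℂ) ≠ 0) (hh : (h : ℂ) ≠ 0) (hh' : (h' : ℂ) ≠ 0)
    (h1 : dn false (lamF k h h') e ≠ 0) (h2 : dn false (lamF h h' k) e ≠ 0) :
    FLn false h' k h * T2m k h (tF false (lamF k h h') e) (omF false (lamF h h' k) e)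
        (dn false (lamF k h h') e / dn false (lamF h h' k) e) (lamF h h' k / lamF h' k h) =
      (((2 / (h' * k) : ℝ) : ℂ) / dn false (lamF h h' k) e) •
        (at2 (TPp k h h') e * FY false k h h' e) := by
  have e0 : FLn false h' k h = Fl false h' k h := by simp [FLn]
  rw [e0, far_T2f _ _ _ _ hk hh hh' h1 h2, g_TPp, gT]
  congr 1
  push_cast
  field_simp

theorem g_UUt (k h h' : ℝ) (e : ℂ) (hk : (k : ℂ) ≠ 0) (hh : (h : ℂ) ≠ 0) (hh' : (h' : ℂ) ≠ 0)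
    (h1 : dn true (lamF k h h') e ≠ 0) :
    FLn true h' k h * UUm k h (tF true (lamF k h h') e) (omF true (lamF k h h') e)
        (lamF h h' k / lamF h' k h) =
      (((2 / (k * h' * (k * h)) : ℝ) : ℂ) / dn true (lamF k h h') e) •
        (at2 (TUm k h h') e * FLn true k h h') := by
  rw [FLn_Dt _ _ _ hh' hk hh, Matrix.mul_assoc, far_UUt _ _ _ _ hk hh hh' h1, Matrix.mul_smul,
    ← Matrix.mul_assoc]
  have e1 : Dt (k : ℂ) h * UUf k h h' e * !![(h' : ℂ), 0, 0; 0, (h : ℂ) * h', 0; 0, 0, 1] =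
      ((1 / (k * h) : ℝ) : ℂ) • at2 (TUm k h h') e := by
    ext i j
    fin_cases i <;> fin_cases j <;>
      simp [Dt, UUf, at2, toM, TUm, Matrix.mul_apply, Fin.sum_univ_three] <;>
      (try field_simp) <;> (try ring)
  have e2 : Fl true (k : ℂ) h h' = !![(h' : ℂ), 0, 0; 0, (h : ℂ) * h', 0; 0, 0, 1] *
      FLn true k h h' := by
    have := Fl_Dg true (k : ℂ) h h' hk hh'
    rw [this, Dg]
    rfl
  rw [e2, ← Matrix.mul_assoc, e1, Matrix.smul_mul, smul_smul]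
  congr 1
  push_cast
  field_simp

theorem g_UUf (k h h' : ℝ) (e : ℂ) (hk : (k : ℂ) ≠ 0) (hh : (h : ℂ) ≠ 0) (hh' : (h' : ℂ) ≠ 0)
    (h1 : dn false (lamF k h h') e ≠ 0) :
    FLn false h' k h * UUm k h (tF false (lamF k h h') e) (omF false (lamF k h h') e)
        (lamF h h' k / lamF h' k h) =
      (((2 / (k * h') : ℝ) : ℂ) / dn false (lamF k h h') e) •
        (at2 (TPp k h h') e * FLn false k h h') := by
  have e0 : ∀ a b c : ℂ, FLn false a b c = Fl false a b c := by intro a b c; simp [FLn]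
  rw [e0, e0, far_UUf _ _ _ _ hk hh hh' h1, g_TPp]
  congr 1
  push_cast
  field_simp

/-! ### at the states -/

variable {p q r : ℕ}

theorem lf_nx2 (s : GS) : lf p q r (nxs s 2) =
    lamF (kk p q r s.2.1 s.2.2) (kk p q r s.1 s.2.2) (kk p q r s.1 s.2.1) := by
  rw [lf, nx2, ← symK s.1 s.2.2, ← symK s.1 s.2.1]

theorem lf_nx22 (s : GS) : lf p q r (nxs (nxs s 2) 2) =
    lamF (kk p q r s.1 s.2.2) (kk p q r s.1 s.2.1) (kk p q r s.2.1 s.2.2) := by
  rw [lf_nx2, nx2, ← symK s.1 s.2.2, ← symK s.1 s.2.1]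

theorem ori22 {s : GS} (hs : DG s) : oriZ (nxs (nxs s 2) 2) = oriZ s := by
  rw [oriZ_even (DG_nx s 2 hs), oriZ_even hs]

theorem rhotau {s : GS} {w : ℂ} (hw : 1 + w ≠ 0)
    (h1 : dS p q r s (ew w) ≠ 0) (h2 : dS p q r (nxs s 2) (ew w) ≠ 0) :
    rhoG p q r s w * tauG p q r s w = lf p q r s / lf p q r (nxs s 2) := by
  rw [rhoG, tauG, denS_dn p q r s hw, denS_dn p q r _ hw, lf_eq, lf_eq]
  push_cast
  field_simp

theorem N1m_far {s : GS} {w : ℂ} (hw : 1 + w ≠ 0)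
    (h1 : dS p q r s (ew w) ≠ 0) (h2 : dS p q r (nxs s 2) (ew w) ≠ 0)
    (hk : kk p q r s.1 s.2.1 ≠ 0) :
    Pool.Agent.Helper6.MONO.N1m p q r s w = N1m (kk p q r s.1 s.2.1)
      (tF (oriZ s) (lf p q r s) (ew w)) (lf p q r s / lf p q r (nxs s 2)) := by
  have e : (SS p q r s : ℂ) = 4 / (kk p q r s.1 s.2.1 : ℂ) ^ 2 - 1 := by
    rw [SS, SbP_k hk]; push_cast; ring
  rw [Pool.Agent.Helper6.MONO.N1m, N1m, te_far s hw h1, rhotau hw h1 h2, e]

theorem T2m_far (hp : 3 ≤ p) (hq : 3 ≤ q) (hr : 3 ≤ r) {s : GS} (hs : DG s) {w : ℂ}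
    (hw : 1 + w ≠ 0) (he : ‖ew w‖ ≤ 1 / 8) :
    NLm p q r (nxs s 2) w * Pool.Agent.Helper6.MONO.N1m p q r s w =
      T2m (kk p q r s.1 s.2.1) (kk p q r s.2.1 s.2.2) (tF (oriZ s) (lf p q r s) (ew w))
        (omF (oriZ (nxs s 2)) (lf p q r (nxs s 2)) (ew w))
        (dS p q r s (ew w) / dS p q r (nxs s 2) (ew w))
        (lf p q r (nxs s 2) / lf p q r (nxs (nxs s 2) 2)) := by
  have hs1 := DG_nx s 2 hs
  have hs2 := DG_nx _ 2 hs1
  have d0 := dS_ne hp hq hr hs he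
  have d1 := dS_ne hp hq hr hs1 he
  have d2 := dS_ne hp hq hr hs2 he
  have D0 : denS p q r s w ≠ 0 := by rw [denS_dn p q r s hw]; exact mul_ne_zero hw d0
  have D1 : denS p q r (nxs s 2) w ≠ 0 := by rw [denS_dn p q r _ hw]; exact mul_ne_zero hw d1
  have D2 : denS p q r (nxs (nxs s 2) 2) w ≠ 0 := by
    rw [denS_dn p q r _ hw]; exact mul_ne_zero hw d2
  have hk := (LNI_kk hp hq hr s.1 s.2.1 hs.1).1.ne'
  have hk1 := (LNI_kk hp hq hr s.2.1 s.2.2 hs.2.1).1.ne'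
  have e : (SS p q r s : ℂ) = 4 / (kk p q r s.1 s.2.1 : ℂ) ^ 2 - 1 := by
    rw [SS, SbP_k hk]; push_cast; ring
  have e' : (SS p q r (nxs s 2) : ℂ) = 4 / (kk p q r s.2.1 s.2.2 : ℂ) ^ 2 - 1 := by
    rw [SS, nx2, SbP_k hk1]; push_cast; ring
  have f1 := rhoG_om hs D0 D1
  have f2 := tauG_te hp hq hr hs D0 D1
  have f3 := rhoG_om hs1 D1 D2
  have f4 : rhoG p q r s w = dS p q r s (ew w) / dS p q r (nxs s 2) (ew w) := by
    rw [rhoG, denS_dn p q r s hw, denS_dn p q r _ hw]; field_simp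
  have f5 := rhotau hw d1 d2
  have f6 : omS p q r s w + teS p q r s w = 1 / 2 := by rw [teS]; ring
  rw [← te_far s hw d0, ← om_far _ hw d1, ← f4, ← f5, NLm, Pool.Agent.Helper6.MONO.N1m, T2m,
    ← e, ← e', ← f3, ← f2]
  generalize omS p q r (nxs s 2) w = o1 at *
  rw [← f2] at f6
  generalize omS p q r s w = o0 at *
  generalize teS p q r (nxs s 2) w = t1 at *
  generalize tauG p q r s w = ta at *
  generalize rhoG p q r s w = ro at *
  generalize tauG p q r (nxs s 2) w = ta1 at *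
  generalize rhoG p q r (nxs s 2) w = ro1 at *
  generalize SS p q r s = S0 at *
  generalize SS p q r (nxs s 2) = S1 at *
  have f7 : o1 = ro * o0 := f1.symm
  ext i j
  fin_cases i <;> fin_cases j <;>
    simp [Matrix.mul_apply, Fin.sum_univ_three]
  · linear_combination 2 * f7 + 2 * ro * f6
  all_goals first | exact Or.inl (by ring) | ring

theorem UUm_far {s : GS} {w : ℂ} (hw : 1 + w ≠ 0)
    (d0 : dS p q r s (ew w) ≠ 0) (d1 : dS p q r (nxs s 2) (ew w) ≠ 0)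
    (d2 : dS p q r (nxs (nxs s 2) 2) (ew w) ≠ 0)
    (hk : kk p q r s.1 s.2.1 ≠ 0) (hk1 : kk p q r s.2.1 s.2.2 ≠ 0) :
    Pool.Agent.Helper6.MONO.UUm p q r s w =
      UUm (kk p q r s.1 s.2.1) (kk p q r s.2.1 s.2.2) (tF (oriZ s) (lf p q r s) (ew w))
        (omF (oriZ s) (lf p q r s) (ew w))
        (lf p q r (nxs s 2) / lf p q r (nxs (nxs s 2) 2)) := by
  have e : (SS p q r s : ℂ) = 4 / (kk p q r s.1 s.2.1 : ℂ) ^ 2 - 1 := by
    rw [SS, SbP_k hk]; push_cast; ring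
  have e' : (SS p q r (nxs s 2) : ℂ) = 4 / (kk p q r s.2.1 s.2.2 : ℂ) ^ 2 - 1 := by
    rw [SS, nx2, SbP_k hk1]; push_cast; ring
  rw [← te_far s hw d0, ← om_far s hw d0, ← rhotau hw d1 d2, Pool.Agent.Helper6.MONO.UUm, UUm,
    ← e, ← e']

end Pool.Agent.Helper94.CXF
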