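import Pool.Agent.Helper94.CXF.Br3

/-!
FARL: summary of the far coordinates at the states.
-/

set_option autoImplicit false
noncomputable section
namespace Pool.Agent.Helper94.CXF

open Pool.Agent.Helper6.MONO
open Pool.Agent.Helper21.SUP (GS DG DG_nx)
open Pool.Agent.Helper21.SUP renaming nx → nxs

variable {p q r : ℕ}

theorem nx22 (s : GS) : nxs (nxs s 2) 2 = (s.2.2, s.1, s.2.1) := rfl

/-- far coordinates at a state -/
def Fs (p q r : ℕ) (L : Bool) (s : GS) (e : ℂ) : M3 :=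
  Fn (oriZ s) L (kk p q r s.1 s.2.1) (kk p q r s.2.1 s.2.2) (kk p q r s.1 s.2.2) e

/-- the run matrix of `i + 3` letters -/
def TRs (p q r : ℕ) (L : Bool) (s : GS) (i : ℕ) : M9 ℝ × M9 ℝ :=
  TRr (oriZ s) L (oriZ (nxs s (i + 3))) (kk p q r s.2.1 s.2.2) (kk p q r s.1 s.2.2)
    (uC (kk p q r s.1 s.2.1) (i + 3)) (uC (kk p q r s.1 s.2.1) (i + 2))
    (uC (kk p q r s.1 s.2.1) (i + 1)) (eC (kk p q r s.1 s.2.1) (i + 2))
    (eC (kk p q r s.1 s.2.1) (i + 1)) (eC (kk p q r s.1 s.2.1) i)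

def z9 : M9 ℝ := ⟨0, 0, 0, 0, 0, 0, 0, 0, 0⟩

/-- one run of two -/
def TNs (p q r : ℕ) (s : GS) : M9 ℝ × M9 ℝ :=
  if oriZ s then (TNm (kk p q r s.1 s.2.1) (kk p q r s.1 s.2.2), z9)
  else TNp (kk p q r s.1 s.2.1) (kk p q r s.1 s.2.2)

/-- two runs of two from `Y` -/
def TTs (p q r : ℕ) (s : GS) : M9 ℝ × M9 ℝ :=
  if oriZ s then TTm (kk p q r s.1 s.2.1) (kk p q r s.2.1 s.2.2) (kk p q r s.1 s.2.2)
  else TPp (kk p q r s.1 s.2.1) (kk p q r s.2.1 s.2.2) (kk p q r s.1 s.2.2)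

/-- two runs of two from `L` -/
def TUs (p q r : ℕ) (s : GS) : M9 ℝ × M9 ℝ :=
  if oriZ s then TUm (kk p q r s.1 s.2.1) (kk p q r s.2.1 s.2.2) (kk p q r s.1 s.2.2)
  else TPp (kk p q r s.1 s.2.1) (kk p q r s.2.1 s.2.2) (kk p q r s.1 s.2.2)

/-- far coordinates of a vector -/
def fv (p q r : ℕ) (L : Bool) (s : GS) (e : ℂ) (v : Fin 3 → ℂ) : Fin 3 → ℂ :=
  (Fs p q r L s e).mulVec v

/-- the action of an affine family -/
def ap (T : M9 ℝ × M9 ℝ) (e : ℂ) (x : Fin 3 → ℂ) : Fin 3 → ℂ := (at2 T e).mulVec x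

/-- first coordinate -/
def c0 (p q r : ℕ) (L : Bool) (s : GS) : ℝ := if oriZ s && L then 1 / kk p q r s.1 s.2.2 else 1

theorem c0_pos (hp : 3 ≤ p) (hq : 3 ≤ q) (hr : 3 ≤ r) (L : Bool) {s : GS} (hs : DG s) :
    0 < c0 p q r L s := by
  have := (LNI_kk hp hq hr s.1 s.2.2 (Ne.symm hs.2.2)).1
  rw [c0]
  split_ifs
  · positivity
  · norm_num

theorem fv_zero (L : Bool) (s : GS) (e : ℂ) (v : Fin 3 → ℂ) :
    fv p q r L s e v 0 = (c0 p q r L s : ℂ) * v 0 := by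
  rw [fv, Fs, c0, Fn]
  cases L <;> cases oriZ s <;>
    simp [FY, FLn, Fl, Matrix.mulVec, dotProduct, Fin.sum_univ_three]

theorem run_far (hp : 3 ≤ p) (hq : 3 ≤ q) (hr : 3 ≤ r) {s : GS} (hs : DG s) (L : Bool) {i : ℕ}
    (hm : i + 3 ≤ mm p q r s.1 s.2.1) {w : ℂ} (hw : 1 + w ≠ 0) (he : ‖ew w‖ ≤ 1 / 8) :
    ∃ c : ℝ, 0 < c ∧ ∀ v, fv p q r false (nxs s (i + 3)) (ew w)
        ((GR p q r L s (i + 3) w).mulVec v) =
      ((c : ℂ) / dS p q r s (ew w)) • ap (TRs p q r L s i) (ew w) (fv p q r L s (ew w) v) := by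
  obtain ⟨c, hc, h⟩ := GR_far hp hq hr hs L hm hw he
  refine ⟨c, hc, fun v => ?_⟩
  have h1 := congrArg (fun A : M3 => A.mulVec v) h
  simp only [Matrix.smul_mulVec, ← Matrix.mulVec_mulVec] at h1
  exact h1

theorem N1_far (hp : 3 ≤ p) (hq : 3 ≤ q) (hr : 3 ≤ r) {s : GS} (hs : DG s) {w : ℂ}
    (hw : 1 + w ≠ 0) (he : ‖ew w‖ ≤ 1 / 8) :
    ∃ c : ℂ, c ≠ 0 ∧ ∀ v, fv p q r true (nxs s 2) (ew w)
        ((Pool.Agent.Helper6.MONO.N1m p q r s w).mulVec v) =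
      c • ap (TNs p q r s) (ew w) (fv p q r false s (ew w) v) := by
  have d0 := dS_ne hp hq hr hs he
  have d1 := dS_ne hp hq hr (DG_nx s 2 hs) he
  have hk := (LNI_kk hp hq hr s.1 s.2.1 hs.1).1
  have hh := (LNI_kk hp hq hr s.2.1 s.2.2 hs.2.1).1
  have hh' := (LNI_kk hp hq hr s.1 s.2.2 (Ne.symm hs.2.2)).1
  have hk0 : (kk p q r s.1 s.2.1 : ℂ) ≠ 0 := by exact_mod_cast hk.ne'
  have hh0 : (kk p q r s.2.1 s.2.2 : ℂ) ≠ 0 := by exact_mod_cast hh.ne'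
  have hg0 : (kk p q r s.1 s.2.2 : ℂ) ≠ 0 := by exact_mod_cast hh'.ne'
  have e1 := N1m_far (p := p) (q := q) (r := r) hw d0 d1 hk.ne'
  rw [dS] at d0
  have e2 : Fs p q r true (nxs s 2) (ew w) =
      FLn (oriZ s) (kk p q r s.2.1 s.2.2) (kk p q r s.1 s.2.2) (kk p q r s.1 s.2.1) := by
    rw [Fs, Fn, if_pos rfl, oriZ_even hs, nx2, ← symK s.1 s.2.2, ← symK s.1 s.2.1]
  cases ho : oriZ s with
  | true =>
    rw [ho] at d0 e1 e2
    have key := g_N1t (kk p q r s.1 s.2.1) (kk p q r s.2.1 s.2.2) (kk p q r s.1 s.2.2) (ew w)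
      hk0 hh0 hg0 d0
    refine ⟨((2 / (kk p q r s.1 s.2.2 * (kk p q r s.1 s.2.1 * kk p q r s.1 s.2.2)) : ℝ) : ℂ),
      ?_, fun v => ?_⟩
    rotate_left
    · rw [lf_nx2, lf] at e1
      rw [fv, fv, ap, Matrix.mulVec_mulVec, e2, e1, key, Matrix.smul_mulVec, Matrix.mulVec_mulVec,
        TNs, ho, if_pos rfl, Fs, ho, Fn, if_neg (by decide)]
      have ez : at2 (TNm (kk p q r s.1 s.2.1) (kk p q r s.1 s.2.2), z9) (ew w) =
          toM (TNm (kk p q r s.1 s.2.1) (kk p q r s.1 s.2.2)) := by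
        rw [at2]
        ext i j
        fin_cases i <;> fin_cases j <;> simp [toM, z9]
      rw [ez]
    · have : (0 : ℝ) < 2 / (kk p q r s.1 s.2.2 * (kk p q r s.1 s.2.1 * kk p q r s.1 s.2.2)) := by
        positivity
      exact_mod_cast this.ne'
  | false =>
    rw [ho] at d0 e1 e2
    have key := g_N1f (kk p q r s.1 s.2.1) (kk p q r s.2.1 s.2.2) (kk p q r s.1 s.2.2) (ew w)
      hk0 hh0 hg0 d0
    refine ⟨((2 / kk p q r s.1 s.2.2 : ℝ) : ℂ), ?_, fun v => ?_⟩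
    rotate_left
    · rw [lf_nx2, lf] at e1
      rw [fv, fv, ap, Matrix.mulVec_mulVec, e2, e1, key, Matrix.smul_mulVec, Matrix.mulVec_mulVec,
        TNs, ho, if_neg (by decide), Fs, ho, Fn, if_neg (by decide)]
    · have : (0 : ℝ) < 2 / kk p q r s.1 s.2.2 := by positivity
      exact_mod_cast this.ne'

theorem T2_far (hp : 3 ≤ p) (hq : 3 ≤ q) (hr : 3 ≤ r) {s : GS} (hs : DG s) {w : ℂ}
    (hw : 1 + w ≠ 0) (he : ‖ew w‖ ≤ 1 / 8) :
    ∃ c : ℂ, c ≠ 0 ∧ ∀ v, fv p q r true (nxs (nxs s 2) 2) (ew w)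
        ((NLm p q r (nxs s 2) w).mulVec ((Pool.Agent.Helper6.MONO.N1m p q r s w).mulVec v)) =
      c • ap (TTs p q r s) (ew w) (fv p q r false s (ew w) v) := by
  have d0 := dS_ne hp hq hr hs he
  have d1 := dS_ne hp hq hr (DG_nx s 2 hs) he
  have hk := (LNI_kk hp hq hr s.1 s.2.1 hs.1).1
  have hh := (LNI_kk hp hq hr s.2.1 s.2.2 hs.2.1).1
  have hh' := (LNI_kk hp hq hr s.1 s.2.2 (Ne.symm hs.2.2)).1
  have hk0 : (kk p q r s.1 s.2.1 : ℂ) ≠ 0 := by exact_mod_cast hk.ne'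
  have hh0 : (kk p q r s.2.1 s.2.2 : ℂ) ≠ 0 := by exact_mod_cast hh.ne'
  have hg0 : (kk p q r s.1 s.2.2 : ℂ) ≠ 0 := by exact_mod_cast hh'.ne'
  have e1 := T2m_far hp hq hr hs hw he
  have e2 : Fs p q r true (nxs (nxs s 2) 2) (ew w) =
      FLn (oriZ s) (kk p q r s.1 s.2.2) (kk p q r s.1 s.2.1) (kk p q r s.2.1 s.2.2) := by
    rw [Fs, Fn, if_pos rfl, ori22 hs, nx22]
    change FLn (oriZ s) (kk p q r s.2.2 s.1) (kk p q r s.1 s.2.1) (kk p q r s.2.2 s.2.1) = _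
    rw [← symK s.1 s.2.2, ← symK s.2.1 s.2.2]
  rw [dS] at d0
  rw [dS, oriZ_even hs, lf_nx2] at d1
  rw [lf_nx22, lf_nx2, dS, dS, lf_nx2, oriZ_even hs] at e1
  cases ho : oriZ s with
  | true =>
    rw [ho] at d0 d1 e1 e2
    have key := g_T2t (kk p q r s.1 s.2.1) (kk p q r s.2.1 s.2.2) (kk p q r s.1 s.2.2) (ew w)
      hk0 hh0 hg0 d0 d1
    refine ⟨((2 / (kk p q r s.1 s.2.2 * kk p q r s.1 s.2.1 *
          (kk p q r s.1 s.2.1 * kk p q r s.2.1 s.2.2)) : ℝ) : ℂ) /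
      dn true (lamF (kk p q r s.2.1 s.2.2) (kk p q r s.1 s.2.2) (kk p q r s.1 s.2.1)) (ew w),
      ?_, fun v => ?_⟩
    rotate_left
    · rw [lf] at e1
      rw [fv, fv, ap, Matrix.mulVec_mulVec, Matrix.mulVec_mulVec, Matrix.mul_assoc, e1, e2, key,
        Matrix.smul_mulVec, Matrix.mulVec_mulVec, TTs, ho, if_pos rfl, Fs, ho, Fn,
        if_neg (by decide)]
    · have : (0 : ℝ) < 2 / (kk p q r s.1 s.2.2 * kk p q r s.1 s.2.1 *
          (kk p q r s.1 s.2.1 * kk p q r s.2.1 s.2.2)) := by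
        positivity
      refine div_ne_zero ?_ d1
      exact_mod_cast this.ne'
  | false =>
    rw [ho] at d0 d1 e1 e2
    have key := g_T2f (kk p q r s.1 s.2.1) (kk p q r s.2.1 s.2.2) (kk p q r s.1 s.2.2) (ew w)
      hk0 hh0 hg0 d0 d1
    refine ⟨((2 / (kk p q r s.1 s.2.2 * kk p q r s.1 s.2.1) : ℝ) : ℂ) /
      dn false (lamF (kk p q r s.2.1 s.2.2) (kk p q r s.1 s.2.2) (kk p q r s.1 s.2.1)) (ew w),
      ?_, fun v => ?_⟩
    rotate_left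
    · rw [lf] at e1
      rw [fv, fv, ap, Matrix.mulVec_mulVec, Matrix.mulVec_mulVec, Matrix.mul_assoc, e1, e2, key,
        Matrix.smul_mulVec, Matrix.mulVec_mulVec, TTs, ho, if_neg (by decide), Fs, ho, Fn,
        if_neg (by decide)]
    · have : (0 : ℝ) < 2 / (kk p q r s.1 s.2.2 * kk p q r s.1 s.2.1) := by positivity
      refine div_ne_zero ?_ d1
      exact_mod_cast this.ne'

theorem UU_far (hp : 3 ≤ p) (hq : 3 ≤ q) (hr : 3 ≤ r) {s : GS} (hs : DG s) {w : ℂ}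
    (hw : 1 + w ≠ 0) (he : ‖ew w‖ ≤ 1 / 8) :
    ∃ c : ℝ, 0 < c ∧ ∀ v, fv p q r true (nxs (nxs s 2) 2) (ew w)
        ((Pool.Agent.Helper6.MONO.UUm p q r s w).mulVec v) =
      ((c : ℂ) / dS p q r s (ew w)) • ap (TUs p q r s) (ew w) (fv p q r true s (ew w) v) := by
  have d0 := dS_ne hp hq hr hs he
  have d1 := dS_ne hp hq hr (DG_nx s 2 hs) he
  have d2 := dS_ne hp hq hr (DG_nx _ 2 (DG_nx s 2 hs)) he
  have hk := (LNI_kk hp hq hr s.1 s.2.1 hs.1).1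
  have hh := (LNI_kk hp hq hr s.2.1 s.2.2 hs.2.1).1
  have hh' := (LNI_kk hp hq hr s.1 s.2.2 (Ne.symm hs.2.2)).1
  have hk0 : (kk p q r s.1 s.2.1 : ℂ) ≠ 0 := by exact_mod_cast hk.ne'
  have hh0 : (kk p q r s.2.1 s.2.2 : ℂ) ≠ 0 := by exact_mod_cast hh.ne'
  have hg0 : (kk p q r s.1 s.2.2 : ℂ) ≠ 0 := by exact_mod_cast hh'.ne'
  have e1 := UUm_far (p := p) (q := q) (r := r) hw d0 d1 d2 hk.ne' hh.ne'
  have e2 : Fs p q r true (nxs (nxs s 2) 2) (ew w) =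
      FLn (oriZ s) (kk p q r s.1 s.2.2) (kk p q r s.1 s.2.1) (kk p q r s.2.1 s.2.2) := by
    rw [Fs, Fn, if_pos rfl, ori22 hs, nx22]
    change FLn (oriZ s) (kk p q r s.2.2 s.1) (kk p q r s.1 s.2.1) (kk p q r s.2.2 s.2.1) = _
    rw [← symK s.1 s.2.2, ← symK s.2.1 s.2.2]
  rw [dS] at d0
  rw [lf_nx22, lf_nx2] at e1
  cases ho : oriZ s with
  | true =>
    rw [ho] at d0 e1 e2
    have key := g_UUt (kk p q r s.1 s.2.1) (kk p q r s.2.1 s.2.2) (kk p q r s.1 s.2.2) (ew w)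
      hk0 hh0 hg0 d0
    refine ⟨2 / (kk p q r s.1 s.2.1 * kk p q r s.1 s.2.2 *
      (kk p q r s.1 s.2.1 * kk p q r s.2.1 s.2.2)), by positivity, fun v => ?_⟩
    rw [lf] at e1
    rw [fv, fv, ap, e1, Matrix.mulVec_mulVec, e2, key,
      Matrix.smul_mulVec, Matrix.mulVec_mulVec, TUs, ho, if_pos rfl, Fs, ho, Fn,
      if_pos rfl, dS, ho, lf]
  | false =>
    rw [ho] at d0 e1 e2
    have key := g_UUf (kk p q r s.1 s.2.1) (kk p q r s.2.1 s.2.2) (kk p q r s.1 s.2.2) (ew w)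
      hk0 hh0 hg0 d0
    refine ⟨2 / (kk p q r s.1 s.2.1 * kk p q r s.1 s.2.2), by positivity, fun v => ?_⟩
    rw [lf] at e1
    rw [fv, fv, ap, e1, Matrix.mulVec_mulVec, e2, key,
      Matrix.smul_mulVec, Matrix.mulVec_mulVec, TUs, ho, if_neg (by decide), Fs, ho, Fn,
      if_pos rfl, dS, ho, lf]

end Pool.Agent.Helper94.CXF
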