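import Pool.Agent.Helper94.CXF.S11
import Pool.Agent.Helper51.CXF.Tab

/-!
FARL: the integer matrices of the kernel approximate the run matrices.
-/

set_option autoImplicit false
set_option exponentiation.threshold 4000
noncomputable section
namespace Pool.Agent.Helper94.CXF.SD

open Pool.Agent.Helper6.MONO
open Pool.Agent.Helper21.SUP (GS DG DG_nx)
open Pool.Agent.Helper21.SUP renaming nx → nxs
open Pool.Agent.Helper94.CXF (M9)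
open Pool.Agent.Helper94.CXF

/-- `N` is near `2 ^ 48 x`, `0 ≤ x ≤ a` -/
structure Qn (a r x : ℝ) (N : ℕ) : Prop where
  lo : 0 ≤ x
  hi : x ≤ a
  near : |(N : ℝ) - 2 ^ 48 * x| ≤ r

/-- `N` represents an integer near `2 ^ 48 x` -/
def EnA (x : ℝ) (N : ℕ) : Prop :=
  ∃ z : ℤ, Rp N z ∧ |(z : ℝ) - 2 ^ 48 * x| ≤ 256 ∧ |x| ≤ 60

theorem Qn.mu {a b r t x y : ℝ} {N M : ℕ} (h1 : Qn a r x N) (h2 : Qn b t y M) (hr : r ≤ 256)
    (ht : t ≤ 256) : Qn (a * b) (a * t + b * r + 2) (x * y) (KN.mu N M) := by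
  have a0 : 0 ≤ a := h1.lo.trans h1.hi
  have b0 : 0 ≤ b := h2.lo.trans h2.hi
  have r0 : 0 ≤ r := (abs_nonneg _).trans h1.near
  have t0 : 0 ≤ t := (abs_nonneg _).trans h2.near
  refine ⟨mul_nonneg h1.lo h2.lo, mul_le_mul h1.hi h2.hi h2.lo a0, ?_⟩
  have e1 : KN.mu N M = N * M / 2 ^ 48 := Nat.shiftRight_eq_div_pow _ _
  obtain ⟨f1, f2⟩ : ((KN.mu N M : ℕ) : ℝ) * 2 ^ 48 ≤ N * M ∧
      (N : ℝ) * M ≤ ((KN.mu N M : ℕ) : ℝ) * 2 ^ 48 + 2 ^ 48 := by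
    rw [e1]
    have g1 := Nat.div_mul_le_self (N * M) (2 ^ 48)
    have g2 := Nat.lt_div_mul_add (a := N * M) (b := 2 ^ 48) (by norm_num)
    constructor
    · exact_mod_cast g1
    · exact_mod_cast g2.le
  have p := pr_near (x := (N : ℝ) / 2 ^ 48) (y := (M : ℝ) / 2 ^ 48) (x' := x) (y' := y)
    (a := a + r / 2 ^ 48) (b := b + t / 2 ^ 48) (α := r / 2 ^ 48) (β := t / 2 ^ 48)
    (by
      have h3 := abs_le.1 h1.near
      have : (0 : ℝ) ≤ N := Nat.cast_nonneg _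
      rw [abs_of_nonneg (by positivity), div_le_iff₀ (by positivity)]
      have := h1.hi
      have e : (a + r / 2 ^ 48) * 2 ^ 48 = 2 ^ 48 * a + r := by ring
      rw [e]
      linarith)
    (by
      have h3 := abs_le.1 h2.near
      have : (0 : ℝ) ≤ M := Nat.cast_nonneg _
      rw [abs_of_nonneg (by positivity), div_le_iff₀ (by positivity)]
      have := h2.hi
      have e : (b + t / 2 ^ 48) * 2 ^ 48 = 2 ^ 48 * b + t := by ring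
      rw [e]
      linarith)
    (by
      have e : (N : ℝ) / 2 ^ 48 - x = ((N : ℝ) - 2 ^ 48 * x) / 2 ^ 48 := by ring
      rw [e, abs_div, abs_of_pos (show (0 : ℝ) < 2 ^ 48 by positivity)]
      exact div_le_div_of_nonneg_right h1.near (by positivity))
    (by
      have e : (M : ℝ) / 2 ^ 48 - y = ((M : ℝ) - 2 ^ 48 * y) / 2 ^ 48 := by ring
      rw [e, abs_div, abs_of_pos (show (0 : ℝ) < 2 ^ 48 by positivity)]
      exact div_le_div_of_nonneg_right h2.near (by positivity))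
  have p' := abs_le.1 p
  have hm1 : r * t ≤ 256 * 256 := mul_le_mul hr ht t0 (by norm_num)
  have e2 : (a + r / 2 ^ 48) * (t / 2 ^ 48) + (b + t / 2 ^ 48) * (r / 2 ^ 48) +
      r / 2 ^ 48 * (t / 2 ^ 48) = (a * t + b * r + 3 * (r * t) / 2 ^ 48) / 2 ^ 48 := by ring
  have e3 : (N : ℝ) / 2 ^ 48 * (M / 2 ^ 48) = (N * M / 2 ^ 48) / 2 ^ 48 := by ring
  rw [e2, e3] at p'
  have q1 : (N * M / 2 ^ 48 : ℝ) - 2 ^ 48 * (x * y) ≤ a * t + b * r + 1 := by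
    have h3 := mul_le_mul_of_nonneg_right p'.2 (show (0 : ℝ) ≤ 2 ^ 48 by positivity)
    have e4 : ((N * M / 2 ^ 48 : ℝ) / 2 ^ 48 - x * y) * 2 ^ 48 =
      N * M / 2 ^ 48 - 2 ^ 48 * (x * y) := by ring
    have e5 : (a * t + b * r + 3 * (r * t) / 2 ^ 48) / 2 ^ 48 * 2 ^ 48 =
      a * t + b * r + 3 * (r * t) / 2 ^ 48 := by ring
    rw [e4, e5] at h3
    have : 3 * (r * t) / 2 ^ 48 ≤ 1 := by
      rw [div_le_iff₀ (by positivity)]
      linarith [show (3 : ℝ) * (256 * 256) ≤ 1 * 2 ^ 48 by norm_num]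
    linarith
  have q2 : -(a * t + b * r + 1) ≤ (N * M / 2 ^ 48 : ℝ) - 2 ^ 48 * (x * y) := by
    have h3 := mul_le_mul_of_nonneg_right p'.1 (show (0 : ℝ) ≤ 2 ^ 48 by positivity)
    have e4 : ((N * M / 2 ^ 48 : ℝ) / 2 ^ 48 - x * y) * 2 ^ 48 =
      N * M / 2 ^ 48 - 2 ^ 48 * (x * y) := by ring
    have e5 : -((a * t + b * r + 3 * (r * t) / 2 ^ 48) / 2 ^ 48) * 2 ^ 48 =
      -(a * t + b * r + 3 * (r * t) / 2 ^ 48) := by ring
    rw [e4, e5] at h3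
    have : 3 * (r * t) / 2 ^ 48 ≤ 1 := by
      rw [div_le_iff₀ (by positivity)]
      linarith [show (3 : ℝ) * (256 * 256) ≤ 1 * 2 ^ 48 by norm_num]
    linarith
  have f1' : ((KN.mu N M : ℕ) : ℝ) ≤ N * M / 2 ^ 48 := by
    rw [le_div_iff₀ (by positivity)]; exact f1
  have f2' : (N * M / 2 ^ 48 : ℝ) ≤ ((KN.mu N M : ℕ) : ℝ) + 1 := by
    rw [div_le_iff₀ (by positivity)]
    linarith
  rw [abs_le]
  constructor <;> linarith

theorem EnA.of {a r x : ℝ} {N : ℕ} (h : Qn a r x N) (ha : a ≤ 60) (hr : r ≤ 256) : EnA x N :=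
  ⟨N, Pool.Agent.Helper17.PAK.Rep.nat KN.MM N, by
    rw [Int.cast_natCast]; exact h.near.trans hr, by
    rw [abs_of_nonneg h.lo]; exact h.hi.trans ha⟩

theorem EnA.neg {x : ℝ} {N : ℕ} (h : EnA x N) : EnA (-x) (KN.nm N) := by
  obtain ⟨z, h1, h2, h3⟩ := h
  refine ⟨-z, rp_nm h1, ?_, by rwa [abs_neg]⟩
  have e : ((-z : ℤ) : ℝ) - 2 ^ 48 * -x = -((z : ℝ) - 2 ^ 48 * x) := by push_cast; ring
  rw [e, abs_neg]
  exact h2

theorem EnA.sub {a b r t x y : ℝ} {N M : ℕ} (h1 : Qn a r x N) (h2 : Qn b t y M)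
    (hab : a ≤ 60) (hb : b ≤ 60) (hr : r + t ≤ 256) : EnA (x - y) (KN.sb N M) := by
  refine ⟨(N : ℤ) - M, rp_sb (Pool.Agent.Helper17.PAK.Rep.nat KN.MM N)
    (Pool.Agent.Helper17.PAK.Rep.nat KN.MM M), ?_, ?_⟩
  · have e : (((N : ℤ) - (M : ℤ) : ℤ) : ℝ) - 2 ^ 48 * (x - y) =
      ((N : ℝ) - 2 ^ 48 * x) - ((M : ℝ) - 2 ^ 48 * y) := by push_cast; ring
    rw [e]
    exact (abs_sub _ _).trans (by linarith [h1.near, h2.near])
  · have := h1.lo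
    have := h1.hi
    have := h2.lo
    have := h2.hi
    rw [abs_le]
    constructor <;> linarith

theorem EnA.zero : EnA 0 0 := ⟨0, rp_zero, by norm_num, by norm_num⟩

theorem Qn_one : Qn 1 0 1 KN.u1N :=
  ⟨by norm_num, le_rfl, by
    have : (KN.u1N : ℝ) = 2 ^ 48 := by
      have h : KN.u1N = 2 ^ 48 := by decide +kernel
      rw [h]; norm_num
    rw [this]; norm_num⟩

theorem EnA.one : EnA 1 KN.u1N := EnA.of Qn_one (by norm_num) (by norm_num)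

theorem EnA.cast {x y : ℝ} {N : ℕ} (h : EnA x N) (e : x = y) : EnA y N := e ▸ h

/-- nine entries -/
theorem okT_of {T : M9 ℝ} {N : M9 ℕ} (a : EnA T.a N.a) (b : EnA T.b N.b) (c : EnA T.c N.c)
    (d : EnA T.d N.d) (e : EnA T.e N.e) (f : EnA T.f N.f) (g : EnA T.g N.g) (h : EnA T.h N.h)
    (i : EnA T.i N.i) : ∃ Z, OkT T N Z := by
  obtain ⟨za, a1, a2, a3⟩ := a
  obtain ⟨zb, b1, b2, b3⟩ := b
  obtain ⟨zc, c1, c2, c3⟩ := c
  obtain ⟨zd, d1, d2, d3⟩ := d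
  obtain ⟨ze, e1, e2, e3⟩ := e
  obtain ⟨zf, f1, f2, f3⟩ := f
  obtain ⟨zg, g1, g2, g3⟩ := g
  obtain ⟨zh, h1, h2, h3⟩ := h
  obtain ⟨zi, i1, i2, i3⟩ := i
  have bd : ∀ (z : ℤ) (x : ℝ), |(z : ℝ) - 2 ^ 48 * x| ≤ 256 → |x| ≤ 60 → |z| ≤ 2 ^ 54 := by
    intro z x hz hx
    have h1 := abs_le.1 hz
    have h2 := abs_le.1 hx
    have h3 : |(z : ℝ)| ≤ 2 ^ 54 := by
      rw [abs_le]
      constructor <;> norm_num at * <;> linarith
    rw [← Int.cast_abs] at h3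
    exact_mod_cast h3
  exact ⟨⟨za, zb, zc, zd, ze, zf, zg, zh, zi⟩, ⟨a1, b1, c1, d1, e1, f1, g1, h1, i1⟩,
    ⟨bd _ _ a2 a3, bd _ _ b2 b3, bd _ _ c2 c3, bd _ _ d2 d3, bd _ _ e2 e3, bd _ _ f2 f3,
      bd _ _ g2 g3, bd _ _ h2 h3, bd _ _ i2 i3⟩, ⟨a2, b2, c2, d2, e2, f2, g2, h2, i2⟩⟩

theorem okT_mk {tg : Bool} {r0 r1 r2 s0 s1 s2 n0 n1 n2 : ℝ} {a0 a1 a2 b0 b1 b2 c0 c1 c2 : ℕ}
    (h1 : EnA r0 a0) (h2 : EnA r1 a1) (h3 : EnA r2 a2) (h4 : EnA s0 b0) (h5 : EnA s1 b1)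
    (h6 : EnA s2 b2) (h7 : EnA n0 c0) (h8 : EnA n1 c1) (h9 : EnA n2 c2) :
    ∃ Z, OkT (mkM tg r0 r1 r2 s0 s1 s2 n0 n1 n2) (KN.mkN tg a0 a1 a2 b0 b1 b2 c0 c1 c2) Z := by
  cases tg
  · exact okT_of h1 h2 h3 h4 h5 h6 h7 h8 h9
  · exact okT_of h1 h2 h3 h7 h8 h9 h4 h5 h6

section
variable {k h g u1 u0 um e1 e0 em : ℝ} {kN hN gN v1 v0 vm f1 f0 fm : ℕ}

theorem okTR (o L tg : Bool) (hh : Qn 2 1 h hN) (hg : Qn 2 1 g gN) (a1 : Qn 3 16 u1 v1)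
    (a0 : Qn 3 16 u0 v0) (am : Qn 3 16 um vm) (b1 : Qn 9 24 e1 f1) (b0 : Qn 9 24 e0 f0)
    (bm : Qn 9 24 em fm) : ∃ Z0 Z1,
    OkT (TRr o L tg h g u1 u0 um e1 e0 em).1 (KN.TRN o L tg hN gN v1 v0 vm f1 f0 fm).1 Z0 ∧
    OkT (TRr o L tg h g u1 u0 um e1 e0 em).2 (KN.TRN o L tg hN gN v1 v0 vm f1 f0 fm).2 Z1 := by
  have z := EnA.zero
  have one := EnA.one
  have u1' : EnA u1 v1 := EnA.of a1 (by norm_num) (by norm_num)
  have u0' : EnA u0 v0 := EnA.of a0 (by norm_num) (by norm_num)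
  have um' : EnA um vm := EnA.of am (by norm_num) (by norm_num)
  have eh : ∀ {e : ℝ} {f : ℕ}, Qn 9 24 e f → EnA (e * h) (KN.mu f hN) := fun q =>
    EnA.of (q.mu hh (by norm_num) (by norm_num)) (by norm_num) (by norm_num)
  have eg : ∀ {e : ℝ} {f : ℕ}, Qn 9 24 e f → EnA (e * g) (KN.mu f gN) := fun q =>
    EnA.of (q.mu hg (by norm_num) (by norm_num)) (by norm_num) (by norm_num)
  have hgq := hh.mu hg (by norm_num) (by norm_num)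
  have ggq := hg.mu hg (by norm_num) (by norm_num)
  have ehg : ∀ {e : ℝ} {f : ℕ}, Qn 9 24 e f → EnA (e * (h * g)) (KN.mu f (KN.mu hN gN)) :=
    fun q => EnA.of (q.mu hgq (by norm_num) (by norm_num)) (by norm_num) (by norm_num)
  have uhg : ∀ {e : ℝ} {f : ℕ}, Qn 3 16 e f → EnA (e * (h * g)) (KN.mu f (KN.mu hN gN)) :=
    fun q => EnA.of (q.mu hgq (by norm_num) (by norm_num)) (by norm_num) (by norm_num)
  have egg : ∀ {e u : ℝ} {f v : ℕ}, Qn 9 24 e f → Qn 3 16 u v →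
      EnA (e * (g * g) - u) (KN.sb (KN.mu f (KN.mu gN gN)) v) := fun q q' =>
    EnA.sub (q.mu ggq (by norm_num) (by norm_num)) q' (by norm_num) (by norm_num) (by norm_num)
  have g' : EnA g gN := EnA.of hg (by norm_num) (by norm_num)
  have pack : ∀ {A B : M9 ℝ} {A' B' : M9 ℕ}, (∃ Z, OkT A A' Z) → (∃ Z, OkT B B' Z) →
      ∃ Z0 Z1, OkT A A' Z0 ∧ OkT B B' Z1 := by
    rintro A B A' B' ⟨Z, h⟩ ⟨W, h'⟩
    exact ⟨Z, W, h, h'⟩
  cases o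
  · exact pack (okT_mk (eg b1) u0'.neg z (eg b0) um'.neg z one z z)
      (okT_mk (eh b0) z u1' (eh bm) z u0' z z z)
  · cases L
    · exact pack (okT_mk (eh b0) z z (eh bm) z z one z z)
        (okT_mk (eg b1) u1' u0'.neg (eg b0) u0' um'.neg z z z)
    · exact pack (okT_mk (ehg b0) (uhg a1) z (ehg bm) (uhg a0) z g' z z)
        (okT_mk (egg b1 a0) z u0'.neg (egg b0 am) z um'.neg z z z)

theorem okTNm (hk : Qn 2 1 k kN) (hg : Qn 2 1 g gN) : ∃ Z, OkT (TNm k g) (KN.TNmN kN gN) Z := by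
  have gg : EnA (g * g) (KN.mu gN gN) :=
    EnA.of (hg.mu hg (by norm_num) (by norm_num)) (by norm_num) (by norm_num)
  have gk : EnA (g * k) (KN.mu gN kN) :=
    EnA.of (hg.mu hk (by norm_num) (by norm_num)) (by norm_num) (by norm_num)
  have g' : EnA g gN := EnA.of hg (by norm_num) (by norm_num)
  exact okT_of gg gk g'.neg EnA.one EnA.zero EnA.zero gg.neg EnA.zero g'

theorem okTNp (hk : Qn 2 1 k kN) (hg : Qn 2 1 g gN) : ∃ Z0 Z1,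
    OkT (TNp k g).1 (KN.TNpN kN gN).1 Z0 ∧ OkT (TNp k g).2 (KN.TNpN kN gN).2 Z1 := by
  have g' : EnA g gN := EnA.of hg (by norm_num) (by norm_num)
  have k' : EnA k kN := EnA.of hk (by norm_num) (by norm_num)
  have z := EnA.zero
  obtain ⟨Z0, h0⟩ : ∃ Z, OkT (TNp k g).1 (KN.TNpN kN gN).1 Z :=
    okT_of g' EnA.one.neg z z z z EnA.one z z
  obtain ⟨Z1, h1⟩ : ∃ Z, OkT (TNp k g).2 (KN.TNpN kN gN).2 Z :=
    okT_of z z k' z z EnA.one z z z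
  exact ⟨Z0, Z1, h0, h1⟩

theorem okTPp (hk : Qn 2 1 k kN) (hh : Qn 2 1 h hN) (hg : Qn 2 1 g gN) : ∃ Z0 Z1,
    OkT (TPp k h g).1 (KN.TPpN kN hN gN).1 Z0 ∧ OkT (TPp k h g).2 (KN.TPpN kN hN gN).2 Z1 := by
  have g' : EnA g gN := EnA.of hg (by norm_num) (by norm_num)
  have k' : EnA k kN := EnA.of hk (by norm_num) (by norm_num)
  have h' : EnA h hN := EnA.of hh (by norm_num) (by norm_num)
  have kg : EnA (k * g) (KN.mu kN gN) :=
    EnA.of (hk.mu hg (by norm_num) (by norm_num)) (by norm_num) (by norm_num)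
  have k1 : EnA (k * k - 1) (KN.sb (KN.mu kN kN) KN.u1N) :=
    EnA.sub (hk.mu hk (by norm_num) (by norm_num)) Qn_one (by norm_num) (by norm_num) (by norm_num)
  have z := EnA.zero
  obtain ⟨Z0, h0⟩ : ∃ Z, OkT (TPp k h g).1 (KN.TPpN kN hN gN).1 Z :=
    okT_of kg k'.neg z z z z g' EnA.one.neg z
  obtain ⟨Z1, h1⟩ : ∃ Z, OkT (TPp k h g).2 (KN.TPpN kN hN gN).2 Z :=
    okT_of h' z k1 EnA.one z z z z k'
  exact ⟨Z0, Z1, h0, h1⟩

theorem okTTm (hk : Qn 2 1 k kN) (hh : Qn 2 1 h hN) (hg : Qn 2 1 g gN) : ∃ Z0 Z1,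
    OkT (TTm k h g).1 (KN.TTmN kN hN gN).1 Z0 ∧ OkT (TTm k h g).2 (KN.TTmN kN hN gN).2 Z1 := by
  have g' : EnA g gN := EnA.of hg (by norm_num) (by norm_num)
  have k' : EnA k kN := EnA.of hk (by norm_num) (by norm_num)
  have kh : EnA (k * h) (KN.mu kN hN) :=
    EnA.of (hk.mu hh (by norm_num) (by norm_num)) (by norm_num) (by norm_num)
  have kkq := hk.mu hk (by norm_num) (by norm_num)
  have kk' : EnA (k * k) (KN.mu kN kN) := EnA.of kkq (by norm_num) (by norm_num)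
  have kkg : EnA (k * k * g) (KN.mu (KN.mu kN kN) gN) :=
    EnA.of (kkq.mu hg (by norm_num) (by norm_num)) (by norm_num) (by norm_num)
  have k3 : EnA (k * (k * k - 1)) (KN.kk1 kN) :=
    (EnA.sub (hk.mu kkq (by norm_num) (by norm_num)) hk (by norm_num) (by norm_num)
      (by norm_num)).cast (by ring)
  have z := EnA.zero
  obtain ⟨Z0, h0⟩ : ∃ Z, OkT (TTm k h g).1 (KN.TTmN kN hN gN).1 Z :=
    okT_of kh z z z z z z z z
  obtain ⟨Z1, h1⟩ : ∃ Z, OkT (TTm k h g).2 (KN.TTmN kN hN gN).2 Z :=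
    okT_of kkg k3 kk'.neg g' k' EnA.one.neg kkg.neg k3.neg kk'
  exact ⟨Z0, Z1, h0, h1⟩

theorem okTUm (hk : Qn 2 1 k kN) (hh : Qn 2 1 h hN) (hg : Qn 2 1 g gN) : ∃ Z0 Z1,
    OkT (TUm k h g).1 (KN.TUmN kN hN gN).1 Z0 ∧ OkT (TUm k h g).2 (KN.TUmN kN hN gN).2 Z1 := by
  have hgq := hh.mu hg (by norm_num) (by norm_num)
  have kkq := hk.mu hk (by norm_num) (by norm_num)
  have ggq := hg.mu hg (by norm_num) (by norm_num)
  have Pq := hk.mu hgq (by norm_num) (by norm_num)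
  have P' : EnA (k * (h * g)) (KN.mu kN (KN.mu hN gN)) := EnA.of Pq (by norm_num) (by norm_num)
  have pc : EnA (k * (h * g) * (k * k - 1)) (KN.pc (KN.mu kN (KN.mu hN gN)) kN) :=
    (EnA.sub (Pq.mu kkq (by norm_num) (by norm_num)) Pq (by norm_num) (by norm_num)
      (by norm_num)).cast (by ring)
  have q1 : EnA (k * k * (g * g - 1))
      (KN.sb (KN.mu (KN.mu kN kN) (KN.mu gN gN)) (KN.mu kN kN)) :=
    (EnA.sub (kkq.mu ggq (by norm_num) (by norm_num)) kkq (by norm_num) (by norm_num)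
      (by norm_num)).cast (by ring)
  have q2 : EnA (-(k * k * (g * g - 1)))
      (KN.sb (KN.mu kN kN) (KN.mu (KN.mu kN kN) (KN.mu gN gN))) :=
    (EnA.sub kkq (kkq.mu ggq (by norm_num) (by norm_num)) (by norm_num) (by norm_num)
      (by norm_num)).cast (by ring)
  have kk' : EnA (k * k) (KN.mu kN kN) := EnA.of kkq (by norm_num) (by norm_num)
  have g1 : EnA (g * g - 1) (KN.sb (KN.mu gN gN) KN.u1N) :=
    EnA.sub ggq Qn_one (by norm_num) (by norm_num) (by norm_num)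
  have z := EnA.zero
  obtain ⟨Z0, h0⟩ : ∃ Z, OkT (TUm k h g).1 (KN.TUmN kN hN gN).1 Z :=
    okT_of P' pc z z P' z z pc.neg z
  obtain ⟨Z1, h1⟩ : ∃ Z, OkT (TUm k h g).2 (KN.TUmN kN hN gN).2 Z :=
    okT_of q1 z kk'.neg g1 z EnA.one.neg q2 z kk'
  exact ⟨Z0, Z1, h0, h1⟩

end

/-! ### the class -/

section
variable {p q r : ℕ}

theorem Qn_k (hp : 3 ≤ p ∧ p ≤ 9) (hq : 3 ≤ q ∧ q ≤ 9) (hr : 3 ≤ r ∧ r ≤ 9) {i j : Fin 3}
    (hij : i ≠ j) : Qn 2 1 (kk p q r i j) (kN p q r i j) := by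
  have h1 := LNI_kk hp.1 hq.1 hr.1 i j hij
  have h9 : mm p q r i j ≤ 9 := by
    fin_cases i <;> fin_cases j <;> simp_all [mm]
  exact ⟨h1.1.le, h1.2.le, tab_k (LNI_mm hp.1 hq.1 hr.1 i j hij) h9⟩

theorem tk_le {M : ℕ} (h3 : 3 ≤ M) (h9 : M ≤ 9) : KN.nth KN.tk M ≤ 2 ^ 49 := by
  interval_cases M <;> decide +kernel

theorem mu_le {x y : ℕ} (hx : x ≤ 2 ^ 49) (hy : y ≤ 2 ^ 49) : KN.mu x y ≤ 2 ^ 50 := by
  have e1 : KN.mu x y = x * y / 2 ^ 48 := Nat.shiftRight_eq_div_pow _ _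
  rw [e1]
  have := Nat.mul_le_mul hx hy
  have h2 : x * y / 2 ^ 48 ≤ 2 ^ 49 * 2 ^ 49 / 2 ^ 48 := Nat.div_le_div_right this
  exact h2.trans (by norm_num)

theorem tabOk (hp : 3 ≤ p ∧ p ≤ 9) (hq : 3 ≤ q ∧ q ≤ 9) (hr : 3 ≤ r ∧ r ≤ 9) : TabOk p q r := by
  have Q : ∀ {i j : Fin 3}, i ≠ j → Qn 2 1 (kk p q r i j) (kN p q r i j) := fun h =>
    Qn_k hp hq hr h
  have m3 : ∀ i j : Fin 3, i ≠ j → 3 ≤ mm p q r i j := LNI_mm hp.1 hq.1 hr.1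
  have m9 : ∀ i j : Fin 3, i ≠ j → mm p q r i j ≤ 9 := by
    intro i j hij
    fin_cases i <;> fin_cases j <;> simp_all [mm]
  refine ⟨?_, ?_, ?_, ?_, ?_, ?_, ?_⟩
  · intro s hs L i hi
    have M3 := m3 s.1 s.2.1 hs.1
    have M9' := m9 s.1 s.2.1 hs.1
    have U : ∀ {j : ℕ}, j ≤ mm p q r s.1 s.2.1 → Qn 3 16 (uC (kk p q r s.1 s.2.1) j)
        (KN.nth (KN.nthL KN.tu (mm p q r s.1 s.2.1)) j) := fun hj =>
      ⟨(tab_u M3 M9' hj).2.1, (tab_u M3 M9' hj).2.2, (tab_u M3 M9' hj).1⟩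
    have E : ∀ {j : ℕ}, j + 1 ≤ mm p q r s.1 s.2.1 → Qn 9 24 (eC (kk p q r s.1 s.2.1) j)
        (KN.nth (KN.nthL KN.te (mm p q r s.1 s.2.1)) j) := fun hj =>
      ⟨(tab_e M3 M9' hj).2.1, (tab_e M3 M9' hj).2.2, (tab_e M3 M9' hj).1⟩
    exact okTR _ L _ (Q hs.2.1) (Q (Ne.symm hs.2.2)) (U (by omega)) (U (by omega)) (U (by omega))
      (E (by omega)) (E (by omega)) (E (by omega))
  · exact fun s hs => okTNm (Q hs.1) (Q (Ne.symm hs.2.2))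
  · exact fun s hs => okTNp (Q hs.1) (Q (Ne.symm hs.2.2))
  · exact fun s hs => okTPp (Q hs.1) (Q hs.2.1) (Q (Ne.symm hs.2.2))
  · exact fun s hs => okTTm (Q hs.1) (Q hs.2.1) (Q (Ne.symm hs.2.2))
  · exact fun s hs => okTUm (Q hs.1) (Q hs.2.1) (Q (Ne.symm hs.2.2))
  · intro s hs o
    have h1 := (Q hs.1).mu (Q (Ne.symm hs.2.2)) (by norm_num) (by norm_num)
    have h2 := Q hs.2.1
    have t1 : kN p q r s.1 s.2.1 ≤ 2 ^ 49 := tk_le (m3 _ _ hs.1) (m9 _ _ hs.1)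
    have t2 : kN p q r s.2.1 s.2.2 ≤ 2 ^ 49 := tk_le (m3 _ _ hs.2.1) (m9 _ _ hs.2.1)
    have t3 : kN p q r s.1 s.2.2 ≤ 2 ^ 49 :=
      tk_le (m3 _ _ (Ne.symm hs.2.2)) (m9 _ _ (Ne.symm hs.2.2))
    have a1 : |((KN.mu (kN p q r s.1 s.2.1) (kN p q r s.1 s.2.2) : ℕ) : ℝ) -
        2 ^ 48 * (kk p q r s.1 s.2.1 * kk p q r s.1 s.2.2)| ≤ 16 :=
      h1.near.trans (by norm_num)
    have a2 : |((Nat.mul 2 (kN p q r s.2.1 s.2.2) : ℕ) : ℝ) -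
        2 ^ 48 * (2 * kk p q r s.2.1 s.2.2)| ≤ 16 := by
      have e : ((Nat.mul 2 (kN p q r s.2.1 s.2.2) : ℕ) : ℝ) - 2 ^ 48 * (2 * kk p q r s.2.1 s.2.2) =
          2 * ((kN p q r s.2.1 s.2.2 : ℝ) - 2 ^ 48 * kk p q r s.2.1 s.2.2) := by
        have : ((Nat.mul 2 (kN p q r s.2.1 s.2.2) : ℕ) : ℝ) = 2 * (kN p q r s.2.1 s.2.2 : ℝ) := by
          show ((2 * kN p q r s.2.1 s.2.2 : ℕ) : ℝ) = _
          push_cast; ring
        rw [this]; ring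
      rw [e, abs_mul, abs_two]
      linarith [h2.near]
    have b1 := mu_le t1 t3
    have b2 : Nat.mul 2 (kN p q r s.2.1 s.2.2) ≤ 2 ^ 50 := by
      show 2 * kN p q r s.2.1 s.2.2 ≤ 2 ^ 50
      omega
    have k0 : (kk p q r s.1 s.2.1 : ℂ) ≠ 0 := by
      exact_mod_cast (LNI_kk hp.1 hq.1 hr.1 s.1 s.2.1 hs.1).1.ne'
    have g0 : (kk p q r s.1 s.2.2 : ℂ) ≠ 0 := by
      exact_mod_cast (LNI_kk hp.1 hq.1 hr.1 s.1 s.2.2 (Ne.symm hs.2.2)).1.ne'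
    cases o
    · refine ⟨_, _, a1, a2, b1, b2, fun e => ?_⟩
      rw [dn, lf, lamF]
      simp only [Bool.false_eq_true, if_false]
      push_cast
      field_simp
    · refine ⟨_, _, a2, a1, b2, b1, fun e => ?_⟩
      rw [dn, lf, lamF]
      simp only [if_true]
      push_cast
      field_simp

end

end Pool.Agent.Helper94.CXF.SD
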