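import Pool.Agent.Helper6.CX.LNI

/-!
FARL, first part: the far coordinates and the run matrices in them.

`o = true` : the phase of the state is `z` (orientation `-`, coordinates `(N, U, X)`, for the states
after a block of runs of two `(N, A, β)`); `o = false` : the phase is `1/z` (orientation `+`,
coordinates `(N, X, B)`). `e = 1/z`.
-/

set_option autoImplicit false
noncomputable section
namespace Pool.Agent.Helper94.CXF

open Pool.Agent.Helper6.MONO

abbrev M3 : Type := Matrix (Fin 3) (Fin 3) ℂ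

/-- the denominator of `ω` -/
def dn (o : Bool) (l e : ℂ) : ℂ := if o then l + e else 1 + l * e

def omF (o : Bool) (l e : ℂ) : ℂ := (if o then e else 1) / (2 * dn o l e)

def tF (o : Bool) (l e : ℂ) : ℂ := l * (if o then 1 else e) / (2 * dn o l e)

def lamF (k h h' : ℂ) : ℂ := 2 * h / (k * h')

/-- from the chart `Y` to the far coordinates -/
def FY (o : Bool) (k h h' e : ℂ) : M3 :=
  if o then !![1, 0, 0; 0, 0, h' * tF true (lamF k h h') e / k;
    h' / 2, -(h' / 2), h' * tF true (lamF k h h') e / 2]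
  else !![1, 0, 0; h' / 2, -(h' / 2), h' * tF false (lamF k h h') e / 2;
    0, 0, h' * lamF k h h' * omF false (lamF k h h') e / k]

/-- from the chart `L` to the far coordinates -/
def Fl (o : Bool) (k h h' : ℂ) : M3 :=
  if o then !![1, 0, 0; 0, h' * lamF k h h' / k, 0; h' / 2 - 1 / h', 0, -(h' / 2)]
  else !![1, 0, 0; h' / 2, 0, -(h' / 2); 0, h' * lamF k h h' / k, 0]

/-- vectors of the chart to chart `TS` -/
def Dc (L : Bool) (om t : ℂ) : M3 :=
  if L then !![1, 0, 0; 0, t, om; 0, t, 0] else !![1, 0, 0; 0, om, 0; 0, 0, om * t]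

/-- change of star after an odd run; `c` is `om / t'` -/
def Pod (c : ℂ) : M3 := !![1, 0, 0; 0, 1, 0; 0, 0, c]

/-- change of star after an even run; `c` is `(k / 2) (t / t')` -/
def Pev (k om c : ℂ) : M3 :=
  !![1, 0, k * om / 2 - k ^ 2 / (4 * (2 + k)); 0, 1, 0; 0, 0, c]

/-- the middle matrix -/
def Bf (k R : ℂ) : M3 :=
  !![1, 2 * R, R ^ 2 - (4 / k ^ 2 - 1); R, R ^ 2 - (4 / k ^ 2 - 1), -2 * (4 / k ^ 2 - 1) * R;
    R ^ 2 + (4 / k ^ 2 - 1), 0, 0]

/-! ### far run matrices -/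

def fW (k R : ℂ) : ℂ := R ^ 2 + (4 / k ^ 2 - 1)
def fP (k R : ℂ) : ℂ := R ^ 2 + 2 * R - (4 / k ^ 2 - 1)
def fQ (k R : ℂ) : ℂ := 4 * R / k
def fT (k R : ℂ) : ℂ := 2 * R - R ^ 2 + (4 / k ^ 2 - 1)
/-- `k² W / (2 (2 + k))` -/
def fY (k R : ℂ) : ℂ := k ^ 2 * fW k R / (2 * (2 + k))

/-- coefficients of `h'` and `h` in `ρ` and `σ`; `d` is true if `m` is odd -/
def nu1 (d : Bool) (k R : ℂ) : ℂ := if d then 2 / k * (1 + R) else 2 / k * (1 + R + fY k R / k)
def nu2 (d : Bool) (k R : ℂ) : ℂ := if d then 4 / k ^ 2 else 4 / k ^ 2 * (1 - fY k R / 2)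
def mu1 (d : Bool) (k R : ℂ) : ℂ :=
  if d then 4 / k ^ 2 else 1 + fY k R / k - (R ^ 2 - (4 / k ^ 2 - 1)) / 2
def mu2 (d : Bool) (k R : ℂ) : ℂ :=
  if d then 2 / k * (1 - R) else 2 / k * (1 - R + fY k R / k)

/-- the rows `ρ`, `σ` in the coordinates `N, r₀, r₋₁` -/
def rowR (d : Bool) (k h h' R x1 x2 : ℂ) : Fin 3 → ℂ :=
  ![nu1 d k R * h' * x1 + nu2 d k R * h * x2, fP k R, -fQ k R]
def rowS (d : Bool) (k h h' R x1 x2 : ℂ) : Fin 3 → ℂ :=
  ![mu1 d k R * h' * x1 + mu2 d k R * h * x2, fQ k R, -fT k R]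

/-- far coordinates to `(N, r₀, r₋₁)`: sources `-`, `+` and `L` -/
def Gm (e : ℂ) : M3 := !![1, 0, 0; 0, e, 0; 0, 0, e]
def Gp (e : ℂ) : M3 := !![1, 0, 0; 0, 0, e; 0, 1, 0]
def Gl (h' e : ℂ) : M3 := !![1, 0, 0; 0, 1, 0; e / h', 0, e]

def G0 (o L : Bool) (h' e : ℂ) : M3 := if o then (if L then Gl h' e else Gm e) else Gp e

/-- the far matrix of a run of `m ≥ 3` letters (`d`: `m` odd; `o`, `L`: the source) -/
def Ar (o L d : Bool) (k h h' R e : ℂ) : M3 :=
  (if xor o d then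
    Matrix.of ![rowR d k h h' R (if o then e else 1) (if o then 1 else e), ![fW k R, 0, 0],
      rowS d k h h' R (if o then e else 1) (if o then 1 else e)]
  else
    Matrix.of ![rowR d k h h' R (if o then e else 1) (if o then 1 else e),
      rowS d k h h' R (if o then e else 1) (if o then 1 else e), ![fW k R, 0, 0]]) * G0 o L h' e

/-- the scalar factor -/
def gF (o : Bool) (k h h' e : ℂ) : ℂ := k / (2 * h' * dn o (lamF k h h') e)

theorem lam_form (k h h' : ℂ) (hk : k ≠ 0) (hh : h ≠ 0) (hh' : h' ≠ 0) :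
    ∃ l : ℂ, l ≠ 0 ∧ h = l * (k * h') / 2 ∧ lamF k (l * (k * h') / 2) h' = l ∧
      lamF h' (l * (k * h') / 2) k = l := by
  refine ⟨lamF k h h', ?_, ?_, ?_, ?_⟩
  · simp [lamF, hk, hh, hh']
  · rw [lamF]; field_simp
  · rw [lamF, lamF]; field_simp
  · rw [lamF, lamF]; field_simp

theorem far_odd (o L : Bool) (k h h' R e : ℂ) (hk : k ≠ 0) (hh : h ≠ 0) (hh' : h' ≠ 0)
    (h1 : dn o (lamF k h h') e ≠ 0) (h2 : dn (!o) (lamF h' h k) e ≠ 0) :
    FY (!o) h' h k e * (Pod (dn (!o) (lamF h' h k) e / (lamF k h h' * dn o (lamF k h h') e)) *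
      Bf k R * Dc L (omF o (lamF k h h') e) (tF o (lamF k h h') e)) =
    gF o k h h' e • (Ar o L true k h h' R e * (if L then Fl o k h h' else FY o k h h' e)) := by
  obtain ⟨l, hl0, hl1, e1, e2⟩ := lam_form k h h' hk hh hh'
  subst hl1
  rw [e1] at h1
  rw [e2] at h2
  cases o <;> cases L <;>
  · simp only [dn, Bool.not_true, Bool.not_false, if_true, if_false, Bool.false_eq_true] at h1 h2
    ext i j
    fin_cases i <;> fin_cases j <;>
    simp [FY, Fl, Pod, Bf, Dc, Ar, gF, rowR, rowS, G0, Gm, Gp, Gl, Matrix.mul_apply,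
        Fin.sum_univ_three, omF, tF, dn, fW, fP, fQ, fT, nu1, nu2, mu1, mu2, e1, e2] <;>
    (try field_simp) <;> (try ring)

theorem lam_form2 (k h' l : ℂ) (hk : k ≠ 0) (hh' : h' ≠ 0) :
    lamF (l * (k * h') / 2) h' k = 4 / (l * k ^ 2) ∧
      lamF h' k (l * (k * h') / 2) = 4 / (l * h' ^ 2) := by
  constructor
  · rw [lamF]; field_simp; norm_num
  · rw [lamF]; field_simp; norm_num

theorem far_even (o L : Bool) (k h h' R e : ℂ) (hk : k ≠ 0) (hh : h ≠ 0) (hh' : h' ≠ 0)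
    (hk2 : 2 + k ≠ 0) (h1 : dn o (lamF k h h') e ≠ 0) (h2 : dn o (lamF h h' k) e ≠ 0) :
    FY o h h' k e * (Pev k (omF o (lamF k h h') e)
        (k / 2 * (lamF k h h' * dn o (lamF h h' k) e / (lamF h h' k * dn o (lamF k h h') e))) *
      Bf k R * Dc L (omF o (lamF k h h') e) (tF o (lamF k h h') e)) =
    gF o k h h' e • (Ar o L false k h h' R e * (if L then Fl o k h h' else FY o k h h' e)) := by
  obtain ⟨l, hl0, hl1, e1, e2⟩ := lam_form k h h' hk hh hh'
  subst hl1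
  have e3 := (lam_form2 k h' l hk hh').1
  rw [e1] at h1
  rw [e3] at h2
  have hne : (l * k ^ 2) ≠ 0 := mul_ne_zero hl0 (pow_ne_zero 2 hk)
  cases o
  · simp only [FY, tF, omF, gF, e1, e3, if_false, Bool.false_eq_true]
    generalize dn false (4 / (l * k ^ 2)) e = D at h2 ⊢
    simp only [dn, if_false, Bool.false_eq_true] at h1 ⊢
    cases L <;>
    · ext i j
      fin_cases i <;> fin_cases j <;>
      simp [Fl, Pev, Bf, Dc, Ar, rowR, rowS, G0, Gm, Gp, Gl, Matrix.mul_apply,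
        Fin.sum_univ_three, fW, fP, fQ, fT, fY, nu1, nu2, mu1, mu2, e1] <;>
      (try field_simp) <;> (try ring)
  · simp only [FY, tF, omF, gF, e1, e3, if_true]
    generalize dn true (4 / (l * k ^ 2)) e = D at h2 ⊢
    simp only [dn, if_true] at h1 ⊢
    cases L <;>
    · ext i j
      fin_cases i <;> fin_cases j <;>
      simp [Fl, Pev, Bf, Dc, Ar, rowR, rowS, G0, Gm, Gp, Gl, Matrix.mul_apply,
        Fin.sum_univ_three, fW, fP, fQ, fT, fY, nu1, nu2, mu1, mu2, e1] <;>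
      (try field_simp) <;> (try ring)

/-! ### runs of two letters -/

/-- one run of two, from `Y` to `L` -/
def N1m (k t c : ℂ) : M3 := !![1, 1, t; c, 0, 0; 1, 1, -(4 / k ^ 2 - 1) * t]

/-- two runs of two, from `Y` to `L`; `r = ω'/ω`, `o1 = ω'`, `c = λ'/λ''`, `k1 = k'` -/
def T2m (k k1 t o1 r c : ℂ) : M3 :=
  !![r, 2 * o1, o1 * t * (1 - (4 / k ^ 2 - 1));
    c * o1, c * o1, c * o1 * t;
    2 * o1 + r * t * (1 - (4 / k1 ^ 2 - 1)), 2 * o1, o1 * t * (1 - (4 / k ^ 2 - 1))]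

/-- two runs of two, from `L` to `L` -/
def UUm (k k1 t om c : ℂ) : M3 :=
  !![1, t * (3 - (4 / k ^ 2 - 1)), 2 * om; c * om, 2 * c * t, c * om;
    2 * om + t * (1 - (4 / k1 ^ 2 - 1)), t * (3 - (4 / k ^ 2 - 1)), 2 * om]

/-- far matrix of one run of two letters -/
def T1f (o : Bool) (k h' e : ℂ) : M3 :=
  if o then !![h', k, -1; 1, 0, 0; -(h' / k), 0, 1 / k]
  else !![h', -1, k * e; 0, 0, e; 1, 0, 0]

/-- far matrix of two runs of two letters from `(N, U, X)` -/
def T2f (k h h' e : ℂ) : M3 :=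
  !![h + k * h' * e, (k ^ 2 - 1) * e, -(k * e);
    h' * e, k * e, -e;
    -(k * h' * e / h), -((k ^ 2 - 1) * e / h), k * e / h]

/-- far matrix of two runs of two letters from `(N, A, β)` -/
def UUf (k h h' e : ℂ) : M3 :=
  !![h + k * (h' - 1 / h') * e, k ^ 2 - 1, -(k * e);
    (h' - 1 / h') * e, k, -e;
    -(k * (h' - 1 / h') * e / h), -((k ^ 2 - 1) / h), k * e / h]

theorem far_N1 (o : Bool) (k h h' e : ℂ) (hk : k ≠ 0) (hh : h ≠ 0) (hh' : h' ≠ 0)
    (h1 : dn o (lamF k h h') e ≠ 0) :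
    Fl o h h' k * N1m k (tF o (lamF k h h') e) (lamF k h h' / lamF h h' k) =
      (2 / h') • (T1f o k h' e * FY o k h h' e) := by
  obtain ⟨l, hl0, hl1, e1, e2⟩ := lam_form k h h' hk hh hh'
  subst hl1
  have e3 := (lam_form2 k h' l hk hh').1
  rw [e1] at h1
  have hne : (l * k ^ 2) ≠ 0 := mul_ne_zero hl0 (pow_ne_zero 2 hk)
  cases o <;>
  · simp only [dn, if_true, if_false, Bool.false_eq_true] at h1
    ext i j
    fin_cases i <;> fin_cases j <;>
      simp [FY, Fl, N1m, T1f, Matrix.mul_apply, Fin.sum_univ_three, omF, tF, dn, e1, e3] <;>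
      (try field_simp) <;> (try ring)

/-- scalar factor of two runs of two letters -/
def gT (o : Bool) (k h h' e : ℂ) : ℂ := 2 / (h' * k * dn o (lamF h h' k) e)

theorem far_T2t (k h h' e : ℂ) (hk : k ≠ 0) (hh : h ≠ 0) (hh' : h' ≠ 0)
    (h1 : dn true (lamF k h h') e ≠ 0) (h2 : dn true (lamF h h' k) e ≠ 0) :
    Fl true h' k h * T2m k h (tF true (lamF k h h') e) (omF true (lamF h h' k) e)
        (dn true (lamF k h h') e / dn true (lamF h h' k) e) (lamF h h' k / lamF h' k h) =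
      gT true k h h' e • (T2f k h h' e * FY true k h h' e) := by
  obtain ⟨l, hl0, hl1, e1, e2⟩ := lam_form k h h' hk hh hh'
  subst hl1
  have e3 := (lam_form2 k h' l hk hh').1
  have e4 := (lam_form2 k h' l hk hh').2
  rw [e1] at h1
  rw [e3] at h2
  have hne : (l * k ^ 2) ≠ 0 := mul_ne_zero hl0 (pow_ne_zero 2 hk)
  simp only [FY, tF, omF, gT, e1, e3, e4, if_true]
  generalize dn true (4 / (l * k ^ 2)) e = D at h2 ⊢
  simp only [dn, if_true] at h1 ⊢
  ext i j
  fin_cases i <;> fin_cases j <;>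
    simp [Fl, T2m, T2f, Matrix.mul_apply, Fin.sum_univ_three, e4] <;>
    (try field_simp) <;> (try ring)

theorem far_T2f (k h h' e : ℂ) (hk : k ≠ 0) (hh : h ≠ 0) (hh' : h' ≠ 0)
    (h1 : dn false (lamF k h h') e ≠ 0) (h2 : dn false (lamF h h' k) e ≠ 0) :
    Fl false h' k h * T2m k h (tF false (lamF k h h') e) (omF false (lamF h h' k) e)
        (dn false (lamF k h h') e / dn false (lamF h h' k) e) (lamF h h' k / lamF h' k h) =
      gT false k h h' e • (T1f false h k e * T1f false k h' e * FY false k h h' e) := by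
  obtain ⟨l, hl0, hl1, e1, e2⟩ := lam_form k h h' hk hh hh'
  subst hl1
  have e3 := (lam_form2 k h' l hk hh').1
  have e4 := (lam_form2 k h' l hk hh').2
  rw [e1] at h1
  rw [e3] at h2
  have hne : (l * k ^ 2) ≠ 0 := mul_ne_zero hl0 (pow_ne_zero 2 hk)
  simp only [FY, tF, omF, gT, e1, e3, e4, if_false, Bool.false_eq_true]
  generalize dn false (4 / (l * k ^ 2)) e = D at h2 ⊢
  simp only [dn, if_false, Bool.false_eq_true] at h1 ⊢
  ext i j
  fin_cases i <;> fin_cases j <;>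
    simp [Fl, T2m, T1f, Matrix.mul_apply, Fin.sum_univ_three, e4] <;>
    (try field_simp) <;> (try ring)

theorem far_UUt (k h h' e : ℂ) (hk : k ≠ 0) (hh : h ≠ 0) (hh' : h' ≠ 0)
    (h1 : dn true (lamF k h h') e ≠ 0) :
    Fl true h' k h * UUm k h (tF true (lamF k h h') e) (omF true (lamF k h h') e)
        (lamF h h' k / lamF h' k h) =
      (2 / (k * h' * dn true (lamF k h h') e)) • (UUf k h h' e * Fl true k h h') := by
  obtain ⟨l, hl0, hl1, e1, e2⟩ := lam_form k h h' hk hh hh'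
  subst hl1
  have e3 := (lam_form2 k h' l hk hh').1
  have e4 := (lam_form2 k h' l hk hh').2
  rw [e1] at h1
  simp only [tF, omF, e1, e3, e4, if_true]
  simp only [dn, if_true] at h1 ⊢
  ext i j
  fin_cases i <;> fin_cases j <;>
    simp [Fl, UUm, UUf, Matrix.mul_apply, Fin.sum_univ_three, e1, e4] <;>
    (try field_simp) <;> (try ring)

theorem far_UUf (k h h' e : ℂ) (hk : k ≠ 0) (hh : h ≠ 0) (hh' : h' ≠ 0)
    (h1 : dn false (lamF k h h') e ≠ 0) :
    Fl false h' k h * UUm k h (tF false (lamF k h h') e) (omF false (lamF k h h') e)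
        (lamF h h' k / lamF h' k h) =
      (2 / (k * h' * dn false (lamF k h h') e)) •
        (T1f false h k e * T1f false k h' e * Fl false k h h') := by
  obtain ⟨l, hl0, hl1, e1, e2⟩ := lam_form k h h' hk hh hh'
  subst hl1
  have e3 := (lam_form2 k h' l hk hh').1
  have e4 := (lam_form2 k h' l hk hh').2
  rw [e1] at h1
  simp only [tF, omF, e1, e3, e4, if_false, Bool.false_eq_true]
  simp only [dn, if_false, Bool.false_eq_true] at h1 ⊢
  ext i j
  fin_cases i <;> fin_cases j <;>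
    simp [Fl, UUm, T1f, Matrix.mul_apply, Fin.sum_univ_three, e1, e4] <;>
    (try field_simp) <;> (try ring)

end Pool.Agent.Helper94.CXF
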