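import Pool.Agent.Helper6.CX.KTG
import Pool.Agent.Helper39.CX.TYP

/-!
FARL, second part: from regions for the kinds of states (after a run of two; ordinary; after a full
run) in the global charts, with two loop families for the powers of runs of two, to the certificate
`GCert` at one frontier point.
-/

set_option autoImplicit false
noncomputable section
namespace Pool.Agent.Helper94.CXF

open Pool.Agent.Helper6.MONO
open Pool.Agent.Helper21.SUP (GS Sch gM fD SBlk SSt DG DG_nx sD_cons sD_nil sD_append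
  okD_cons Ty std Modes std_blk alL alL_self ok1)
open Pool.Agent.Helper39.C75 (IsRegion)
open Pool.Agent.Helper6.MONO.SV (UY StartY D4)
open Pool.Agent.Helper39.SLT (ML ML_nx isRegion_and isRegion_empty T4 fD_rep)

open Pool.Agent.Helper21.SUP renaming nx → nxs

abbrev St : Type := Set (Fin 3 → ℂ)

/-- regions at the point `w`, in the global charts: `RL` after runs of two, `R0` ordinary, `RF` after
a full run; `P1`, `P2` the loop regions -/
structure FarSets (V : RV2) (e : ℝ) (p q r : ℕ) (C : ℝ) (w : ℂ) (RL R0 RF P1 P2 : GS → St) :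
    Prop where
  regL : ∀ s, IsRegion (RL s)
  reg0 : ∀ s, IsRegion (R0 s)
  regF : ∀ s, IsRegion (RF s)
  run0 : ∀ s, DG s → 4 ≤ ML p q r s → ∀ m, 3 ≤ m → m ≤ mm p q r s.1 s.2.1 → ∀ v ∈ R0 s,
    (GR p q r false s m w).mulVec v ∈ (if m = mm p q r s.1 s.2.1 then RF (nxs s m) else R0 (nxs s m))
  runF : ∀ s, DG s → ∀ m, 3 ≤ m → m ≤ mm p q r s.1 s.2.1 → ∀ v ∈ RF s,
    (GR p q r false s m w).mulVec v ∈ (if m = mm p q r s.1 s.2.1 then RF (nxs s m) else R0 (nxs s m))
  runL : ∀ s, DG s → ∀ m, 3 ≤ m → m ≤ mm p q r s.1 s.2.1 → ∀ v ∈ RL s,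
    (GR p q r true s m w).mulVec v ∈ (if m = mm p q r s.1 s.2.1 then RF (nxs s m) else R0 (nxs s m))
  n1 : ∀ s, DG s → 4 ≤ ML p q r s → ∀ v ∈ R0 s, (N1m p q r s w).mulVec v ∈ P1 (nxs s 2)
  t2 : ∀ s, DG s → 4 ≤ ML p q r s → ∀ v ∈ R0 s,
    (NLm p q r (nxs s 2) w).mulVec ((N1m p q r s w).mulVec v) ∈ P2 (nxs (nxs s 2) 2)
  uu1 : ∀ s, DG s → ∀ v ∈ P1 s, (UUm p q r s w).mulVec v ∈ P1 (nxs (nxs s 2) 2)
  uu2 : ∀ s, DG s → ∀ v ∈ P2 s, (UUm p q r s w).mulVec v ∈ P2 (nxs (nxs s 2) 2)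
  sub1 : ∀ s, DG s → ∀ v ∈ P1 s, v ∈ RL s
  sub2 : ∀ s, DG s → ∀ v ∈ P2 s, v ∈ RL s
  refL : ∀ s, DG s → ML p q r s = 3 →
    ![1, (V.c : ℂ), (V.d (kk p q r s.1 s.2.2) : ℂ)] ∈ RL s
  refY : ∀ s, DG s → 4 ≤ ML p q r s → yL V.al V.be (omS p q r s w) ∈ RL s
  ref0 : ∀ s, DG s → 4 ≤ ML p q r s → ![1, (V.al : ℂ), (V.be : ℂ)] ∈ R0 s
  refF : ∀ s, DG s → ![1, (V.al : ℂ), (V.be : ℂ)] ∈ RF s
  start : ∀ s, DG s → 4 ≤ ML p q r s → ∀ i, UY V.al V.be e i ∈ R0 s
  slit0 : ∀ s, DG s → 4 ≤ ML p q r s → ∀ u ∈ R0 s,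
    (GR p q r false s 3 w).mulVec u 0 / u 0 ∈ Complex.slitPlane
  slitF : ∀ s, DG s → ML p q r s = 3 → ∀ u ∈ RF s,
    (GR p q r false s 3 w).mulVec u 0 / u 0 ∈ Complex.slitPlane
  slitL : ∀ s, DG s → ∀ u ∈ RL s, (UUm p q r s w).mulVec u 0 / u 0 ∈ Complex.slitPlane
  bdL : ∀ s, DG s → ∀ v ∈ RL s, ∀ j, ‖v j‖ ≤ C * ‖v 0‖
  bd0 : ∀ s, DG s → ∀ v ∈ R0 s, ∀ j, ‖v j‖ ≤ C * ‖v 0‖
  bdF : ∀ s, DG s → ∀ v ∈ RF s, ∀ j, ‖v j‖ ≤ C * ‖v 0‖

/-- the states which occur -/
def liveF (p q r : ℕ) : SSt Ty → Prop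
  | (s, f, some Ty.B) => DG s ∧ f = false
  | (s, f, some Ty.A) => DG s ∧ f = decide (3 = ML p q r s)
  | (s, f, some Ty.o) => DG s ∧ ((f = true ∧ 4 ≤ ML p q r s) ∨ (f = false ∧ 5 ≤ ML p q r s))
  | (s, f, none) => DG s ∧ f = false ∧ 4 ≤ ML p q r s
  | (_, _, some (Ty.P _)) => False
  | (_, _, some (Ty.Q _)) => False

/-- the regions of the automaton -/
def farR (p q r : ℕ) (RL R0 RF : GS → St) : SSt Ty → St
  | (s, f, some Ty.B) => {v | (DG s ∧ f = false) ∧ v ∈ RL s}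
  | (s, f, some Ty.A) => {v | (DG s ∧ f = decide (3 = ML p q r s)) ∧
      v ∈ (if ML p q r s = 3 then RF s else R0 s)}
  | (s, f, some Ty.o) => {v | (DG s ∧ ((f = true ∧ 4 ≤ ML p q r s) ∨ (f = false ∧ 5 ≤ ML p q r s))) ∧
      v ∈ (if f = true then RF s else R0 s)}
  | (s, f, none) => {v | (DG s ∧ f = false ∧ 4 ≤ ML p q r s) ∧ v ∈ R0 s}
  | (_, _, some (Ty.P _)) => ∅
  | (_, _, some (Ty.Q _)) => ∅

variable {V : RV2} {e : ℝ} {p q r : ℕ} {C : ℝ} {w : ℂ} {RL R0 RF P1 P2 : GS → St}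

theorem ML3 (hp : 3 ≤ p) (hq : 3 ≤ q) (hr : 3 ≤ r) {s : GS} (hs : DG s) : 3 ≤ ML p q r s :=
  Pool.Agent.Helper39.SLT.ML_ge hp hq hr hs

/-- every region of the automaton is one of the three kinds -/
theorem farR_kind (hp : 3 ≤ p) (hq : 3 ≤ q) (hr : 3 ≤ r) {s : GS} {f : Bool} {o : Option Ty}
    {v : Fin 3 → ℂ} (hv : v ∈ farR p q r RL R0 RF (s, f, o)) :
    DG s ∧ ((o = some Ty.B ∧ v ∈ RL s) ∨
      (o ≠ some Ty.B ∧ ((4 ≤ ML p q r s ∧ v ∈ R0 s) ∨ v ∈ RF s))) := by
  match o, hv with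
  | some Ty.B, hv => exact ⟨hv.1.1, Or.inl ⟨rfl, hv.2⟩⟩
  | some Ty.A, hv =>
    have hD : DG s := hv.1.1
    refine ⟨hD, Or.inr ⟨by decide, ?_⟩⟩
    have h2 := hv.2
    have h3 := ML3 hp hq hr hD
    by_cases h : ML p q r s = 3
    · rw [if_pos h] at h2
      exact Or.inr h2
    · rw [if_neg h] at h2
      exact Or.inl ⟨by omega, h2⟩
  | some (Ty.P _), hv => exact hv.elim
  | some (Ty.Q _), hv => exact hv.elim
  | none, hv => exact ⟨hv.1.1, Or.inr ⟨by decide, Or.inl ⟨hv.1.2.2, hv.2⟩⟩⟩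
  | some Ty.o, hv =>
    refine ⟨hv.1.1, Or.inr ⟨by decide, ?_⟩⟩
    obtain ⟨⟨_, h1⟩, h2⟩ := hv
    rcases h1 with ⟨h1, h3⟩ | ⟨h1, h3⟩
    · rw [if_pos h1] at h2
      exact Or.inr h2
    · rw [if_neg (by rw [h1]; decide)] at h2
      exact Or.inl ⟨by omega, h2⟩

/-- the region after a run of three -/
def ZR (p q r : ℕ) (R0 RF : GS → St) (s : GS) : St := if ML p q r s = 3 then RF s else R0 s

theorem FarSets.run (h : FarSets V e p q r C w RL R0 RF P1 P2) (hp : 3 ≤ p) (hq : 3 ≤ q)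
    (hr : 3 ≤ r) {s : GS} {f : Bool} {o : Option Ty} {v : Fin 3 → ℂ}
    (hv : v ∈ farR p q r RL R0 RF (s, f, o)) {m : ℕ} (h3 : 3 ≤ m)
    (hm : m ≤ mm p q r s.1 s.2.1) :
    (GR p q r (decide (o = some Ty.B)) s m w).mulVec v ∈
      (if m = mm p q r s.1 s.2.1 then RF (nxs s m) else R0 (nxs s m)) := by
  obtain ⟨hD, ⟨ho, hv⟩ | ⟨ho, ⟨h4, hv⟩ | hv⟩⟩ := farR_kind hp hq hr hv
  · rw [show decide (o = some Ty.B) = true by simp [ho]]
    exact h.runL s hD m h3 hm v hv
  · rw [show decide (o = some Ty.B) = false by simp [ho]]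
    exact h.run0 s hD h4 m h3 hm v hv
  · rw [show decide (o = some Ty.B) = false by simp [ho]]
    exact h.runF s hD m h3 hm v hv

theorem FarSets.threes (h : FarSets V e p q r C w RL R0 RF P1 P2) (hp : 3 ≤ p) (hq : 3 ≤ q)
    (hr : 3 ≤ r) : ∀ (k : ℕ) (s : GS), DG s → ∀ v ∈ ZR p q r R0 RF s,
      (gG p q r false s (List.replicate k 3) w).mulVec v ∈
        ZR p q r R0 RF (sD s (List.replicate k 3)) := by
  intro k
  induction k with
  | zero =>
    intro s hD v hv
    rw [show List.replicate 0 3 = [] from rfl, sD_nil]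
    simp only [gG, Matrix.one_mulVec]
    exact hv
  | succ k ih =>
    intro s hD v hv
    rw [List.replicate_succ, sD_cons]
    simp only [gG]
    rw [← Matrix.mulVec_mulVec]
    apply ih _ (DG_nx s 3 hD)
    have hM := LNI_mm hp hq hr s.1 s.2.1 hD.1
    have key : (GR p q r false s 3 w).mulVec v ∈
        (if 3 = mm p q r s.1 s.2.1 then RF (nxs s 3) else R0 (nxs s 3)) := by
      unfold ZR at hv
      have h3 := ML3 hp hq hr hD
      by_cases hML : ML p q r s = 3
      · rw [if_pos hML] at hv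
        exact h.runF s hD 3 le_rfl hM v hv
      · rw [if_neg hML] at hv
        exact h.run0 s hD (by omega) 3 le_rfl hM v hv
    unfold ZR
    rw [ML_nx]
    by_cases h3 : mm p q r s.1 s.2.1 = 3
    · rw [if_pos h3]
      rw [if_pos h3.symm] at key
      exact key
    · rw [if_neg h3]
      rw [if_neg (fun h' => h3 h'.symm)] at key
      exact key

theorem FarSets.twos (h : FarSets V e p q r C w RL R0 RF P1 P2) {s : GS} (hD : DG s)
    (h4 : 4 ≤ ML p q r s) {v : Fin 3 → ℂ} (hv : v ∈ R0 s) : ∀ n : ℕ,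
      ((BN p q r s (n + 1) w).mulVec v ∈ P1 (s2 s (n + 1)) ∨
        (BN p q r s (n + 1) w).mulVec v ∈ P2 (s2 s (n + 1))) ∧
      ((BN p q r s (n + 2) w).mulVec v ∈ P1 (s2 s (n + 2)) ∨
        (BN p q r s (n + 2) w).mulVec v ∈ P2 (s2 s (n + 2))) := by
  intro n
  induction n with
  | zero =>
    constructor
    · left
      exact h.n1 s hD h4 v hv
    · right
      have := h.t2 s hD h4 v hv
      rw [Matrix.mulVec_mulVec] at this
      exact this
  | succ n ih =>
    refine ⟨ih.2, ?_⟩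
    have hs := s2_DG hD (n + 1)
    have e2 : s2 s (n + 1 + 2) = nxs (nxs (s2 s (n + 1)) 2) 2 := by
      rw [show n + 1 + 2 = n + 1 + 1 + 1 from rfl, s2_succ, s2_succ]
    have e1 : BN p q r s (n + 1 + 2) w = UUm p q r (s2 s (n + 1)) w * BN p q r s (n + 1) w := rfl
    rw [e1, e2, ← Matrix.mulVec_mulVec]
    rcases ih.1 with h1 | h1
    · left
      exact h.uu1 _ hs _ h1
    · right
      exact h.uu2 _ hs _ h1

theorem FarSets.twos' (h : FarSets V e p q r C w RL R0 RF P1 P2) {s : GS} (hD : DG s)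
    (h4 : 4 ≤ ML p q r s) {v : Fin 3 → ℂ} (hv : v ∈ R0 s) (n : ℕ) :
    (BN p q r s (n + 1) w).mulVec v ∈ RL (s2 s (n + 1)) := by
  rcases (h.twos hD h4 hv n).1 with h1 | h1
  · exact h.sub1 _ (s2_DG hD _) _ h1
  · exact h.sub2 _ (s2_DG hD _) _ h1

/-- THE BLOCKS -/
theorem FarSets.blk (h : FarSets V e p q r C w RL R0 RF P1 P2) (hp : 3 ≤ p) (hq : 3 ≤ q)
    (hr : 3 ≤ r) {Y : Modes} (hA : ∀ s, Y.A s = true) (hB : ∀ s, Y.B s = true)
    (hC : ∀ s m, Y.C s m = false) (b : SBlk (std Y) p q r) :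
    ∀ v ∈ farR p q r RL R0 RF b.src, (MG p q r b w).mulVec v ∈ farR p q r RL R0 RF b.tgt := by
  intro v hv
  have hD := b.hs
  obtain ⟨f1, f2, f3⟩ := std_blk Y p q r b.o b.f b.s b.m b.ms b.t b.hb
  rw [okD_cons] at f2
  obtain ⟨⟨g1, g2, g3⟩, g4⟩ := f2
  have hv' : v ∈ farR p q r RL R0 RF (b.s, b.f, b.o) := hv
  rcases f3 with ⟨ht, hms, h5, h6, -⟩ | ⟨ht, -, hrun⟩ | ⟨ht, -, hrun⟩ | ⟨h7, -⟩
  · -- a single run
    have hm3 : b.m ≠ 3 := fun h => h5 ⟨h, hA _⟩
    have hm2 : b.m ≠ 2 := fun h => h6 ⟨h, hB _⟩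
    have h1 := h.run hp hq hr hv' (m := b.m) (by omega) g2
    have e1 : MG p q r b w = GR p q r (decide (b.o = some Ty.B)) b.s b.m w := by
      rw [MG, if_neg (by rw [ht]; decide)]
      show gG p q r _ b.s (b.m :: b.ms) w = _
      rw [hms]
      simp [gG]
    have e2 : b.tgt = (nxs b.s b.m, decide (b.m = mm p q r b.s.1 b.s.2.1), some Ty.o) := by
      show (sD b.s (b.m :: b.ms), fD p q r b.f b.s (b.m :: b.ms), some b.t) = _
      rw [hms, ht, sD_cons, sD_nil]
      rfl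
    rw [e1, e2]
    have hD' := DG_nx b.s b.m hD
    by_cases hM : b.m = mm p q r b.s.1 b.s.2.1
    · rw [if_pos hM] at h1
      refine ⟨⟨hD', Or.inl ⟨by simp [hM], ?_⟩⟩, ?_⟩
      · rw [ML_nx]; omega
      · rw [if_pos (by simp [hM])]
        exact h1
    · rw [if_neg hM] at h1
      refine ⟨⟨hD', Or.inr ⟨by simp [hM], ?_⟩⟩, ?_⟩
      · rw [ML_nx]; omega
      · rw [if_neg (by simp [hM])]
        exact h1
  · -- `3 ^ n`
    have hrep : b.m :: b.ms = List.replicate (b.ms.length + 1) 3 := by rw [hrun, alL_self]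
    have hm : b.m = 3 := by
      rw [List.replicate_succ] at hrep
      exact (List.cons.inj hrep).1
    have hms : b.ms = List.replicate b.ms.length 3 := by
      rw [List.replicate_succ] at hrep
      exact (List.cons.inj hrep).2
    have h1 := h.run hp hq hr hv' (m := 3) le_rfl (by omega)
    have h2 : (GR p q r (decide (b.o = some Ty.B)) b.s 3 w).mulVec v ∈
        ZR p q r R0 RF (nxs b.s 3) := by
      unfold ZR
      rw [ML_nx]
      by_cases h3 : mm p q r b.s.1 b.s.2.1 = 3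
      · rw [if_pos h3]
        rw [if_pos h3.symm] at h1
        exact h1
      · rw [if_neg h3]
        rw [if_neg (fun h' => h3 h'.symm)] at h1
        exact h1
    have h3 := h.threes hp hq hr b.ms.length (nxs b.s 3) (DG_nx _ 3 hD) _ h2
    have e1 : MG p q r b w = gG p q r false (nxs b.s 3) (List.replicate b.ms.length 3) w *
        GR p q r (decide (b.o = some Ty.B)) b.s 3 w := by
      rw [MG, if_neg (by rw [ht]; decide)]
      show gG p q r _ b.s (b.m :: b.ms) w = _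
      rw [hms, hm, List.length_replicate]
      rfl
    have e2 : b.tgt = (sD (nxs b.s 3) (List.replicate b.ms.length 3),
        decide (3 = ML p q r (sD b.s (List.replicate (b.ms.length + 1) 3))), some Ty.A) := by
      show (sD b.s (b.m :: b.ms), fD p q r b.f b.s (b.m :: b.ms), some b.t) = _
      rw [hrep, ht, fD_rep, List.replicate_succ, sD_cons]
    rw [e1, e2, ← Matrix.mulVec_mulVec]
    refine ⟨⟨DG_sD _ _ (DG_nx _ 3 hD), ?_⟩, ?_⟩
    · rw [List.replicate_succ, sD_cons]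
    · unfold ZR at h3
      exact h3
  · -- `2 ^ n`
    have hrep : b.m :: b.ms = List.replicate (b.ms.length + 1) 2 := by rw [hrun, alL_self]
    have hm : b.m = 2 := by
      rw [List.replicate_succ] at hrep
      exact (List.cons.inj hrep).1
    have hf : b.f = false := by
      cases hf : b.f with
      | false => rfl
      | true =>
        have := g3 hf
        omega
    have hne : b.o ≠ some Ty.B := by
      intro ho
      rcases f1 Ty.B ho with h1 | h1
      · omega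
      · exact h1 hm
    -- the source is an ordinary state
    have hsrc : 4 ≤ ML p q r b.s ∧ v ∈ R0 b.s := by
      have hv2 : v ∈ farR p q r RL R0 RF (b.s, false, b.o) := by rw [← hf]; exact hv'
      revert hv2 hne
      generalize b.o = o
      intro hne hv2
      match o, hv2, hne with
      | some Ty.B, _, hne => exact absurd rfl hne
      | some Ty.A, hv2, _ =>
        have h1 := hv2.1.2
        have h3 := ML3 hp hq hr hD
        have h4 : ¬ ML p q r b.s = 3 := by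
          intro h'
          rw [h'] at h1
          exact absurd h1 (by decide)
        have h5 := hv2.2
        rw [if_neg h4] at h5
        exact ⟨by omega, h5⟩
      | some (Ty.P _), hv2, _ => exact hv2.elim
      | some (Ty.Q _), hv2, _ => exact hv2.elim
      | none, hv2, _ => exact ⟨hv2.1.2.2, hv2.2⟩
      | some Ty.o, hv2, _ =>
        obtain ⟨⟨_, h1⟩, h2⟩ := hv2
        rcases h1 with ⟨h1, h3⟩ | ⟨h1, h3⟩
        · exact absurd h1 (by decide)
        · rw [if_neg (by decide)] at h2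
          exact ⟨by omega, h2⟩
    have h1 := h.twos' hD hsrc.1 hsrc.2 b.ms.length
    have e1 : MG p q r b w = BN p q r b.s (b.ms.length + 1) w := by rw [MG, if_pos ht]
    have e2 : b.tgt = (s2 b.s (b.ms.length + 1),
        decide (2 = ML p q r (sD b.s (List.replicate (b.ms.length + 1) 2))), some Ty.B) := by
      show (sD b.s (b.m :: b.ms), fD p q r b.f b.s (b.m :: b.ms), some b.t) = _
      rw [hrep, ht, fD_rep, s2_sD]
    rw [e1, e2]
    have hD' := s2_DG hD (b.ms.length + 1)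
    refine ⟨⟨hD', ?_⟩, h1⟩
    rw [s2_sD]
    have := ML3 hp hq hr hD'
    rw [decide_eq_false_iff_not]
    omega
  · exfalso
    rw [hC] at h7
    exact absurd h7 (by decide)

theorem FarSets.isReg (h : FarSets V e p q r C w RL R0 RF P1 P2) (σ : SSt Ty) :
    IsRegion (farR p q r RL R0 RF σ) := by
  obtain ⟨s, f, o⟩ := σ
  match o with
  | some Ty.B => exact isRegion_and (h.regL s)
  | some Ty.A =>
    refine isRegion_and ?_
    split_ifs
    · exact h.regF s
    · exact h.reg0 s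
  | some (Ty.P _) => exact isRegion_empty
  | some (Ty.Q _) => exact isRegion_empty
  | none => exact isRegion_and (h.reg0 s)
  | some Ty.o =>
    refine isRegion_and ?_
    split_ifs
    · exact h.regF s
    · exact h.reg0 s

theorem farR_live {σ : SSt Ty} {v : Fin 3 → ℂ} (hv : v ∈ farR p q r RL R0 RF σ) :
    liveF p q r σ := by
  obtain ⟨s, f, o⟩ := σ
  match o, hv with
  | some Ty.B, hv => exact hv.1
  | some Ty.A, hv => exact hv.1
  | some (Ty.P _), hv => exact hv.elim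
  | some (Ty.Q _), hv => exact hv.elim
  | none, hv => exact hv.1
  | some Ty.o, hv => exact hv.1

/-- THE CERTIFICATE AT A FAR POINT -/
theorem FarSets.gcert (h : FarSets V e p q r C w RL R0 RF P1 P2) (hp : 3 ≤ p) (hq : 3 ≤ q)
    (hr : 3 ≤ r) {Y : Modes} (hA : ∀ s, Y.A s = true) (hB : ∀ s, Y.B s = true)
    (hC : ∀ s m, Y.C s m = false) {live : SSt Ty → Prop} (hl1 : ∀ σ, liveF p q r σ → live σ)
    (hl2 : ∀ σ, DG σ.1 → live σ → liveF p q r σ) :
    GCert V e p q r Y live C w (farR p q r RL R0 RF) := by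
  refine ⟨h.isReg, fun b => h.blk hp hq hr hA hB hC b, fun σ hσ v hv => hσ (hl1 σ (farR_live hv)),
    fun σ hD hσ => ?_, fun s hD h3 i => ?_, fun s f hD _ u hu => ?_,
    fun s f k hD _ u hu => hu.elim, fun s f k hD _ u hu => hu.elim, fun s f hD _ u hu => ?_,
    fun σ v j hv => ?_⟩
  · have hL := hl2 σ hD hσ
    obtain ⟨s, f, o⟩ := σ
    match o, hL with
    | some Ty.B, hL =>
      refine ⟨hL, ?_⟩
      have h3 := ML3 hp hq hr hL.1
      show rG V p q r (s, f, some Ty.B) w ∈ RL s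
      rw [rG]
      show (if (some Ty.B : Option Ty) = some Ty.B then _ else _) ∈ RL s
      rw [if_pos rfl]
      by_cases h3' : ML p q r s = 3
      · have h5 : mm p q r (s, f, some Ty.B).1.1 (s, f, some Ty.B).1.2.2 = 3 := h3'
        rw [if_pos h5]
        exact h.refL s hL.1 h3'
      · have h5 : ¬ mm p q r (s, f, some Ty.B).1.1 (s, f, some Ty.B).1.2.2 = 3 := h3'
        rw [if_neg h5]
        exact h.refY s hL.1 (by omega)
    | some Ty.A, hL =>
      refine ⟨hL, ?_⟩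
      have h3 := ML3 hp hq hr hL.1
      have e0 : rG V p q r (s, f, some Ty.A) w = ![1, (V.al : ℂ), (V.be : ℂ)] := by
        rw [rG]; exact if_neg (by show some Ty.A ≠ some Ty.B; decide)
      rw [e0]
      split_ifs with h'
      · exact h.refF s hL.1
      · exact h.ref0 s hL.1 (by omega)
    | some (Ty.P _), hL => exact hL.elim
    | some (Ty.Q _), hL => exact hL.elim
    | none, hL =>
      refine ⟨hL, ?_⟩
      have e0 : rG V p q r (s, f, none) w = ![1, (V.al : ℂ), (V.be : ℂ)] := by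
        rw [rG]; exact if_neg (by show (none : Option Ty) ≠ some Ty.B; decide)
      rw [e0]
      exact h.ref0 s hL.1 hL.2.2
    | some Ty.o, hL =>
      refine ⟨hL, ?_⟩
      have e0 : rG V p q r (s, f, some Ty.o) w = ![1, (V.al : ℂ), (V.be : ℂ)] := by
        rw [rG]; exact if_neg (by show some Ty.o ≠ some Ty.B; decide)
      rw [e0]
      split_ifs with h'
      · exact h.refF s hL.1
      · rcases hL.2 with ⟨h1, h2⟩ | ⟨h1, h2⟩
        · exact absurd h1 h'
        · exact h.ref0 s hL.1 (by omega)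
  · have h4 : 4 ≤ ML p q r s := by
      have h5 := ML3 hp hq hr hD
      have h6 : ML p q r s ≠ 3 := h3
      omega
    exact ⟨⟨hD, rfl, h4⟩, h.start s hD h4 i⟩
  · obtain ⟨h1, h2⟩ := hu
    have h3 := ML3 hp hq hr hD
    split_ifs at h2 with h'
    · exact h.slitF s hD h' u h2
    · exact h.slit0 s hD (by omega) u h2
  · exact h.slitL s hD u hu.2
  · obtain ⟨s, f, o⟩ := σ
    obtain ⟨hD, ⟨-, h1⟩ | ⟨-, ⟨-, h1⟩ | h1⟩⟩ := farR_kind hp hq hr hv
    · exact h.bdL s hD v h1 j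
    · exact h.bd0 s hD v h1 j
    · exact h.bdF s hD v h1 j

end Pool.Agent.Helper94.CXF
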