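import Pool.Agent.Helper94.CXF.Br4
import Pool.Agent.Helper86.CX.Fmt
import Pool.Agent.Helper6.CX.TPC

/-!
FARL, third part: from inequalities between Hermitian forms in far coordinates to the certificate at
one far point.
-/

set_option autoImplicit false
noncomputable section
namespace Pool.Agent.Helper94.CXF

open Pool.Agent.Helper6.MONO
open Pool.Agent.Helper21.SUP (GS DG DG_nx)
open Pool.Agent.Helper21.SUP renaming nx → nxs
open Pool.Agent.Helper86.CX renaming Hm → Hm, ev → hev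
open Pool.Agent.Helper39.C75 (IsRegion)
open Pool.Agent.Helper6.MONO.SV (UY)
open Pool.Agent.Helper39.SLT (ML ML_nx isRegion_and isRegion_empty)
open ComplexConjugate

/-! ### forms -/

theorem ev_smul (K : Hm ℝ) (c : ℂ) (x : Fin 3 → ℂ) : hev K (c • x) = ‖c‖ ^ 2 * hev K x := by
  rw [← Complex.normSq_eq_norm_sq]
  simp only [hev, Pi.smul_apply, smul_eq_mul, map_mul]
  simp [Complex.normSq_apply]
  ring

theorem ev_comb (K : Hm ℝ) (s : ℝ) (v v' : Fin 3 → ℂ) :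
    hev K (v + (s : ℂ) • v') = (1 + s) * hev K v + (s + s ^ 2) * hev K v' - s * hev K (v - v') := by
  simp only [hev, Pi.smul_apply, smul_eq_mul, Pi.add_apply, Pi.sub_apply]
  simp [Complex.normSq_apply]
  ring

/-- the form is negative on `x 0 = 0` -/
def NegS (K : Hm ℝ) : Prop := ∀ x : Fin 3 → ℂ, x 0 = 0 → x ≠ 0 → hev K x < 0

/-- the implication between two forms -/
def Imp (K K' : Hm ℝ) (f : (Fin 3 → ℂ) → Fin 3 → ℂ) : Prop :=
  ∀ x, x ≠ 0 → 0 ≤ hev K x → 0 < hev K' (f x)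

theorem ev_zero (K : Hm ℝ) : hev K 0 = 0 := by
  simp [hev]

theorem NegS.ne0 {K : Hm ℝ} (h : NegS K) {x : Fin 3 → ℂ} (hx : 0 < hev K x) : x 0 ≠ 0 := by
  intro h0
  by_cases hz : x = 0
  · rw [hz, ev_zero] at hx
    exact lt_irrefl _ hx
  · exact absurd (h x h0 hz) (not_lt.2 hx.le)

/-- region of a form in far coordinates -/
def rgn (p q r : ℕ) (L : Bool) (e : ℂ) (s : GS) (K : Hm ℝ) : St :=
  {v | v 0 ≠ 0 ∧ 0 ≤ hev K (fv p q r L s e v)}

variable {p q r : ℕ}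

theorem fv_add (L : Bool) (s : GS) (e : ℂ) (v v' : Fin 3 → ℂ) :
    fv p q r L s e (v + v') = fv p q r L s e v + fv p q r L s e v' := Matrix.mulVec_add _ _ _

theorem fv_sub (L : Bool) (s : GS) (e : ℂ) (v v' : Fin 3 → ℂ) :
    fv p q r L s e (v - v') = fv p q r L s e v - fv p q r L s e v' := Matrix.mulVec_sub _ _ _

theorem fv_smul (L : Bool) (s : GS) (e c : ℂ) (v : Fin 3 → ℂ) :
    fv p q r L s e (c • v) = c • fv p q r L s e v := Matrix.mulVec_smul _ _ _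

theorem isRegion_rgn (L : Bool) (e : ℂ) (s : GS) {K : Hm ℝ} (h : NegS K) :
    IsRegion (rgn p q r L e s K) := by
  refine ⟨fun v hv => hv.1, fun c v hc hv => ⟨?_, ?_⟩, fun t v v' ht hv hv' h1 h1' => ⟨?_, ?_⟩⟩
  · rw [Pi.smul_apply, smul_eq_mul]
    exact mul_ne_zero hc hv.1
  · rw [fv_smul, ev_smul]
    exact mul_nonneg (by positivity) hv.2
  · rw [Pi.add_apply, Pi.smul_apply, smul_eq_mul, h1, h1', mul_one]
    have : (1 + t : ℝ) ≠ 0 := by positivity
    exact_mod_cast this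
  · rw [fv_add, fv_smul, ev_comb]
    have hd : hev K (fv p q r L s e v - fv p q r L s e v') ≤ 0 := by
      rw [← fv_sub]
      have h0 : fv p q r L s e (v - v') 0 = 0 := by
        rw [fv_zero, Pi.sub_apply, h1, h1', sub_self, mul_zero]
      by_cases hz : fv p q r L s e (v - v') = 0
      · rw [hz, ev_zero]
      · exact (h _ h0 hz).le
    nlinarith [mul_nonneg ht hv.2, mul_nonneg (add_nonneg ht (sq_nonneg t)) hv'.2, hv.2,
      mul_nonneg ht (neg_nonneg.2 hd)]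

/-- a block between two regions -/
theorem rgn_imp (hp : 3 ≤ p) (hq : 3 ≤ q) (hr : 3 ≤ r) {L L' : Bool} {e : ℂ} {s s' : GS}
    (hs : DG s) (hs' : DG s') {K K' : Hm ℝ} (hK' : NegS K') {T : M9 ℝ × M9 ℝ}
    (h : Imp K K' (ap T e)) {c : ℂ} (hc : c ≠ 0) {v v' : Fin 3 → ℂ}
    (hv : v ∈ rgn p q r L e s K)
    (he : fv p q r L' s' e v' = c • ap T e (fv p q r L s e v)) :
    v' ∈ rgn p q r L' e s' K' := by
  have hx : fv p q r L s e v ≠ 0 := by
    intro h0
    have h1 := fv_zero (p := p) (q := q) (r := r) L s e v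
    rw [h0, Pi.zero_apply] at h1
    have h2 : (c0 p q r L s : ℂ) ≠ 0 := by exact_mod_cast (c0_pos hp hq hr L hs).ne'
    exact (mul_ne_zero h2 hv.1) h1.symm
  have h1 := h _ hx hv.2
  have h2 : 0 < hev K' (fv p q r L' s' e v') := by
    rw [he, ev_smul]
    exact mul_pos (by positivity) h1
  refine ⟨?_, h2.le⟩
  have h3 := hK'.ne0 h2
  rw [fv_zero] at h3
  exact right_ne_zero_of_mul h3

/-- a block between two regions, weak form -/
theorem rgn_weak (hp : 3 ≤ p) (hq : 3 ≤ q) (hr : 3 ≤ r) {L L' : Bool} {e : ℂ} {s s' : GS}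
    (hs : DG s) (hs' : DG s') {K K' : Hm ℝ} {T : M9 ℝ × M9 ℝ}
    (h : ∀ x, x 0 ≠ 0 → 0 ≤ hev K x → 0 ≤ hev K' (ap T e x) ∧ ap T e x 0 ≠ 0)
    {c : ℂ} (hc : c ≠ 0) {v v' : Fin 3 → ℂ}
    (hv : v ∈ rgn p q r L e s K)
    (he : fv p q r L' s' e v' = c • ap T e (fv p q r L s e v)) :
    v' ∈ rgn p q r L' e s' K' := by
  have hx : fv p q r L s e v 0 ≠ 0 := by
    rw [fv_zero]
    have h2 : (c0 p q r L s : ℂ) ≠ 0 := by exact_mod_cast (c0_pos hp hq hr L hs).ne'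
    exact mul_ne_zero h2 hv.1
  obtain ⟨h1, h2⟩ := h _ hx hv.2
  refine ⟨?_, ?_⟩
  · have h3 := congrFun he 0
    rw [fv_zero, Pi.smul_apply, smul_eq_mul] at h3
    have h4 := mul_ne_zero hc h2
    rw [← h3] at h4
    exact right_ne_zero_of_mul h4
  · rw [he, ev_smul]
    exact mul_nonneg (by positivity) h1

/-- the slit condition -/
def Sl (K : Hm ℝ) (T : M9 ℝ × M9 ℝ) (d e : ℂ) : Prop :=
  ∀ x : Fin 3 → ℂ, x 0 ≠ 0 → 0 ≤ hev K x →
    ∃ g : ℂ, 0 < (g * (ap T e x 0 * conj (x 0))).re ∧ 0 ≤ (g * d).re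

theorem slit_aux {y d X x0 : ℂ} {c : ℝ} (hc : 0 < c) (hd : d ≠ 0) (hx : x0 ≠ 0)
    (hy : y = (c : ℂ) / d * (X / x0)) {g : ℂ} (h1 : 0 < (g * (X * conj x0)).re)
    (h2 : 0 ≤ (g * d).re) : y ∈ Complex.slitPlane := by
  by_contra hcon
  rw [Complex.mem_slitPlane_iff] at hcon
  push Not at hcon
  have hyr : y = ((y.re : ℝ) : ℂ) := by
    apply Complex.ext <;> simp [hcon.2]
  have e1 : g * (X * conj x0) = ((y.re / c * ‖x0‖ ^ 2 : ℝ) : ℂ) * (g * d) := by
    have hcc : (c : ℂ) ≠ 0 := by exact_mod_cast hc.ne'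
    have e2 : X = y * d / c * x0 := by
      rw [hy]; field_simp
    have e3 : x0 * conj x0 = ((‖x0‖ ^ 2 : ℝ) : ℂ) := by
      rw [Complex.mul_conj, Complex.normSq_eq_norm_sq]
    calc g * (X * conj x0) = (y / c) * (x0 * conj x0) * (g * d) := by rw [e2]; ring
      _ = _ := by rw [e3, hyr]; push_cast; simp
  rw [e1, Complex.re_ofReal_mul] at h1
  have h3 : y.re / c * ‖x0‖ ^ 2 ≤ 0 :=
    mul_nonpos_of_nonpos_of_nonneg (div_nonpos_of_nonpos_of_nonneg hcon.1 hc.le) (by positivity)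
  nlinarith [mul_nonneg (neg_nonneg.2 h3) h2]

end Pool.Agent.Helper94.CXF
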