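import Pool.Agent.Helper86.CX.Fmt
import Pool.Agent.Helper94.CXF.Br

/-!
FARL: matrices and Hermitian forms over a commutative ring (the functions of the kernel checker).
-/

set_option autoImplicit false
noncomputable section
namespace Pool.Agent.Helper94.CXF.GR

open Pool.Agent.Helper86.CX (Hm)
open Pool.Agent.Helper94.CXF (M9)

variable {R : Type} [CommRing R] {S : Type} [CommRing S]

def mm (A B : M9 R) : M9 R :=
  ⟨A.a * B.a + A.b * B.d + A.c * B.g, A.a * B.b + A.b * B.e + A.c * B.h,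
    A.a * B.c + A.b * B.f + A.c * B.i,
   A.d * B.a + A.e * B.d + A.f * B.g, A.d * B.b + A.e * B.e + A.f * B.h,
    A.d * B.c + A.e * B.f + A.f * B.i,
   A.g * B.a + A.h * B.d + A.i * B.g, A.g * B.b + A.h * B.e + A.i * B.h,
    A.g * B.c + A.h * B.f + A.i * B.i⟩
def tm (A B : M9 R) : M9 R :=
  ⟨A.a * B.a + A.d * B.d + A.g * B.g, A.a * B.b + A.d * B.e + A.g * B.h,
    A.a * B.c + A.d * B.f + A.g * B.i,
   A.b * B.a + A.e * B.d + A.h * B.g, A.b * B.b + A.e * B.e + A.h * B.h,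
    A.b * B.c + A.e * B.f + A.h * B.i,
   A.c * B.a + A.f * B.d + A.i * B.g, A.c * B.b + A.f * B.e + A.i * B.h,
    A.c * B.c + A.f * B.f + A.i * B.i⟩
def hR (K : Hm R) : M9 R := ⟨K.a, K.d, K.f, K.d, K.b, K.h, K.f, K.h, K.c⟩
def hJ (K : Hm R) : M9 R := ⟨0, K.e, K.g, -K.e, 0, K.i, -K.g, -K.i, 0⟩
def qr (K : Hm R) (A B : M9 R) : M9 R := tm A (mm (hR K) B)
def qi (K : Hm R) (A B : M9 R) : M9 R := tm A (mm (hJ K) B)
def hm (X J : M9 R) : Hm R := ⟨X.a, X.e, X.i, X.b, J.b, X.c, J.c, X.f, J.f⟩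
def cA (X J : M9 R) : Hm R :=
  ⟨X.a + X.a, X.e + X.e, X.i + X.i, X.b + X.d, J.b - J.d, X.c + X.g, J.c - J.g, X.f + X.h,
    J.f - J.h⟩
def cB (X J : M9 R) : Hm R :=
  ⟨J.a + J.a, J.e + J.e, J.i + J.i, J.b + J.d, X.d - X.b, J.c + J.g, X.g - X.c, J.f + J.h,
    X.h - X.f⟩
def smH (c : R) (K : Hm R) : Hm R :=
  ⟨c * K.a, c * K.b, c * K.c, c * K.d, c * K.e, c * K.f, c * K.g, c * K.h, c * K.i⟩
def adH (A B : Hm R) : Hm R :=
  ⟨A.a + B.a, A.b + B.b, A.c + B.c, A.d + B.d, A.e + B.e, A.f + B.f, A.g + B.g, A.h + B.h,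
    A.i + B.i⟩
def idH (c : R) : Hm R := ⟨c, c, c, 0, 0, 0, 0, 0, 0⟩
/-- `c` on the block diagonal -/
def idB (c : R) : Hm R := ⟨0, c, c, 0, 0, 0, 0, 0, 0⟩
def z9H : Hm R := ⟨0, 0, 0, 0, 0, 0, 0, 0, 0⟩
/-- entries of the first row and column -/
def rwH (K : Hm R) : Hm R := ⟨K.a, 0, 0, K.d, K.e, K.f, K.g, 0, 0⟩
/-- entries of the block -/
def bkH (K : Hm R) : Hm R := ⟨0, K.b, K.c, 0, 0, 0, 0, K.h, K.i⟩
def rwM (K : M9 R) : M9 R := ⟨K.a, K.b, K.c, K.d, 0, 0, K.g, 0, 0⟩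
def bkM (K : M9 R) : M9 R := ⟨0, 0, 0, 0, K.e, K.f, 0, K.h, K.i⟩
/-- sum of the squares of the entries -/
def sqM (A : M9 R) : R :=
  A.a * A.a + A.b * A.b + A.c * A.c + A.d * A.d + A.e * A.e + A.f * A.f + A.g * A.g +
    A.h * A.h + A.i * A.i

/-- change of the ring -/
def mpM (f : R → S) (A : M9 R) : M9 S :=
  ⟨f A.a, f A.b, f A.c, f A.d, f A.e, f A.f, f A.g, f A.h, f A.i⟩
def mpH (f : R → S) (A : Hm R) : Hm S :=
  ⟨f A.a, f A.b, f A.c, f A.d, f A.e, f A.f, f A.g, f A.h, f A.i⟩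

section maps
variable (f : R →+* S)
theorem mp_mm (A B : M9 R) : mpM f (mm A B) = mm (mpM f A) (mpM f B) := by
  simp [mpM, mm]
theorem mp_tm (A B : M9 R) : mpM f (tm A B) = tm (mpM f A) (mpM f B) := by
  simp [mpM, tm]
theorem mp_hR (K : Hm R) : mpM f (hR K) = hR (mpH f K) := by
  simp [mpM, mpH, hR]
theorem mp_hJ (K : Hm R) : mpM f (hJ K) = hJ (mpH f K) := by
  simp [mpM, mpH, hJ]
theorem mp_qr (K : Hm R) (A B : M9 R) : mpM f (qr K A B) = qr (mpH f K) (mpM f A) (mpM f B) := by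
  rw [qr, mp_tm, mp_mm, mp_hR]; rfl
theorem mp_qi (K : Hm R) (A B : M9 R) : mpM f (qi K A B) = qi (mpH f K) (mpM f A) (mpM f B) := by
  rw [qi, mp_tm, mp_mm, mp_hJ]; rfl
theorem mp_hm (X J : M9 R) : mpH f (hm X J) = hm (mpM f X) (mpM f J) := rfl
theorem mp_cA (X J : M9 R) : mpH f (cA X J) = cA (mpM f X) (mpM f J) := by
  simp [mpM, mpH, cA]
theorem mp_cB (X J : M9 R) : mpH f (cB X J) = cB (mpM f X) (mpM f J) := by
  simp [mpM, mpH, cB]
theorem mp_smH (c : R) (K : Hm R) : mpH f (smH c K) = smH (f c) (mpH f K) := by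
  simp [mpH, smH]
theorem mp_adH (A B : Hm R) : mpH f (adH A B) = adH (mpH f A) (mpH f B) := by
  simp [mpH, adH]
theorem mp_idH (c : R) : mpH f (idH c) = idH (f c) := by
  simp [mpH, idH]
theorem mp_idB (c : R) : mpH f (idB c) = idB (f c) := by
  simp [mpH, idB]
theorem mp_rwH (K : Hm R) : mpH f (rwH K) = rwH (mpH f K) := by
  simp [mpH, rwH]
theorem mp_bkH (K : Hm R) : mpH f (bkH K) = bkH (mpH f K) := by
  simp [mpH, bkH]
theorem mp_sqM (A : M9 R) : f (sqM A) = sqM (mpM f A) := by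
  simp [mpM, sqM]
end maps

end Pool.Agent.Helper94.CXF.GR
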