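import Pool.Agent.Helper86.CX.Fmt
import Pool.Agent.Helper94.CXF.Br

/-!
FARL: kernel checker for the far cells. Signed integers are represented by natural numbers modulo
`2 ^ 1152`. Units: run matrices `2 ^ (-48)`, forms `2 ^ (-20)`, nodes `2 ^ (-40)`, `s = i / 2048`,
the functions of the node `2 ^ (-62)`, multipliers `2 ^ (-24)`.
-/

set_option autoImplicit false
noncomputable section
namespace Pool.Agent.Helper94.CXF.KN

open Pool.Agent.Helper86.CX (Hm)
open Pool.Agent.Helper94.CXF (M9)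

/-- `2 ^ 1152` -/
def MM : Nat := 61172327492847069472032393719205726809135813743440799050195397570919697796091958321786863938157971792315844506873509046544459008355036150650333616890210625686064472971480622053109783197015954399612052812141827922088117778074833698589048132156300022844899841969874763871624802603515651998113045708569927237462546233168834543264678118409417047146496
/-- `2 ^ 1152 - 1` -/
def NN : Nat := 61172327492847069472032393719205726809135813743440799050195397570919697796091958321786863938157971792315844506873509046544459008355036150650333616890210625686064472971480622053109783197015954399612052812141827922088117778074833698589048132156300022844899841969874763871624802603515651998113045708569927237462546233168834543264678118409417047146495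
/-- `2 ^ 1151 - 2` -/
def HH : Nat := 30586163746423534736016196859602863404567906871720399525097698785459848898045979160893431969078985896157922253436754523272229504177518075325166808445105312843032236485740311026554891598507977199806026406070913961044058889037416849294524066078150011422449920984937381935812401301757825999056522854284963618731273116584417271632339059204708523573246

def andB (x y : Bool) : Bool := Bool.rec (motive := fun _ => Bool) false y x
def pos (x : Nat) : Bool := Nat.ble (Nat.mod (Nat.add x NN) MM) HH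
def ng (x : Nat) : Nat := Nat.mod (Nat.mul NN x) MM
def mn (a b c d e f : Nat) : Nat :=
  Nat.mod (Nat.add (Nat.mul a b) (Nat.mul NN (Nat.add (Nat.mul c d) (Nat.mul e f)))) MM
def psd2 (a m22 m33 mr mi : Nat) : Bool :=
  andB (pos a) (andB (pos m22)
    (pos (Nat.add (Nat.mul m22 m33) (Nat.mul NN (Nat.add (Nat.mul mr mr) (Nat.mul mi mi))))))
def psd1 (a b c d e f g h i : Nat) : Bool :=
  psd2 a (mn a b d d e e) (mn a c f f g g) (mn a h d f e g)
    (Nat.mod (Nat.add (Nat.add (Nat.mul a i) (Nat.mul e f)) (Nat.mul NN (Nat.mul d g))) MM)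
def psd (N : Hm Nat) : Bool := psd1 N.a N.b N.c N.d N.e N.f N.g N.h N.i

/-! ### matrices -/

def d3 (a x b y c z : Nat) : Nat :=
  Nat.mod (Nat.add (Nat.add (Nat.mul a x) (Nat.mul b y)) (Nat.mul c z)) MM
/-- product -/
def mm (A B : M9 Nat) : M9 Nat :=
  ⟨d3 A.a B.a A.b B.d A.c B.g, d3 A.a B.b A.b B.e A.c B.h, d3 A.a B.c A.b B.f A.c B.i,
   d3 A.d B.a A.e B.d A.f B.g, d3 A.d B.b A.e B.e A.f B.h, d3 A.d B.c A.e B.f A.f B.i,
   d3 A.g B.a A.h B.d A.i B.g, d3 A.g B.b A.h B.e A.i B.h, d3 A.g B.c A.h B.f A.i B.i⟩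
/-- transpose of the first factor -/
def tm (A B : M9 Nat) : M9 Nat :=
  ⟨d3 A.a B.a A.d B.d A.g B.g, d3 A.a B.b A.d B.e A.g B.h, d3 A.a B.c A.d B.f A.g B.i,
   d3 A.b B.a A.e B.d A.h B.g, d3 A.b B.b A.e B.e A.h B.h, d3 A.b B.c A.e B.f A.h B.i,
   d3 A.c B.a A.f B.d A.i B.g, d3 A.c B.b A.f B.e A.i B.h, d3 A.c B.c A.f B.f A.i B.i⟩
def hR (K : Hm Nat) : M9 Nat := ⟨K.a, K.d, K.f, K.d, K.b, K.h, K.f, K.h, K.c⟩
def hJ (K : Hm Nat) : M9 Nat :=
  ⟨(nat_lit 0), K.e, K.g, ng K.e, (nat_lit 0), K.i, ng K.g, ng K.i, (nat_lit 0)⟩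
def qr (K : Hm Nat) (A B : M9 Nat) : M9 Nat := tm A (mm (hR K) B)
def qi (K : Hm Nat) (A B : M9 Nat) : M9 Nat := tm A (mm (hJ K) B)
/-- the entries of a Hermitian matrix -/
def hm (R J : M9 Nat) : Hm Nat := ⟨R.a, R.e, R.i, R.b, J.b, R.c, J.c, R.f, J.f⟩
def sb (x y : Nat) : Nat := Nat.add x (Nat.mul NN y)
/-- `Q + Q*` -/
def cA (R J : M9 Nat) : Hm Nat :=
  ⟨Nat.add R.a R.a, Nat.add R.e R.e, Nat.add R.i R.i, Nat.add R.b R.d, sb J.b J.d,
    Nat.add R.c R.g, sb J.c J.g, Nat.add R.f R.h, sb J.f J.h⟩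
/-- `-i (Q - Q*)` -/
def cB (R J : M9 Nat) : Hm Nat :=
  ⟨Nat.add J.a J.a, Nat.add J.e J.e, Nat.add J.i J.i, Nat.add J.b J.d, sb R.d R.b,
    Nat.add J.c J.g, sb R.g R.c, Nat.add J.f J.h, sb R.h R.f⟩
def smH (c : Nat) (K : Hm Nat) : Hm Nat :=
  ⟨Nat.mod (Nat.mul c K.a) MM, Nat.mod (Nat.mul c K.b) MM, Nat.mod (Nat.mul c K.c) MM,
   Nat.mod (Nat.mul c K.d) MM, Nat.mod (Nat.mul c K.e) MM, Nat.mod (Nat.mul c K.f) MM,
   Nat.mod (Nat.mul c K.g) MM, Nat.mod (Nat.mul c K.h) MM, Nat.mod (Nat.mul c K.i) MM⟩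
def adH (A B : Hm Nat) : Hm Nat :=
  ⟨Nat.add A.a B.a, Nat.add A.b B.b, Nat.add A.c B.c, Nat.add A.d B.d, Nat.add A.e B.e,
   Nat.add A.f B.f, Nat.add A.g B.g, Nat.add A.h B.h, Nat.add A.i B.i⟩
def sq (a b c d e : Nat) : Nat :=
  Nat.add (Nat.mul a a) (Nat.add (Nat.mul b b) (Nat.add (Nat.mul c c) (Nat.add (Nat.mul d d)
    (Nat.mul e e))))
def sq4 (a b c d : Nat) : Nat :=
  Nat.add (Nat.mul a a) (Nat.add (Nat.mul b b) (Nat.add (Nat.mul c c) (Nat.mul d d)))
/-- squares of the first row and column -/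
def sR (A : M9 Nat) : Nat := sq A.a A.b A.c A.d A.g
/-- squares of the block -/
def sB (A : M9 Nat) : Nat := sq4 A.e A.f A.h A.i
/-- `4 (|R|² + |J|²) ≤ n²`, all entries -/
def nq (R J : M9 Nat) (n : Nat) : Bool :=
  Nat.ble (Nat.mod (Nat.mul (nat_lit 4) (Nat.add (Nat.add (sR R) (sB R)) (Nat.add (sR J) (sB J)))) MM)
    (Nat.mul n n)
def nqR (R J : M9 Nat) (n : Nat) : Bool :=
  Nat.ble (Nat.mod (Nat.mul (nat_lit 4) (Nat.add (sR R) (sR J))) MM) (Nat.mul n n)
def nqB (R J : M9 Nat) (n : Nat) : Bool :=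
  Nat.ble (Nat.mod (Nat.mul (nat_lit 4) (Nat.add (sB R) (sB J))) MM) (Nat.mul n n)
/-- `|R|² + |J|² ≤ n²` -/
def np (R J : M9 Nat) (n : Nat) : Bool :=
  Nat.ble (Nat.mod (Nat.add (Nat.add (sR R) (sB R)) (Nat.add (sR J) (sB J))) MM) (Nat.mul n n)
def npR (R J : M9 Nat) (n : Nat) : Bool :=
  Nat.ble (Nat.mod (Nat.add (sR R) (sR J)) MM) (Nat.mul n n)
def npB (R J : M9 Nat) (n : Nat) : Bool :=
  Nat.ble (Nat.mod (Nat.add (sB R) (sB J)) MM) (Nat.mul n n)

/-! ### nodes -/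

/-- `s = i / 2048`, `Re u = (X - 2 ^ 42) / 2 ^ 40`, `Im u = - Y / 2 ^ 40` -/
structure Nd where
  i : Nat
  X : Nat
  Y : Nat

/-- `x0 = (x - 2 ^ 50) / 2 ^ 48` -/
def okNd (x : Nat) (n : Nd) : Bool :=
  andB (Nat.ble n.i (nat_lit 256))
  (andB (Nat.ble (Nat.add (Nat.mul n.X (Nat.add (nat_lit 4194304) (Nat.mul n.i n.i))) (Nat.mul n.i (nat_lit 9007199254740992)))
      (Nat.add (Nat.add (Nat.mul (Nat.mul (nat_lit 8) x) n.i) (Nat.mul (nat_lit 4398046511104) (Nat.add (nat_lit 4194304) (Nat.mul n.i n.i)))) (nat_lit 8388608)))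
  (andB (Nat.ble (Nat.add (Nat.mul (Nat.mul (nat_lit 8) x) n.i) (Nat.mul (nat_lit 4398046511104) (Nat.add (nat_lit 4194304) (Nat.mul n.i n.i))))
      (Nat.add (Nat.add (Nat.mul n.X (Nat.add (nat_lit 4194304) (Nat.mul n.i n.i))) (Nat.mul n.i (nat_lit 9007199254740992))) (nat_lit 8388608)))
  (andB (Nat.ble (Nat.add (Nat.add (Nat.mul n.X n.X) (nat_lit 19342813113834066795298816)) (Nat.mul n.Y n.Y))
      (Nat.add (Nat.add (nat_lit 1208925819614629174706176) (Nat.mul (nat_lit 8796093022208) n.X)) (nat_lit 4398046511104)))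
  (Nat.ble (Nat.add (nat_lit 1208925819614629174706176) (Nat.mul (nat_lit 8796093022208) n.X))
      (Nat.add (Nat.add (Nat.add (Nat.mul n.X n.X) (nat_lit 19342813113834066795298816)) (Nat.mul n.Y n.Y)) (nat_lit 4398046511104))))))

/-- `Re u 2 ^ 40` -/
def c42 : Nat := nat_lit 61172327492847069472032393719205726809135813743440799050195397570919697796091958321786863938157971792315844506873509046544459008355036150650333616890210625686064472971480622053109783197015954399612052812141827922088117778074833698589048132156300022844899841969874763871624802603515651998113045708569927237462546233168834543264678118405019000635392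
def nX (n : Nd) : Nat := Nat.add n.X c42
/-- `s 2 ^ 62` -/
def fs (n : Nd) : Nat := Nat.mul n.i (nat_lit 2251799813685248)
/-- `s² 2 ^ 62` -/
def fs2 (n : Nd) : Nat := Nat.mul (Nat.mul n.i n.i) (nat_lit 1099511627776)
/-- `s³ 2 ^ 62` -/
def fs3 (n : Nd) : Nat := Nat.mul (Nat.mul (Nat.mul n.i n.i) n.i) (nat_lit 536870912)
def fur (n : Nd) : Nat := Nat.mul (nX n) (nat_lit 4194304)
def fui (n : Nd) : Nat := Nat.mul n.Y (nat_lit 4194304)
def fer (n : Nd) : Nat := Nat.mul (Nat.mul n.i (nX n)) (nat_lit 2048)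
def fei (n : Nd) : Nat := Nat.mul (Nat.mul n.i n.Y) (nat_lit 2048)
def fgr (n : Nd) : Nat := Nat.mul (Nat.mul n.i n.i) (nX n)
def fgi (n : Nd) : Nat := Nat.mul (Nat.mul n.i n.i) n.Y

/-! ### deviations, units `2 ^ (-62)`; `x` is `|x0| 2 ^ 16` -/

def dU (x d : Nat) : Nat := Nat.add (Nat.mul (Nat.mul x (Nat.mul d d)) (nat_lit 6717440)) (nat_lit 67108864)
def dE (x d : Nat) : Nat := Nat.add (Nat.mul (Nat.mul x (Nat.mul d d)) (nat_lit 6127616)) (nat_lit 16777216)
def dG (x d : Nat) : Nat := Nat.add (Nat.mul (Nat.mul d d) (Nat.add (nat_lit 274877906944) (Nat.mul x (nat_lit 1687552)))) (nat_lit 16777216)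
def dS (d : Nat) : Nat := Nat.mul (Nat.mul d d) (nat_lit 274877906944)
def dC (d : Nat) : Nat := Nat.mul (Nat.mul d d) (nat_lit 103079215104)

/-! ### the main test -/

/-- `l (p1 P + pr A + pi B + ps S) + KN` -/
def e4 (l p1 pr pi ps P A B S KN : Nat) : Nat :=
  Nat.mod (Nat.add (Nat.mul l (Nat.add (Nat.add (Nat.mul p1 P) (Nat.mul pr A)) (Nat.add (Nat.mul pi B) (Nat.mul ps S)))) KN) MM
def nd4 (l p1 pr pi ps d : Nat) (P A B S K : Hm Nat) : Hm Nat :=
  ⟨Nat.add (e4 l p1 pr pi ps P.a A.a B.a S.a K.a) d,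
   Nat.add (e4 l p1 pr pi ps P.b A.b B.b S.b K.b) d,
   Nat.add (e4 l p1 pr pi ps P.c A.c B.c S.c K.c) d, e4 l p1 pr pi ps P.d A.d B.d S.d K.d,
   e4 l p1 pr pi ps P.e A.e B.e S.e K.e, e4 l p1 pr pi ps P.f A.f B.f S.f K.f,
   e4 l p1 pr pi ps P.g A.g B.g S.g K.g, e4 l p1 pr pi ps P.h A.h B.h S.h K.h,
   e4 l p1 pr pi ps P.i A.i B.i S.i K.i⟩

def p158 : Nat := nat_lit 365375409332725729550921208179070754913983135744
def p160 : Nat := nat_lit 1461501637330902918203684832716283019655932542976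
/-- `2 ^ 62` -/
def o62 : Nat := nat_lit 4611686018427387904
/-- `- 2 ^ 182` -/
def c182 : Nat := nat_lit 61172327492847069472032393719205726809135813743440799050195397570919697796091958321786863938157971792315844506873509046544459008355036150650333616890210625686064472971480622053109783197015954399612052812141827922088117778074833698589048132156300022844899841969874763871624802603515651998113039578587763773907112799780725942027943643452928312737792
def big : Nat := nat_lit 44601490397061246283071436545296723011960832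
def lmax : Nat := nat_lit 1099511627776

/-- coefficient of the multiplier in the slack -/
def sl4 (x d n m : Nat) : Nat :=
  Nat.add (Nat.add (Nat.mul (dE x d) n) (Nat.mul (dS d) m)) p158
def nd (l d : Nat) (k : Nd) (P A B S K : Hm Nat) : Hm Nat :=
  nd4 l o62 (fer k) (fei k) (fs2 k) d P A B S K
/-- one chord -/
def ct (x n m : Nat) (P A B S K : Hm Nat) (k0 k1 : Nd) (l : Nat) : Bool :=
  andB (andB (Nat.ble (nat_lit 1) l) (Nat.ble l lmax)) (andB (Nat.ble (Nat.succ k0.i) k1.i)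
  (andB (psd (nd l (ng (Nat.mul l (sl4 x (Nat.sub k1.i k0.i) n m))) k0 P A B S K))
    (psd (nd l (ng (Nat.mul l (sl4 x (Nat.sub k1.i k0.i) n m))) k1 P A B S K))))

def nd0 : Nd := ⟨(nat_lit 0), (nat_lit 0), (nat_lit 0)⟩
def nthN (l : List Nd) : Nat → Nd :=
  List.rec (motive := fun _ => Nat → Nd) (fun _ => nd0)
    (fun x _ ih k => Nat.rec (motive := fun _ => Nd) x (fun k _ => ih k) k) l
/-- list of chords: each number is `64 l + position of the right end` -/
def chs (ns : List Nd) (f : Nd → Nd → Nat → Bool) (e : Nat) (c : List Nat) : Nd → Bool :=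
  List.rec (motive := fun _ => Nd → Bool) (fun k => Nat.beq k.i e)
    (fun x _ ih k => andB (f k (nthN ns (Nat.mod x (nat_lit 64))) (Nat.div x (nat_lit 64)))
      (ih (nthN ns (Nat.mod x (nat_lit 64))))) c

structure Lm where
  n : Nat
  m : Nat
  c : List Nat

def lm2 (ns : List Nd) (x : Nat) (k : Nd) (e : Nat) (t : Lm) (KN : Hm Nat)
    (R0 J0 R1 J1 R2 J2 : M9 Nat) : Bool :=
  andB (nq R1 J1 t.n) (andB (np R2 J2 t.m)
    (chs ns (ct x t.n t.m (hm R0 J0) (cA R1 J1) (cB R1 J1) (hm R2 J2) KN) e t.c k))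
/-- the main test: `K (x) ≥ 0 → K' (T x) > 0` -/
def lmi (ns : List Nd) (x : Nat) (k : Nd) (e : Nat) (t : Lm) (K' K : Hm Nat)
    (T : M9 Nat × M9 Nat) : Bool :=
  andB (Nat.ble t.n big) (andB (Nat.ble t.m big)
    (lm2 ns x k e t (smH c182 K) (qr K' T.1 T.1) (qi K' T.1 T.1) (qr K' T.1 T.2) (qi K' T.1 T.2)
      (qr K' T.2 T.2) (qi K' T.2 T.2)))

/-! ### affine families -/

/-- `- 2 ^ 120` -/
def c120 : Nat := nat_lit 61172327492847069472032393719205726809135813743440799050195397570919697796091958321786863938157971792315844506873509046544459008355036150650333616890210625686064472971480622053109783197015954399612052812141827922088117778074833698589048132156300022844899841969874763871624802603515651998113045708569927237462544903940838758348805214602356766801920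
def e2 (l s V0 V1 H0 H1 : Nat) : Nat :=
  Nat.mod (Nat.add (Nat.mul l (Nat.add (Nat.mul o62 V0) (Nat.mul s V1)))
    (Nat.mul c120 (Nat.add (Nat.mul o62 H0) (Nat.mul s H1)))) MM
def nd2 (l s d : Nat) (V0 V1 H0 H1 : Hm Nat) : Hm Nat :=
  ⟨Nat.add (e2 l s V0.a V1.a H0.a H1.a) d, Nat.add (e2 l s V0.b V1.b H0.b H1.b) d,
   Nat.add (e2 l s V0.c V1.c H0.c H1.c) d, e2 l s V0.d V1.d H0.d H1.d,
   e2 l s V0.e V1.e H0.e H1.e, e2 l s V0.f V1.f H0.f H1.f, e2 l s V0.g V1.g H0.g H1.g,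
   e2 l s V0.h V1.h H0.h H1.h, e2 l s V0.i V1.i H0.i H1.i⟩
def c2 (V0 V1 H0 H1 : Hm Nat) (k0 k1 : Nd) (l : Nat) : Bool :=
  andB (andB (Nat.ble (nat_lit 1) l) (Nat.ble l lmax)) (andB (Nat.ble (Nat.succ k0.i) k1.i)
  (andB (psd (nd2 l (fs k0) (ng (Nat.mul l p158)) V0 V1 H0 H1))
    (psd (nd2 l (fs k1) (ng (Nat.mul l p158)) V0 V1 H0 H1))))
/-- `H0 + s H1 ≥ 0 → V0 + s V1 > 0` -/
def aff (ns : List Nd) (k : Nd) (e : Nat) (c : List Nat) (V0 V1 H0 H1 : Hm Nat) : Bool :=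
  chs ns (c2 V0 V1 H0 H1) e c k
def z9N : Hm Nat :=
  ⟨nat_lit 0, nat_lit 0, nat_lit 0, nat_lit 0, nat_lit 0, nat_lit 0, nat_lit 0, nat_lit 0, nat_lit 0⟩

/-! ### two runs of two, orientation `-`, from `Y` -/

structure L2 where
  nu : Nat
  ne : Nat
  m : Nat
  c : List Nat

def e7 (s s2 ur ui er ei P1 S0 S1 A0 B0 A1 B1 : Nat) : Nat :=
  Nat.mod (Nat.add (Nat.add (Nat.mul o62 P1) (Nat.add (Nat.mul s S0) (Nat.mul s2 S1)))
    (Nat.add (Nat.add (Nat.mul ur A0) (Nat.mul ui B0)) (Nat.add (Nat.mul er A1) (Nat.mul ei B1)))) MM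
def v7 (s s2 ur ui er ei : Nat) (P1 S0 S1 A0 B0 A1 B1 : Hm Nat) : Hm Nat :=
  ⟨e7 s s2 ur ui er ei P1.a S0.a S1.a A0.a B0.a A1.a B1.a,
   e7 s s2 ur ui er ei P1.b S0.b S1.b A0.b B0.b A1.b B1.b,
   e7 s s2 ur ui er ei P1.c S0.c S1.c A0.c B0.c A1.c B1.c,
   e7 s s2 ur ui er ei P1.d S0.d S1.d A0.d B0.d A1.d B1.d,
   e7 s s2 ur ui er ei P1.e S0.e S1.e A0.e B0.e A1.e B1.e,
   e7 s s2 ur ui er ei P1.f S0.f S1.f A0.f B0.f A1.f B1.f,
   e7 s s2 ur ui er ei P1.g S0.g S1.g A0.g B0.g A1.g B1.g,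
   e7 s s2 ur ui er ei P1.h S0.h S1.h A0.h B0.h A1.h B1.h,
   e7 s s2 ur ui er ei P1.i S0.i S1.i A0.i B0.i A1.i B1.i⟩
def vr (k : Nd) (P1 S0 S1 A0 B0 A1 B1 : Hm Nat) : Hm Nat :=
  v7 (fs k) (fs2 k) (fur k) (fui k) (fer k) (fei k) P1 S0 S1 A0 B0 A1 B1
/-- `l V + KN` with `d` on the diagonal -/
def lVK (l d : Nat) (V KN : Hm Nat) : Hm Nat :=
  ⟨Nat.add (Nat.add (Nat.mul l V.a) KN.a) d, Nat.add (Nat.add (Nat.mul l V.b) KN.b) d,
   Nat.add (Nat.add (Nat.mul l V.c) KN.c) d, Nat.add (Nat.mul l V.d) KN.d,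
   Nat.add (Nat.mul l V.e) KN.e, Nat.add (Nat.mul l V.f) KN.f, Nat.add (Nat.mul l V.g) KN.g,
   Nat.add (Nat.mul l V.h) KN.h, Nat.add (Nat.mul l V.i) KN.i⟩
def slr (x d nu ne m : Nat) : Nat :=
  Nat.add (Nat.add (Nat.mul (dU x d) nu) (Nat.mul (dE x d) ne)) (Nat.add (Nat.mul (dS d) m) p160)
def c7 (x nu ne m : Nat) (P1 S0 S1 A0 B0 A1 B1 KN : Hm Nat) (k0 k1 : Nd) (l : Nat) : Bool :=
  andB (andB (Nat.ble (nat_lit 1) l) (Nat.ble l lmax)) (andB (Nat.ble (Nat.succ k0.i) k1.i)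
  (andB (psd (lVK l (ng (Nat.mul l (slr x (Nat.sub k1.i k0.i) nu ne m))) (vr k0 P1 S0 S1 A0 B0 A1 B1) KN))
    (psd (lVK l (ng (Nat.mul l (slr x (Nat.sub k1.i k0.i) nu ne m))) (vr k1 P1 S0 S1 A0 B0 A1 B1) KN))))
def t22 (ns : List Nd) (x : Nat) (k : Nd) (e : Nat) (t : L2) (KN : Hm Nat)
    (R0 J0 R1 J1 S0r S0i S1r S1i P1r P1i : M9 Nat) : Bool :=
  andB (nq R0 J0 t.nu) (andB (nq R1 J1 t.ne) (andB (np S1r S1i t.m)
    (chs ns (c7 x t.nu t.ne t.m (hm P1r P1i) (hm S0r S0i) (hm S1r S1i) (cA R0 J0) (cB R0 J0)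
      (cA R1 J1) (cB R1 J1) KN) e t.c k)))
/-- target `KA + s KB`, source `K` -/
def t2 (ns : List Nd) (x : Nat) (k : Nd) (e : Nat) (t : L2) (KA KB K : Hm Nat)
    (T : M9 Nat × M9 Nat) : Bool :=
  andB (Nat.ble t.nu big) (andB (Nat.ble t.ne big) (andB (Nat.ble t.m big)
    (t22 ns x k e t (smH c182 K) (qr KA T.1 T.2) (qi KA T.1 T.2) (qr KB T.1 T.2) (qi KB T.1 T.2)
      (qr KA T.2 T.2) (qi KA T.2 T.2) (qr KB T.2 T.2) (qi KB T.2 T.2)
      (qr KB T.1 T.1) (qi KB T.1 T.1))))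

/-! ### two runs of two, orientation `-`, from `L` -/

structure LU where
  nu : Nat
  ne : Nat
  m : Nat
  be : Nat
  bg : Nat
  b0 : Nat
  b1 : Nat
  c : List Nat

def e8 (s s2 s3 er ei gr gi D0 D1 A0 B0 A1 B1 S0 S1 : Nat) : Nat :=
  Nat.mod (Nat.add (Nat.add (Nat.mul o62 D0) (Nat.add (Nat.mul s D1) (Nat.add (Nat.mul s2 S0) (Nat.mul s3 S1))))
    (Nat.add (Nat.add (Nat.mul er A0) (Nat.mul ei B0)) (Nat.add (Nat.mul gr A1) (Nat.mul gi B1)))) MM
/-- the block entries, from `e8`; the others from `e7` (with `D1` for `P1`), times `w` -/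
def v8 (w s s2 s3 ur ui er ei gr gi df db : Nat) (D0 D1 A0 B0 A1 B1 S0 S1 : Hm Nat) : Hm Nat :=
  ⟨Nat.add (Nat.mul w (e7 s s2 ur ui er ei D1.a S0.a S1.a A0.a B0.a A1.a B1.a)) df,
   Nat.add (Nat.mul (nat_lit 2048) (e8 s s2 s3 er ei gr gi D0.b D1.b A0.b B0.b A1.b B1.b S0.b S1.b)) db,
   Nat.add (Nat.mul (nat_lit 2048) (e8 s s2 s3 er ei gr gi D0.c D1.c A0.c B0.c A1.c B1.c S0.c S1.c)) db,
   Nat.mul w (e7 s s2 ur ui er ei D1.d S0.d S1.d A0.d B0.d A1.d B1.d),
   Nat.mul w (e7 s s2 ur ui er ei D1.e S0.e S1.e A0.e B0.e A1.e B1.e),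
   Nat.mul w (e7 s s2 ur ui er ei D1.f S0.f S1.f A0.f B0.f A1.f B1.f),
   Nat.mul w (e7 s s2 ur ui er ei D1.g S0.g S1.g A0.g B0.g A1.g B1.g),
   Nat.mul (nat_lit 2048) (e8 s s2 s3 er ei gr gi D0.h D1.h A0.h B0.h A1.h B1.h S0.h S1.h),
   Nat.mul (nat_lit 2048) (e8 s s2 s3 er ei gr gi D0.i D1.i A0.i B0.i A1.i B1.i S0.i S1.i)⟩
def vU (w df db : Nat) (k : Nd) (D0 D1 A0 B0 A1 B1 S0 S1 : Hm Nat) : Hm Nat :=
  v8 w (fs k) (fs2 k) (fs3 k) (fur k) (fui k) (fer k) (fei k) (fgr k) (fgi k) df db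
    D0 D1 A0 B0 A1 B1 S0 S1
/-- slack of the row part (times `w`) and of the block part (times `2048`) -/
def sF (x d w : Nat) (t : LU) : Nat := Nat.mul w (slr x d t.nu t.ne t.m)
def sD (x d : Nat) (t : LU) : Nat :=
  Nat.mul (nat_lit 2048) (Nat.add (Nat.add (Nat.mul (dE x d) t.be) (Nat.mul (dG x d) t.bg))
    (Nat.add (Nat.add (Nat.mul (dS d) t.b0) (Nat.mul (dC d) t.b1)) p160))
def c8 (x : Nat) (t : LU) (D0 D1 A0 B0 A1 B1 S0 S1 : Hm Nat) (k0 k1 : Nd) (_l : Nat) : Bool :=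
  andB (Nat.ble (Nat.succ k0.i) k1.i)
  (andB (psd (vU k1.i (ng (sF x (Nat.sub k1.i k0.i) k1.i t))
      (ng (Nat.add (sF x (Nat.sub k1.i k0.i) k1.i t) (sD x (Nat.sub k1.i k0.i) t))) k0 D0 D1 A0 B0 A1 B1 S0 S1))
    (psd (vU k1.i (ng (sF x (Nat.sub k1.i k0.i) k1.i t))
      (ng (Nat.add (sF x (Nat.sub k1.i k0.i) k1.i t) (sD x (Nat.sub k1.i k0.i) t))) k1 D0 D1 A0 B0 A1 B1 S0 S1)))
def uu2 (ns : List Nd) (x : Nat) (k : Nd) (e : Nat) (t : LU) (pp : Nat) (HA HB : Hm Nat)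
    (P0r P0i P1r P1i R0 J0 R1 J1 S0r S0i S1r S1i : M9 Nat) : Bool :=
  andB (nqR R0 J0 t.nu) (andB (nqR R1 J1 t.ne) (andB (npR S1r S1i t.m)
  (andB (nqB R0 J0 t.be) (andB (nqB R1 J1 t.bg) (andB (npB S0r S0i t.b0) (andB (npB S1r S1i t.b1)
    (chs ns (c8 x t (adH (hm P0r P0i) (smH pp HA)) (adH (hm P1r P1i) (smH pp HB))
      (cA R0 J0) (cB R0 J0) (cA R1 J1) (cB R1 J1) (hm S0r S0i) (hm S1r S1i)) e t.c k)))))))
/-- target `KA + s KB`, source `HA + s HB` -/
def uu (ns : List Nd) (x : Nat) (k : Nd) (e : Nat) (t : LU) (KA KB HA HB : Hm Nat)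
    (T : M9 Nat × M9 Nat) : Bool :=
  andB (Nat.ble t.nu big) (andB (Nat.ble t.ne big) (andB (Nat.ble t.m big)
  (andB (Nat.ble t.be big) (andB (Nat.ble t.bg big) (andB (Nat.ble t.b0 big) (andB (Nat.ble t.b1 big)
    (uu2 ns x k e t (ng (Nat.mul T.1.a T.1.a)) HA HB (qr KA T.1 T.1) (qi KA T.1 T.1) (qr KB T.1 T.1)
      (qi KB T.1 T.1) (qr KA T.1 T.2) (qi KA T.1 T.2) (qr KB T.1 T.2) (qi KB T.1 T.2)
      (qr KA T.2 T.2) (qi KA T.2 T.2) (qr KB T.2 T.2) (qi KB T.2 T.2))))))))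

/-! ### forms -/

/-- slot -/
def slt (K k : Nat) : Nat := Nat.mod (Nat.shiftRight K k) (nat_lit 268435456)
def c27 : Nat := nat_lit 61172327492847069472032393719205726809135813743440799050195397570919697796091958321786863938157971792315844506873509046544459008355036150650333616890210625686064472971480622053109783197015954399612052812141827922088117778074833698589048132156300022844899841969874763871624802603515651998113045708569927237462546233168834543264678118409416912928768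
def st (K k : Nat) : Nat := Nat.add (slt K k) c27
def dec (K : Nat) : Hm Nat :=
  ⟨st K (nat_lit 0), st K (nat_lit 28), st K (nat_lit 56), st K (nat_lit 84), st K (nat_lit 112),
   st K (nat_lit 140), st K (nat_lit 168), st K (nat_lit 196), st K (nat_lit 224)⟩
/-- negative on `x 0 = 0` -/
def ngs (K : Hm Nat) : Bool :=
  andB (pos (ng K.b)) (andB (pos (ng K.c))
    (pos (Nat.add (Nat.mul K.b K.c) (Nat.mul NN (Nat.add (Nat.mul K.h K.h) (Nat.mul K.i K.i))))))

/-! ### run matrices -/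

/-- product of numbers with unit `2 ^ (-48)` -/
def mu (x y : Nat) : Nat := Nat.shiftRight (Nat.mul x y) (nat_lit 48)
def nm (x : Nat) : Nat := Nat.mul NN x
def mkN (tg : Bool) (r0 r1 r2 s0 s1 s2 n0 n1 n2 : Nat) : M9 Nat :=
  Bool.rec (motive := fun _ => M9 Nat) ⟨r0, r1, r2, s0, s1, s2, n0, n1, n2⟩
    ⟨r0, r1, r2, n0, n1, n2, s0, s1, s2⟩ tg
/-- `1` -/
def u1N : Nat := nat_lit 281474976710656
def TRN (o L tg : Bool) (h h' u1 u0 um e1 e0 em : Nat) : M9 Nat × M9 Nat :=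
  Bool.rec (motive := fun _ => M9 Nat × M9 Nat)
    (mkN tg (mu e1 h') (nm u0) (nat_lit 0) (mu e0 h') (nm um) (nat_lit 0) u1N (nat_lit 0) (nat_lit 0),
      mkN tg (mu e0 h) (nat_lit 0) u1 (mu em h) (nat_lit 0) u0 (nat_lit 0) (nat_lit 0) (nat_lit 0))
    (Bool.rec (motive := fun _ => M9 Nat × M9 Nat)
      (mkN tg (mu e0 h) (nat_lit 0) (nat_lit 0) (mu em h) (nat_lit 0) (nat_lit 0) u1N (nat_lit 0) (nat_lit 0),
        mkN tg (mu e1 h') u1 (nm u0) (mu e0 h') u0 (nm um) (nat_lit 0) (nat_lit 0) (nat_lit 0))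
      (mkN tg (mu e0 (mu h h')) (mu u1 (mu h h')) (nat_lit 0) (mu em (mu h h')) (mu u0 (mu h h'))
          (nat_lit 0) h' (nat_lit 0) (nat_lit 0),
        mkN tg (sb (mu e1 (mu h' h')) u0) (nat_lit 0) (nm u0) (sb (mu e0 (mu h' h')) um) (nat_lit 0)
          (nm um) (nat_lit 0) (nat_lit 0) (nat_lit 0)) L) o
def z9M : M9 Nat :=
  ⟨nat_lit 0, nat_lit 0, nat_lit 0, nat_lit 0, nat_lit 0, nat_lit 0, nat_lit 0, nat_lit 0, nat_lit 0⟩
def TNmN (k h' : Nat) : M9 Nat :=
  ⟨mu h' h', mu h' k, nm h', u1N, nat_lit 0, nat_lit 0, nm (mu h' h'), nat_lit 0, h'⟩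
def TNpN (k h' : Nat) : M9 Nat × M9 Nat :=
  (⟨h', nm u1N, nat_lit 0, nat_lit 0, nat_lit 0, nat_lit 0, u1N, nat_lit 0, nat_lit 0⟩,
    ⟨nat_lit 0, nat_lit 0, k, nat_lit 0, nat_lit 0, u1N, nat_lit 0, nat_lit 0, nat_lit 0⟩)
def TPpN (k h h' : Nat) : M9 Nat × M9 Nat :=
  (⟨mu k h', nm k, nat_lit 0, nat_lit 0, nat_lit 0, nat_lit 0, h', nm u1N, nat_lit 0⟩,
    ⟨h, nat_lit 0, sb (mu k k) u1N, u1N, nat_lit 0, nat_lit 0, nat_lit 0, nat_lit 0, k⟩)
/-- `k (k² - 1)` -/
def kk1 (k : Nat) : Nat := sb (mu k (mu k k)) k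
def TTmN (k h h' : Nat) : M9 Nat × M9 Nat :=
  (⟨mu k h, nat_lit 0, nat_lit 0, nat_lit 0, nat_lit 0, nat_lit 0, nat_lit 0, nat_lit 0, nat_lit 0⟩,
    ⟨mu (mu k k) h', kk1 k, nm (mu k k), h', k, nm u1N, nm (mu (mu k k) h'), nm (kk1 k), mu k k⟩)
/-- `P (k² - 1)`, `P = k h h'` -/
def pc (P k : Nat) : Nat := sb (mu P (mu k k)) P
def TUmN (k h h' : Nat) : M9 Nat × M9 Nat :=
  (⟨mu k (mu h h'), pc (mu k (mu h h')) k, nat_lit 0, nat_lit 0, mu k (mu h h'), nat_lit 0, nat_lit 0,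
      nm (pc (mu k (mu h h')) k), nat_lit 0⟩,
    ⟨sb (mu (mu k k) (mu h' h')) (mu k k), nat_lit 0, nm (mu k k), sb (mu h' h') u1N, nat_lit 0,
      nm u1N, sb (mu k k) (mu (mu k k) (mu h' h')), nat_lit 0, mu k k⟩)
def c45 : Nat := nat_lit 225179981368525
def c720 : Nat := nat_lit 98516241848730
def c65 : Nat := nat_lit 337769972052787
/-- reference vectors of the chart `Y`, times `k² h' dn`; `a` is `1 - v1`, `b` is `v2` -/
def TYN (o : Bool) (k h h' a b : Nat) : M9 Nat × M9 Nat :=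
  Bool.rec (motive := fun _ => M9 Nat × M9 Nat)
    (⟨mu k (mu k h'), nat_lit 0, nat_lit 0,
        Nat.shiftRight (mu a (mu (mu k k) (mu h' h'))) (nat_lit 1), nat_lit 0, nat_lit 0,
        mu b (mu h h'), nat_lit 0, nat_lit 0⟩,
      ⟨Nat.mul (nat_lit 2) (mu h k), nat_lit 0, nat_lit 0,
        Nat.add (mu a (mu k (mu h h'))) (Nat.shiftRight (mu b (mu k (mu h h'))) (nat_lit 1)), nat_lit 0, nat_lit 0,
        nat_lit 0, nat_lit 0, nat_lit 0⟩)
    (⟨Nat.mul (nat_lit 2) (mu h k), nat_lit 0, nat_lit 0,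
        mu b (mu h h'), nat_lit 0, nat_lit 0,
        Nat.add (mu a (mu k (mu h h'))) (Nat.shiftRight (mu b (mu k (mu h h'))) (nat_lit 1)), nat_lit 0, nat_lit 0⟩,
      ⟨mu k (mu k h'), nat_lit 0, nat_lit 0, nat_lit 0, nat_lit 0, nat_lit 0,
        Nat.shiftRight (mu a (mu (mu k k) (mu h' h'))) (nat_lit 1), nat_lit 0, nat_lit 0⟩) o
/-- reference vector of the chart `L`, `(1, 2/5, 1/2)`, times `k²` -/
def TLN (o : Bool) (k h h' : Nat) : M9 Nat × M9 Nat :=
  (Bool.rec (motive := fun _ => M9 Nat)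
    ⟨mu k k, nat_lit 0, nat_lit 0, Nat.shiftRight (mu (mu k k) h') (nat_lit 2),
      nat_lit 0, nat_lit 0, mu c45 h, nat_lit 0, nat_lit 0⟩
    ⟨mu k k, nat_lit 0, nat_lit 0, c45, nat_lit 0, nat_lit 0,
      sb (Nat.shiftRight (mu (mu k k) (mu h' h')) (nat_lit 2)) (mu k k),
      nat_lit 0, nat_lit 0⟩ o, z9M)
/-- reference vector `(1, ω, ω - 1/5)` of the chart `L`, times `k² h' dn` -/
def TLY (o : Bool) (k h h' : Nat) : M9 Nat × M9 Nat :=
  Bool.rec (motive := fun _ => M9 Nat × M9 Nat)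
    (⟨mu k (mu k h'), nat_lit 0, nat_lit 0, mu c720 (mu (mu k k) (mu h' h')), nat_lit 0, nat_lit 0,
        mu h h', nat_lit 0, nat_lit 0⟩,
      ⟨Nat.mul (nat_lit 2) (mu h k), nat_lit 0, nat_lit 0, mu c65 (mu k (mu h h')), nat_lit 0,
        nat_lit 0, nat_lit 0, nat_lit 0, nat_lit 0⟩)
    (⟨Nat.mul (nat_lit 2) (mu h k), nat_lit 0, nat_lit 0, nat_lit 0, nat_lit 0, nat_lit 0,
        sb (mu c65 (mu (mu h k) (mu h' h'))) (Nat.mul (nat_lit 2) (mu h k)), nat_lit 0, nat_lit 0⟩,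
      ⟨mu k (mu k h'), nat_lit 0, nat_lit 0, h', nat_lit 0, nat_lit 0,
        sb (mu c720 (mu (mu k k) (mu h' (mu h' h')))) (mu k (mu k h')), nat_lit 0, nat_lit 0⟩) o
/-- source form of the reference vectors -/
def c20 : Nat := nat_lit 61172327492847069472032393719205726809135813743440799050195397570919697796091958321786863938157971792315844506873509046544459008355036150650333616890210625686064472971480622053109783197015954399612052812141827922088117778074833698589048132156300022844899841969874763871624802603515651998113045708569927237462546233168834543264678118409417046097920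
def kref : Hm Nat :=
  ⟨nat_lit 1, c20, c20, nat_lit 0, nat_lit 0, nat_lit 0, nat_lit 0,
    nat_lit 0, nat_lit 0⟩

/-! ### slits -/

/-- segment: position of the right end, direction `g` (offset `2 ^ 20`), test -/
structure Sg where
  p : Nat
  gr : Nat
  gi : Nat
  t : Lm

def sgn (x : Nat) : Nat := Nat.add x c20
def kg (g : Sg) : Hm Nat :=
  ⟨nat_lit 0, nat_lit 0, nat_lit 0, sgn g.gr, ng (sgn g.gi), nat_lit 0, nat_lit 0, nat_lit 0,
    nat_lit 0⟩
def slT (T : M9 Nat × M9 Nat) : M9 Nat × M9 Nat :=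
  (⟨T.1.a, T.1.b, T.1.c, u1N, nat_lit 0, nat_lit 0, nat_lit 0, nat_lit 0, nat_lit 0⟩,
    ⟨T.2.a, T.2.b, T.2.c, nat_lit 0, nat_lit 0, nat_lit 0, nat_lit 0, nat_lit 0, nat_lit 0⟩)
def p92 : Nat := nat_lit 4951760157141521099596496896
/-- `Re (g (c0 + c1 e))` at a node, minus the slack -/
def dnv (x d c0 c1 gr gi : Nat) (k : Nd) : Nat :=
  Nat.add (Nat.add (Nat.mul gr (Nat.add (Nat.mul c0 o62) (Nat.mul c1 (fer k))))
    (Nat.mul gi (Nat.mul c1 (fei k))))
    (Nat.mul NN (Nat.add (Nat.mul (nat_lit 1770887431076116955136) (dE x d)) p92))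
def dnO (x c0 c1 : Nat) (k0 k1 : Nd) (g : Sg) : Bool :=
  andB (Nat.ble g.gr (nat_lit 2097152)) (andB (Nat.ble g.gi (nat_lit 2097152))
  (andB (Nat.ble (Nat.succ k0.i) k1.i)
  (andB (pos (dnv x (Nat.sub k1.i k0.i) c0 c1 (sgn g.gr) (sgn g.gi) k0))
    (pos (dnv x (Nat.sub k1.i k0.i) c0 c1 (sgn g.gr) (sgn g.gi) k1)))))
/-- `dn` times `k h'` -/
def dc0 (o : Bool) (k h h' : Nat) : Nat :=
  Bool.rec (motive := fun _ => Nat) (mu k h') (Nat.mul (nat_lit 2) h) o
def dc1 (o : Bool) (k h h' : Nat) : Nat :=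
  Bool.rec (motive := fun _ => Nat) (Nat.mul (nat_lit 2) h) (mu k h') o
def slit (ns : List Nd) (x c0 c1 : Nat) (K : Hm Nat) (T : M9 Nat × M9 Nat) (e : Nat)
    (l : List Sg) : Nd → Bool :=
  List.rec (motive := fun _ => Nd → Bool) (fun k => Nat.beq k.i e)
    (fun g _ ih k => andB (dnO x c0 c1 k (nthN ns g.p) g)
      (andB (lmi ns x k (nthN ns g.p).i g.t (kg g) K (slT T)) (ih (nthN ns g.p)))) l

/-! ### the data of a piece -/

structure SD where
  K0 : Nat
  KF : Nat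
  KB : Nat
  A1 : Nat
  B1 : Nat
  A2 : Nat
  B2 : Nat
  r0 : List Lm
  rF : List Lm
  rB : List Lm
  s0 : List Lm
  vF : Lm
  vB : Lm
  g0 : List Sg
  gF : List Sg
  gB : List Sg
  n1 : Lm
  n2 : Lm
  t2 : L2
  i1 : List Nat
  i2 : List Nat
  u1 : LU
  u2 : LU
  uf : Lm

def lm0 : Lm := ⟨nat_lit 0, nat_lit 0, []⟩
def l20 : L2 := ⟨nat_lit 0, nat_lit 0, nat_lit 0, []⟩
def lu0 : LU := ⟨nat_lit 0, nat_lit 0, nat_lit 0, nat_lit 0, nat_lit 0, nat_lit 0, nat_lit 0, []⟩
def sd0 : SD := ⟨nat_lit 0, nat_lit 0, nat_lit 0, nat_lit 0, nat_lit 0, nat_lit 0, nat_lit 0, [], [],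
  [], [], lm0, lm0, [], [], [], lm0, lm0, l20, [], [], lu0, lu0, lm0⟩
def nthS (l : List SD) : Nat → SD :=
  List.rec (motive := fun _ => Nat → SD) (fun _ => sd0)
    (fun x _ ih k => Nat.rec (motive := fun _ => SD) x (fun k _ => ih k) k) l
def nth (l : List Nat) : Nat → Nat :=
  List.rec (motive := fun _ => Nat → Nat) (fun _ => nat_lit 0)
    (fun x _ ih k => Nat.rec (motive := fun _ => Nat) x (fun k _ => ih k) k) l
def nthL (l : List (List Nat)) : Nat → List Nat :=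
  List.rec (motive := fun _ => Nat → List Nat) (fun _ => [])
    (fun x _ ih k => Nat.rec (motive := fun _ => List Nat) x (fun k _ => ih k) k) l

/-- tables: `Kp M`, the Chebyshev numbers -/
def tk : List Nat := [nat_lit 0, nat_lit 0, nat_lit 0, nat_lit 281474976710656, nat_lit 398065729532861, nat_lit 455436079300426, nat_lit 487528960722123, nat_lit 507200382219719, nat_lit 520097939794132, nat_lit 528999917101778]
def tu : List (List Nat) := [[], [], [], [nat_lit 0, nat_lit 281474976710656, nat_lit 281474976710656, nat_lit 0], [nat_lit 0, nat_lit 281474976710656, nat_lit 398065729532861, nat_lit 281474976710656, nat_lit 0], [nat_lit 0, nat_lit 281474976710656, nat_lit 455436079300426, nat_lit 455436079300426, nat_lit 281474976710656, nat_lit 0], [nat_lit 0, nat_lit 281474976710656, nat_lit 487528960722123, nat_lit 562949953421312, nat_lit 487528960722123, nat_lit 281474976710656, nat_lit 0], [nat_lit 0, nat_lit 281474976710656,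 nat_lit 507200382219719, nat_lit 632468531625693, nat_lit 632468531625693, nat_lit 507200382219719, nat_lit 281474976710656, nat_lit 0], [nat_lit 0, nat_lit 281474976710656, nat_lit 520097939794132, nat_lit 679540706243517, nat_lit 735529560219167, nat_lit 679540706243517, nat_lit 520097939794132, nat_lit 281474976710656, nat_lit 0], [nat_lit 0, nat_lit 281474976710656, nat_lit 528999917101778, nat_lit 712719660283140, nat_lit 810474893812434, nat_lit 810474893812434, nat_lit 712719660283140, nat_lit 528999917101778, nat_lit 281474976710656, nat_lit 0]]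
def te : List (List Nat) := [[], [], [], [nat_lit 0, nat_lit 281474976710656, nat_lit 281474976710656, nat_lit 281474976710656], [nat_lit 0, nat_lit 281474976710656, nat_lit 398065729532861, nat_lit 562949953421312, nat_lit 398065729532861], [nat_lit 0, nat_lit 281474976710656, nat_lit 455436079300426, nat_lit 736911056011082, nat_lit 736911056011082, nat_lit 736911056011082], [nat_lit 0, nat_lit 281474976710656, nat_lit 487528960722123, nat_lit 844424930131968, nat_lit 975057921444245, nat_lit 1125899906842624, nat_lit 975057921444245], [nat_lit 0, nat_lit 281474976710656, nat_lit 507200382219719, nat_lit 913943508336349, nat_lit 1139668913845412, nat_lit 1421143890556068, nat_lit 1421143890556068, nat_lit 1421143890556068], [nat_lit 0, nat_lit 281474976710656, nat_lit 520097939794132, nat_lit 961015682954173, nat_lit 1255627500013300, nat_lit 1640556389197690, nat_lit 1775725439807432, nat_lit 1922031365908346, nat_lit 1775725439807432],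 [nat_lit 0, nat_lit 281474976710656, nat_lit 528999917101778, nat_lit 994194636993796, nat_lit 1339474810914211, nat_lit 1804669530806229, nat_lit 2052194471197351, nat_lit 2333669447908007, nat_lit 2333669447908007, nat_lit 2333669447908007]]

/-- orders -/
def mo (p q r i j : Nat) : Nat :=
  nth [nat_lit 1, p, r, p, nat_lit 1, q, r, q, nat_lit 1] (Nat.add (Nat.mul (nat_lit 3) i) j)
def ix (n a : Nat) : Nat := Nat.add (Nat.mul (nat_lit 3) n) a
/-- orientation of `(n, a, b)` -/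
def orN (n b : Nat) : Bool := Nat.beq (Nat.mod (Nat.add n (nat_lit 1)) (nat_lit 3)) b
def notB (x : Bool) : Bool := Bool.rec (motive := fun _ => Bool) true false x
/-- `x → y` -/
def impB (x y : Bool) : Bool := Bool.rec (motive := fun _ => Bool) true y x

/-- a piece: forms and tests (index `3 n + a`), nodes, first and last position -/
structure Pc where
  s : List SD
  ns : List Nd
  x : Nat
  i0 : Nat
  i1 : Nat

def nthLm (l : List Lm) : Nat → Lm :=
  List.rec (motive := fun _ => Nat → Lm) (fun _ => lm0)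
    (fun x _ ih k => Nat.rec (motive := fun _ => Lm) x (fun k _ => ih k) k) l
def kst (P : Pc) : Nd := nthN P.ns P.i0
def ken (P : Pc) : Nat := (nthN P.ns P.i1).i
/-- the main test on the piece -/
def pl (P : Pc) (t : Lm) (K' K : Hm Nat) (T : M9 Nat × M9 Nat) : Bool :=
  lmi P.ns P.x (kst P) (ken P) t K' K T
def evn (i : Nat) : Bool := Nat.beq (Nat.mod i (nat_lit 2)) (nat_lit 0)
def selS (x y : SD) (b : Bool) : SD := Bool.rec (motive := fun _ => SD) y x b
def selN (x y : Nat) (b : Bool) : Nat := Bool.rec (motive := fun _ => Nat) y x b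
def selB (x y : Bool) (b : Bool) : Bool := Bool.rec (motive := fun _ => Bool) y x b
/-- run matrix of `i + 3` letters at the order `M` -/
def TR (o L tg : Bool) (h g M i : Nat) : M9 Nat × M9 Nat :=
  TRN o L tg h g (nth (nthL tu M) (Nat.add i (nat_lit 3))) (nth (nthL tu M) (Nat.add i (nat_lit 2)))
    (nth (nthL tu M) (Nat.add i (nat_lit 1))) (nth (nthL te M) (Nat.add i (nat_lit 2)))
    (nth (nthL te M) (Nat.add i (nat_lit 1))) (nth (nthL te M) i)
/-- one run from `KS` -/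
def rn1 (P : Pc) (KS : Hm Nat) (o L : Bool) (h g M n a b i : Nat) (t : Lm) : Bool :=
  pl P t (dec (selN
      (selS (nthS P.s (ix n b)) (nthS P.s (ix a b)) (evn i)).KF
      (selS (nthS P.s (ix n b)) (nthS P.s (ix a b)) (evn i)).K0
      (Nat.beq (Nat.add i (nat_lit 3)) M))) KS
    (TR o L (selB (orN n a) (orN a n) (evn i)) h g M i)
def rns (P : Pc) (KS : Hm Nat) (o L : Bool) (h g M n a b : Nat) (l : List Lm) : Nat → Bool :=
  List.rec (motive := fun _ => Nat → Bool) (fun i => Nat.ble M (Nat.add i (nat_lit 2)))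
    (fun t _ ih i => andB (rn1 P KS o L h g M n a b i t) (ih (Nat.succ i))) l

def zs (K k : Nat) : Bool := Nat.beq (slt K k) (nat_lit 134217728)
/-- `A`: entries `00` and `02` zero -/
def okA (K : Nat) : Bool :=
  andB (zs K (nat_lit 0)) (andB (zs K (nat_lit 140)) (andB (zs K (nat_lit 168))
    (pos (st K (nat_lit 84)))))
/-- `B`: the block is zero -/
def okB (K : Nat) : Bool :=
  andB (zs K (nat_lit 28)) (andB (zs K (nat_lit 56)) (andB (zs K (nat_lit 196)) (zs K (nat_lit 224))))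
def eqo (K K' : Nat) : Bool :=
  andB (Nat.beq (slt K (nat_lit 84)) (slt K' (nat_lit 84)))
    (Nat.beq (slt K (nat_lit 112)) (slt K' (nat_lit 112)))

def a03 : Nat := nat_lit 197032483697459
def a03e : Nat := nat_lit 194833460441907
def b1e : Nat := nat_lit 283673999966208

def cN (L4 o : Bool) (D : SD) : Bool :=
  andB (impB L4 (ngs (dec D.K0))) (andB (ngs (dec D.KF)) (andB (ngs (dec D.KB))
    (impB o (andB (ngs (dec D.A1)) (andB (ngs (dec D.A2)) (andB (okA D.A1) (andB (okA D.A2)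
      (andB (okB D.B1) (okB D.B2)))))))))
def cR0 (P : Pc) (L4 o : Bool) (D : SD) (h g M n a b : Nat) : Bool :=
  impB L4 (rns P (dec D.K0) o false h g M n a b D.r0 (nat_lit 0))
def cRF (P : Pc) (o : Bool) (D : SD) (h g M n a b : Nat) : Bool :=
  rns P (dec D.KF) o false h g M n a b D.rF (nat_lit 0)
def cRB (P : Pc) (o : Bool) (D : SD) (h g M n a b : Nat) : Bool :=
  rns P (dec D.KB) o true h g M n a b D.rB (nat_lit 0)
/-- one run of two; `E` the data of `(a, b, n)` -/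
def cA1 (P : Pc) (L4 o : Bool) (D E : SD) (k g : Nat) : Bool :=
  impB L4 (selB
    (aff P.ns (kst P) (ken P) D.n1.c
      (hm (qr (dec E.A1) (TNmN k g) (TNmN k g)) (qi (dec E.A1) (TNmN k g) (TNmN k g)))
      (hm (qr (dec E.B1) (TNmN k g) (TNmN k g)) (qi (dec E.B1) (TNmN k g) (TNmN k g)))
      (dec D.K0) z9N)
    (pl P D.n1 (dec E.KB) (dec D.K0) (TNpN k g)) o)
/-- two runs of two from `Y`; `F` the data of `(b, n, a)` -/
def cA2 (P : Pc) (L4 o : Bool) (D F : SD) (k h g : Nat) : Bool :=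
  impB L4 (selB
    (t2 P.ns P.x (kst P) (ken P) D.t2 (dec F.A2) (dec F.B2) (dec D.K0) (TTmN k h g))
    (pl P D.n2 (dec F.KB) (dec D.K0) (TPpN k h g)) o)
def p96 : Nat := nat_lit 79228162514264337593543950336
def cI (P : Pc) (o : Bool) (D : SD) : Bool :=
  impB o (andB
    (aff P.ns (kst P) (ken P) D.i1 (smH p96 (dec D.KB)) z9N (dec D.A1) (dec D.B1))
    (aff P.ns (kst P) (ken P) D.i2 (smH p96 (dec D.KB)) z9N (dec D.A2) (dec D.B2)))
def cU (P : Pc) (o : Bool) (D F : SD) (k h g : Nat) : Bool :=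
  selB (andB (eqo D.A1 F.A1) (andB (eqo D.A2 F.A2)
      (andB (uu P.ns P.x (kst P) (ken P) D.u1 (dec F.A1) (dec F.B1) (dec D.A1) (dec D.B1) (TUmN k h g))
        (uu P.ns P.x (kst P) (ken P) D.u2 (dec F.A2) (dec F.B2) (dec D.A2) (dec D.B2) (TUmN k h g)))))
    (pl P D.uf (dec F.KB) (dec D.KB) (TPpN k h g)) o
def cV (P : Pc) (L4 o : Bool) (D : SD) (k h g : Nat) : Bool :=
  andB (impB L4 (andB (pl P (nthLm D.s0 (nat_lit 0)) (dec D.K0) kref (TYN o k h g a03 u1N))
      (andB (pl P (nthLm D.s0 (nat_lit 1)) (dec D.K0) kref (TYN o k h g a03e u1N))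
        (pl P (nthLm D.s0 (nat_lit 2)) (dec D.K0) kref (TYN o k h g a03 b1e)))))
    (andB (pl P D.vF (dec D.KF) kref (TYN o k h g a03 u1N))
      (pl P D.vB (dec D.KB) kref (Bool.rec (motive := fun _ => M9 Nat × M9 Nat)
        (TLN o k h g) (TLY o k h g) L4)))
def cG (P : Pc) (L4 o : Bool) (D : SD) (k h g M n a : Nat) : Bool :=
  andB (selB (slit P.ns P.x (dc0 o k h g) (dc1 o k h g) (dec D.K0)
        (TR o false (orN n a) h g M (nat_lit 0)) (ken P) D.g0 (kst P))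
      (slit P.ns P.x (dc0 o k h g) (dc1 o k h g) (dec D.KF)
        (TR o false (orN n a) h g M (nat_lit 0)) (ken P) D.gF (kst P)) L4)
    (slit P.ns P.x (dc0 o k h g) (dc1 o k h g) (dec D.KB)
      (Bool.rec (motive := fun _ => M9 Nat × M9 Nat) (TPpN k h g) (TUmN k h g) o) (ken P) D.gB (kst P))
def cS2 (P : Pc) (L4 o : Bool) (D E F : SD) (k h g M n a b : Nat) : Bool :=
  andB (cN L4 o D) (andB (cR0 P L4 o D h g M n a b) (andB (cRF P o D h g M n a b)
    (andB (cRB P o D h g M n a b) (andB (cA1 P L4 o D E k g) (andB (cA2 P L4 o D F k h g)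
      (andB (cI P o D) (andB (cU P o D F k h g) (andB (cV P L4 o D k h g)
        (cG P L4 o D k h g M n a)))))))))
/-- all tests with the source `(n, a, b)` -/
def cS (p q r : Nat) (P : Pc) (n a b : Nat) : Bool :=
  cS2 P (Nat.ble (nat_lit 4) (mo p q r n b)) (orN n b) (nthS P.s (ix n a)) (nthS P.s (ix a b))
    (nthS P.s (ix b n)) (nth tk (mo p q r n a)) (nth tk (mo p q r a b)) (nth tk (mo p q r n b))
    (mo p q r n a) n a b
def allN (f : Nd → Bool) (l : List Nd) : Bool :=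
  List.rec (motive := fun _ => Bool) true (fun x _ ih => andB (f x) ih) l
/-- a piece; `xv` is `2 ^ 48 x0 + 2 ^ 50` -/
def cP (p q r xv : Nat) (P : Pc) : Bool :=
  andB (Nat.ble P.x (nat_lit 131072)) (andB (Nat.ble (Nat.add xv (nat_lit 32)) (Nat.add (nat_lit 1125899906842624) (Nat.mul P.x (nat_lit 4294967296))))
  (andB (Nat.ble (nat_lit 1125899906842656) (Nat.add xv (Nat.mul P.x (nat_lit 4294967296))))
  (andB (andB (okNd xv (kst P)) (allN (okNd xv) P.ns))
  (andB (cS p q r P (nat_lit 0) (nat_lit 1) (nat_lit 2)) (andB (cS p q r P (nat_lit 1) (nat_lit 2) (nat_lit 0))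
    (andB (cS p q r P (nat_lit 2) (nat_lit 0) (nat_lit 1)) (andB (cS p q r P (nat_lit 0) (nat_lit 2) (nat_lit 1))
      (andB (cS p q r P (nat_lit 1) (nat_lit 0) (nat_lit 2)) (cS p q r P (nat_lit 2) (nat_lit 1) (nat_lit 0))))))))))
/-- the pieces cover `[0, 256]` -/
def cov (l : List Pc) : Nat → Bool :=
  List.rec (motive := fun _ => Nat → Bool) (fun i => Nat.beq i (nat_lit 256))
    (fun P _ ih i => andB (Nat.beq (kst P).i i) (ih (ken P))) l
def allP (f : Pc → Bool) (l : List Pc) : Bool :=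
  List.rec (motive := fun _ => Bool) true (fun x _ ih => andB (f x) ih) l
/-- a class -/
def cC (p q r xv : Nat) (l : List Pc) : Bool :=
  andB (cov l (nat_lit 0)) (allP (cP p q r xv) l)

end Pool.Agent.Helper94.CXF.KN
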