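import Pool.Agent.Helper94.CXF.S12
import Pool.Agent.Helper94.CXF.CNS
import Pool.Agent.Helper60.CXF.Con2
import Pool.Agent.Helper6.CXF.UUS

/-!
FARL: reference vectors of a class; two runs of two from `L`.
-/

set_option autoImplicit false
noncomputable section
namespace Pool.Agent.Helper94.CXF.SD

open Pool.Agent.Helper6.MONO
open Pool.Agent.Helper6.MONO.SV (UY)
open Pool.Agent.Helper21.SUP (GS DG DG_nx)
open Pool.Agent.Helper94.CXF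

theorem refOk94 {p q r : ℕ} (hp : 3 ≤ p ∧ p ≤ 9) (hq : 3 ≤ q ∧ q ≤ 9) (hr : 3 ≤ r ∧ r ≤ 9) :
    RefOk p q r := by
  have A : ∀ {i j : Fin 3}, i ≠ j → Ap 1 2 (kk p q r i j) (kN p q r i j) := fun h =>
    ⟨(Qn_k hp hq hr h).lo, (Qn_k hp hq hr h).hi, (Qn_k hp hq hr h).near⟩
  have Y : ∀ (i : Fin 3) (s : GS), DG s → RefP (KN.TYN (oriZ s) (kN p q r s.1 s.2.1)
      (kN p q r s.2.1 s.2.2) (kN p q r s.1 s.2.2) (aUN i) (bUN i))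
      (fun e => fv p q r false s e (UY (3 / 10) 1 (1 / 128) i)) := by
    intro i s hs
    obtain ⟨⟨Z0, o0⟩, ⟨Z1, o1⟩⟩ := ok_TY (oriZ s) (A hs.1) (A hs.2.1) (A (Ne.symm hs.2.2))
      (ap_aU i) (ap_bU i)
    exact ⟨_, Z0, Z1, o0, o1, fun e he => ref_UY hp.1 hq.1 hr.1 hs he i⟩
  have e0 : UY (3 / 10) 1 (1 / 128) 0 = ![1, 3 / 10, 1] := by simp [UY]
  have e1 : UY (3 / 10) 1 (1 / 128) 1 = ![1, 3 / 10 + 1 / 128, 1] := by simp [UY]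
  have e2 : UY (3 / 10) 1 (1 / 128) 2 = ![1, 3 / 10, 1 + 1 / 128] := by simp [UY]
  refine ⟨fun s hs => ?_, fun s hs => ?_, fun s hs => ?_, fun s hs => ?_, fun s hs => ?_⟩
  · have := Y 0 s hs
    rw [e0] at this
    exact this
  · have := Y 1 s hs
    rw [e1] at this
    exact this
  · have := Y 2 s hs
    rw [e2] at this
    exact this
  · obtain ⟨⟨Z0, o0⟩, ⟨Z1, o1⟩⟩ := ok_TL (oriZ s) (A hs.1) (A hs.2.1) (A (Ne.symm hs.2.2))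
    exact ⟨_, Z0, Z1, o0, o1, fun e _ => ref_L hp.1 hq.1 hr.1 hs e⟩
  · obtain ⟨⟨Z0, o0⟩, ⟨Z1, o1⟩⟩ := ok_TLY (oriZ s) (A hs.1) (A hs.2.1) (A (Ne.symm hs.2.2))
    exact ⟨_, Z0, Z1, o0, o1, fun e he => ref_LY hp.1 hq.1 hr.1 hs he⟩

theorem uust94 {x0 : ℝ} {P : KN.Pc} (hP : PcOk x0 P) : UUst x0 P := by
  intro KA KB HA HB t k h g N Z0 Z1 hk hh hg a1 a2 b1 b2 d e o0 o1 hn H s u hu
  exact uu_sound hP (dec_rep _) (dec_rep _) (dec_rep _) (dec_rep _) (dec_bd _) (dec_bd _)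
    (dec_bd _) (dec_bd _) a1.a a1.f a1.g a2.a a2.f a2.g d e b1.b b1.c b1.h b1.i hk hh hg o0 o1
    hn H hu

end Pool.Agent.Helper94.CXF.SD
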