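import Pool.Agent.Helper94.CXF.KN
import Pool.Agent.Helper94.CXF.GR
import Pool.Agent.Helper17.C75.Pak

/-!
FARL, soundness of the kernel checker: representation modulo `2 ^ 1152`, the positivity test (as in
Helper17/C75/Kp1).
-/

set_option autoImplicit false
set_option exponentiation.threshold 4000
noncomputable section
namespace Pool.Agent.Helper94.CXF.SD

open Pool.Agent.Helper86.CX (Hm)
open Pool.Agent.Helper94.CXF (M9)
open Pool.Agent.Helper94.CXF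
open Pool.Agent.Helper17.PAK (Rep)

theorem MM_eq : KN.MM = 2 ^ 1152 := by decide +kernel
theorem MM_pos : 0 < KN.MM := by decide +kernel
theorem hMM : (2 : ℤ) ^ 1151 ≤ (KN.MM : ℤ) - (KN.HH : ℤ) - 2 := by decide +kernel

/-- `n` represents `x` modulo `2 ^ 1152` -/
abbrev Rp (n : ℕ) (x : ℤ) : Prop := Rep KN.MM n x

theorem rep_NN : Rp KN.NN (-1) := by
  unfold Rp Pool.Agent.Helper17.PAK.Rep Int.ModEq
  decide +kernel

theorem rp_sb {x y : ℕ} {x' y' : ℤ} (hx : Rp x x') (hy : Rp y y') :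
    Rp (KN.sb x y) (x' - y') := by
  have h := hx.add (rep_NN.mul hy)
  have e : x' - y' = x' + -1 * y' := by ring
  rw [e]
  exact h

theorem rp_nm {x : ℕ} {x' : ℤ} (hx : Rp x x') : Rp (KN.nm x) (-x') := by
  have h := rep_NN.mul hx
  have e : -x' = -1 * x' := by ring
  rw [e]
  exact h

theorem rp_ng {x : ℕ} {x' : ℤ} (hx : Rp x x') : Rp (KN.ng x) (-x') := by
  have h := (rep_NN.mul hx).mod
  have e : -x' = -1 * x' := by ring
  rw [e]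
  exact h

theorem rp_zero : Rp 0 0 := by
  unfold Rp Pool.Agent.Helper17.PAK.Rep
  simp

theorem andB_iff {x y : Bool} : KN.andB x y = true ↔ x = true ∧ y = true := by
  cases x <;> cases y <;> simp [KN.andB]

theorem pos_sound {x : ℕ} {z : ℤ} (hx : Rp x z) (hz : |z| ≤ 2 ^ 1151)
    (h : KN.pos x = true) : 0 < z := by
  have h1 : (x + KN.NN) % KN.MM ≤ KN.HH := Nat.le_of_ble_eq_true h
  have h2 : Rp ((x + KN.NN) % KN.MM) (z + -1) := (hx.add rep_NN).mod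
  by_contra h3
  have h3 : z ≤ 0 := not_lt.1 h3
  have h4 := abs_le.1 (hz.trans hMM)
  have h5 : Rp ((x + KN.NN) % KN.MM) (z + -1 + KN.MM) := by
    unfold Rp Pool.Agent.Helper17.PAK.Rep at *
    refine h2.trans ?_
    simp [Int.ModEq]
  have h6 : (((x + KN.NN) % KN.MM : ℕ) : ℤ) = z + -1 + KN.MM := by
    refine h5.eq_of_lt (Nat.mod_lt _ MM_pos) ?_ ?_
    · have := h4.1
      have hHn : (0 : ℤ) ≤ KN.HH := by positivity
      linarith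
    · linarith
  have h7 : (((x + KN.NN) % KN.MM : ℕ) : ℤ) ≤ KN.HH := by exact_mod_cast h1
  rw [h6] at h7
  linarith [h4.1]

/-! ### minors -/

def m22z (N : Hm ℤ) : ℤ := N.a * N.b - (N.d * N.d + N.e * N.e)
def m33z (N : Hm ℤ) : ℤ := N.a * N.c - (N.f * N.f + N.g * N.g)
def m23rz (N : Hm ℤ) : ℤ := N.a * N.h - (N.d * N.f + N.e * N.g)
def m23iz (N : Hm ℤ) : ℤ := N.a * N.i - (N.d * N.g - N.e * N.f)

def PDz (N : Hm ℤ) : Prop :=
  0 < N.a ∧ 0 < m22z N ∧ 0 < m22z N * m33z N - (m23rz N * m23rz N + m23iz N * m23iz N)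

/-- entries represented -/
structure RH (A : Hm ℕ) (B : Hm ℤ) : Prop where
  a : Rp A.a B.a
  b : Rp A.b B.b
  c : Rp A.c B.c
  d : Rp A.d B.d
  e : Rp A.e B.e
  f : Rp A.f B.f
  g : Rp A.g B.g
  h : Rp A.h B.h
  i : Rp A.i B.i

structure RM (A : M9 ℕ) (B : M9 ℤ) : Prop where
  a : Rp A.a B.a
  b : Rp A.b B.b
  c : Rp A.c B.c
  d : Rp A.d B.d
  e : Rp A.e B.e
  f : Rp A.f B.f
  g : Rp A.g B.g
  h : Rp A.h B.h
  i : Rp A.i B.i

/-- all entries have absolute value at most `b` -/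
structure BH (r : ℤ) (N : Hm ℤ) : Prop where
  a : |N.a| ≤ r
  b : |N.b| ≤ r
  c : |N.c| ≤ r
  d : |N.d| ≤ r
  e : |N.e| ≤ r
  f : |N.f| ≤ r
  g : |N.g| ≤ r
  h : |N.h| ≤ r
  i : |N.i| ≤ r

structure BM (r : ℤ) (N : M9 ℤ) : Prop where
  a : |N.a| ≤ r
  b : |N.b| ≤ r
  c : |N.c| ≤ r
  d : |N.d| ≤ r
  e : |N.e| ≤ r
  f : |N.f| ≤ r
  g : |N.g| ≤ r
  h : |N.h| ≤ r
  i : |N.i| ≤ r

theorem mn_rep {a b c d e f : ℕ} {a' b' c' d' e' f' : ℤ} (ha : Rp a a') (hb : Rp b b')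
    (hc : Rp c c') (hd : Rp d d') (he : Rp e e') (hf : Rp f f') :
    Rp (KN.mn a b c d e f) (a' * b' - (c' * d' + e' * f')) := by
  have h := ((ha.mul hb).add (rep_NN.mul ((hc.mul hd).add (he.mul hf)))).mod
  have h2 : a' * b' - (c' * d' + e' * f') = a' * b' + -1 * (c' * d' + e' * f') := by ring
  rw [h2]
  exact h

theorem abs_mul_le {x y b c : ℤ} (hx : |x| ≤ b) (hy : |y| ≤ c) : |x * y| ≤ b * c := by
  rw [abs_mul]
  exact mul_le_mul hx hy (abs_nonneg _) ((abs_nonneg _).trans hx)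

theorem abs_add2 {x y b c : ℤ} (hx : |x| ≤ b) (hy : |y| ≤ c) : |x + y| ≤ b + c :=
  (abs_add_le _ _).trans (add_le_add hx hy)

theorem abs3_le {x y z b : ℤ} (hx : |x| ≤ b) (hy : |y| ≤ b) (hz : |z| ≤ b) :
    |x - (y + z)| ≤ 3 * b := by
  have h1 := abs_le.1 hx
  have h2 := abs_le.1 hy
  have h3 := abs_le.1 hz
  exact abs_le.2 ⟨by linarith, by linarith⟩

theorem abs3_le' {x y z b : ℤ} (hx : |x| ≤ b) (hy : |y| ≤ b) (hz : |z| ≤ b) :
    |x - (y - z)| ≤ 3 * b := by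
  have h1 := abs_le.1 hx
  have h2 := abs_le.1 hy
  have h3 := abs_le.1 hz
  exact abs_le.2 ⟨by linarith, by linarith⟩

/-- THE POSITIVITY TEST -/
theorem psd_sound {A : Hm ℕ} {N : Hm ℤ} (r : RH A N) (q : BH (2 ^ 256) N)
    (H : KN.psd A = true) : PDz N := by
  unfold KN.psd KN.psd1 KN.psd2 at H
  rw [andB_iff, andB_iff] at H
  obtain ⟨H1, H2, H3⟩ := H
  have r22 : Rp (KN.mn A.a A.b A.d A.d A.e A.e) (m22z N) := mn_rep r.a r.b r.d r.d r.e r.e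
  have r33 : Rp (KN.mn A.a A.c A.f A.f A.g A.g) (m33z N) := mn_rep r.a r.c r.f r.f r.g r.g
  have rr : Rp (KN.mn A.a A.h A.d A.f A.e A.g) (m23rz N) := mn_rep r.a r.h r.d r.f r.e r.g
  have ri : Rp (Nat.mod (Nat.add (Nat.add (Nat.mul A.a A.i) (Nat.mul A.e A.f))
      (Nat.mul KN.NN (Nat.mul A.d A.g))) KN.MM) (m23iz N) := by
    have h := (((r.a.mul r.i).add (r.e.mul r.f)).add (rep_NN.mul (r.d.mul r.g))).mod
    have h2 : m23iz N = N.a * N.i + N.e * N.f + -1 * (N.d * N.g) := by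
      unfold m23iz; ring
    rw [h2]
    exact h
  have e0 : (2 : ℤ) ^ 256 * 2 ^ 256 = 2 ^ 512 := by rw [← pow_add]
  have b22 : |m22z N| ≤ 3 * 2 ^ 512 := by
    unfold m22z; rw [← e0]
    exact abs3_le (abs_mul_le q.a q.b) (abs_mul_le q.d q.d) (abs_mul_le q.e q.e)
  have b33 : |m33z N| ≤ 3 * 2 ^ 512 := by
    unfold m33z; rw [← e0]
    exact abs3_le (abs_mul_le q.a q.c) (abs_mul_le q.f q.f) (abs_mul_le q.g q.g)
  have br : |m23rz N| ≤ 3 * 2 ^ 512 := by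
    unfold m23rz; rw [← e0]
    exact abs3_le (abs_mul_le q.a q.h) (abs_mul_le q.d q.f) (abs_mul_le q.e q.g)
  have bi : |m23iz N| ≤ 3 * 2 ^ 512 := by
    unfold m23iz; rw [← e0]
    exact abs3_le' (abs_mul_le q.a q.i) (abs_mul_le q.d q.g) (abs_mul_le q.e q.f)
  refine ⟨pos_sound r.a (q.a.trans ?_) H1, pos_sound r22 (b22.trans ?_) H2, ?_⟩
  · decide +kernel
  · decide +kernel
  · refine pos_sound ?_ ?_ H3
    · have h := (r22.mul r33).add (rep_NN.mul ((rr.mul rr).add (ri.mul ri)))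
      have h2 : m22z N * m33z N - (m23rz N * m23rz N + m23iz N * m23iz N) =
        m22z N * m33z N + -1 * (m23rz N * m23rz N + m23iz N * m23iz N) := by ring
      rw [h2]
      exact h
    · refine (abs3_le (abs_mul_le b22 b33) (abs_mul_le br br) (abs_mul_le bi bi)).trans ?_
      decide +kernel

/-! ### matrices -/

theorem d3_rep {a x b y c z : ℕ} {a' x' b' y' c' z' : ℤ} (ha : Rp a a') (hx : Rp x x')
    (hb : Rp b b') (hy : Rp y y') (hc : Rp c c') (hz : Rp z z') :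
    Rp (KN.d3 a x b y c z) (a' * x' + b' * y' + c' * z') :=
  (((ha.mul hx).add (hb.mul hy)).add (hc.mul hz)).mod

variable {A B : M9 ℕ} {A' B' : M9 ℤ} {K L : Hm ℕ} {K' L' : Hm ℤ}

theorem mm_rep (p : RM A A') (q : RM B B') : RM (KN.mm A B) (GR.mm A' B') :=
  ⟨d3_rep p.a q.a p.b q.d p.c q.g, d3_rep p.a q.b p.b q.e p.c q.h, d3_rep p.a q.c p.b q.f p.c q.i,
   d3_rep p.d q.a p.e q.d p.f q.g, d3_rep p.d q.b p.e q.e p.f q.h, d3_rep p.d q.c p.e q.f p.f q.i,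
   d3_rep p.g q.a p.h q.d p.i q.g, d3_rep p.g q.b p.h q.e p.i q.h, d3_rep p.g q.c p.h q.f p.i q.i⟩

theorem tm_rep (p : RM A A') (q : RM B B') : RM (KN.tm A B) (GR.tm A' B') :=
  ⟨d3_rep p.a q.a p.d q.d p.g q.g, d3_rep p.a q.b p.d q.e p.g q.h, d3_rep p.a q.c p.d q.f p.g q.i,
   d3_rep p.b q.a p.e q.d p.h q.g, d3_rep p.b q.b p.e q.e p.h q.h, d3_rep p.b q.c p.e q.f p.h q.i,
   d3_rep p.c q.a p.f q.d p.i q.g, d3_rep p.c q.b p.f q.e p.i q.h, d3_rep p.c q.c p.f q.f p.i q.i⟩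

theorem hR_rep (p : RH K K') : RM (KN.hR K) (GR.hR K') :=
  ⟨p.a, p.d, p.f, p.d, p.b, p.h, p.f, p.h, p.c⟩

theorem hJ_rep (p : RH K K') : RM (KN.hJ K) (GR.hJ K') :=
  ⟨rp_zero, p.e, p.g, rp_ng p.e, rp_zero, p.i, rp_ng p.g, rp_ng p.i, rp_zero⟩

theorem qr_rep (k : RH K K') (p : RM A A') (q : RM B B') : RM (KN.qr K A B) (GR.qr K' A' B') :=
  tm_rep p (mm_rep (hR_rep k) q)

theorem qi_rep (k : RH K K') (p : RM A A') (q : RM B B') : RM (KN.qi K A B) (GR.qi K' A' B') :=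
  tm_rep p (mm_rep (hJ_rep k) q)

theorem hm_rep (p : RM A A') (q : RM B B') : RH (KN.hm A B) (GR.hm A' B') :=
  ⟨p.a, p.e, p.i, p.b, q.b, p.c, q.c, p.f, q.f⟩

theorem cA_rep (p : RM A A') (q : RM B B') : RH (KN.cA A B) (GR.cA A' B') :=
  ⟨p.a.add p.a, p.e.add p.e, p.i.add p.i, p.b.add p.d, rp_sb q.b q.d, p.c.add p.g,
    rp_sb q.c q.g, p.f.add p.h, rp_sb q.f q.h⟩

theorem cB_rep (p : RM A A') (q : RM B B') : RH (KN.cB A B) (GR.cB A' B') :=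
  ⟨q.a.add q.a, q.e.add q.e, q.i.add q.i, q.b.add q.d, rp_sb p.d p.b, q.c.add q.g,
    rp_sb p.g p.c, q.f.add q.h, rp_sb p.h p.f⟩

theorem smH_rep {c : ℕ} {c' : ℤ} (hc : Rp c c') (p : RH K K') :
    RH (KN.smH c K) (GR.smH c' K') :=
  ⟨(hc.mul p.a).mod, (hc.mul p.b).mod, (hc.mul p.c).mod, (hc.mul p.d).mod, (hc.mul p.e).mod,
    (hc.mul p.f).mod, (hc.mul p.g).mod, (hc.mul p.h).mod, (hc.mul p.i).mod⟩

theorem adH_rep (p : RH K K') (q : RH L L') : RH (KN.adH K L) (GR.adH K' L') :=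
  ⟨p.a.add q.a, p.b.add q.b, p.c.add q.c, p.d.add q.d, p.e.add q.e, p.f.add q.f, p.g.add q.g,
    p.h.add q.h, p.i.add q.i⟩

/-! ### bounds -/

variable {a b : ℤ}

theorem d3_bd {x y z x' y' z' : ℤ} (h1 : |x| ≤ a) (h2 : |x'| ≤ b) (h3 : |y| ≤ a) (h4 : |y'| ≤ b)
    (h5 : |z| ≤ a) (h6 : |z'| ≤ b) : |x * x' + y * y' + z * z'| ≤ 3 * (a * b) := by
  have := abs_add2 (abs_add2 (abs_mul_le h1 h2) (abs_mul_le h3 h4)) (abs_mul_le h5 h6)
  linarith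

theorem mm_bd (p : BM a A') (q : BM b B') : BM (3 * (a * b)) (GR.mm A' B') :=
  ⟨d3_bd p.a q.a p.b q.d p.c q.g, d3_bd p.a q.b p.b q.e p.c q.h, d3_bd p.a q.c p.b q.f p.c q.i,
   d3_bd p.d q.a p.e q.d p.f q.g, d3_bd p.d q.b p.e q.e p.f q.h, d3_bd p.d q.c p.e q.f p.f q.i,
   d3_bd p.g q.a p.h q.d p.i q.g, d3_bd p.g q.b p.h q.e p.i q.h, d3_bd p.g q.c p.h q.f p.i q.i⟩

theorem tm_bd (p : BM a A') (q : BM b B') : BM (3 * (a * b)) (GR.tm A' B') :=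
  ⟨d3_bd p.a q.a p.d q.d p.g q.g, d3_bd p.a q.b p.d q.e p.g q.h, d3_bd p.a q.c p.d q.f p.g q.i,
   d3_bd p.b q.a p.e q.d p.h q.g, d3_bd p.b q.b p.e q.e p.h q.h, d3_bd p.b q.c p.e q.f p.h q.i,
   d3_bd p.c q.a p.f q.d p.i q.g, d3_bd p.c q.b p.f q.e p.i q.h, d3_bd p.c q.c p.f q.f p.i q.i⟩

theorem hR_bd (p : BH a K') : BM a (GR.hR K') := ⟨p.a, p.d, p.f, p.d, p.b, p.h, p.f, p.h, p.c⟩

theorem hJ_bd (p : BH a K') : BM a (GR.hJ K') := by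
  have h0 : |(0 : ℤ)| ≤ a := by
    rw [abs_zero]; exact (abs_nonneg _).trans p.a
  have hn : ∀ x : ℤ, |x| ≤ a → |(-x)| ≤ a := fun x hx => by rw [abs_neg]; exact hx
  exact ⟨h0, p.e, p.g, hn _ p.e, h0, p.i, hn _ p.g, hn _ p.i, h0⟩

/-- bound of `Q` -/
theorem qr_bd {k t u : ℤ} (hk : BH k K') (p : BM t A') (q : BM u B') :
    BM (9 * (k * t * u)) (GR.qr K' A' B') := by
  have h := tm_bd p (mm_bd (hR_bd hk) q)
  have e : 3 * (t * (3 * (k * u))) = 9 * (k * t * u) := by ring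
  rw [e] at h
  exact h

theorem qi_bd {k t u : ℤ} (hk : BH k K') (p : BM t A') (q : BM u B') :
    BM (9 * (k * t * u)) (GR.qi K' A' B') := by
  have h := tm_bd p (mm_bd (hJ_bd hk) q)
  have e : 3 * (t * (3 * (k * u))) = 9 * (k * t * u) := by ring
  rw [e] at h
  exact h

theorem hm_bd (p : BM a A') (q : BM a B') : BH a (GR.hm A' B') :=
  ⟨p.a, p.e, p.i, p.b, q.b, p.c, q.c, p.f, q.f⟩

theorem ab2 {x y : ℤ} (hx : |x| ≤ a) (hy : |y| ≤ a) : |x + y| ≤ 2 * a := by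
  have := abs_add2 hx hy
  linarith

theorem ab2' {x y : ℤ} (hx : |x| ≤ a) (hy : |y| ≤ a) : |x - y| ≤ 2 * a := by
  have h1 := abs_le.1 hx
  have h2 := abs_le.1 hy
  exact abs_le.2 ⟨by linarith, by linarith⟩

theorem cA_bd (p : BM a A') (q : BM a B') : BH (2 * a) (GR.cA A' B') :=
  ⟨ab2 p.a p.a, ab2 p.e p.e, ab2 p.i p.i, ab2 p.b p.d, ab2' q.b q.d, ab2 p.c p.g, ab2' q.c q.g,
    ab2 p.f p.h, ab2' q.f q.h⟩

theorem cB_bd (p : BM a A') (q : BM a B') : BH (2 * a) (GR.cB A' B') :=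
  ⟨ab2 q.a q.a, ab2 q.e q.e, ab2 q.i q.i, ab2 q.b q.d, ab2' p.d p.b, ab2 q.c q.g, ab2' p.g p.c,
    ab2 q.f q.h, ab2' p.h p.f⟩

theorem smH_bd {c r : ℤ} (hc : |c| ≤ r) (p : BH a K') : BH (r * a) (GR.smH c K') :=
  ⟨abs_mul_le hc p.a, abs_mul_le hc p.b, abs_mul_le hc p.c, abs_mul_le hc p.d, abs_mul_le hc p.e,
    abs_mul_le hc p.f, abs_mul_le hc p.g, abs_mul_le hc p.h, abs_mul_le hc p.i⟩

theorem adH_bd (p : BH a K') (q : BH b L') : BH (a + b) (GR.adH K' L') :=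
  ⟨abs_add2 p.a q.a, abs_add2 p.b q.b, abs_add2 p.c q.c, abs_add2 p.d q.d, abs_add2 p.e q.e,
    abs_add2 p.f q.f, abs_add2 p.g q.g, abs_add2 p.h q.h, abs_add2 p.i q.i⟩

theorem BH.mono (p : BH a K') (h : a ≤ b) : BH b K' :=
  ⟨p.a.trans h, p.b.trans h, p.c.trans h, p.d.trans h, p.e.trans h, p.f.trans h, p.g.trans h,
    p.h.trans h, p.i.trans h⟩

theorem BM.mono (p : BM a A') (h : a ≤ b) : BM b A' :=
  ⟨p.a.trans h, p.b.trans h, p.c.trans h, p.d.trans h, p.e.trans h, p.f.trans h, p.g.trans h,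
    p.h.trans h, p.i.trans h⟩

theorem idH_bd {r : ℤ} (h : |r| ≤ a) : BH a (GR.idH r) := by
  have h0 : |(0 : ℤ)| ≤ a := by
    rw [abs_zero]; exact (abs_nonneg _).trans h
  exact ⟨h, h, h, h0, h0, h0, h0, h0, h0⟩

end Pool.Agent.Helper94.CXF.SD
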