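import Pool.Agent.Helper94.CXF.S9

/-!
FARL: soundness of the slit test; negative forms and their constants.
-/

set_option autoImplicit false
set_option exponentiation.threshold 4000
noncomputable section
namespace Pool.Agent.Helper94.CXF.SD

open Pool.Agent.Helper86.CX renaming Hm → Hm, ev → hev
open Pool.Agent.Helper94.CXF (M9)
open Pool.Agent.Helper94.CXF
open Complex ComplexConjugate

/-! ### negative forms -/

theorem rep_c20 : Rp KN.c20 (-2 ^ 20) := by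
  unfold Rp Pool.Agent.Helper17.PAK.Rep Int.ModEq
  decide +kernel

theorem NegS_real {K : Hm ℝ} (hb : K.b < 0) (hc : K.c < 0)
    (hd : 0 < K.b * K.c - (K.h * K.h + K.i * K.i)) : NegS K := by
  intro x h0 hx
  have e : hev K x = K.b * normSq (x 1) + K.c * normSq (x 2) +
      2 * (K.h * (conj (x 1) * x 2).re - K.i * (conj (x 1) * x 2).im) := by
    simp only [hev, h0]
    simp
    ring
  have e2 : K.b * hev K x = normSq (K.b * x 1 + (K.h + K.i * I) * x 2) +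
      (K.b * K.c - (K.h * K.h + K.i * K.i)) * normSq (x 2) := by
    rw [e]
    simp [normSq_apply]
    ring
  by_contra hcon
  push Not at hcon
  have h1 : K.b * hev K x ≤ 0 := mul_nonpos_of_nonpos_of_nonneg hb.le hcon
  have n1 := normSq_nonneg (K.b * x 1 + (K.h + K.i * I) * x 2)
  have n2 := mul_nonneg hd.le (normSq_nonneg (x 2))
  rw [e2] at h1
  have h2 : (K.b * K.c - (K.h * K.h + K.i * K.i)) * normSq (x 2) = 0 := by linarith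
  have h3 : normSq (x 2) = 0 := by
    rcases mul_eq_zero.1 h2 with h | h
    · exact absurd h hd.ne'
    · exact h
  have x2 : x 2 = 0 := normSq_eq_zero.1 h3
  have h4 : normSq (K.b * x 1 + (K.h + K.i * I) * x 2) = 0 := by linarith
  have h5 := normSq_eq_zero.1 h4
  rw [x2, mul_zero, add_zero] at h5
  have x1 : x 1 = 0 := by
    rcases mul_eq_zero.1 h5 with h | h
    · exact absurd (by exact_mod_cast h) hb.ne
    · exact h
  apply hx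
  funext j
  fin_cases j
  · exact h0
  · exact x1
  · exact x2

theorem ngs_sound {K : Hm ℕ} {Kz : Hm ℤ} (hK : RH K Kz) (bK : BH (2 ^ 27) Kz)
    (h : KN.ngs K = true) : NegS (rH Kz) := by
  unfold KN.ngs at h
  simp only [andB_iff] at h
  obtain ⟨h1, h2, h3⟩ := h
  have b1 : |-Kz.b| ≤ 2 ^ 1151 := by
    rw [abs_neg]; exact bK.b.trans (by decide +kernel)
  have b2 : |-Kz.c| ≤ 2 ^ 1151 := by
    rw [abs_neg]; exact bK.c.trans (by decide +kernel)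
  have b3 : |Kz.b * Kz.c + -1 * (Kz.h * Kz.h + Kz.i * Kz.i)| ≤ 2 ^ 1151 := by
    have a1 := abs_mul_le bK.b bK.c
    have a2 := abs_mul_le bK.h bK.h
    have a3 := abs_mul_le bK.i bK.i
    have a4 := abs_add2 a1 (abs_mul_le (show |(-1 : ℤ)| ≤ 1 by norm_num) (abs_add2 a2 a3))
    exact a4.trans (by decide +kernel)
  have p1 := pos_sound (rp_ng hK.b) b1 h1
  have p2 := pos_sound (rp_ng hK.c) b2 h2
  have p3 := pos_sound ((hK.b.mul hK.c).add (rep_NN.mul ((hK.h.mul hK.h).add (hK.i.mul hK.i))))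
    b3 h3
  apply NegS_real
  · have : ((Kz.b : ℤ) : ℝ) < 0 := by exact_mod_cast (by linarith : Kz.b < 0)
    exact this
  · have : ((Kz.c : ℤ) : ℝ) < 0 := by exact_mod_cast (by linarith : Kz.c < 0)
    exact this
  · have : (0 : ℤ) < Kz.b * Kz.c - (Kz.h * Kz.h + Kz.i * Kz.i) := by linarith
    have h4 : (0 : ℝ) < (Kz.b : ℝ) * Kz.c - (Kz.h * Kz.h + Kz.i * Kz.i) := by exact_mod_cast this
    exact h4

/-- the constant of a negative form -/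
theorem NegS_bd {K : Hm ℝ} (h : NegS K) :
    ∃ C : ℝ, 0 ≤ C ∧ ∀ x : Fin 3 → ℂ, 0 ≤ hev K x → ∀ j, ‖x j‖ ≤ C * ‖x 0‖ := by
  set S : Set (Fin 3 → ℂ) := Metric.sphere 0 1 ∩ {x | 0 ≤ hev K x} with hS
  have hcont : Continuous fun x : Fin 3 → ℂ => hev K x := by
    simp only [hev]
    fun_prop
  have hcl : IsClosed {x : Fin 3 → ℂ | 0 ≤ hev K x} := isClosed_le continuous_const hcont
  have hcomp : IsCompact S := (isCompact_sphere 0 1).inter_right hcl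
  have scale : ∀ x : Fin 3 → ℂ, x ≠ 0 → 0 ≤ hev K x → ((‖x‖⁻¹ : ℝ) : ℂ) • x ∈ S := by
    intro x hx hK
    have hn : ‖x‖ ≠ 0 := norm_ne_zero_iff.2 hx
    refine ⟨?_, ?_⟩
    · rw [mem_sphere_zero_iff_norm, norm_smul, Complex.norm_real, norm_inv, norm_norm,
        inv_mul_cancel₀ hn]
    · show 0 ≤ hev K _
      rw [ev_smul]
      positivity
  rcases S.eq_empty_or_nonempty with he | hne
  · refine ⟨0, le_rfl, fun x hK j => ?_⟩
    by_cases hx : x = 0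
    · rw [hx]; simp
    · have := scale x hx hK
      rw [he] at this
      exact this.elim
  · obtain ⟨y, hy, hmin⟩ := hcomp.exists_isMinOn hne
      (f := fun x : Fin 3 → ℂ => ‖x 0‖) (by fun_prop)
    have hy1 : ‖y‖ = 1 := by simpa using hy.1
    have y0 : y 0 ≠ 0 := by
      intro h0
      have hyn : y ≠ 0 := by
        intro h1
        rw [h1] at hy1
        simp at hy1
      exact absurd (h y h0 hyn) (not_lt.2 hy.2)
    have yp : 0 < ‖y 0‖ := norm_pos_iff.2 y0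
    refine ⟨‖y 0‖⁻¹, by positivity, fun x hK j => ?_⟩
    by_cases hx : x = 0
    · rw [hx]; simp
    · have h1 := hmin (scale x hx hK)
      have h2 : ‖y 0‖ ≤ ‖x‖⁻¹ * ‖x 0‖ := by
        have : ‖y 0‖ ≤ ‖(((‖x‖⁻¹ : ℝ) : ℂ) • x) 0‖ := h1
        rwa [Pi.smul_apply, norm_smul, Complex.norm_real, norm_inv, norm_norm] at this
      have hn : 0 < ‖x‖ := norm_pos_iff.2 hx
      have h3 : ‖x‖ * ‖y 0‖ ≤ ‖x 0‖ := by
        have := mul_le_mul_of_nonneg_left h2 hn.le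
        rwa [← mul_assoc, mul_inv_cancel₀ hn.ne', one_mul] at this
      have h4 : ‖x j‖ ≤ ‖x‖ := norm_le_pi_norm x j
      rw [inv_mul_eq_div, le_div_iff₀ yp]
      exact (mul_le_mul_of_nonneg_right h4 yp.le).trans h3

/-! ### slits -/

/-- the real form of the slit test -/
def slTr (T : M9 ℝ × M9 ℝ) : M9 ℝ × M9 ℝ :=
  (⟨T.1.a, T.1.b, T.1.c, 1, 0, 0, 0, 0, 0⟩, ⟨T.2.a, T.2.b, T.2.c, 0, 0, 0, 0, 0, 0⟩)

theorem u1N_rep : Rp KN.u1N (2 ^ 48) := by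
  unfold Rp Pool.Agent.Helper17.PAK.Rep Int.ModEq
  decide +kernel

theorem slT_ok {T : M9 ℝ × M9 ℝ} {N : M9 ℕ × M9 ℕ} {Z0 Z1 : M9 ℤ} (o0 : OkT T.1 N.1 Z0)
    (o1 : OkT T.2 N.2 Z1) :
    OkT (slTr T).1 (KN.slT N).1 ⟨Z0.a, Z0.b, Z0.c, 2 ^ 48, 0, 0, 0, 0, 0⟩ ∧
      OkT (slTr T).2 (KN.slT N).2 ⟨Z1.a, Z1.b, Z1.c, 0, 0, 0, 0, 0, 0⟩ := by
  have z : |(0 : ℤ)| ≤ 2 ^ 54 := by norm_num
  have zr : |cI 0 - 2 ^ 48 * (0 : ℝ)| ≤ 256 := by
    rw [map_zero, mul_zero, sub_zero, abs_zero]; norm_num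
  refine ⟨⟨⟨o0.rep.a, o0.rep.b, o0.rep.c, u1N_rep, rp_zero, rp_zero, rp_zero, rp_zero, rp_zero⟩,
    ⟨o0.bd.a, o0.bd.b, o0.bd.c, by norm_num, z, z, z, z, z⟩,
    ⟨o0.near.a, o0.near.b, o0.near.c, ?_, zr, zr, zr, zr, zr⟩⟩,
    ⟨⟨o1.rep.a, o1.rep.b, o1.rep.c, rp_zero, rp_zero, rp_zero, rp_zero, rp_zero, rp_zero⟩,
    ⟨o1.bd.a, o1.bd.b, o1.bd.c, z, z, z, z, z, z⟩,
    ⟨o1.near.a, o1.near.b, o1.near.c, zr, zr, zr, zr, zr, zr⟩⟩⟩
  show |cI (2 ^ 48) - 2 ^ 48 * (1 : ℝ)| ≤ 256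
  rw [cI_apply]
  norm_num

theorem ap_slTr (T : M9 ℝ × M9 ℝ) (e : ℂ) (x : Fin 3 → ℂ) :
    ap (slTr T) e x 0 = ap T e x 0 ∧ ap (slTr T) e x 1 = x 0 ∧ ap (slTr T) e x 2 = 0 := by
  rw [ap_eq, ap_eq]
  refine ⟨?_, ?_, ?_⟩
  · simp only [Pi.add_apply, Pi.smul_apply, ap1_0, slTr]
  · simp only [Pi.add_apply, Pi.smul_apply, ap1_1, slTr]
    simp
  · simp only [Pi.add_apply, Pi.smul_apply, ap1_2, slTr]
    simp

/-- the form `kg` -/
def kgz (gr gi : ℤ) : Hm ℤ := ⟨0, 0, 0, gr, -gi, 0, 0, 0, 0⟩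

theorem hev_kg (gr gi : ℤ) (y : Fin 3 → ℂ) :
    hev (rH (kgz gr gi)) y = 2 * (((gr : ℂ) + (gi : ℂ) * I) * (y 0 * conj (y 1))).re := by
  simp only [hev, rH, GR.mpH, kgz, cI]
  simp
  ring

theorem sgn_rep (n : ℕ) : Rp (KN.sgn n) ((n : ℤ) - 2 ^ 20) :=
  (Pool.Agent.Helper17.PAK.Rep.nat KN.MM n).add rep_c20

theorem kg_rep (g : KN.Sg) :
    RH (KN.kg g) (kgz ((g.gr : ℤ) - 2 ^ 20) ((g.gi : ℤ) - 2 ^ 20)) := by
  have hE : Rp (KN.ng (KN.sgn g.gi)) (-((g.gi : ℤ) - 2 ^ 20)) := rp_ng (sgn_rep g.gi)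
  have hD := sgn_rep g.gr
  unfold KN.kg kgz
  generalize KN.ng (KN.sgn g.gi) = m at hE
  generalize KN.sgn g.gr = n at hD
  exact ⟨rp_zero, rp_zero, rp_zero, hD, hE, rp_zero, rp_zero, rp_zero, rp_zero⟩

theorem p92_eq : KN.p92 = 2 ^ 92 := by decide +kernel

section
variable {x0 : ℝ} {x : ℕ} {k0 k1 : KN.Nd} {u0 u1 u : ℂ} {s : ℝ} {c0 c1 : ℝ} {c0N c1N : ℕ}

/-- the integer value of `dnv` -/
def dnz (D : ℕ) (c0N c1N : ℕ) (gr gi : ℤ) (k : KN.Nd) : ℤ :=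
  (gr * (c0N * 2 ^ 62 + c1N * zer k) + gi * (c1N * zei k)) + -1 * D

theorem dnv_rep (x d c0N c1N : ℕ) {gr gi : ℕ} {a b : ℤ} (hr : Rp gr a) (hi : Rp gi b)
    (k : KN.Nd) : Rp (KN.dnv x d c0N c1N gr gi k)
      (dnz (Nat.add (Nat.mul 1770887431076116955136 (KN.dE x d)) KN.p92) c0N c1N a b k) :=
  ((hr.mul (((Pool.Agent.Helper17.PAK.Rep.nat KN.MM c0N).mul rp_o62).add
    ((Pool.Agent.Helper17.PAK.Rep.nat KN.MM c1N).mul (rp_fer k)))).add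
    (hi.mul ((Pool.Agent.Helper17.PAK.Rep.nat KN.MM c1N).mul (rp_fei k)))).add
    (rep_NN.mul (Pool.Agent.Helper17.PAK.Rep.nat KN.MM _))

theorem dnO_sound (hx : |x0| ≤ (x : ℝ) / 2 ^ 16) (hx2 : x ≤ 2 ^ 17)
    (h0 : NdR x0 k0 u0) (h1 : NdR x0 k1 u1) {g : KN.Sg}
    (hc : KN.dnO x c0N c1N k0 k1 g = true) (hc0 : |(c0N : ℝ) - 2 ^ 48 * c0| ≤ 16)
    (hc1 : |(c1N : ℝ) - 2 ^ 48 * c1| ≤ 16) (b0 : c0N ≤ 2 ^ 50) (b1 : c1N ≤ 2 ^ 50)
    (hu : Cv x0 s u) (s0 : (k0.i : ℝ) / 2048 ≤ s) (s1 : s ≤ (k1.i : ℝ) / 2048) :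
    0 < (((((g.gr : ℤ) - 2 ^ 20 : ℤ) : ℂ) + (((g.gi : ℤ) - 2 ^ 20 : ℤ) : ℂ) * I) *
      ((c0 : ℂ) + c1 * (s * u))).re := by
  unfold KN.dnO at hc
  simp only [andB_iff] at hc
  obtain ⟨gr1, gi1, hi, p0, p1⟩ := hc
  have gr1 : g.gr ≤ 2097152 := Nat.le_of_ble_eq_true gr1
  have gi1 : g.gi ≤ 2097152 := Nat.le_of_ble_eq_true gi1
  have hi : k0.i + 1 ≤ k1.i := Nat.le_of_ble_eq_true hi
  have hR := sgn_rep g.gr
  have hI := sgn_rep g.gi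
  have aR : |(g.gr : ℤ) - 2 ^ 20| ≤ 2 ^ 20 := by
    rw [abs_le]; constructor <;> omega
  have aI : |(g.gi : ℤ) - 2 ^ 20| ≤ 2 ^ 20 := by
    rw [abs_le]; constructor <;> omega
  generalize (g.gr : ℤ) - 2 ^ 20 = a at *
  generalize (g.gi : ℤ) - 2 ^ 20 = b at *
  have bi : k1.i - k0.i ≤ 256 := by
    have := (h1.bd).2.2
    rw [abs_of_nonneg (by positivity)] at this
    have : k1.i ≤ 256 := by exact_mod_cast this
    omega
  have hdE := dE_le hx2 bi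
  obtain ⟨D, hD⟩ : ∃ D, D = Nat.add (Nat.mul 1770887431076116955136
    (KN.dE x (k1.i - k0.i))) KN.p92 := ⟨_, rfl⟩
  have eD : D = 1770887431076116955136 * KN.dE x (k1.i - k0.i) + 2 ^ 92 := by
    rw [hD, p92_eq]; rfl
  have hrep : ∀ k, Rp (KN.dnv x (Nat.sub k1.i k0.i) c0N c1N (KN.sgn g.gr) (KN.sgn g.gi) k)
      (dnz D c0N c1N a b k) := by
    intro k
    rw [hD]
    exact dnv_rep x (Nat.sub k1.i k0.i) c0N c1N hR hI k
  clear hD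
  have aD : |(-1 : ℤ) * (D : ℤ)| ≤ 2 ^ 130 := by
    rw [abs_mul, abs_neg, abs_one, one_mul, abs_of_nonneg (by positivity), eD]
    push_cast
    have : ((KN.dE x (k1.i - k0.i) : ℕ) : ℤ) ≤ 2 ^ 57 := by exact_mod_cast hdE
    norm_num at *
    linarith
  have bc0 : |(c0N : ℤ)| ≤ 2 ^ 50 := by
    rw [abs_of_nonneg (by positivity)]; exact_mod_cast b0
  have bc1 : |(c1N : ℤ)| ≤ 2 ^ 50 := by
    rw [abs_of_nonneg (by positivity)]; exact_mod_cast b1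
  have node : ∀ (k : KN.Nd) (w : ℂ), NdR x0 k w →
      KN.pos (KN.dnv x (Nat.sub k1.i k0.i) c0N c1N (KN.sgn g.gr) (KN.sgn g.gi) k) = true →
      (D : ℝ) ≤ Vn k (a * c0N) 0 0 0 0 ((((a : ℂ) + (b : ℂ) * I)) * (c1N / 2 : ℝ)) 0 := by
    intro k w hk hp
    have hz := pos_sound (hrep k) (by
      have h1 := abs_add2 (abs_add2 (abs_mul_le aR (abs_add2
        (abs_mul_le bc0 (show |(2 : ℤ) ^ 62| ≤ 2 ^ 62 by norm_num))
        (abs_mul_le bc1 (zer_bd hk)))) (abs_mul_le aI (abs_mul_le bc1 (zei_bd hk)))) aD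
      exact h1.trans (by decide +kernel)) hp
    rw [Vn_reg]
    have e1 : ((((a : ℂ) + (b : ℂ) * I)) * ((c1N / 2 : ℝ) : ℂ)).re = a * (c1N / 2) := by
      rw [mul_comm, re_ofReal_mul]
      simp
      ring
    have e2 : ((((a : ℂ) + (b : ℂ) * I)) * ((c1N / 2 : ℝ) : ℂ)).im = b * (c1N / 2) := by
      rw [mul_comm, im_ofReal_mul]
      simp
      ring
    rw [e1, e2]
    have hz' : ((0 : ℤ) : ℝ) < ((dnz D c0N c1N a b k : ℤ) : ℝ) := by exact_mod_cast hz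
    simp only [dnz] at hz'
    push_cast at hz'
    clear p0 p1 hp
    linarith
  have V0 := node k0 u0 h0 p0
  have V1 := node k1 u1 h1 p1
  have hi' : (k0.i : ℝ) / 2048 < (k1.i : ℝ) / 2048 := by
    have : (k0.i : ℝ) + 1 ≤ k1.i := by exact_mod_cast hi
    linarith
  obtain ⟨t, t0, t1, hs⟩ := exists_t s0 s1 hi'
  have aR' : |(a : ℝ)| ≤ 2 ^ 20 := by
    rw [← Int.cast_abs]; exact_mod_cast aR
  have aI' : |(b : ℝ)| ≤ 2 ^ 20 := by
    rw [← Int.cast_abs]; exact_mod_cast aI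
  have ng : ‖((a : ℂ) + (b : ℂ) * I)‖ ≤ 3 / 2 * 2 ^ 20 := by
    refine nrm_le (by norm_num) ?_
    have e1 : ((a : ℂ) + (b : ℂ) * I).re = a := by simp
    have e2 : ((a : ℂ) + (b : ℂ) * I).im = b := by simp
    rw [e1, e2]
    have h1 := sq_le_sq' (neg_le_of_abs_le aR') (le_of_abs_le aR')
    have h2 := sq_le_sq' (neg_le_of_abs_le aI') (le_of_abs_le aI')
    norm_num at *
    linarith
  have nq : 2 * ‖(((a : ℂ) + (b : ℂ) * I)) * ((c1N / 2 : ℝ) : ℂ)‖ ≤ 1770887431076116955136 := by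
    rw [norm_mul, Complex.norm_real, Real.norm_eq_abs, abs_of_nonneg (by positivity)]
    have h1 : (c1N : ℝ) ≤ 2 ^ 50 := by exact_mod_cast b1
    have h2 := mul_le_mul ng h1 (by positivity) (by norm_num)
    norm_num at *
    linarith
  have CV := chordV (cs := 0) (c2 := 0) (c3 := 0) (qu := 0) (qg := 0) (nu := 0) (ng := 0)
    (m2 := 0) (m3 := 0) (c1 := a * c0N) (qe := (((a : ℂ) + (b : ℂ) * I)) * ((c1N / 2 : ℝ) : ℂ))
    h0 h1 hu hx hx2 t0 t1 hs (by omega) (by simp) nq (by simp) (by simp) (by simp)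
  have A0 := mul_le_mul_of_nonneg_left V0 (sub_nonneg.2 t1)
  have A1 := mul_le_mul_of_nonneg_left V1 t0
  have Dr : (D : ℝ) = 1770887431076116955136 * (KN.dE x (k1.i - k0.i) : ℝ) + 2 ^ 92 := by
    rw [eD]; push_cast; ring
  generalize Vn k0 (a * c0N) 0 0 0 0 ((((a : ℂ) + (b : ℂ) * I)) * ((c1N / 2 : ℝ) : ℂ)) 0 = W0
    at *
  generalize Vn k1 (a * c0N) 0 0 0 0 ((((a : ℂ) + (b : ℂ) * I)) * ((c1N / 2 : ℝ) : ℂ)) 0 = W1
    at *
  have key : (2 : ℝ) ^ 92 ≤ 2 ^ 62 * Vv s u (a * c0N) 0 0 0 0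
      ((((a : ℂ) + (b : ℂ) * I)) * ((c1N / 2 : ℝ) : ℂ)) 0 := by
    linarith
  have e4 : Vv s u (a * c0N) 0 0 0 0 ((((a : ℂ) + (b : ℂ) * I)) * ((c1N / 2 : ℝ) : ℂ)) 0 =
      (((a : ℂ) + (b : ℂ) * I) * ((c0N : ℂ) + c1N * (s * u))).re := by
    have e5 : (s : ℂ) * u * ((((a : ℂ) + (b : ℂ) * I)) * ((c1N / 2 : ℝ) : ℂ)) =
        ((1 / 2 : ℝ) : ℂ) * (((a : ℂ) + (b : ℂ) * I) * (c1N * (s * u))) := by
      push_cast; ring
    have e6 : (((a : ℂ) + (b : ℂ) * I) * (c0N : ℂ)).re = a * c0N := by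
      simp
    simp only [Vv, mul_zero, zero_re, add_zero]
    rw [e5, re_ofReal_mul, mul_add, add_re, e6]
    ring
  have e7 : (((a : ℂ) + (b : ℂ) * I) * ((c0N : ℂ) + c1N * (s * u))).re -
      2 ^ 48 * (((a : ℂ) + (b : ℂ) * I) * ((c0 : ℂ) + c1 * (s * u))).re ≤
      (3 / 2 * 2 ^ 20) * 32 := by
    have e8 : 2 ^ 48 * (((a : ℂ) + (b : ℂ) * I) * ((c0 : ℂ) + c1 * (s * u))).re =
        (((a : ℂ) + (b : ℂ) * I) * (((2 ^ 48 * c0 : ℝ) : ℂ) + ((2 ^ 48 * c1 : ℝ) : ℂ) *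
          (s * u))).re := by
      have e12 := re_ofReal_mul ((2 : ℝ) ^ 48) (((a : ℂ) + (b : ℂ) * I) * ((c0 : ℂ) + c1 * (s * u)))
      rw [← e12]
      refine congrArg Complex.re ?_
      rw [ofReal_mul, ofReal_mul]
      generalize (((2 : ℝ) ^ 48 : ℝ) : ℂ) = z
      ring
    rw [e8]
    refine re_near9 ng ?_
    have e9 : (c0N : ℂ) + c1N * (s * u) - (((2 ^ 48 * c0 : ℝ) : ℂ) + ((2 ^ 48 * c1 : ℝ) : ℂ) *
        (s * u)) = (((c0N : ℝ) - 2 ^ 48 * c0 : ℝ) : ℂ) + (((c1N : ℝ) - 2 ^ 48 * c1 : ℝ) : ℂ) *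
        (s * u) := by
      push_cast; ring
    rw [e9]
    refine (norm_add_le _ _).trans ?_
    rw [norm_mul, norm_mul, Complex.norm_real, Complex.norm_real, Complex.norm_real,
      Real.norm_eq_abs, Real.norm_eq_abs, Real.norm_eq_abs, abs_of_nonneg hu.s0, hu.norm]
    have h1 := mul_le_mul hc1 hu.s1 hu.s0 (by norm_num)
    rw [mul_one]
    exact (add_le_add hc0 h1).trans (by norm_num)
  rw [e4] at key
  have e10 : (2 : ℝ) ^ 30 ≤ (((a : ℂ) + (b : ℂ) * I) * ((c0N : ℂ) + c1N * (s * u))).re := by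
    have : (2 : ℝ) ^ 62 * 2 ^ 30 = 2 ^ 92 := by norm_num
    rw [← this] at key
    exact le_of_mul_le_mul_left key (by positivity)
  have e11 : (0 : ℝ) < 2 ^ 48 * (((a : ℂ) + (b : ℂ) * I) * ((c0 : ℂ) + c1 * (s * u))).re := by
    norm_num at *
    linarith
  exact (pos_iff_pos_of_mul_pos e11).1 (by positivity)

theorem slit_sound {P : KN.Pc} (hP : PcOk x0 P) {K : Hm ℕ} {Kz : Hm ℤ} (hK : RH K Kz)
    (bK : BH (2 ^ 27) Kz) {T : M9 ℝ × M9 ℝ} {N : M9 ℕ × M9 ℕ} {Z0 Z1 : M9 ℤ}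
    (o0 : OkT T.1 N.1 Z0) (o1 : OkT T.2 N.2 Z1) (hc0 : |(c0N : ℝ) - 2 ^ 48 * c0| ≤ 16)
    (hc1 : |(c1N : ℝ) - 2 ^ 48 * c1| ≤ 16) (b0 : c0N ≤ 2 ^ 50) (b1 : c1N ≤ 2 ^ 50) {e : ℕ} :
    ∀ (l : List KN.Sg) (k : KN.Nd), Ndd x0 k → KN.slit P.ns P.x c0N c1N K N e l k = true →
      k.i < e → ∀ (s : ℝ) (u : ℂ), Cv x0 s u → (k.i : ℝ) / 2048 ≤ s → s ≤ (e : ℝ) / 2048 →
      ∀ x : Fin 3 → ℂ, x ≠ 0 → 0 ≤ hev (rH Kz) x →
        ∃ g : ℂ, 0 < (g * (ap T (s * u) x 0 * conj (x 0))).re ∧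
          0 < (g * ((c0 : ℂ) + c1 * (s * u))).re := by
  intro l
  induction l with
  | nil =>
    intro k _ h hlt
    have h' : Nat.beq k.i e = true := h
    rw [Nat.beq_eq] at h'
    omega
  | cons g l ih =>
    intro k hk h hlt s u hu s0 s1 x hx hKx
    have h' : KN.andB (KN.dnO P.x c0N c1N k (KN.nthN P.ns g.p) g)
      (KN.andB (KN.lmi P.ns P.x k (KN.nthN P.ns g.p).i g.t (KN.kg g) K (KN.slT N))
        (KN.slit P.ns P.x c0N c1N K N e l (KN.nthN P.ns g.p))) = true := h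
    simp only [andB_iff] at h'
    obtain ⟨a, b, c⟩ := h'
    have hd := a
    unfold KN.dnO at hd
    simp only [andB_iff] at hd
    have gr1 : g.gr ≤ 2097152 := Nat.le_of_ble_eq_true hd.1
    have gi1 : g.gi ≤ 2097152 := Nat.le_of_ble_eq_true hd.2.1
    have hi : k.i + 1 ≤ (KN.nthN P.ns g.p).i := Nat.le_of_ble_eq_true hd.2.2.1
    have hn := hP.ns _ (nthN_lt (Nat.lt_of_succ_le hi))
    rcases le_or_gt s ((KN.nthN P.ns g.p).i / 2048 : ℝ) with h2 | h2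
    · obtain ⟨u0, h0⟩ := hk
      obtain ⟨u1, h1⟩ := hn
      have D := dnO_sound hP.hx hP.hx2 h0 h1 a hc0 hc1 b0 b1 hu s0 h2
      obtain ⟨q0, q1⟩ := slT_ok o0 o1
      have aR : |(g.gr : ℤ) - 2 ^ 20| ≤ 2 ^ 27 := by
        rw [abs_le]; constructor <;> omega
      have aI : |-((g.gi : ℤ) - 2 ^ 20)| ≤ 2 ^ 27 := by
        rw [abs_le]; constructor <;> omega
      have z : |(0 : ℤ)| ≤ 2 ^ 27 := by norm_num
      have hKG : RH (KN.kg g) (kgz ((g.gr : ℤ) - 2 ^ 20) ((g.gi : ℤ) - 2 ^ 20)) :=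
        kg_rep g
      have M := lmi_sound (Kz' := kgz ((g.gr : ℤ) - 2 ^ 20) ((g.gi : ℤ) - 2 ^ 20)) hKG
        ⟨z, z, z, aR, aI, z, z, z, z⟩ hK bK q0 q1 hP.hx hP.hx2 hP.ns ⟨u0, h0⟩
        (Nat.lt_of_succ_le hi) b hu s0 h2 x hx hKx
      rw [hev_kg] at M
      obtain ⟨y0, y1, _⟩ := ap_slTr T (s * u) x
      rw [y0, y1] at M
      exact ⟨_, by linarith, D⟩
    · refine ih _ hn c ?_ s u hu h2.le s1 x hx hKx
      have : ((KN.nthN P.ns g.p).i : ℝ) / 2048 < (e : ℝ) / 2048 := lt_of_lt_of_le h2 s1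
      have : ((KN.nthN P.ns g.p).i : ℝ) < e := by linarith
      exact_mod_cast this

end

end Pool.Agent.Helper94.CXF.SD
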