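import Pool.Agent.Helper94.CXF.S10

/-!
FARL: the forms of a piece and the indices of the states.
-/

set_option autoImplicit false
set_option exponentiation.threshold 4000
noncomputable section
namespace Pool.Agent.Helper94.CXF.SD

open Pool.Agent.Helper6.MONO
open Pool.Agent.Helper21.SUP (GS DG DG_nx)
open Pool.Agent.Helper21.SUP renaming nx → nxs
open Pool.Agent.Helper86.CX renaming Hm → Hm, ev → hev
open Pool.Agent.Helper39.SLT (ML)
open Pool.Agent.Helper94.CXF (M9)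
open Pool.Agent.Helper94.CXF
open Complex ComplexConjugate

/-! ### forms -/

/-- an entry -/
def sz (K k : ℕ) : ℤ := (KN.slt K k : ℤ) - 2 ^ 27

theorem rep_c27 : Rp KN.c27 (-2 ^ 27) := by
  unfold Rp Pool.Agent.Helper17.PAK.Rep Int.ModEq
  decide +kernel

theorem st_rep (K k : ℕ) : Rp (KN.st K k) (sz K k) :=
  (Pool.Agent.Helper17.PAK.Rep.nat KN.MM (KN.slt K k)).add rep_c27

theorem sz_bd (K k : ℕ) : |sz K k| ≤ 2 ^ 27 := by
  have h : KN.slt K k < 2 ^ 28 := Nat.mod_lt _ (by norm_num)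
  rw [sz, abs_le]
  constructor <;> omega

def decz (K : ℕ) : Hm ℤ :=
  ⟨sz K 0, sz K 28, sz K 56, sz K 84, sz K 112, sz K 140, sz K 168, sz K 196, sz K 224⟩

theorem dec_rep (K : ℕ) : RH (KN.dec K) (decz K) :=
  ⟨st_rep _ _, st_rep _ _, st_rep _ _, st_rep _ _, st_rep _ _, st_rep _ _, st_rep _ _,
    st_rep _ _, st_rep _ _⟩

theorem dec_bd (K : ℕ) : BH (2 ^ 27) (decz K) :=
  ⟨sz_bd _ _, sz_bd _ _, sz_bd _ _, sz_bd _ _, sz_bd _ _, sz_bd _ _, sz_bd _ _, sz_bd _ _,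
    sz_bd _ _⟩

theorem zs_sound {K k : ℕ} (h : KN.zs K k = true) : sz K k = 0 := by
  have h' : Nat.beq (KN.slt K k) 134217728 = true := h
  rw [Nat.beq_eq] at h'
  rw [sz, h']
  norm_num

/-- entries `00` and `02` zero, `Re ω > 0` -/
structure OkA (K : Hm ℤ) : Prop where
  a : K.a = 0
  f : K.f = 0
  g : K.g = 0
  d : 0 < K.d

/-- the block is zero -/
structure OkB (K : Hm ℤ) : Prop where
  b : K.b = 0
  c : K.c = 0
  h : K.h = 0
  i : K.i = 0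

theorem okA_sound {K : ℕ} (h : KN.okA K = true) : OkA (decz K) := by
  unfold KN.okA at h
  simp only [andB_iff] at h
  obtain ⟨h1, h2, h3, h4⟩ := h
  exact ⟨zs_sound h1, zs_sound h2, zs_sound h3,
    pos_sound (st_rep K 84) ((sz_bd K 84).trans (by decide +kernel)) h4⟩

theorem okB_sound {K : ℕ} (h : KN.okB K = true) : OkB (decz K) := by
  unfold KN.okB at h
  simp only [andB_iff] at h
  obtain ⟨h1, h2, h3, h4⟩ := h
  exact ⟨zs_sound h1, zs_sound h2, zs_sound h3, zs_sound h4⟩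

theorem eqo_sound {K K' : ℕ} (h : KN.eqo K K' = true) :
    (decz K).d = (decz K').d ∧ (decz K).e = (decz K').e := by
  unfold KN.eqo at h
  simp only [andB_iff] at h
  obtain ⟨h1, h2⟩ := h
  rw [Nat.beq_eq] at h1 h2
  constructor
  · show sz K 84 = sz K' 84
    rw [sz, sz]
    have : KN.slt K 84 = KN.slt K' 84 := h1
    rw [this]
  · show sz K 112 = sz K' 112
    rw [sz, sz]
    have : KN.slt K 112 = KN.slt K' 112 := h2
    rw [this]

/-- the form of the loops -/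
def lpf (A B : ℕ) (s : ℝ) : Hm ℝ := GR.adH (rH (decz A)) (GR.smH s (rH (decz B)))

theorem hev_lpf (A B : ℕ) (s : ℝ) (x : Fin 3 → ℂ) :
    hev (lpf A B s) x = hev (rH (decz A)) x + s * hev (rH (decz B)) x := by
  rw [lpf, hev_adH, hev_smH]

theorem NegS_lpf {A B : ℕ} {s : ℝ} (h : NegS (rH (decz A))) (hB : OkB (decz B)) :
    NegS (lpf A B s) := by
  intro x h0 hx
  rw [hev_lpf]
  have e : hev (rH (decz B)) x = 0 := by
    simp only [hev, rH, GR.mpH, hB.b, hB.c, hB.h, hB.i, h0, map_zero]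
    simp
  rw [e, mul_zero, add_zero]
  exact h x h0 hx

/-! ### Boolean functions -/

theorem impB_iff {x y : Bool} : KN.impB x y = true ↔ (x = true → y = true) := by
  cases x <;> cases y <;> simp [KN.impB]

theorem selB_iff {x y b : Bool} : KN.selB x y b = if b then x else y := by
  cases b <;> rfl

theorem selN_if {x y : ℕ} {b : Bool} : KN.selN x y b = if b then x else y := by
  cases b <;> rfl

theorem selS_if {x y : KN.SD} {b : Bool} : KN.selS x y b = if b then x else y := by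
  cases b <;> rfl

theorem evn_iff (i : ℕ) : KN.evn i = true ↔ i % 2 = 0 := by
  show Nat.beq (i % 2) 0 = true ↔ _
  rw [Nat.beq_eq]

/-! ### states -/

theorem DG_cases {s : GS} (h : DG s) : s = (0, 1, 2) ∨ s = (1, 2, 0) ∨ s = (2, 0, 1) ∨
    s = (0, 2, 1) ∨ s = (1, 0, 2) ∨ s = (2, 1, 0) := by
  obtain ⟨n, a, b⟩ := s
  obtain ⟨h1, h2, h3⟩ := h
  simp only at h1 h2 h3
  fin_cases n <;> fin_cases a <;> fin_cases b <;> simp_all

theorem mo_eq (p q r : ℕ) (i j : Fin 3) : KN.mo p q r i j = mm p q r i j := by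
  fin_cases i <;> fin_cases j <;> rfl

theorem orN_eq {s : GS} (h : DG s) : KN.orN s.1 s.2.2 = oriZ s := by
  rcases DG_cases h with rfl | rfl | rfl | rfl | rfl | rfl <;> decide

/-- the data of a state -/
def SDs (P : KN.Pc) (s : GS) : KN.SD := KN.nthS P.s (KN.ix s.1 s.2.1)

theorem nxs_even {s : GS} {i : ℕ} (h : i % 2 = 0) : nxs s (i + 3) = (s.1, s.2.2, s.2.1) := by
  rw [nx_par, if_pos (by omega)]; rfl

theorem nxs_odd {s : GS} {i : ℕ} (h : i % 2 ≠ 0) : nxs s (i + 3) = (s.2.1, s.2.2, s.1) := by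
  rw [nx_par, if_neg (by omega)]; rfl

theorem tg_SD (P : KN.Pc) (s : GS) (i : ℕ) :
    KN.selS (KN.nthS P.s (KN.ix s.1 s.2.2)) (KN.nthS P.s (KN.ix s.2.1 s.2.2)) (KN.evn i) =
      SDs P (nxs s (i + 3)) := by
  rw [selS_if]
  by_cases h : i % 2 = 0
  · rw [if_pos ((evn_iff i).2 h), nxs_even h, SDs]
  · rw [if_neg (fun h' => h ((evn_iff i).1 h')), nxs_odd h, SDs]

theorem tg_or {s : GS} (hs : DG s) (i : ℕ) :
    KN.selB (KN.orN s.1 s.2.1) (KN.orN s.2.1 s.1) (KN.evn i) = oriZ (nxs s (i + 3)) := by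
  have hd := DG_nx s (i + 3) hs
  rw [selB_iff]
  by_cases h : i % 2 = 0
  · rw [if_pos ((evn_iff i).2 h)]
    rw [nxs_even h] at hd ⊢
    exact orN_eq hd
  · rw [if_neg (fun h' => h ((evn_iff i).1 h'))]
    rw [nxs_odd h] at hd ⊢
    exact orN_eq hd

/-! ### runs -/

theorem rns_sound {P : KN.Pc} {KS : Hm ℕ} {o L : Bool} {h g M n a b : ℕ} :
    ∀ (l : List KN.Lm) (i0 : ℕ), KN.rns P KS o L h g M n a b l i0 = true →
      ∀ i, i0 ≤ i → i + 3 ≤ M → ∃ t, KN.rn1 P KS o L h g M n a b i t = true := by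
  intro l
  induction l with
  | nil =>
    intro i0 hr i hi h3
    have hr' : M ≤ i0 + 2 := Nat.le_of_ble_eq_true hr
    omega
  | cons t l ih =>
    intro i0 hr i hi h3
    have hr' : KN.andB (KN.rn1 P KS o L h g M n a b i0 t)
      (KN.rns P KS o L h g M n a b l (Nat.succ i0)) = true := hr
    rw [andB_iff] at hr'
    rcases Nat.eq_or_lt_of_le hi with h1 | h1
    · exact ⟨t, h1 ▸ hr'.1⟩
    · exact ih _ hr'.2 i h1 h3

/-- the number of the table -/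
def kN (p q r : ℕ) (i j : Fin 3) : ℕ := KN.nth KN.tk (mm p q r i j)

/-- the approximations of the run matrices of a class -/
structure TabOk (p q r : ℕ) : Prop where
  R : ∀ s, DG s → ∀ (L : Bool) (i : ℕ), i + 3 ≤ mm p q r s.1 s.2.1 → ∃ Z0 Z1,
    OkT (TRs p q r L s i).1 (KN.TR (oriZ s) L (oriZ (nxs s (i + 3))) (kN p q r s.2.1 s.2.2)
      (kN p q r s.1 s.2.2) (mm p q r s.1 s.2.1) i).1 Z0 ∧
    OkT (TRs p q r L s i).2 (KN.TR (oriZ s) L (oriZ (nxs s (i + 3))) (kN p q r s.2.1 s.2.2)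
      (kN p q r s.1 s.2.2) (mm p q r s.1 s.2.1) i).2 Z1
  Nm : ∀ s, DG s → ∃ Z, OkT (TNm (kk p q r s.1 s.2.1) (kk p q r s.1 s.2.2))
    (KN.TNmN (kN p q r s.1 s.2.1) (kN p q r s.1 s.2.2)) Z
  Np : ∀ s, DG s → ∃ Z0 Z1,
    OkT (TNp (kk p q r s.1 s.2.1) (kk p q r s.1 s.2.2)).1
      (KN.TNpN (kN p q r s.1 s.2.1) (kN p q r s.1 s.2.2)).1 Z0 ∧
    OkT (TNp (kk p q r s.1 s.2.1) (kk p q r s.1 s.2.2)).2
      (KN.TNpN (kN p q r s.1 s.2.1) (kN p q r s.1 s.2.2)).2 Z1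
  Pp : ∀ s, DG s → ∃ Z0 Z1,
    OkT (TPp (kk p q r s.1 s.2.1) (kk p q r s.2.1 s.2.2) (kk p q r s.1 s.2.2)).1
      (KN.TPpN (kN p q r s.1 s.2.1) (kN p q r s.2.1 s.2.2) (kN p q r s.1 s.2.2)).1 Z0 ∧
    OkT (TPp (kk p q r s.1 s.2.1) (kk p q r s.2.1 s.2.2) (kk p q r s.1 s.2.2)).2
      (KN.TPpN (kN p q r s.1 s.2.1) (kN p q r s.2.1 s.2.2) (kN p q r s.1 s.2.2)).2 Z1
  Tm : ∀ s, DG s → ∃ Z0 Z1,
    OkT (TTm (kk p q r s.1 s.2.1) (kk p q r s.2.1 s.2.2) (kk p q r s.1 s.2.2)).1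
      (KN.TTmN (kN p q r s.1 s.2.1) (kN p q r s.2.1 s.2.2) (kN p q r s.1 s.2.2)).1 Z0 ∧
    OkT (TTm (kk p q r s.1 s.2.1) (kk p q r s.2.1 s.2.2) (kk p q r s.1 s.2.2)).2
      (KN.TTmN (kN p q r s.1 s.2.1) (kN p q r s.2.1 s.2.2) (kN p q r s.1 s.2.2)).2 Z1
  Um : ∀ s, DG s → ∃ Z0 Z1,
    OkT (TUm (kk p q r s.1 s.2.1) (kk p q r s.2.1 s.2.2) (kk p q r s.1 s.2.2)).1
      (KN.TUmN (kN p q r s.1 s.2.1) (kN p q r s.2.1 s.2.2) (kN p q r s.1 s.2.2)).1 Z0 ∧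
    OkT (TUm (kk p q r s.1 s.2.1) (kk p q r s.2.1 s.2.2) (kk p q r s.1 s.2.2)).2
      (KN.TUmN (kN p q r s.1 s.2.1) (kN p q r s.2.1 s.2.2) (kN p q r s.1 s.2.2)).2 Z1
  k0 : ∀ s, DG s → ∀ (o : Bool), ∃ c0 c1 : ℝ,
    |(KN.dc0 o (kN p q r s.1 s.2.1) (kN p q r s.2.1 s.2.2) (kN p q r s.1 s.2.2) : ℝ) -
      2 ^ 48 * c0| ≤ 16 ∧
    |(KN.dc1 o (kN p q r s.1 s.2.1) (kN p q r s.2.1 s.2.2) (kN p q r s.1 s.2.2) : ℝ) -
      2 ^ 48 * c1| ≤ 16 ∧
    KN.dc0 o (kN p q r s.1 s.2.1) (kN p q r s.2.1 s.2.2) (kN p q r s.1 s.2.2) ≤ 2 ^ 50 ∧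
    KN.dc1 o (kN p q r s.1 s.2.1) (kN p q r s.2.1 s.2.2) (kN p q r s.1 s.2.2) ≤ 2 ^ 50 ∧
    ∀ e : ℂ, (c0 : ℂ) + c1 * e = ((kk p q r s.1 s.2.1 * kk p q r s.1 s.2.2 : ℝ) : ℂ) *
      dn o (lf p q r s) e

end Pool.Agent.Helper94.CXF.SD
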