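import Pool.Agent.Helper94.CXF.S12

/-!
FARL: from the checks of a class to the far cell.
-/

set_option autoImplicit false
set_option exponentiation.threshold 4000
noncomputable section
namespace Pool.Agent.Helper94.CXF.SD

open Pool.Agent.Helper6.MONO
open Pool.Agent.Helper6.MONO.QTR (V0 e0 Far far_of_eps)
open Pool.Agent.Helper21.SUP (GS DG DG_nx)
open Pool.Agent.Helper21.SUP renaming nx → nxs
open Pool.Agent.Helper86.CX renaming Hm → Hm, ev → hev
open Pool.Agent.Helper39.SLT (ML)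
open Pool.Agent.Helper94.CXF (M9)
open Pool.Agent.Helper94.CXF
open Complex ComplexConjugate

variable {p q r : ℕ}

/-! ### lists -/

theorem allN_sound {f : KN.Nd → Bool} : ∀ {l : List KN.Nd}, KN.allN f l = true →
    ∀ n ∈ l, f n = true := by
  intro l
  induction l with
  | nil => intro _ n hn; exact absurd hn List.not_mem_nil
  | cons x l ih =>
    intro h n hn
    have h' : KN.andB (f x) (KN.allN f l) = true := h
    rw [andB_iff] at h'
    rcases List.mem_cons.1 hn with rfl | hn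
    · exact h'.1
    · exact ih h'.2 n hn

theorem allP_sound {f : KN.Pc → Bool} : ∀ {l : List KN.Pc}, KN.allP f l = true →
    ∀ n ∈ l, f n = true := by
  intro l
  induction l with
  | nil => intro _ n hn; exact absurd hn List.not_mem_nil
  | cons x l ih =>
    intro h n hn
    have h' : KN.andB (f x) (KN.allP f l) = true := h
    rw [andB_iff] at h'
    rcases List.mem_cons.1 hn with rfl | hn
    · exact h'.1
    · exact ih h'.2 n hn

theorem cov_sound : ∀ (l : List KN.Pc) (i : ℕ), KN.cov l i = true → i < 256 → ∀ s : ℝ,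
    (i : ℝ) / 2048 ≤ s → s ≤ 1 / 8 → ∃ P ∈ l, (KN.kst P).i < KN.ken P ∧
      ((KN.kst P).i : ℝ) / 2048 ≤ s ∧ s ≤ (KN.ken P : ℝ) / 2048 := by
  intro l
  induction l with
  | nil =>
    intro i h hi
    have h' : Nat.beq i 256 = true := h
    rw [Nat.beq_eq] at h'
    omega
  | cons P l ih =>
    intro i h hi s h0 h1
    have h' : KN.andB (Nat.beq (KN.kst P).i i) (KN.cov l (KN.ken P)) = true := h
    rw [andB_iff, Nat.beq_eq] at h'
    obtain ⟨a, b⟩ := h'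
    rw [← a] at h0 hi
    rcases le_or_gt s ((KN.ken P : ℝ) / 2048) with h2 | h2
    · rcases Nat.lt_or_ge (KN.kst P).i (KN.ken P) with h3 | h3
      · exact ⟨P, List.mem_cons_self, h3, h0, h2⟩
      · have h4 : (KN.ken P : ℝ) ≤ (KN.kst P).i := by exact_mod_cast h3
        have h5 : KN.ken P < 256 := lt_of_le_of_lt h3 hi
        obtain ⟨Q, hQ, hr⟩ := ih _ b h5 s (by linarith) h1
        exact ⟨Q, List.mem_cons_of_mem _ hQ, hr⟩
    · have h5 : KN.ken P < 256 := by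
        have : (KN.ken P : ℝ) < 256 := by linarith
        exact_mod_cast this
      obtain ⟨Q, hQ, hr⟩ := ih _ b h5 s h2.le h1
      exact ⟨Q, List.mem_cons_of_mem _ hQ, hr⟩

/-! ### pieces -/

theorem cP_sound {x0 : ℝ} {xv : ℕ} (hx : |x0 * 2 ^ 48 - ((xv : ℝ) - 2 ^ 50)| ≤ 32)
    (hx2 : |x0| ≤ 2) {P : KN.Pc} (h : KN.cP p q r xv P = true) :
    ((KN.kst P).i < KN.ken P → PcOk x0 P) ∧
      ∀ s, DG s → KN.cS p q r P s.1 s.2.1 s.2.2 = true := by
  unfold KN.cP at h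
  simp only [andB_iff] at h
  obtain ⟨h1, h2, h3, ⟨h4, h5⟩, s1, s2, s3, s4, s5, s6⟩ := h
  have h1 : P.x ≤ 131072 := Nat.le_of_ble_eq_true h1
  have h2 : xv + 32 ≤ 1125899906842624 + P.x * 4294967296 := Nat.le_of_ble_eq_true h2
  have h3 : 1125899906842656 ≤ xv + P.x * 4294967296 := Nat.le_of_ble_eq_true h3
  refine ⟨fun hlt => ⟨?_, ?_, ?_, ?_, hlt⟩, ?_⟩
  · have h2' : (xv : ℝ) + 32 ≤ 1125899906842624 + P.x * 4294967296 := by exact_mod_cast h2
    have h3' : (1125899906842656 : ℝ) ≤ xv + P.x * 4294967296 := by exact_mod_cast h3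
    have hx' := abs_le.1 hx
    rw [abs_le]
    norm_num at hx' ⊢
    constructor <;> linarith
  · omega
  · exact fun n hn => okNd_sound hx hx2 (allN_sound h5 n hn)
  · exact okNd_sound hx hx2 h4
  · intro s hs
    rcases DG_cases hs with rfl | rfl | rfl | rfl | rfl | rfl
    · exact s1
    · exact s2
    · exact s3
    · exact s4
    · exact s5
    · exact s6

/-- the bounds of the forms -/
def BdP (p q r : ℕ) (P : KN.Pc) (C : ℝ) : Prop :=
  ∀ s, DG s → (4 ≤ ML p q r s → ∀ x, 0 ≤ hev (K0f P s) x → ∀ j, ‖x j‖ ≤ C * ‖x 0‖) ∧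
    (∀ x, 0 ≤ hev (KFf P s) x → ∀ j, ‖x j‖ ≤ C * ‖x 0‖) ∧
    (∀ x, 0 ≤ hev (KBf P s) x → ∀ j, ‖x j‖ ≤ C * ‖x 0‖)

theorem BdP.mono {P : KN.Pc} {C C' : ℝ} (h : BdP p q r P C) (hC : C ≤ C') : BdP p q r P C' :=
  fun s hs => ⟨fun h4 x hx j => ((h s hs).1 h4 x hx j).trans
    (mul_le_mul_of_nonneg_right hC (norm_nonneg _)),
    fun x hx j => ((h s hs).2.1 x hx j).trans (mul_le_mul_of_nonneg_right hC (norm_nonneg _)),
    fun x hx j => ((h s hs).2.2 x hx j).trans (mul_le_mul_of_nonneg_right hC (norm_nonneg _))⟩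

theorem BdP_ex {P : KN.Pc} (hS : ∀ s, DG s → KN.cS p q r P s.1 s.2.1 s.2.2 = true) :
    ∃ C : ℝ, 0 ≤ C ∧ BdP p q r P C := by
  have N : ∀ s, DG s → NegOk P (Nat.ble 4 (ML p q r s)) (oriZ s) (SDs P s) := by
    intro s hs
    have h := cS_un hs (hS s hs)
    unfold KN.cS2 at h
    exact cN_sound (andB_iff.1 h).1
  have one : ∀ s : GS, ∃ C : ℝ, 0 ≤ C ∧ (DG s →
      (4 ≤ ML p q r s → ∀ x, 0 ≤ hev (K0f P s) x → ∀ j, ‖x j‖ ≤ C * ‖x 0‖) ∧
      (∀ x, 0 ≤ hev (KFf P s) x → ∀ j, ‖x j‖ ≤ C * ‖x 0‖) ∧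
      (∀ x, 0 ≤ hev (KBf P s) x → ∀ j, ‖x j‖ ≤ C * ‖x 0‖)) := by
    intro s
    by_cases hs : DG s
    · obtain ⟨C2, c2, h2⟩ := NegS_bd (N s hs).KF
      obtain ⟨C3, c3, h3⟩ := NegS_bd (N s hs).KB
      obtain ⟨C1, c1, h1⟩ : ∃ C : ℝ, 0 ≤ C ∧
          (4 ≤ ML p q r s → ∀ x, 0 ≤ hev (K0f P s) x → ∀ j, ‖x j‖ ≤ C * ‖x 0‖) := by
        by_cases h4 : 4 ≤ ML p q r s
        · obtain ⟨C1, c1, h1⟩ := NegS_bd ((N s hs).K0 (ble4 h4))
          exact ⟨C1, c1, fun _ => h1⟩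
        · exact ⟨0, le_rfl, fun h => absurd h h4⟩
      refine ⟨C1 + C2 + C3, by positivity, fun _ => ⟨fun h4 x hx j => ?_, fun x hx j => ?_,
        fun x hx j => ?_⟩⟩
      · exact (h1 h4 x hx j).trans (mul_le_mul_of_nonneg_right (by linarith) (norm_nonneg _))
      · exact (h2 x hx j).trans (mul_le_mul_of_nonneg_right (by linarith) (norm_nonneg _))
      · exact (h3 x hx j).trans (mul_le_mul_of_nonneg_right (by linarith) (norm_nonneg _))
    · exact ⟨0, le_rfl, fun h => absurd h hs⟩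
  choose f hf0 hf using one
  refine ⟨∑ s : GS, f s, Finset.sum_nonneg fun s _ => hf0 s, fun s hs => ?_⟩
  have hle : f s ≤ ∑ s : GS, f s :=
    Finset.single_le_sum (fun s _ => hf0 s) (Finset.mem_univ s)
  obtain ⟨a, b, c⟩ := hf s hs
  exact ⟨fun h4 x hx j => (a h4 x hx j).trans (mul_le_mul_of_nonneg_right hle (norm_nonneg _)),
    fun x hx j => (b x hx j).trans (mul_le_mul_of_nonneg_right hle (norm_nonneg _)),
    fun x hx j => (c x hx j).trans (mul_le_mul_of_nonneg_right hle (norm_nonneg _))⟩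

theorem BdP_all (l : List KN.Pc) (h : ∀ P ∈ l, ∃ C : ℝ, 0 ≤ C ∧ BdP p q r P C) :
    ∃ C : ℝ, 0 ≤ C ∧ ∀ P ∈ l, BdP p q r P C := by
  induction l with
  | nil => exact ⟨0, le_rfl, fun P hP => absurd hP List.not_mem_nil⟩
  | cons P l ih =>
    obtain ⟨C1, c1, h1⟩ := h P List.mem_cons_self
    obtain ⟨C2, c2, h2⟩ := ih fun Q hQ => h Q (List.mem_cons_of_mem _ hQ)
    refine ⟨C1 + C2, by positivity, fun Q hQ => ?_⟩
    rcases List.mem_cons.1 hQ with rfl | hQ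
    · exact h1.mono (by linarith)
    · exact (h2 Q hQ).mono (by linarith)

theorem ew_w {ε : ℂ} (h : 1 + ε ≠ 0) : ew ((1 - ε) / (1 + ε)) = ε := by
  rw [ew]
  have h2 : 1 + (1 - ε) / (1 + ε) ≠ 0 := by
    have e : 1 + (1 - ε) / (1 + ε) = 2 / (1 + ε) := by
      field_simp
      ring
    rw [e]
    exact div_ne_zero (by norm_num) h
  rw [div_eq_iff h2]
  field_simp
  ring

/-- THE FAR CELL from the checks of a class -/
theorem far_of_cC (hp : 3 ≤ p) (hq : 3 ≤ q) (hr : 3 ≤ r) (T : TabOk p q r) (hR : RefOk p q r)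
    (hU : ∀ (x0 : ℝ) (P : KN.Pc), PcOk x0 P → UUst x0 P) {x0 : ℝ} {xv : ℕ}
    (hx : |x0 * 2 ^ 48 - ((xv : ℝ) - 2 ^ 50)| ≤ 32) (hx1 : -2 < x0) (hx2 : x0 ≤ 2)
    {l : List KN.Pc} (h : KN.cC p q r xv l = true) : Far p q r x0 8 := by
  unfold KN.cC at h
  rw [andB_iff] at h
  obtain ⟨hc, ha⟩ := h
  have habs : |x0| ≤ 2 := abs_le.2 ⟨hx1.le, hx2⟩
  have hP := fun P hP => cP_sound (p := p) (q := q) (r := r) hx habs (allP_sound ha P hP)
  obtain ⟨C, c0, hC⟩ := BdP_all (p := p) (q := q) (r := r) l fun P h => BdP_ex (hP P h).2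
  refine far_of_eps hx1 hx2 (20 * (1 + 2 * C)) fun ε hε => ?_
  obtain ⟨s, u, hcv, he⟩ : ∃ (s : ℝ) (u : ℂ), Cv x0 s u ∧ ε = s * u := by
    rcases hε with h0 | ⟨y, hy, h0, h1, him, hxy⟩
    · exact ⟨0, -Complex.I, cv_zero x0, by rw [h0]; simp⟩
    · exact ⟨_, _, cv_of hy h0 h1 him hxy⟩
  have i0 : ((0 : ℕ) : ℝ) / 2048 ≤ s := by simpa using hcv.s0
  obtain ⟨P, hPl, hlt, s0, s1⟩ := cov_sound l 0 hc (by norm_num) s i0 hcv.s1
  have hPk := (hP P hPl).1 hlt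
  have hin : InP x0 P s u := ⟨hcv, s0, s1⟩
  have F := ff_of hp hq hr hPk T hR (hU _ _ hPk) (hP P hPl).2 (C := C) (hC P hPl) hin
  have hn : ‖ε‖ ≤ 1 / 8 := by rw [he]; exact norm_e hin
  have h1 : 1 + ε ≠ 0 := by
    intro h0
    have : ε = -1 := by linear_combination h0
    rw [this, norm_neg, norm_one] at hn
    norm_num at hn
  have hw := ew_w h1
  have h2 : 1 + (1 - ε) / (1 + ε) ≠ 0 := by
    have e : 1 + (1 - ε) / (1 + ε) = 2 / (1 + ε) := by
      field_simp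
      ring
    rw [e]
    exact div_ne_zero (by norm_num) h1
  rw [← he, ← hw] at F
  exact F.gcert hp hq hr c0 h2 (by rw [hw]; exact hn)

end Pool.Agent.Helper94.CXF.SD
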