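import Pool.Agent.Helper94.CXF.S13
import Pool.Agent.Helper94.CXF.RFO
import Pool.Agent.Helper12.CX.XTE
import Pool.Agent.Helper12.CX.THR

/-!
FARL: the far cell of an exact class from the kernel check.
-/

set_option autoImplicit false
noncomputable section
namespace Pool.Agent.Helper94.CXF.SD

open Pool.Agent.Helper6.MONO
open Pool.Agent.Helper6.MONO.QTR (Far)
open Pool.Agent.Helper6.MONO.XTH (XA xA_enc)

theorem far_ex {p q r : ℕ} (hp : 3 ≤ p ∧ p ≤ 9) (hq : 3 ≤ q ∧ q ≤ 9) (hr : 3 ≤ r ∧ r ≤ 9)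
    {x0 : ℝ} {xv : ℕ} (hx : |x0 * 2 ^ 48 - ((xv : ℝ) - 2 ^ 50)| ≤ 32)
    (h1 : 2 ^ 49 + 32 < xv) (h2 : xv + 32 ≤ 2 ^ 50 + 2 ^ 49) {l : List KN.Pc}
    (h : KN.cC p q r xv l = true) : Far p q r x0 8 := by
  have h1' : (562949953421344 : ℝ) < xv := by
    have : 562949953421344 < xv := h1
    exact_mod_cast this
  have h2' : (xv : ℝ) + 32 ≤ 1688849860263936 := by
    have : xv + 32 ≤ 1688849860263936 := h2
    exact_mod_cast this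
  have hx' := abs_le.1 hx
  norm_num at hx'
  exact far_of_cC hp.1 hq.1 hr.1 (tabOk hp hq hr)
    (refOk94 hp hq hr) (fun x0 P hP => uust94 hP) hx (by linarith) (by linarith) h

theorem hx_of {x : ℝ} {z : ℤ} {xv : ℕ} (hv : (xv : ℤ) = z + 2 ^ 50)
    (h : |x - (z : ℝ) / 2 ^ 48| ≤ 32 / 2 ^ 48) : |x * 2 ^ 48 - ((xv : ℝ) - 2 ^ 50)| ≤ 32 := by
  have e1 : (xv : ℝ) = (z : ℝ) + 2 ^ 50 := by exact_mod_cast hv
  have e2 : x * 2 ^ 48 - ((xv : ℝ) - 2 ^ 50) = (x - (z : ℝ) / 2 ^ 48) * 2 ^ 48 := by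
    rw [e1]; ring
  rw [e2, abs_mul, abs_of_pos (show (0 : ℝ) < 2 ^ 48 by positivity)]
  rwa [le_div_iff₀ (by positivity)] at h

/-- sorted labels -/
theorem far_s {p q r : ℕ} (hp : 3 ≤ p) (hpq : p ≤ q) (hqr : q ≤ r) (hr : r ≤ 9)
    (hne : ¬ (p = 3 ∧ q = 3 ∧ r = 3)) {xv : ℕ}
    (hv : (xv : ℤ) = XA p q r + 2 ^ 50 ∧ 2 ^ 49 + 32 < xv ∧ xv + 32 ≤ 2 ^ 50 + 2 ^ 49)
    {l : List KN.Pc} (h : KN.cC p q r xv l = true) : Far p q r (xA p q r) 8 :=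
  far_ex ⟨hp, by omega⟩ ⟨by omega, by omega⟩ ⟨by omega, hr⟩
    (hx_of hv.1 (xA_enc p q r hp hpq hqr hr hne)) hv.2.1 hv.2.2 h

/-- the first two labels exchanged -/
theorem far_t {p q r : ℕ} (hp : 3 ≤ p) (hpq : p ≤ q) (hqr : q ≤ r) (hr : r ≤ 9)
    (hne : ¬ (p = 3 ∧ q = 3 ∧ r = 3)) {xv : ℕ}
    (hv : (xv : ℤ) = XA p q r + 2 ^ 50 ∧ 2 ^ 49 + 32 < xv ∧ xv + 32 ≤ 2 ^ 50 + 2 ^ 49)
    {l : List KN.Pc} (h : KN.cC q p r xv l = true) : Far q p r (xA q p r) 8 := by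
  rw [xA_swap]
  exact far_ex ⟨by omega, by omega⟩ ⟨hp, by omega⟩ ⟨by omega, hr⟩
    (hx_of hv.1 (xA_enc p q r hp hpq hqr hr hne)) hv.2.1 hv.2.2 h

end Pool.Agent.Helper94.CXF.SD
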