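import Pool.Agent.Helper94.CXF.F3
import Pool.Agent.Helper94.CXF.GR

/-!
FARL: Hermitian forms of affine families of real matrices.
-/

set_option autoImplicit false
noncomputable section
namespace Pool.Agent.Helper94.CXF.SD

open Pool.Agent.Helper86.CX renaming Hm → Hm, ev → hev
open Pool.Agent.Helper94.CXF (M9)
open Pool.Agent.Helper94.CXF
open Complex ComplexConjugate

/-- `Σ |x i|²` -/
def nr (x : Fin 3 → ℂ) : ℝ := normSq (x 0) + normSq (x 1) + normSq (x 2)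

theorem nr_nonneg (x : Fin 3 → ℂ) : 0 ≤ nr x :=
  add_nonneg (add_nonneg (normSq_nonneg _) (normSq_nonneg _)) (normSq_nonneg _)

theorem nr_pos {x : Fin 3 → ℂ} (h : x ≠ 0) : 0 < nr x := by
  rcases (nr_nonneg x).lt_or_eq with h1 | h1
  · exact h1
  · exfalso
    apply h
    have a0 := normSq_nonneg (x 0)
    have a1 := normSq_nonneg (x 1)
    have a2 := normSq_nonneg (x 2)
    have h2 : normSq (x 0) + normSq (x 1) + normSq (x 2) = 0 := h1.symm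
    have b0 : x 0 = 0 := normSq_eq_zero.1 (by linarith)
    have b1 : x 1 = 0 := normSq_eq_zero.1 (by linarith)
    have b2 : x 2 = 0 := normSq_eq_zero.1 (by linarith)
    funext i
    fin_cases i
    · exact b0
    · exact b1
    · exact b2

/-- `y* (X + i J) z` -/
def sq2 (X J : M9 ℝ) (y z : Fin 3 → ℂ) : ℂ :=
  conj (y 0) * ((X.a + J.a * I) * z 0 + (X.b + J.b * I) * z 1 + (X.c + J.c * I) * z 2) +
  conj (y 1) * ((X.d + J.d * I) * z 0 + (X.e + J.e * I) * z 1 + (X.f + J.f * I) * z 2) +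
  conj (y 2) * ((X.g + J.g * I) * z 0 + (X.h + J.h * I) * z 1 + (X.i + J.i * I) * z 2)

def ap1 (T : M9 ℝ) (x : Fin 3 → ℂ) : Fin 3 → ℂ := (toM T).mulVec x

theorem ap1_0 (T : M9 ℝ) (x : Fin 3 → ℂ) : ap1 T x 0 = T.a * x 0 + T.b * x 1 + T.c * x 2 := by
  simp [ap1, toM, Matrix.mulVec, dotProduct, Fin.sum_univ_three]
theorem ap1_1 (T : M9 ℝ) (x : Fin 3 → ℂ) : ap1 T x 1 = T.d * x 0 + T.e * x 1 + T.f * x 2 := by
  simp [ap1, toM, Matrix.mulVec, dotProduct, Fin.sum_univ_three]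
theorem ap1_2 (T : M9 ℝ) (x : Fin 3 → ℂ) : ap1 T x 2 = T.g * x 0 + T.h * x 1 + T.i * x 2 := by
  simp [ap1, toM, Matrix.mulVec, dotProduct, Fin.sum_univ_three]

theorem ap_eq (T : M9 ℝ × M9 ℝ) (e : ℂ) (x : Fin 3 → ℂ) :
    ap T e x = ap1 T.1 x + e • ap1 T.2 x := by
  rw [ap, at2, Matrix.add_mulVec, Matrix.smul_mulVec]
  rfl

theorem sq2_ap (X J A B : M9 ℝ) (x : Fin 3 → ℂ) :
    sq2 X J (ap1 A x) (ap1 B x) = sq2 (GR.tm A (GR.mm X B)) (GR.tm A (GR.mm J B)) x x := by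
  simp only [sq2, ap1_0, ap1_1, ap1_2, GR.tm, GR.mm, map_add, map_mul, conj_ofReal]
  push_cast
  ring

theorem hev_sq2 (K : Hm ℝ) (x : Fin 3 → ℂ) : hev K x = (sq2 (GR.hR K) (GR.hJ K) x x).re := by
  simp only [hev, sq2, GR.hR, GR.hJ]
  simp [normSq_apply]
  ring

/-- expansion -/
theorem hev_add (K : Hm ℝ) (e : ℂ) (y z : Fin 3 → ℂ) :
    hev K (y + e • z) = hev K y + 2 * (e * sq2 (GR.hR K) (GR.hJ K) y z).re +
      normSq e * hev K z := by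
  simp only [hev, sq2, GR.hR, GR.hJ, Pi.add_apply, Pi.smul_apply, smul_eq_mul]
  simp [normSq_apply]
  ring

/-- the form of an affine family -/
theorem hev_ap (K : Hm ℝ) (T : M9 ℝ × M9 ℝ) (e : ℂ) (x : Fin 3 → ℂ) :
    hev K (ap T e x) = (sq2 (GR.qr K T.1 T.1) (GR.qi K T.1 T.1) x x).re +
      2 * (e * sq2 (GR.qr K T.1 T.2) (GR.qi K T.1 T.2) x x).re +
      normSq e * (sq2 (GR.qr K T.2 T.2) (GR.qi K T.2 T.2) x x).re := by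
  rw [ap_eq, hev_add, sq2_ap, hev_sq2 K (ap1 T.1 x), hev_sq2 K (ap1 T.2 x), sq2_ap, sq2_ap]
  rfl

theorem hev_cA (X J : M9 ℝ) (x : Fin 3 → ℂ) : hev (GR.cA X J) x = 2 * (sq2 X J x x).re := by
  simp only [hev, sq2, GR.cA]
  simp [normSq_apply]
  ring

theorem hev_cB (X J : M9 ℝ) (x : Fin 3 → ℂ) : hev (GR.cB X J) x = 2 * (sq2 X J x x).im := by
  simp only [hev, sq2, GR.cB]
  simp [normSq_apply]
  ring

theorem hev_hm {X J : M9 ℝ} (h1 : X.b = X.d) (h2 : X.c = X.g) (h3 : X.f = X.h) (j0 : J.a = 0)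
    (j1 : J.e = 0) (j2 : J.i = 0) (h4 : J.d = -J.b) (h5 : J.g = -J.c) (h6 : J.h = -J.f)
    (x : Fin 3 → ℂ) : hev (GR.hm X J) x = (sq2 X J x x).re := by
  simp only [hev, sq2, GR.hm, ← h1, ← h2, ← h3, j0, j1, j2, h4, h5, h6]
  simp [normSq_apply]
  ring

theorem hev_hmQ (K : Hm ℝ) (T : M9 ℝ) (x : Fin 3 → ℂ) :
    hev (GR.hm (GR.qr K T T) (GR.qi K T T)) x = (sq2 (GR.qr K T T) (GR.qi K T T) x x).re := by
  apply hev_hm <;> simp only [GR.qr, GR.qi, GR.tm, GR.mm, GR.hR, GR.hJ] <;> ring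

theorem hev_P (K : Hm ℝ) (T : M9 ℝ) (x : Fin 3 → ℂ) :
    hev K (ap1 T x) = hev (GR.hm (GR.qr K T T) (GR.qi K T T)) x := by
  rw [hev_hmQ, hev_sq2 K (ap1 T x), sq2_ap]
  rfl

/-! ### linearity -/

theorem hev_smH (c : ℝ) (K : Hm ℝ) (x : Fin 3 → ℂ) : hev (GR.smH c K) x = c * hev K x := by
  simp only [hev, GR.smH]
  simp [normSq_apply]
  ring

theorem hev_adH (A B : Hm ℝ) (x : Fin 3 → ℂ) : hev (GR.adH A B) x = hev A x + hev B x := by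
  simp only [hev, GR.adH]
  simp [normSq_apply]
  ring

theorem hev_idH (c : ℝ) (x : Fin 3 → ℂ) : hev (GR.idH c) x = c * nr x := by
  simp only [hev, GR.idH, nr]
  simp
  ring

theorem hev_idB (c : ℝ) (x : Fin 3 → ℂ) :
    hev (GR.idB c) x = c * (normSq (x 1) + normSq (x 2)) := by
  simp only [hev, GR.idB]
  simp
  ring

theorem hev_z9 (x : Fin 3 → ℂ) : hev GR.z9H x = 0 := by
  simp [hev, GR.z9H]

/-! ### norms -/

theorem sq2_le (X J : M9 ℝ) (x : Fin 3 → ℂ) :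
    ‖sq2 X J x x‖ ^ 2 ≤ (GR.sqM X + GR.sqM J) * nr x ^ 2 := by
  have key : ∀ p q : ℝ, ‖((p : ℂ) + q * I)‖ ^ 2 = p * p + q * q := by
    intro p q
    rw [← normSq_eq_norm_sq, normSq_add_mul_I]
    ring
  have e1 : sq2 X J x x =
      (conj (x 0) * ((X.a + J.a * I) * x 0) + conj (x 0) * ((X.b + J.b * I) * x 1) +
        conj (x 0) * ((X.c + J.c * I) * x 2)) +
      (conj (x 1) * ((X.d + J.d * I) * x 0) + conj (x 1) * ((X.e + J.e * I) * x 1) +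
        conj (x 1) * ((X.f + J.f * I) * x 2)) +
      (conj (x 2) * ((X.g + J.g * I) * x 0) + conj (x 2) * ((X.h + J.h * I) * x 1) +
        conj (x 2) * ((X.i + J.i * I) * x 2)) := by
    rw [sq2]; ring
  have nn : ∀ (i j : Fin 3) (c : ℂ), ‖conj (x i) * (c * x j)‖ = ‖c‖ * (‖x i‖ * ‖x j‖) := by
    intro i j c
    rw [norm_mul, norm_mul, RCLike.norm_conj]
    ring
  have e2 : ‖sq2 X J x x‖ ≤
      (‖((X.a : ℂ) + J.a * I)‖ * (‖x 0‖ * ‖x 0‖) + ‖((X.b : ℂ) + J.b * I)‖ * (‖x 0‖ * ‖x 1‖) +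
        ‖((X.c : ℂ) + J.c * I)‖ * (‖x 0‖ * ‖x 2‖)) +
      (‖((X.d : ℂ) + J.d * I)‖ * (‖x 1‖ * ‖x 0‖) + ‖((X.e : ℂ) + J.e * I)‖ * (‖x 1‖ * ‖x 1‖) +
        ‖((X.f : ℂ) + J.f * I)‖ * (‖x 1‖ * ‖x 2‖)) +
      (‖((X.g : ℂ) + J.g * I)‖ * (‖x 2‖ * ‖x 0‖) + ‖((X.h : ℂ) + J.h * I)‖ * (‖x 2‖ * ‖x 1‖) +
        ‖((X.i : ℂ) + J.i * I)‖ * (‖x 2‖ * ‖x 2‖)) := by
    rw [e1]
    have t3 : ∀ a b c : ℂ, ‖a + b + c‖ ≤ ‖a‖ + ‖b‖ + ‖c‖ := fun a b c => norm_add₃_le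
    refine (t3 _ _ _).trans ?_
    have f1 := t3 (conj (x 0) * ((X.a + J.a * I) * x 0)) (conj (x 0) * ((X.b + J.b * I) * x 1))
      (conj (x 0) * ((X.c + J.c * I) * x 2))
    have f2 := t3 (conj (x 1) * ((X.d + J.d * I) * x 0)) (conj (x 1) * ((X.e + J.e * I) * x 1))
      (conj (x 1) * ((X.f + J.f * I) * x 2))
    have f3 := t3 (conj (x 2) * ((X.g + J.g * I) * x 0)) (conj (x 2) * ((X.h + J.h * I) * x 1))
      (conj (x 2) * ((X.i + J.i * I) * x 2))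
    simp only [nn] at f1 f2 f3
    linarith
  have cs := Finset.sum_mul_sq_le_sq_mul_sq (Finset.univ : Finset (Fin 9))
    (![‖((X.a : ℂ) + J.a * I)‖, ‖((X.b : ℂ) + J.b * I)‖, ‖((X.c : ℂ) + J.c * I)‖,
      ‖((X.d : ℂ) + J.d * I)‖, ‖((X.e : ℂ) + J.e * I)‖, ‖((X.f : ℂ) + J.f * I)‖,
      ‖((X.g : ℂ) + J.g * I)‖, ‖((X.h : ℂ) + J.h * I)‖, ‖((X.i : ℂ) + J.i * I)‖])
    (![‖x 0‖ * ‖x 0‖, ‖x 0‖ * ‖x 1‖, ‖x 0‖ * ‖x 2‖, ‖x 1‖ * ‖x 0‖, ‖x 1‖ * ‖x 1‖, ‖x 1‖ * ‖x 2‖,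
      ‖x 2‖ * ‖x 0‖, ‖x 2‖ * ‖x 1‖, ‖x 2‖ * ‖x 2‖])
  simp [Fin.sum_univ_succ] at cs
  simp only [key] at cs
  have e3 := pow_le_pow_left₀ (norm_nonneg _) e2 2
  have e4 : nr x = ‖x 0‖ ^ 2 + ‖x 1‖ ^ 2 + ‖x 2‖ ^ 2 := by
    simp only [nr, normSq_eq_norm_sq]
  rw [e4]
  simp only [GR.sqM]
  refine e3.trans (le_trans (le_of_eq ?_) (cs.trans (le_of_eq ?_)))
  · ring
  · ring

end Pool.Agent.Helper94.CXF.SD
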