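import Pool.Agent.C75W.Im

/-!
FARL: the critical line near infinity as a curve `e = s u (s)`, `s = |e|`, and its deviation from
chords.
-/

set_option autoImplicit false
noncomputable section
namespace Pool.Agent.Helper94.CXF.SD

open Complex

/-- a point of the curve: `e = s u` -/
structure Cv (x0 s : ℝ) (u : ℂ) : Prop where
  s0 : 0 ≤ s
  s1 : s ≤ 1 / 8
  re : u.re * (1 + s ^ 2) = x0 * s
  im : u.im ≤ 0
  nm : normSq u = 1

theorem nle2 (z : ℂ) : ‖z‖ ≤ |z.re| + |z.im| := Complex.norm_le_abs_re_add_abs_im z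

theorem Cv.norm {x0 s : ℝ} {u : ℂ} (h : Cv x0 s u) : ‖u‖ = 1 := by
  have := h.nm
  rw [normSq_eq_norm_sq] at this
  have h0 := norm_nonneg u
  nlinarith

/-- the norm of a complex number from its coordinates -/
theorem nrm_le {z : ℂ} {c : ℝ} (hc : 0 ≤ c) (h : z.re ^ 2 + z.im ^ 2 ≤ c ^ 2) : ‖z‖ ≤ c := by
  have e : ‖z‖ ^ 2 = z.re ^ 2 + z.im ^ 2 := by
    rw [← normSq_eq_norm_sq, normSq_apply]; ring
  exact abs_le_of_sq_le_sq' (by rw [e]; exact h) hc |>.2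

theorem tt4 (t : ℝ) : t * (1 - t) ≤ 1 / 4 := by nlinarith [sq_nonneg (t - 1 / 2)]

theorem sc1 {a b : ℝ} (a0 : 0 ≤ a) (a1 : a ≤ 1 / 8) (b0 : 0 ≤ b) (b1 : b ≤ 1 / 8) :
    0 ≤ 1 - a * b := by
  have h : a * b ≤ 1 / 8 * (1 / 8) := mul_le_mul a1 b1 b0 (by norm_num)
  linarith

theorem sc2 {a b : ℝ} (a0 : 0 ≤ a) (b0 : 0 ≤ b) : 1 - a * b ≤ (1 + a ^ 2) * (1 + b ^ 2) := by
  have h1 := mul_nonneg a0 b0
  have h2 : 0 ≤ a ^ 2 * b ^ 2 := by positivity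
  have h3 := sq_nonneg a
  have h4 := sq_nonneg b
  have e : (1 + a ^ 2) * (1 + b ^ 2) = 1 + a ^ 2 + b ^ 2 + a ^ 2 * b ^ 2 := by ring
  rw [e]
  linarith

theorem sc3 {a b c : ℝ} (a0 : 0 ≤ a) (b0 : 0 ≤ b) (b1 : b ≤ 1 / 8) (c0 : 0 ≤ c)
    (c1 : c ≤ 1 / 8) : a * b * c ≤ a := by
  have h1 : a * b ≤ a := mul_le_of_le_one_right a0 (by linarith)
  exact (mul_le_of_le_one_right (mul_nonneg a0 b0) (by linarith)).trans h1

theorem sc4 (a b c : ℝ) : 1 ≤ (1 + a ^ 2) * (1 + b ^ 2) * (1 + c ^ 2) := by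
  have h1 := sq_nonneg a
  have h2 := sq_nonneg b
  have h3 := sq_nonneg c
  exact one_le_mul_of_one_le_of_one_le
    (one_le_mul_of_one_le_of_one_le (by linarith) (by linarith)) (by linarith)

section chord
variable {x0 ax s0 s1 s t : ℝ} {u0 u1 u : ℂ}

theorem Cv.X {x0 s : ℝ} {u : ℂ} (h : Cv x0 s u) : u.re = x0 * (s / (1 + s ^ 2)) := by
  have h1 : (1 + s ^ 2) ≠ 0 := by positivity
  have := h.re
  field_simp
  linarith

theorem Cv.Xle {x0 s : ℝ} {u : ℂ} (h : Cv x0 s u) (hx : |x0| ≤ ax) : |u.re| ≤ ax / 8 := by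
  rw [h.X, abs_mul]
  have h1 : |s / (1 + s ^ 2)| ≤ 1 / 8 := by
    rw [abs_of_nonneg (div_nonneg h.s0 (by positivity)), div_le_iff₀ (by positivity)]
    nlinarith [h.s0, h.s1, sq_nonneg s]
  calc |x0| * |s / (1 + s ^ 2)| ≤ ax * (1 / 8) :=
        mul_le_mul hx h1 (abs_nonneg _) ((abs_nonneg _).trans hx)
    _ = ax / 8 := by ring

/-- `-Im u ≥ 24/25` -/
theorem Cv.Y {x0 s : ℝ} {u : ℂ} (h : Cv x0 s u) (hx : |x0| ≤ ax) (ha : ax ≤ 2) :
    24 / 25 ≤ -u.im := by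
  have h1 := h.Xle hx
  have h2 := h.nm
  rw [normSq_apply] at h2
  have h3 : u.re ^ 2 ≤ (1 / 4) ^ 2 := by
    rw [← sq_abs]
    exact pow_le_pow_left₀ (abs_nonneg _) (by linarith) 2
  have h4 := h.im
  nlinarith

theorem chordU (h0 : Cv x0 s0 u0) (h1 : Cv x0 s1 u1) (h : Cv x0 s u) (hx : |x0| ≤ ax)
    (ha : ax ≤ 2) (t0 : 0 ≤ t) (t1 : t ≤ 1) (hs : s = (1 - t) * s0 + t * s1) (h01 : s0 ≤ s1) :
    ‖u1 - u0‖ ≤ 26 / 25 * (ax * (s1 - s0)) ∧
    ‖u - ((1 - t : ℝ) * u0 + (t : ℝ) * u1)‖ ≤ 2 / 5 * (ax * (s1 - s0) ^ 2) := by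
  have ax0 : 0 ≤ ax := (abs_nonneg _).trans hx
  have d0 : 0 ≤ s1 - s0 := sub_nonneg.2 h01
  have tt : t * (1 - t) ≤ 1 / 4 := tt4 t
  have tt0 : 0 ≤ t * (1 - t) := mul_nonneg t0 (by linarith)
  have y0 := h0.Y hx ha
  have y1 := h1.Y hx ha
  have y := h.Y hx ha
  have X0 := h0.X
  have X1 := h1.X
  have X := h.X
  have n0 := h0.nm
  have n1 := h1.nm
  have n := h.nm
  rw [normSq_apply] at n0 n1 n
  have L0 := abs_le.1 (h0.Xle hx)
  have L1 := abs_le.1 (h1.Xle hx)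
  have L := abs_le.1 (h.Xle hx)
  -- difference of the real parts
  have a1 : |u1.re - u0.re| ≤ ax * (s1 - s0) := by
    have e : u1.re - u0.re =
        x0 * ((s1 - s0) * ((1 - s0 * s1) / ((1 + s0 ^ 2) * (1 + s1 ^ 2)))) := by
      rw [X0, X1]
      field_simp
      ring
    have hq0 : 0 ≤ (1 - s0 * s1) / ((1 + s0 ^ 2) * (1 + s1 ^ 2)) := by
      apply div_nonneg
      · exact sc1 h0.s0 h0.s1 h1.s0 h1.s1
      · positivity
    have hq1 : (1 - s0 * s1) / ((1 + s0 ^ 2) * (1 + s1 ^ 2)) ≤ 1 := by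
      rw [div_le_one (by positivity)]
      exact sc2 h0.s0 h1.s0
    rw [e, abs_mul, abs_of_nonneg (mul_nonneg d0 hq0)]
    exact mul_le_mul hx (mul_le_of_le_one_right d0 hq1) (mul_nonneg d0 hq0) ax0
  -- difference of the imaginary parts
  have a2 : |u1.im - u0.im| ≤ 25 / 96 * (ax * (s1 - s0)) := by
    have e : (u1.im - u0.im) * (-u1.im + -u0.im) = (u1.re - u0.re) * (u1.re + u0.re) := by
      linear_combination n0 - n1
    have e1 : |u1.im - u0.im| * (48 / 25) ≤ |u1.re - u0.re| * |u1.re + u0.re| := by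
      rw [← abs_mul, ← e, abs_mul]
      refine mul_le_mul_of_nonneg_left ?_ (abs_nonneg _)
      rw [abs_of_nonneg (by linarith)]
      linarith
    have e2 : |u1.re + u0.re| ≤ 1 / 2 := abs_le.2 ⟨by linarith, by linarith⟩
    have e3 : |u1.re - u0.re| * |u1.re + u0.re| ≤ ax * (s1 - s0) * (1 / 2) :=
      mul_le_mul a1 e2 (abs_nonneg _) (mul_nonneg ax0 d0)
    linarith
  have p0 : 0 ≤ ax * (s1 - s0) := mul_nonneg ax0 d0
  have b1 : (u1.re - u0.re) ^ 2 ≤ (ax * (s1 - s0)) ^ 2 := by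
    rw [← sq_abs]
    exact pow_le_pow_left₀ (abs_nonneg _) a1 2
  have b2 : (u1.im - u0.im) ^ 2 ≤ (25 / 96 * (ax * (s1 - s0))) ^ 2 := by
    rw [← sq_abs]
    exact pow_le_pow_left₀ (abs_nonneg _) a2 2
  have b3 : (u1.re - u0.re) ^ 2 + (u1.im - u0.im) ^ 2 ≤ 107 / 100 * (ax * (s1 - s0)) ^ 2 := by
    have q := sq_nonneg (ax * (s1 - s0))
    rw [mul_pow] at b2
    linarith
  refine ⟨nrm_le (by positivity) ?_, ?_⟩
  · rw [sub_re, sub_im, mul_pow]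
    have q := sq_nonneg (ax * (s1 - s0))
    linarith
  -- the chord
  have c1 : |u.re - ((1 - t) * u0.re + t * u1.re)| ≤ 3 / 32 * (ax * (s1 - s0) ^ 2) := by
    have e : u.re - ((1 - t) * u0.re + t * u1.re) =
        x0 * ((t * (1 - t)) * (s1 - s0) ^ 2 * ((s0 + s + s1 - s0 * s * s1) /
          ((1 + s0 ^ 2) * (1 + s ^ 2) * (1 + s1 ^ 2)))) := by
      rw [X0, X1, X, hs]
      have : (1 + ((1 - t) * s0 + t * s1) ^ 2) ≠ 0 := by positivity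
      field_simp
      ring
    have m0 : 0 ≤ s0 * s * s1 := mul_nonneg (mul_nonneg h0.s0 h.s0) h1.s0
    have m1 : s0 * s * s1 ≤ s0 := sc3 h0.s0 h.s0 h.s1 h1.s0 h1.s1
    have hq0 : 0 ≤ (s0 + s + s1 - s0 * s * s1) /
          ((1 + s0 ^ 2) * (1 + s ^ 2) * (1 + s1 ^ 2)) := by
      apply div_nonneg
      · linarith [h.s0, h1.s0]
      · positivity
    have hq1 : (s0 + s + s1 - s0 * s * s1) /
          ((1 + s0 ^ 2) * (1 + s ^ 2) * (1 + s1 ^ 2)) ≤ 3 / 8 := by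
      rw [div_le_iff₀ (by positivity)]
      have w2 := sc4 s0 s s1
      linarith [h0.s1, h.s1, h1.s1]
    have hz0 : 0 ≤ (t * (1 - t)) * (s1 - s0) ^ 2 := mul_nonneg tt0 (sq_nonneg _)
    rw [e, abs_mul, abs_of_nonneg (mul_nonneg hz0 hq0)]
    have hz : (t * (1 - t)) * (s1 - s0) ^ 2 * ((s0 + s + s1 - s0 * s * s1) /
          ((1 + s0 ^ 2) * (1 + s ^ 2) * (1 + s1 ^ 2))) ≤ (1 / 4 * (s1 - s0) ^ 2) * (3 / 8) :=
      mul_le_mul (mul_le_mul_of_nonneg_right tt (sq_nonneg _)) hq1 hq0 (by positivity)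
    have := mul_le_mul hx hz (mul_nonneg hz0 hq0) ax0
    linarith
  have p2 : 0 ≤ ax * (s1 - s0) ^ 2 := mul_nonneg ax0 (sq_nonneg _)
  have c2 : |u.im - ((1 - t) * u0.im + t * u1.im)| ≤ 49 / 160 * (ax * (s1 - s0) ^ 2) := by
    have e : (u.im - ((1 - t) * u0.im + t * u1.im)) * (u.im + ((1 - t) * u0.im + t * u1.im)) =
        -(u.re - ((1 - t) * u0.re + t * u1.re)) * (u.re + ((1 - t) * u0.re + t * u1.re)) +
          t * (1 - t) * ((u1.re - u0.re) ^ 2 + (u1.im - u0.im) ^ 2) := by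
      have e1 : u.im * u.im = 1 - u.re * u.re := by linarith
      have e2 : u0.im * u0.im = 1 - u0.re * u0.re := by linarith
      have e3 : u1.im * u1.im = 1 - u1.re * u1.re := by linarith
      linear_combination e1 - (1 - t) * e2 - t * e3
    have g1 : |u.re + ((1 - t) * u0.re + t * u1.re)| ≤ ax / 4 := by
      have q0 := mul_le_mul_of_nonneg_left L0.1 (sub_nonneg.2 t1)
      have q1 := mul_le_mul_of_nonneg_left L1.1 t0
      have q2 := mul_le_mul_of_nonneg_left L0.2 (sub_nonneg.2 t1)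
      have q3 := mul_le_mul_of_nonneg_left L1.2 t0
      exact abs_le.2 ⟨by linarith [L.1], by linarith [L.2]⟩
    have g2 : |(u.im - ((1 - t) * u0.im + t * u1.im)) *
        (u.im + ((1 - t) * u0.im + t * u1.im))| ≤
        3 / 32 * (ax * (s1 - s0) ^ 2) * (ax / 4) + 1 / 4 * (107 / 100 * (ax * (s1 - s0)) ^ 2) := by
      rw [e]
      refine (abs_add_le _ _).trans (add_le_add ?_ ?_)
      · rw [abs_mul, abs_neg]
        exact mul_le_mul c1 g1 (abs_nonneg _) (by positivity)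
      · rw [abs_of_nonneg (mul_nonneg tt0 (by positivity))]
        exact mul_le_mul tt b3 (by positivity) (by norm_num)
    have g3 : 48 / 25 ≤ |u.im + ((1 - t) * u0.im + t * u1.im)| := by
      have q0 := mul_le_mul_of_nonneg_left y0 (sub_nonneg.2 t1)
      have q1 := mul_le_mul_of_nonneg_left y1 t0
      rw [abs_of_nonpos]
      · linarith
      · linarith
    have g4 : |u.im - ((1 - t) * u0.im + t * u1.im)| * (48 / 25) ≤
        3 / 32 * (ax * (s1 - s0) ^ 2) * (ax / 4) + 1 / 4 * (107 / 100 * (ax * (s1 - s0)) ^ 2) := by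
      refine le_trans ?_ g2
      rw [abs_mul]
      exact mul_le_mul_of_nonneg_left g3 (abs_nonneg _)
    have g5 : 3 / 32 * (ax * (s1 - s0) ^ 2) * (ax / 4) + 1 / 4 * (107 / 100 * (ax * (s1 - s0)) ^ 2)
        = (3 / 128 + 107 / 400) * ax * (ax * (s1 - s0) ^ 2) := by ring
    rw [g5] at g4
    have g6 := mul_le_mul_of_nonneg_right ha p2
    linarith
  refine (nle2 _).trans ?_
  have r1 : (u - ((1 - t : ℝ) * u0 + (t : ℝ) * u1)).re = u.re - ((1 - t) * u0.re + t * u1.re) := by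
    simp
  have r2 : (u - ((1 - t : ℝ) * u0 + (t : ℝ) * u1)).im = u.im - ((1 - t) * u0.im + t * u1.im) := by
    simp
  rw [r1, r2]
  linarith

theorem chordE (h0 : Cv x0 s0 u0) (h1 : Cv x0 s1 u1) (h : Cv x0 s u) (hx : |x0| ≤ ax)
    (ha : ax ≤ 2) (t0 : 0 ≤ t) (t1 : t ≤ 1) (hs : s = (1 - t) * s0 + t * s1) (h01 : s0 ≤ s1) :
    ‖s * u - ((1 - t : ℝ) * (s0 * u0) + (t : ℝ) * (s1 * u1))‖ ≤
      73 / 200 * (ax * (s1 - s0) ^ 2) := by
  obtain ⟨c1, c2⟩ := chordU h0 h1 h hx ha t0 t1 hs h01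
  have ax0 : 0 ≤ ax := (abs_nonneg _).trans hx
  have d0 : 0 ≤ s1 - s0 := sub_nonneg.2 h01
  have tt : t * (1 - t) ≤ 1 / 4 := tt4 t
  have tt0 : 0 ≤ t * (1 - t) := mul_nonneg t0 (by linarith)
  have e : (s : ℂ) * u - ((1 - t : ℝ) * (s0 * u0) + (t : ℝ) * (s1 * u1)) =
      (s : ℂ) * (u - ((1 - t : ℝ) * u0 + (t : ℝ) * u1)) -
        ((t * (1 - t) * (s1 - s0) : ℝ) : ℂ) * (u1 - u0) := by
    rw [hs]; push_cast; ring
  rw [e]
  refine (norm_sub_le _ _).trans ?_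
  rw [norm_mul, norm_mul, Complex.norm_real, Complex.norm_real, Real.norm_eq_abs,
    Real.norm_eq_abs, abs_of_nonneg h.s0, abs_of_nonneg (mul_nonneg tt0 d0)]
  have k1 : s * ‖u - ((1 - t : ℝ) * u0 + (t : ℝ) * u1)‖ ≤
      1 / 8 * (2 / 5 * (ax * (s1 - s0) ^ 2)) :=
    mul_le_mul h.s1 c2 (norm_nonneg _) (by norm_num)
  have k2 : t * (1 - t) * (s1 - s0) * ‖u1 - u0‖ ≤
      1 / 4 * (s1 - s0) * (26 / 25 * (ax * (s1 - s0))) :=
    mul_le_mul (mul_le_mul_of_nonneg_right tt d0) c1 (norm_nonneg _) (by positivity)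
  have p2 : 0 ≤ ax * (s1 - s0) ^ 2 := mul_nonneg ax0 (sq_nonneg _)
  linarith

theorem chordG (h0 : Cv x0 s0 u0) (h1 : Cv x0 s1 u1) (h : Cv x0 s u) (hx : |x0| ≤ ax)
    (ha : ax ≤ 2) (t0 : 0 ≤ t) (t1 : t ≤ 1) (hs : s = (1 - t) * s0 + t * s1) (h01 : s0 ≤ s1) :
    ‖s * (s * u) - ((1 - t : ℝ) * (s0 * (s0 * u0)) + (t : ℝ) * (s1 * (s1 * u1)))‖ ≤
      (1 / 4 + ax / 10) * (s1 - s0) ^ 2 := by
  obtain ⟨c1, _⟩ := chordU h0 h1 h hx ha t0 t1 hs h01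
  have c3 := chordE h0 h1 h hx ha t0 t1 hs h01
  have ax0 : 0 ≤ ax := (abs_nonneg _).trans hx
  have d0 : 0 ≤ s1 - s0 := sub_nonneg.2 h01
  have tt : t * (1 - t) ≤ 1 / 4 := tt4 t
  have tt0 : 0 ≤ t * (1 - t) := mul_nonneg t0 (by linarith)
  have e : (s : ℂ) * (s * u) - ((1 - t : ℝ) * (s0 * (s0 * u0)) + (t : ℝ) * (s1 * (s1 * u1))) =
      (s : ℂ) * (s * u - ((1 - t : ℝ) * (s0 * u0) + (t : ℝ) * (s1 * u1))) -
        ((t * (1 - t) * (s1 - s0) : ℝ) : ℂ) * (s1 * u1 - s0 * u0) := by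
    rw [hs]; push_cast; ring
  rw [e]
  refine (norm_sub_le _ _).trans ?_
  rw [norm_mul, norm_mul, Complex.norm_real, Complex.norm_real, Real.norm_eq_abs,
    Real.norm_eq_abs, abs_of_nonneg h.s0, abs_of_nonneg (mul_nonneg tt0 d0)]
  have k3 : ‖(s1 : ℂ) * u1 - s0 * u0‖ ≤ (s1 - s0) * (1 + 13 / 100 * ax) := by
    have e1 : (s1 : ℂ) * u1 - s0 * u0 = ((s1 - s0 : ℝ) : ℂ) * u1 + (s0 : ℂ) * (u1 - u0) := by
      push_cast; ring
    rw [e1]
    refine (norm_add_le _ _).trans ?_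
    rw [norm_mul, norm_mul, Complex.norm_real, Complex.norm_real, Real.norm_eq_abs,
      Real.norm_eq_abs, abs_of_nonneg h0.s0, abs_of_nonneg d0, h1.norm]
    have : s0 * ‖u1 - u0‖ ≤ 1 / 8 * (26 / 25 * (ax * (s1 - s0))) :=
      mul_le_mul h0.s1 c1 (norm_nonneg _) (by norm_num)
    linarith
  have k1 : s * ‖s * u - ((1 - t : ℝ) * (s0 * u0) + (t : ℝ) * (s1 * u1))‖ ≤
      1 / 8 * (73 / 200 * (ax * (s1 - s0) ^ 2)) :=
    mul_le_mul h.s1 c3 (norm_nonneg _) (by norm_num)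
  have k2 : t * (1 - t) * (s1 - s0) * ‖(s1 : ℂ) * u1 - s0 * u0‖ ≤
      1 / 4 * (s1 - s0) * ((s1 - s0) * (1 + 13 / 100 * ax)) :=
    mul_le_mul (mul_le_mul_of_nonneg_right tt d0) k3 (norm_nonneg _) (by positivity)
  have p2 : 0 ≤ ax * (s1 - s0) ^ 2 := mul_nonneg ax0 (sq_nonneg _)
  linarith

end chord

/-- the curve from `e` -/
theorem cv_of {x0 y : ℝ} {e : ℂ} (hy : 8 ≤ y) (h0 : e ≠ 0) (h1 : ‖e‖ ≤ 1) (him : e.im ≤ 0)
    (h : e⁻¹ + e = (x0 : ℂ) + (y : ℂ) * I) : Cv x0 ‖e‖ (e / ‖e‖) ∧ e = ‖e‖ * (e / ‖e‖) := by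
  have n0 : 0 < ‖e‖ := norm_pos_iff.2 h0
  have nc : (‖e‖ : ℂ) ≠ 0 := by exact_mod_cast n0.ne'
  have hinv : e⁻¹ = (starRingEnd ℂ) e / (‖e‖ ^ 2 : ℝ) := by
    rw [Complex.inv_def, normSq_eq_norm_sq]
    push_cast
    rw [div_eq_mul_inv]
  have hre := congrArg Complex.re h
  have him2 := congrArg Complex.im h
  rw [hinv] at hre him2
  simp only [add_re, add_im, div_ofReal_re, div_ofReal_im, conj_re, conj_im, ofReal_re, ofReal_im,
    mul_re, mul_im, I_re, I_im] at hre him2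
  have hre' : e.re * (1 + ‖e‖ ^ 2) = x0 * ‖e‖ ^ 2 := by
    have : e.re / ‖e‖ ^ 2 + e.re = x0 := by linarith
    field_simp at this
    linarith
  have him' : -e.im * (1 - ‖e‖ ^ 2) = y * ‖e‖ ^ 2 := by
    have : -e.im / ‖e‖ ^ 2 + e.im = y := by linarith
    field_simp at this
    linarith
  have hs : ‖e‖ ≤ 1 / 8 := by
    have a1 : -e.im ≤ ‖e‖ := (neg_le_abs _).trans (Complex.abs_im_le_norm e)
    have a2 : 0 ≤ 1 - ‖e‖ ^ 2 := by nlinarith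
    have a3 : y * ‖e‖ ^ 2 ≤ ‖e‖ * (1 - ‖e‖ ^ 2) := by
      rw [← him']
      exact mul_le_mul_of_nonneg_right a1 a2
    have a4 : y * ‖e‖ ≤ 1 - ‖e‖ ^ 2 := by
      have : (y * ‖e‖) * ‖e‖ ≤ (1 - ‖e‖ ^ 2) * ‖e‖ := by nlinarith
      exact le_of_mul_le_mul_right this n0
    nlinarith
  refine ⟨⟨n0.le, hs, ?_, ?_, ?_⟩, ?_⟩
  · rw [div_ofReal_re]
    field_simp
    linarith
  · rw [div_ofReal_im]
    exact div_nonpos_of_nonpos_of_nonneg him n0.le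
  · rw [normSq_div, normSq_ofReal, normSq_eq_norm_sq]
    field_simp
  · field_simp

/-- the point at infinity -/
theorem cv_zero (x0 : ℝ) : Cv x0 0 (-I) :=
  ⟨le_rfl, by norm_num, by simp, by simp, by simp⟩

end Pool.Agent.Helper94.CXF.SD
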