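import Pool.Agent.Helper94.CXF.S2
import Pool.Agent.Helper94.CXF.S3
import Pool.Agent.Helper94.CXF.KN

/-!
FARL: the value on a chord from the values at the nodes.
-/

set_option autoImplicit false
noncomputable section
namespace Pool.Agent.Helper94.CXF.SD

open Pool.Agent.Helper94.CXF
open Complex

/-- `2 ^ 40 u` at a node, approximately -/
def Zu (k : KN.Nd) : ℂ := (((k.X : ℝ) - 2 ^ 42 : ℝ) : ℂ) - (((k.Y : ℝ)) : ℂ) * I

/-- a true node -/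
structure NdR (x0 : ℝ) (k : KN.Nd) (u : ℂ) : Prop where
  cv : Cv x0 ((k.i : ℝ) / 2048) u
  near : ‖2 ^ 40 * u - Zu k‖ ≤ 8

theorem cpart {w w0 w1 W0 W1 q : ℂ} {D δ n dd t : ℝ} (t0 : 0 ≤ t) (t1 : t ≤ 1)
    (h : ‖w - ((1 - t : ℝ) * w0 + (t : ℝ) * w1)‖ ≤ D) (h0 : ‖2 ^ 62 * w0 - W0‖ ≤ δ)
    (h1 : ‖2 ^ 62 * w1 - W1‖ ≤ δ) (hq : 2 * ‖q‖ ≤ n) (hd : 2 ^ 62 * D + δ ≤ dd) :
    (1 - t) * (2 * (W0 * q).re) + t * (2 * (W1 * q).re) - dd * n ≤ 2 ^ 62 * (2 * (w * q).re) := by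
  set z : ℂ := 2 ^ 62 * w - ((1 - t : ℝ) * W0 + (t : ℝ) * W1) with hz
  have e : 2 ^ 62 * (2 * (w * q).re) - ((1 - t) * (2 * (W0 * q).re) + t * (2 * (W1 * q).re)) =
      2 * (z * q).re := by
    have e1 : (2 ^ 62 * (w * q)).re = 2 ^ 62 * (w * q).re := by
      have : ((2 : ℂ) ^ 62) = ((2 ^ 62 : ℝ) : ℂ) := by push_cast; rfl
      rw [this, re_ofReal_mul]
    have e2 : (((1 - t : ℝ) : ℂ) * (W0 * q)).re = (1 - t) * (W0 * q).re := re_ofReal_mul _ _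
    have e3 : (((t : ℝ) : ℂ) * (W1 * q)).re = t * (W1 * q).re := re_ofReal_mul _ _
    have e4 : z * q = 2 ^ 62 * (w * q) - ((1 - t : ℝ) * (W0 * q) + (t : ℝ) * (W1 * q)) := by
      rw [hz]; ring
    rw [e4, sub_re, add_re, e1, e2, e3]
    ring
  have hn : ‖z‖ ≤ dd := by
    have e5 : z = 2 ^ 62 * (w - ((1 - t : ℝ) * w0 + (t : ℝ) * w1)) +
        ((1 - t : ℝ) * (2 ^ 62 * w0 - W0) + (t : ℝ) * (2 ^ 62 * w1 - W1)) := by
      rw [hz]; ring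
    rw [e5]
    refine (norm_add_le _ _).trans ?_
    have a1 : ‖(2 : ℂ) ^ 62 * (w - ((1 - t : ℝ) * w0 + (t : ℝ) * w1))‖ ≤ 2 ^ 62 * D := by
      rw [norm_mul, norm_pow]
      simp only [Complex.norm_ofNat]
      exact mul_le_mul_of_nonneg_left h (by positivity)
    have a2 : ‖((1 - t : ℝ) : ℂ) * (2 ^ 62 * w0 - W0) + (t : ℝ) * (2 ^ 62 * w1 - W1)‖ ≤ δ := by
      refine (norm_add_le _ _).trans ?_
      rw [norm_mul, norm_mul, Complex.norm_real, Complex.norm_real, Real.norm_eq_abs,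
        Real.norm_eq_abs, abs_of_nonneg t0, abs_of_nonneg (sub_nonneg.2 t1)]
      have b0 := mul_le_mul_of_nonneg_left h0 (sub_nonneg.2 t1)
      have b1 := mul_le_mul_of_nonneg_left h1 t0
      linarith
    linarith
  have h2 : -(dd * n) ≤ 2 * (z * q).re := by
    have a1 : |(z * q).re| ≤ ‖z * q‖ := Complex.abs_re_le_norm _
    rw [norm_mul] at a1
    have a2 : ‖z‖ * (2 * ‖q‖) ≤ dd * n :=
      mul_le_mul hn hq (by positivity) ((norm_nonneg _).trans hn)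
    have a3 := neg_abs_le (z * q).re
    linarith
  linarith

/-- the value at a point -/
def Vv (s : ℝ) (u : ℂ) (c1 cs c2 c3 : ℝ) (qu qe qg : ℂ) : ℝ :=
  c1 + s * cs + s ^ 2 * c2 + s ^ 3 * c3 + 2 * (u * qu).re + 2 * ((s * u) * qe).re +
    2 * ((s * (s * u)) * qg).re

/-- the value at a node, times `2 ^ 62` -/
def Vn (k : KN.Nd) (c1 cs c2 c3 : ℝ) (qu qe qg : ℂ) : ℝ :=
  2 ^ 62 * c1 + (k.i * 2 ^ 51) * cs + (k.i ^ 2 * 2 ^ 40) * c2 + (k.i ^ 3 * 2 ^ 29) * c3 +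
    2 * ((2 ^ 22 * Zu k) * qu).re + 2 * ((k.i * 2 ^ 11 * Zu k) * qe).re +
    2 * ((k.i ^ 2 * Zu k) * qg).re

theorem chordV {x0 s t : ℝ} {k0 k1 : KN.Nd} {u0 u1 u : ℂ} {x : ℕ} (h0 : NdR x0 k0 u0)
    (h1 : NdR x0 k1 u1) (h : Cv x0 s u) (hx : |x0| ≤ (x : ℝ) / 2 ^ 16) (hx2 : x ≤ 2 ^ 17)
    (t0 : 0 ≤ t) (t1 : t ≤ 1) (hs : s = (1 - t) * ((k0.i : ℝ) / 2048) + t * ((k1.i : ℝ) / 2048))
    (h01 : k0.i ≤ k1.i) {c1 cs c2 c3 : ℝ} {qu qe qg : ℂ} {nu ne ng m2 m3 : ℝ}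
    (gu : 2 * ‖qu‖ ≤ nu) (ge : 2 * ‖qe‖ ≤ ne) (gg : 2 * ‖qg‖ ≤ ng) (g2 : |c2| ≤ m2)
    (g3 : |c3| ≤ m3) :
    (1 - t) * Vn k0 c1 cs c2 c3 qu qe qg + t * Vn k1 c1 cs c2 c3 qu qe qg -
      ((KN.dU x (k1.i - k0.i) : ℝ) * nu + (KN.dE x (k1.i - k0.i) : ℝ) * ne +
        (KN.dG x (k1.i - k0.i) : ℝ) * ng + (KN.dS (k1.i - k0.i) : ℝ) * m2 +
        (KN.dC (k1.i - k0.i) : ℝ) * m3) ≤ 2 ^ 62 * Vv s u c1 cs c2 c3 qu qe qg := by
  have hax : (x : ℝ) / 2 ^ 16 ≤ 2 := by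
    rw [div_le_iff₀ (by positivity)]
    have : (x : ℝ) ≤ 2 ^ 17 := by exact_mod_cast hx2
    linarith
  have hle : (k0.i : ℝ) / 2048 ≤ (k1.i : ℝ) / 2048 := by
    have : (k0.i : ℝ) ≤ k1.i := by exact_mod_cast h01
    linarith
  obtain ⟨_, dU⟩ := chordU h0.cv h1.cv h hx hax t0 t1 hs hle
  have dE := chordE h0.cv h1.cv h hx hax t0 t1 hs hle
  have dG := chordG h0.cv h1.cv h hx hax t0 t1 hs hle
  have hd : ((k1.i - k0.i : ℕ) : ℝ) = (k1.i : ℝ) - k0.i := by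
    rw [Nat.cast_sub h01]
  set d : ℝ := (k1.i : ℝ) - k0.i with hdd
  have d0 : 0 ≤ d := by
    have : (k0.i : ℝ) ≤ k1.i := by exact_mod_cast h01
    linarith
  have hD : (k1.i : ℝ) / 2048 - (k0.i : ℝ) / 2048 = d / 2048 := by rw [hdd]; ring
  rw [hD] at dU dE dG
  have x0' : (0 : ℝ) ≤ x := by positivity
  -- errors of the nodes
  have i0 : (k0.i : ℝ) ≤ 256 := by
    have := h0.cv.s1
    linarith
  have i1 : (k1.i : ℝ) ≤ 256 := by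
    have := h1.cv.s1
    linarith
  have nodeU : ∀ (k : KN.Nd) (v : ℂ), NdR x0 k v → ‖2 ^ 62 * v - 2 ^ 22 * Zu k‖ ≤ 2 ^ 25 := by
    intro k v hk
    have e : (2 : ℂ) ^ 62 * v - 2 ^ 22 * Zu k = 2 ^ 22 * (2 ^ 40 * v - Zu k) := by ring
    rw [e, norm_mul, norm_pow]
    simp only [Complex.norm_ofNat]
    have := mul_le_mul_of_nonneg_left hk.near (show (0 : ℝ) ≤ 2 ^ 22 by positivity)
    linarith
  have nodeE : ∀ (k : KN.Nd) (v : ℂ), NdR x0 k v → (k.i : ℝ) ≤ 256 →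
      ‖2 ^ 62 * ((((k.i : ℝ) / 2048 : ℝ) : ℂ) * v) - (k.i * 2 ^ 11 * Zu k)‖ ≤ 2 ^ 22 := by
    intro k v hk hi
    have e : (2 : ℂ) ^ 62 * ((((k.i : ℝ) / 2048 : ℝ) : ℂ) * v) - (k.i * 2 ^ 11 * Zu k) =
        ((k.i * 2 ^ 11 : ℝ) : ℂ) * (2 ^ 40 * v - Zu k) := by
      push_cast; ring
    rw [e, norm_mul, Complex.norm_real, Real.norm_eq_abs, abs_of_nonneg (by positivity)]
    have a1 : (k.i : ℝ) * 2 ^ 11 ≤ 256 * 2 ^ 11 := mul_le_mul_of_nonneg_right hi (by positivity)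
    have := mul_le_mul a1 hk.near (norm_nonneg _) (by positivity)
    linarith
  have nodeG : ∀ (k : KN.Nd) (v : ℂ), NdR x0 k v → (k.i : ℝ) ≤ 256 →
      ‖2 ^ 62 * ((((k.i : ℝ) / 2048 : ℝ) : ℂ) * ((((k.i : ℝ) / 2048 : ℝ) : ℂ) * v)) -
        (k.i ^ 2 * Zu k)‖ ≤ 2 ^ 22 := by
    intro k v hk hi
    have e : (2 : ℂ) ^ 62 * ((((k.i : ℝ) / 2048 : ℝ) : ℂ) * ((((k.i : ℝ) / 2048 : ℝ) : ℂ) * v)) -
        (k.i ^ 2 * Zu k) = ((k.i ^ 2 : ℝ) : ℂ) * (2 ^ 40 * v - Zu k) := by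
      push_cast; ring
    rw [e, norm_mul, Complex.norm_real, Real.norm_eq_abs, abs_of_nonneg (by positivity)]
    have a1 : (k.i : ℝ) ^ 2 ≤ 256 ^ 2 := pow_le_pow_left₀ (by positivity) hi 2
    have := mul_le_mul a1 hk.near (norm_nonneg _) (by positivity)
    linarith
  have nu0 : 0 ≤ nu := le_trans (by positivity) gu
  have ne0 : 0 ≤ ne := le_trans (by positivity) ge
  have ng0 : 0 ≤ ng := le_trans (by positivity) gg
  have PU := cpart (dd := (KN.dU x (k1.i - k0.i) : ℝ)) t0 t1 dU (nodeU k0 u0 h0) (nodeU k1 u1 h1) gu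
    (by
      have e : ((KN.dU x (k1.i - k0.i) : ℕ) : ℝ) = (x * (d * d)) * 6717440 + 67108864 := by
        rw [← hd]; simp [KN.dU]
      rw [e]
      have : 0 ≤ (x : ℝ) * (d * d) := by positivity
      linarith)
  have PE := cpart (dd := (KN.dE x (k1.i - k0.i) : ℝ)) t0 t1 dE (nodeE k0 u0 h0 i0)
    (nodeE k1 u1 h1 i1) ge
    (by
      have e : ((KN.dE x (k1.i - k0.i) : ℕ) : ℝ) = (x * (d * d)) * 6127616 + 16777216 := by
        rw [← hd]; simp [KN.dE]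
      rw [e]
      have : 0 ≤ (x : ℝ) * (d * d) := by positivity
      linarith)
  have PG := cpart (dd := (KN.dG x (k1.i - k0.i) : ℝ)) t0 t1 dG (nodeG k0 u0 h0 i0)
    (nodeG k1 u1 h1 i1) gg
    (by
      have e : ((KN.dG x (k1.i - k0.i) : ℕ) : ℝ) =
          (d * d) * (274877906944 + x * 1687552) + 16777216 := by
        rw [← hd]; simp [KN.dG]
      rw [e]
      have : 0 ≤ (x : ℝ) * (d * d) := by positivity
      linarith)
  -- powers of `s`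
  have tt : t * (1 - t) ≤ 1 / 4 := tt4 t
  have tt0 : 0 ≤ t * (1 - t) := mul_nonneg t0 (by linarith)
  have P2 : (1 - t) * ((k0.i ^ 2 * 2 ^ 40) * c2) + t * ((k1.i ^ 2 * 2 ^ 40) * c2) -
      (KN.dS (k1.i - k0.i) : ℝ) * m2 ≤ 2 ^ 62 * (s ^ 2 * c2) := by
    have e : 2 ^ 62 * (s ^ 2 * c2) - ((1 - t) * ((k0.i ^ 2 * 2 ^ 40) * c2) +
        t * ((k1.i ^ 2 * 2 ^ 40) * c2)) = -(2 ^ 40 * (t * (1 - t) * (d * d)) * c2) := by
      rw [hs, hdd]; ring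
    have e2 : ((KN.dS (k1.i - k0.i) : ℕ) : ℝ) = (d * d) * 274877906944 := by
      rw [← hd]; simp [KN.dS]
    rw [e2]
    have a1 : |2 ^ 40 * (t * (1 - t) * (d * d)) * c2| ≤ (d * d) * 274877906944 * m2 := by
      rw [abs_mul, abs_of_nonneg (by positivity)]
      refine mul_le_mul ?_ g2 (abs_nonneg _) (by positivity)
      have := mul_le_mul_of_nonneg_right tt (mul_nonneg d0 d0)
      linarith
    have a2 := le_abs_self (2 ^ 40 * (t * (1 - t) * (d * d)) * c2)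
    linarith
  have P3 : (1 - t) * ((k0.i ^ 3 * 2 ^ 29) * c3) + t * ((k1.i ^ 3 * 2 ^ 29) * c3) -
      (KN.dC (k1.i - k0.i) : ℝ) * m3 ≤ 2 ^ 62 * (s ^ 3 * c3) := by
    have e : 2 ^ 62 * (s ^ 3 * c3) - ((1 - t) * ((k0.i ^ 3 * 2 ^ 29) * c3) +
        t * ((k1.i ^ 3 * 2 ^ 29) * c3)) =
        -(2 ^ 29 * (t * (1 - t) * (d * d)) * ((2 - t) * k0.i + (1 + t) * k1.i) * c3) := by
      rw [hs, hdd]; ring
    have e2 : ((KN.dC (k1.i - k0.i) : ℕ) : ℝ) = (d * d) * 103079215104 := by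
      rw [← hd]; simp [KN.dC]
    rw [e2]
    have b0 : 0 ≤ (2 - t) * (k0.i : ℝ) + (1 + t) * k1.i :=
      add_nonneg (mul_nonneg (by linarith) (by positivity)) (by positivity)
    have b1 : (2 - t) * (k0.i : ℝ) + (1 + t) * k1.i ≤ 768 := by
      have q0 := mul_le_mul_of_nonneg_left i0 (show 0 ≤ 2 - t by linarith)
      have q1 := mul_le_mul_of_nonneg_left i1 (show 0 ≤ 1 + t by linarith)
      linarith
    have a1 : |2 ^ 29 * (t * (1 - t) * (d * d)) * ((2 - t) * k0.i + (1 + t) * k1.i) * c3| ≤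
        (d * d) * 103079215104 * m3 := by
      rw [abs_mul, abs_of_nonneg (by positivity)]
      refine mul_le_mul ?_ g3 (abs_nonneg _) (by positivity)
      have b2 : 2 ^ 29 * (t * (1 - t) * (d * d)) ≤ 2 ^ 29 * (1 / 4 * (d * d)) := by
        have := mul_le_mul_of_nonneg_right tt (mul_nonneg d0 d0)
        linarith
      have b3 := mul_le_mul b2 b1 b0 (by positivity)
      linarith
    have a2 := le_abs_self
      (2 ^ 29 * (t * (1 - t) * (d * d)) * ((2 - t) * k0.i + (1 + t) * k1.i) * c3)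
    linarith
  have P1 : (1 - t) * ((k0.i * 2 ^ 51) * cs) + t * ((k1.i * 2 ^ 51) * cs) =
      2 ^ 62 * (s * cs) := by
    rw [hs]; ring
  simp only [Vv, Vn]
  linarith

end Pool.Agent.Helper94.CXF.SD
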