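import Pool.Agent.Helper94.CXF.S1
import Pool.Agent.Helper94.CXF.S2

/-!
FARL: integer matrices as approximations of real ones.
-/

set_option autoImplicit false
noncomputable section
namespace Pool.Agent.Helper94.CXF.SD

open Pool.Agent.Helper86.CX renaming Hm → Hm, ev → hev
open Pool.Agent.Helper94.CXF (M9)
open Pool.Agent.Helper94.CXF
open Complex ComplexConjugate

structure NrM (r : ℝ) (A B : M9 ℝ) : Prop where
  a : |A.a - B.a| ≤ r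
  b : |A.b - B.b| ≤ r
  c : |A.c - B.c| ≤ r
  d : |A.d - B.d| ≤ r
  e : |A.e - B.e| ≤ r
  f : |A.f - B.f| ≤ r
  g : |A.g - B.g| ≤ r
  h : |A.h - B.h| ≤ r
  i : |A.i - B.i| ≤ r

structure BrM (r : ℝ) (A : M9 ℝ) : Prop where
  a : |A.a| ≤ r
  b : |A.b| ≤ r
  c : |A.c| ≤ r
  d : |A.d| ≤ r
  e : |A.e| ≤ r
  f : |A.f| ≤ r
  g : |A.g| ≤ r
  h : |A.h| ≤ r
  i : |A.i| ≤ r

theorem pr_near {x y x' y' a b α β : ℝ} (hx : |x| ≤ a) (hy : |y| ≤ b) (ha : |x - x'| ≤ α)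
    (hb : |y - y'| ≤ β) : |x * y - x' * y'| ≤ a * β + b * α + α * β := by
  have e : x * y - x' * y' = x * (y - y') + (x - x') * y - (x - x') * (y - y') := by ring
  rw [e]
  have h1 : |x * (y - y')| ≤ a * β := by
    rw [abs_mul]; exact mul_le_mul hx hb (abs_nonneg _) ((abs_nonneg _).trans hx)
  have h2 : |(x - x') * y| ≤ α * b := by
    rw [abs_mul]; exact mul_le_mul ha hy (abs_nonneg _) ((abs_nonneg _).trans ha)
  have h3 : |(x - x') * (y - y')| ≤ α * β := by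
    rw [abs_mul]; exact mul_le_mul ha hb (abs_nonneg _) ((abs_nonneg _).trans ha)
  have h1' := abs_le.1 h1
  have h2' := abs_le.1 h2
  have h3' := abs_le.1 h3
  exact abs_le.2 ⟨by linarith, by linarith⟩

section
variable {A A' B B' : M9 ℝ} {a b α β : ℝ}

theorem d3_near {x y x' y' z w z' w' p q p' q' : ℝ} (hx : |x| ≤ a) (hy : |y| ≤ b)
    (ha : |x - x'| ≤ α) (hb : |y - y'| ≤ β) (hz : |z| ≤ a) (hw : |w| ≤ b)
    (hc : |z - z'| ≤ α) (hd : |w - w'| ≤ β) (hp : |p| ≤ a) (hq : |q| ≤ b)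
    (he : |p - p'| ≤ α) (hf : |q - q'| ≤ β) :
    |(x * y + z * w + p * q) - (x' * y' + z' * w' + p' * q')| ≤ 3 * (a * β + b * α + α * β) := by
  have h1 := abs_le.1 (pr_near hx hy ha hb)
  have h2 := abs_le.1 (pr_near hz hw hc hd)
  have h3 := abs_le.1 (pr_near hp hq he hf)
  exact abs_le.2 ⟨by linarith, by linarith⟩

theorem mm_near (p : BrM a A) (q : BrM b B) (u : NrM α A A') (v : NrM β B B') :
    NrM (3 * (a * β + b * α + α * β)) (GR.mm A B) (GR.mm A' B') :=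
  ⟨d3_near p.a q.a u.a v.a p.b q.d u.b v.d p.c q.g u.c v.g,
   d3_near p.a q.b u.a v.b p.b q.e u.b v.e p.c q.h u.c v.h,
   d3_near p.a q.c u.a v.c p.b q.f u.b v.f p.c q.i u.c v.i,
   d3_near p.d q.a u.d v.a p.e q.d u.e v.d p.f q.g u.f v.g,
   d3_near p.d q.b u.d v.b p.e q.e u.e v.e p.f q.h u.f v.h,
   d3_near p.d q.c u.d v.c p.e q.f u.e v.f p.f q.i u.f v.i,
   d3_near p.g q.a u.g v.a p.h q.d u.h v.d p.i q.g u.i v.g,
   d3_near p.g q.b u.g v.b p.h q.e u.h v.e p.i q.h u.i v.h,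
   d3_near p.g q.c u.g v.c p.h q.f u.h v.f p.i q.i u.i v.i⟩

theorem tm_near (p : BrM a A) (q : BrM b B) (u : NrM α A A') (v : NrM β B B') :
    NrM (3 * (a * β + b * α + α * β)) (GR.tm A B) (GR.tm A' B') :=
  ⟨d3_near p.a q.a u.a v.a p.d q.d u.d v.d p.g q.g u.g v.g,
   d3_near p.a q.b u.a v.b p.d q.e u.d v.e p.g q.h u.g v.h,
   d3_near p.a q.c u.a v.c p.d q.f u.d v.f p.g q.i u.g v.i,
   d3_near p.b q.a u.b v.a p.e q.d u.e v.d p.h q.g u.h v.g,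
   d3_near p.b q.b u.b v.b p.e q.e u.e v.e p.h q.h u.h v.h,
   d3_near p.b q.c u.b v.c p.e q.f u.e v.f p.h q.i u.h v.i,
   d3_near p.c q.a u.c v.a p.f q.d u.f v.d p.i q.g u.i v.g,
   d3_near p.c q.b u.c v.b p.f q.e u.f v.e p.i q.h u.i v.h,
   d3_near p.c q.c u.c v.c p.f q.f u.f v.f p.i q.i u.i v.i⟩

theorem NrM.refl (A : M9 ℝ) : NrM 0 A A := by
  constructor <;> simp

theorem b3 {x y z x' y' z' : ℝ} (h1 : |x| ≤ a) (h2 : |x'| ≤ b) (h3 : |y| ≤ a) (h4 : |y'| ≤ b)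
    (h5 : |z| ≤ a) (h6 : |z'| ≤ b) : |x * x' + y * y' + z * z'| ≤ 3 * (a * b) := by
  have m : ∀ u v : ℝ, |u| ≤ a → |v| ≤ b → |u * v| ≤ a * b := by
    intro u v hu hv
    rw [abs_mul]
    exact mul_le_mul hu hv (abs_nonneg _) ((abs_nonneg _).trans hu)
  have h1' := abs_le.1 (m _ _ h1 h2)
  have h2' := abs_le.1 (m _ _ h3 h4)
  have h3' := abs_le.1 (m _ _ h5 h6)
  exact abs_le.2 ⟨by linarith, by linarith⟩

theorem mm_br (p : BrM a A) (q : BrM b B) : BrM (3 * (a * b)) (GR.mm A B) :=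
  ⟨b3 p.a q.a p.b q.d p.c q.g, b3 p.a q.b p.b q.e p.c q.h, b3 p.a q.c p.b q.f p.c q.i,
   b3 p.d q.a p.e q.d p.f q.g, b3 p.d q.b p.e q.e p.f q.h, b3 p.d q.c p.e q.f p.f q.i,
   b3 p.g q.a p.h q.d p.i q.g, b3 p.g q.b p.h q.e p.i q.h, b3 p.g q.c p.h q.f p.i q.i⟩

/-- `Q` with approximate factors -/
theorem q_near {k : ℝ} {H : M9 ℝ} (hH : BrM k H) (p : BrM a A) (q : BrM b B) (u : NrM α A A')
    (v : NrM β B B') :
    NrM (9 * k * (a * β + b * α + α * β)) (GR.tm A (GR.mm H B)) (GR.tm A' (GR.mm H B')) := by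
  have h := tm_near p (mm_br hH q) u (mm_near hH q (NrM.refl H) v)
  have e : 3 * (a * (3 * (k * β + b * 0 + 0 * β)) + 3 * (k * b) * α +
      α * (3 * (k * β + b * 0 + 0 * β))) = 9 * k * (a * β + b * α + α * β) := by ring
  rw [e] at h
  exact h
end

theorem sqd {x y r : ℝ} (h : |x - y| ≤ r) : (x - y) * (x - y) ≤ r * r := by
  have h1 := mul_self_le_mul_self (abs_nonneg _) h
  rwa [abs_mul_abs_self] at h1

/-- the forms -/
theorem sq2_near {X J X' J' : M9 ℝ} {r : ℝ} (hX : NrM r X X') (hJ : NrM r J J')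
    (x : Fin 3 → ℂ) : ‖sq2 X J x x - sq2 X' J' x x‖ ≤ 5 * r * nr x := by
  have r0 : 0 ≤ r := (abs_nonneg _).trans hX.a
  have e : sq2 X J x x - sq2 X' J' x x =
      sq2 ⟨X.a - X'.a, X.b - X'.b, X.c - X'.c, X.d - X'.d, X.e - X'.e, X.f - X'.f, X.g - X'.g,
        X.h - X'.h, X.i - X'.i⟩ ⟨J.a - J'.a, J.b - J'.b, J.c - J'.c, J.d - J'.d, J.e - J'.e,
        J.f - J'.f, J.g - J'.g, J.h - J'.h, J.i - J'.i⟩ x x := by
    simp only [sq2]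
    push_cast
    ring
  rw [e]
  have h := sq2_le ⟨X.a - X'.a, X.b - X'.b, X.c - X'.c, X.d - X'.d, X.e - X'.e, X.f - X'.f,
    X.g - X'.g, X.h - X'.h, X.i - X'.i⟩ ⟨J.a - J'.a, J.b - J'.b, J.c - J'.c, J.d - J'.d,
    J.e - J'.e, J.f - J'.f, J.g - J'.g, J.h - J'.h, J.i - J'.i⟩ x
  have h1 : GR.sqM (⟨X.a - X'.a, X.b - X'.b, X.c - X'.c, X.d - X'.d, X.e - X'.e, X.f - X'.f,
    X.g - X'.g, X.h - X'.h, X.i - X'.i⟩ : M9 ℝ) ≤ 9 * (r * r) := by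
    simp only [GR.sqM]
    linarith [sqd hX.a, sqd hX.b, sqd hX.c, sqd hX.d, sqd hX.e, sqd hX.f, sqd hX.g, sqd hX.h,
      sqd hX.i]
  have h2 : GR.sqM (⟨J.a - J'.a, J.b - J'.b, J.c - J'.c, J.d - J'.d,
    J.e - J'.e, J.f - J'.f, J.g - J'.g, J.h - J'.h, J.i - J'.i⟩ : M9 ℝ) ≤ 9 * (r * r) := by
    simp only [GR.sqM]
    linarith [sqd hJ.a, sqd hJ.b, sqd hJ.c, sqd hJ.d, sqd hJ.e, sqd hJ.f, sqd hJ.g, sqd hJ.h,
      sqd hJ.i]
  have h3 := mul_le_mul_of_nonneg_right (add_le_add h1 h2) (sq_nonneg (nr x))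
  have n0 := nr_nonneg x
  refine le_of_sq_le_sq ?_ (by positivity)
  refine (h.trans h3).trans ?_
  nlinarith [mul_nonneg (mul_nonneg r0 r0) (sq_nonneg (nr x))]

/-! ### casts -/

def cI : ℤ →+* ℝ := Int.castRingHom ℝ
theorem cI_apply (z : ℤ) : cI z = (z : ℝ) := rfl

def rM (Z : M9 ℤ) : M9 ℝ := GR.mpM cI Z
def rH (Z : Hm ℤ) : Hm ℝ := GR.mpH cI Z

theorem rM_br {Z : M9 ℤ} {b : ℤ} (h : BM b Z) : BrM (b : ℝ) (rM Z) := by
  have k : ∀ z : ℤ, |z| ≤ b → |cI z| ≤ (b : ℝ) := by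
    intro z hz
    rw [cI_apply, ← Int.cast_abs]
    exact_mod_cast hz
  exact ⟨k _ h.a, k _ h.b, k _ h.c, k _ h.d, k _ h.e, k _ h.f, k _ h.g, k _ h.h, k _ h.i⟩

/-- scaled real matrix -/
def smM (c : ℝ) (T : M9 ℝ) : M9 ℝ :=
  ⟨c * T.a, c * T.b, c * T.c, c * T.d, c * T.e, c * T.f, c * T.g, c * T.h, c * T.i⟩

/-- the integer matrix `Z`, represented by `N`, approximates `2 ^ 48 T` -/
structure OkT (T : M9 ℝ) (N : M9 ℕ) (Z : M9 ℤ) : Prop where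
  rep : RM N Z
  bd : BM (2 ^ 54) Z
  near : NrM 256 (rM Z) (smM (2 ^ 48) T)

theorem ap1_sm (c : ℝ) (T : M9 ℝ) (x : Fin 3 → ℂ) : ap1 (smM c T) x = (c : ℂ) • ap1 T x := by
  funext j
  fin_cases j
  · change ap1 (smM c T) x 0 = (c : ℂ) * ap1 T x 0
    rw [ap1_0, ap1_0]; simp only [smM]; push_cast; ring
  · change ap1 (smM c T) x 1 = (c : ℂ) * ap1 T x 1
    rw [ap1_1, ap1_1]; simp only [smM]; push_cast; ring
  · change ap1 (smM c T) x 2 = (c : ℂ) * ap1 T x 2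
    rw [ap1_2, ap1_2]; simp only [smM]; push_cast; ring

theorem hev_sm (K : Hm ℝ) (T : M9 ℝ × M9 ℝ) (e : ℂ) (x : Fin 3 → ℂ) :
    hev K (ap (smM (2 ^ 48) T.1, smM (2 ^ 48) T.2) e x) = 2 ^ 96 * hev K (ap T e x) := by
  rw [ap_eq, ap_eq, ap1_sm, ap1_sm, smul_comm, ← smul_add, ev_smul, Complex.norm_real]
  norm_num

/-- `|Q - Q'|` for the two matrices -/
theorem Q_near {K : Hm ℤ} {T1 T2 : M9 ℝ} {N1 N2 : M9 ℕ} {Z1 Z2 : M9 ℤ} (hK : BH (2 ^ 27) K)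
    (h1 : OkT T1 N1 Z1) (h2 : OkT T2 N2 Z2) (x : Fin 3 → ℂ) :
    ‖sq2 (GR.qr (rH K) (rM Z1) (rM Z2)) (GR.qi (rH K) (rM Z1) (rM Z2)) x x -
      sq2 (GR.qr (rH K) (smM (2 ^ 48) T1) (smM (2 ^ 48) T2))
        (GR.qi (rH K) (smM (2 ^ 48) T1) (smM (2 ^ 48) T2)) x x‖ ≤ 46 * 2 ^ 90 * nr x := by
  have b1 : BrM ((2 ^ 54 : ℤ) : ℝ) (rM Z1) := rM_br h1.bd
  have b2 : BrM ((2 ^ 54 : ℤ) : ℝ) (rM Z2) := rM_br h2.bd
  have bR : BrM ((2 ^ 27 : ℤ) : ℝ) (GR.hR (rH K)) := by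
    have := rM_br (hR_bd hK)
    rw [rM, GR.mp_hR] at this
    exact this
  have bJ : BrM ((2 ^ 27 : ℤ) : ℝ) (GR.hJ (rH K)) := by
    have := rM_br (hJ_bd hK)
    rw [rM, GR.mp_hJ] at this
    exact this
  have q1 := q_near bR b1 b2 h1.near h2.near
  have q2 := q_near bJ b1 b2 h1.near h2.near
  refine (sq2_near q1 q2 x).trans (mul_le_mul_of_nonneg_right ?_ (nr_nonneg x))
  push_cast
  norm_num

end Pool.Agent.Helper94.CXF.SD
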