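import Pool.Agent.Helper94.CXF.S4
import Pool.Agent.Helper94.CXF.S5

/-!
FARL: soundness of the main test.
-/

set_option autoImplicit false
set_option exponentiation.threshold 4000
noncomputable section
namespace Pool.Agent.Helper94.CXF.SD

open Pool.Agent.Helper86.CX renaming Hm → Hm, ev → hev
open Pool.Agent.Helper94.CXF (M9)
open Pool.Agent.Helper94.CXF
open Complex ComplexConjugate

/-- POSITIVITY -/
theorem PDz_hev {N : Hm ℤ} (h : PDz N) (x : Fin 3 → ℂ) : 0 ≤ hev (rH N) x := by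
  apply Pool.Agent.Helper86.CX.ev_nonneg
  obtain ⟨h1, h2, h3⟩ := h
  refine ⟨?_, ?_, ?_⟩
  · have : (0 : ℝ) < (N.a : ℝ) := by exact_mod_cast h1
    exact this
  · have : (0 : ℝ) < ((m22z N : ℤ) : ℝ) := by exact_mod_cast h2
    simp only [m22z] at this
    push_cast at this
    exact this
  · have : (0 : ℝ) < ((m22z N * m33z N - (m23rz N * m23rz N + m23iz N * m23iz N) : ℤ) : ℝ) := by
      exact_mod_cast h3
    simp only [m22z, m33z, m23rz, m23iz] at this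
    push_cast at this
    exact this

/-! ### norms -/

theorem ble_sound {A n : ℕ} {v : ℤ} (h : Nat.ble (Nat.mod A KN.MM) (Nat.mul n n) = true)
    (hv : Rp A v) (h0 : 0 ≤ v) (h1 : v < 2 ^ 1152) : v ≤ (n : ℤ) * n := by
  have h2 : A % KN.MM ≤ n * n := Nat.le_of_ble_eq_true h
  have h3 : ((A % KN.MM : ℕ) : ℤ) = v := hv.mod_eq MM_pos h0 (by rw [MM_eq]; exact_mod_cast h1)
  have h4 : ((A % KN.MM : ℕ) : ℤ) ≤ n * n := by exact_mod_cast h2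
  rw [h3] at h4
  exact h4

theorem sR_rep {A : M9 ℕ} {Z : M9 ℤ} (r : RM A Z) : Rp (KN.sR A)
    (Z.a * Z.a + (Z.b * Z.b + (Z.c * Z.c + (Z.d * Z.d + Z.g * Z.g)))) :=
  (r.a.mul r.a).add ((r.b.mul r.b).add ((r.c.mul r.c).add ((r.d.mul r.d).add (r.g.mul r.g))))

theorem sB_rep {A : M9 ℕ} {Z : M9 ℤ} (r : RM A Z) : Rp (KN.sB A)
    (Z.e * Z.e + (Z.f * Z.f + (Z.h * Z.h + Z.i * Z.i))) :=
  (r.e.mul r.e).add ((r.f.mul r.f).add ((r.h.mul r.h).add (r.i.mul r.i)))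

theorem sqz {z b : ℤ} (h : |z| ≤ b) : z * z ≤ b * b := by
  have h1 := mul_self_le_mul_self (abs_nonneg _) h
  rwa [abs_mul_abs_self] at h1

theorem sqM_bd {Z : M9 ℤ} {b : ℤ} (h : BM b Z) : GR.sqM Z ≤ 9 * (b * b) := by
  simp only [GR.sqM]
  linarith [sqz h.a, sqz h.b, sqz h.c, sqz h.d, sqz h.e, sqz h.f, sqz h.g, sqz h.h, sqz h.i]

theorem sqM_nonneg (Z : M9 ℤ) : 0 ≤ GR.sqM Z := by
  simp only [GR.sqM]
  linarith [mul_self_nonneg Z.a, mul_self_nonneg Z.b, mul_self_nonneg Z.c, mul_self_nonneg Z.d,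
    mul_self_nonneg Z.e, mul_self_nonneg Z.f, mul_self_nonneg Z.g, mul_self_nonneg Z.h,
    mul_self_nonneg Z.i]

section
variable {A B : M9 ℕ} {Z W : M9 ℤ} {n : ℕ}

theorem np_sound (r : RM A Z) (q : RM B W) (bz : BM (2 ^ 200) Z) (bw : BM (2 ^ 200) W)
    (h : KN.np A B n = true) : GR.sqM Z + GR.sqM W ≤ (n : ℤ) * n := by
  refine ble_sound h ?_ (add_nonneg (sqM_nonneg _) (sqM_nonneg _)) ?_
  · have h1 := ((sR_rep r).add (sB_rep r)).add ((sR_rep q).add (sB_rep q))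
    have e : GR.sqM Z + GR.sqM W =
      (Z.a * Z.a + (Z.b * Z.b + (Z.c * Z.c + (Z.d * Z.d + Z.g * Z.g)))) +
      (Z.e * Z.e + (Z.f * Z.f + (Z.h * Z.h + Z.i * Z.i))) +
      ((W.a * W.a + (W.b * W.b + (W.c * W.c + (W.d * W.d + W.g * W.g)))) +
      (W.e * W.e + (W.f * W.f + (W.h * W.h + W.i * W.i)))) := by
      simp only [GR.sqM]; ring
    rw [e]
    exact h1
  · have h1 := sqM_bd bz
    have h2 := sqM_bd bw
    have : (9 : ℤ) * (2 ^ 200 * 2 ^ 200) + 9 * (2 ^ 200 * 2 ^ 200) < 2 ^ 1152 := by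
      decide +kernel
    linarith

theorem nq_sound (r : RM A Z) (q : RM B W) (bz : BM (2 ^ 200) Z) (bw : BM (2 ^ 200) W)
    (h : KN.nq A B n = true) : 4 * (GR.sqM Z + GR.sqM W) ≤ (n : ℤ) * n := by
  have h0 := add_nonneg (sqM_nonneg Z) (sqM_nonneg W)
  refine ble_sound h ?_ (by linarith) ?_
  · have h1 := (Pool.Agent.Helper17.PAK.Rep.nat KN.MM 4).mul
      (((sR_rep r).add (sB_rep r)).add ((sR_rep q).add (sB_rep q)))
    have e : 4 * (GR.sqM Z + GR.sqM W) = ((4 : ℕ) : ℤ) * (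
      (Z.a * Z.a + (Z.b * Z.b + (Z.c * Z.c + (Z.d * Z.d + Z.g * Z.g)))) +
      (Z.e * Z.e + (Z.f * Z.f + (Z.h * Z.h + Z.i * Z.i))) +
      ((W.a * W.a + (W.b * W.b + (W.c * W.c + (W.d * W.d + W.g * W.g)))) +
      (W.e * W.e + (W.f * W.f + (W.h * W.h + W.i * W.i))))) := by
      simp only [GR.sqM]; push_cast; ring
    rw [e]
    exact h1
  · have h1 := sqM_bd bz
    have h2 := sqM_bd bw
    have : 4 * ((9 : ℤ) * (2 ^ 200 * 2 ^ 200) + 9 * (2 ^ 200 * 2 ^ 200)) < 2 ^ 1152 := by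
      decide +kernel
    linarith

end

/-- bound of the form from the squares -/
theorem sq2_bd {X J : M9 ℤ} {n : ℕ} (h : GR.sqM X + GR.sqM J ≤ (n : ℤ) * n) (x : Fin 3 → ℂ) :
    ‖sq2 (rM X) (rM J) x x‖ ≤ n * nr x := by
  have h1 := sq2_le (rM X) (rM J) x
  have h2 : GR.sqM (rM X) + GR.sqM (rM J) ≤ (n : ℝ) * n := by
    rw [rM, rM, ← GR.mp_sqM, ← GR.mp_sqM, ← map_add]
    have : ((GR.sqM X + GR.sqM J : ℤ) : ℝ) ≤ ((n : ℤ) * n : ℤ) := by exact_mod_cast h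
    simpa [cI] using this
  have n0 := nr_nonneg x
  refine le_of_sq_le_sq ?_ (by positivity)
  refine h1.trans ?_
  nlinarith [sq_nonneg (nr x)]

theorem sq2_bd4 {X J : M9 ℤ} {n : ℕ} (h : 4 * (GR.sqM X + GR.sqM J) ≤ (n : ℤ) * n)
    (x : Fin 3 → ℂ) : 2 * ‖sq2 (rM X) (rM J) x x‖ ≤ n * nr x := by
  have h1 := sq2_le (rM X) (rM J) x
  have h2 : 4 * (GR.sqM (rM X) + GR.sqM (rM J)) ≤ (n : ℝ) * n := by
    rw [rM, rM, ← GR.mp_sqM, ← GR.mp_sqM, ← map_add]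
    have : ((4 * (GR.sqM X + GR.sqM J) : ℤ) : ℝ) ≤ ((n : ℤ) * n : ℤ) := by exact_mod_cast h
    push_cast at this
    simpa [cI] using this
  have n0 := nr_nonneg x
  refine le_of_sq_le_sq ?_ (by positivity)
  have : (2 * ‖sq2 (rM X) (rM J) x x‖) ^ 2 = 4 * ‖sq2 (rM X) (rM J) x x‖ ^ 2 := by ring
  rw [this]
  nlinarith [sq_nonneg (nr x)]

/-! ### nodes -/

/-- `Re u 2 ^ 40` at a node -/
def zX (k : KN.Nd) : ℤ := (k.X : ℤ) - 2 ^ 42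

theorem rep_c42 : Rp KN.c42 (-2 ^ 42) := by
  unfold Rp Pool.Agent.Helper17.PAK.Rep Int.ModEq
  decide +kernel

theorem rp_nX (k : KN.Nd) : Rp (KN.nX k) (zX k) :=
  (Pool.Agent.Helper17.PAK.Rep.nat KN.MM k.X).add rep_c42

theorem Zu_eq (k : KN.Nd) : Zu k = ((zX k : ℝ) : ℂ) - (((k.Y : ℤ) : ℝ) : ℂ) * I := by
  rw [Zu, zX]
  push_cast
  norm_num

/-- real part of a product with `Z` -/
theorem Zu_mul (c : ℝ) (k : KN.Nd) (q : ℂ) :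
    (((c : ℂ) * Zu k) * q).re = c * (zX k * q.re + k.Y * q.im) := by
  rw [Zu_eq, mul_assoc, re_ofReal_mul]
  simp

theorem NdR.bd {x0 : ℝ} {k : KN.Nd} {u : ℂ} (h : NdR x0 k u) :
    |zX k| ≤ 2 ^ 41 ∧ |(k.Y : ℤ)| ≤ 2 ^ 41 ∧ |(k.i : ℤ)| ≤ 2 ^ 8 := by
  have hn : ‖Zu k‖ ≤ 2 ^ 40 + 8 := by
    have e : Zu k = 2 ^ 40 * u - (2 ^ 40 * u - Zu k) := by ring
    rw [e]
    refine (norm_sub_le _ _).trans (add_le_add ?_ h.near)
    rw [norm_mul, norm_pow, h.cv.norm]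
    simp
  have h1 : |(Zu k).re| ≤ 2 ^ 41 := (Complex.abs_re_le_norm _).trans (hn.trans (by norm_num))
  have h2 : |(Zu k).im| ≤ 2 ^ 41 := (Complex.abs_im_le_norm _).trans (hn.trans (by norm_num))
  have e1 : (Zu k).re = ((zX k : ℤ) : ℝ) := by
    rw [Zu_eq]; simp
  have e2 : (Zu k).im = -(((k.Y : ℤ) : ℝ)) := by
    rw [Zu_eq]; simp
  rw [e1] at h1
  rw [e2, abs_neg] at h2
  have h3 := h.cv.s1
  refine ⟨?_, ?_, ?_⟩
  · rw [← Int.cast_abs] at h1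
    exact_mod_cast h1
  · rw [← Int.cast_abs] at h2
    exact_mod_cast h2
  · have : (k.i : ℝ) ≤ 256 := by linarith
    have : k.i ≤ 256 := by exact_mod_cast this
    rw [abs_of_nonneg (by positivity)]
    exact_mod_cast this

def zer (k : KN.Nd) : ℤ := k.i * zX k * 2048
def zei (k : KN.Nd) : ℤ := k.i * k.Y * 2048
def zs2 (k : KN.Nd) : ℤ := k.i * k.i * 1099511627776

theorem rp_fer (k : KN.Nd) : Rp (KN.fer k) (zer k) :=
  ((Pool.Agent.Helper17.PAK.Rep.nat KN.MM k.i).mul (rp_nX k)).mul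
    (Pool.Agent.Helper17.PAK.Rep.nat KN.MM 2048)
theorem rp_fei (k : KN.Nd) : Rp (KN.fei k) (zei k) :=
  ((Pool.Agent.Helper17.PAK.Rep.nat KN.MM k.i).mul (Pool.Agent.Helper17.PAK.Rep.nat KN.MM k.Y)).mul
    (Pool.Agent.Helper17.PAK.Rep.nat KN.MM 2048)
theorem rp_fs2 (k : KN.Nd) : Rp (KN.fs2 k) (zs2 k) :=
  ((Pool.Agent.Helper17.PAK.Rep.nat KN.MM k.i).mul (Pool.Agent.Helper17.PAK.Rep.nat KN.MM k.i)).mul
    (Pool.Agent.Helper17.PAK.Rep.nat KN.MM 1099511627776)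
theorem rp_o62 : Rp KN.o62 (2 ^ 62) := by
  unfold Rp Pool.Agent.Helper17.PAK.Rep Int.ModEq
  decide +kernel
theorem rep_c182 : Rp KN.c182 (-2 ^ 182) := by
  unfold Rp Pool.Agent.Helper17.PAK.Rep Int.ModEq
  decide +kernel

section
variable {x0 : ℝ} {k : KN.Nd} {u : ℂ}
theorem zer_bd (h : NdR x0 k u) : |zer k| ≤ 2 ^ 60 := by
  obtain ⟨h1, _, h3⟩ := h.bd
  have := abs_mul_le (abs_mul_le h3 h1) (show |(2048 : ℤ)| ≤ 2 ^ 11 by norm_num)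
  exact this.trans (by norm_num)
theorem zei_bd (h : NdR x0 k u) : |zei k| ≤ 2 ^ 60 := by
  obtain ⟨_, h2, h3⟩ := h.bd
  have := abs_mul_le (abs_mul_le h3 h2) (show |(2048 : ℤ)| ≤ 2 ^ 11 by norm_num)
  exact this.trans (by norm_num)
theorem zs2_bd (h : NdR x0 k u) : |zs2 k| ≤ 2 ^ 56 := by
  obtain ⟨_, _, h3⟩ := h.bd
  have := abs_mul_le (abs_mul_le h3 h3) (show |(1099511627776 : ℤ)| ≤ 2 ^ 40 by norm_num)
  exact this.trans (by norm_num)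
end

/-- the integer form at a node -/
def Ndz (l : ℕ) (d : ℤ) (k : KN.Nd) (P A B S K : Hm ℤ) : Hm ℤ :=
  GR.adH (GR.adH (GR.smH (l : ℤ) (GR.adH (GR.adH (GR.smH (2 ^ 62) P) (GR.smH (zer k) A))
    (GR.adH (GR.smH (zei k) B) (GR.smH (zs2 k) S)))) K) (GR.idH d)

theorem rp0 {n : ℕ} {z : ℤ} (h : Rp n z) : Rp n (z + 0) := by rwa [add_zero]

theorem nd_rep {l d : ℕ} {dz : ℤ} {k : KN.Nd} {P A B S K : Hm ℕ} {P' A' B' S' K' : Hm ℤ}
    (hd : Rp d dz) (hP : RH P P') (hA : RH A A') (hB : RH B B') (hS : RH S S') (hK : RH K K') :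
    RH (KN.nd l d k P A B S K) (Ndz l dz k P' A' B' S' K') := by
  have hl := Pool.Agent.Helper17.PAK.Rep.nat KN.MM l
  have e : ∀ {a b c s q : ℕ} {a' b' c' s' q' : ℤ}, Rp a a' → Rp b b' → Rp c c' → Rp s s' →
      Rp q q' → Rp (KN.e4 l KN.o62 (KN.fer k) (KN.fei k) (KN.fs2 k) a b c s q)
        ((l : ℤ) * ((2 ^ 62 * a' + zer k * b') + (zei k * c' + zs2 k * s')) + q') := by
    intro a b c s q a' b' c' s' q' h1 h2 h3 h4 h5
    exact ((hl.mul (((rp_o62.mul h1).add ((rp_fer k).mul h2)).add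
      (((rp_fei k).mul h3).add ((rp_fs2 k).mul h4)))).add h5).mod
  exact ⟨(e hP.a hA.a hB.a hS.a hK.a).add hd, (e hP.b hA.b hB.b hS.b hK.b).add hd,
    (e hP.c hA.c hB.c hS.c hK.c).add hd, rp0 (e hP.d hA.d hB.d hS.d hK.d),
    rp0 (e hP.e hA.e hB.e hS.e hK.e), rp0 (e hP.f hA.f hB.f hS.f hK.f),
    rp0 (e hP.g hA.g hB.g hS.g hK.g), rp0 (e hP.h hA.h hB.h hS.h hK.h),
    rp0 (e hP.i hA.i hB.i hS.i hK.i)⟩

theorem hev_ad (A B : Hm ℤ) (x : Fin 3 → ℂ) :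
    hev (rH (GR.adH A B)) x = hev (rH A) x + hev (rH B) x := by
  rw [rH, GR.mp_adH, hev_adH]; rfl
theorem hev_sm' (c : ℤ) (A : Hm ℤ) (x : Fin 3 → ℂ) :
    hev (rH (GR.smH c A)) x = (c : ℝ) * hev (rH A) x := by
  rw [rH, GR.mp_smH, hev_smH]; rfl
theorem hev_id' (c : ℤ) (x : Fin 3 → ℂ) :
    hev (rH (GR.idH c)) x = (c : ℝ) * nr x := by
  rw [rH, GR.mp_idH, hev_idH]; rfl

theorem Ndz_hev (l : ℕ) (d : ℤ) (k : KN.Nd) (P A B S K : Hm ℤ) (x : Fin 3 → ℂ) :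
    hev (rH (Ndz l d k P A B S K)) x = l * (2 ^ 62 * hev (rH P) x + zer k * hev (rH A) x +
      (zei k * hev (rH B) x + zs2 k * hev (rH S) x)) + hev (rH K) x + d * nr x := by
  rw [Ndz]
  simp only [hev_ad, hev_sm', hev_id']
  push_cast
  ring

/-- bounds of the integer form at a node -/
theorem Ndz_bd {x0 : ℝ} {l : ℕ} {d : ℤ} {k : KN.Nd} {u : ℂ} (h : NdR x0 k u)
    {P A B S K : Hm ℤ} (hl : l ≤ 2 ^ 40) (hd : |d| ≤ 2 ^ 250) (hP : BH (2 ^ 140) P)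
    (hA : BH (2 ^ 141) A) (hB : BH (2 ^ 141) B) (hS : BH (2 ^ 140) S) (hK : BH (2 ^ 250) K) :
    BH (2 ^ 256) (Ndz l d k P A B S K) := by
  have hl' : |(l : ℤ)| ≤ 2 ^ 40 := by
    rw [abs_of_nonneg (by positivity)]; exact_mod_cast hl
  refine (adH_bd (adH_bd (smH_bd hl' (adH_bd (adH_bd (smH_bd (r := 2 ^ 62) (by norm_num) hP)
    (smH_bd (zer_bd h) hA)) (adH_bd (smH_bd (zei_bd h) hB) (smH_bd (zs2_bd h) hS)))) hK)
    (idH_bd hd)).mono ?_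
  norm_num

/-- `Q` at integers -/
theorem hev_PZ (K : Hm ℤ) (Z : M9 ℤ) (x : Fin 3 → ℂ) :
    hev (rH (GR.hm (GR.qr K Z Z) (GR.qi K Z Z))) x =
      (sq2 (GR.qr (rH K) (rM Z) (rM Z)) (GR.qi (rH K) (rM Z) (rM Z)) x x).re := by
  rw [rH, GR.mp_hm, GR.mp_qr, GR.mp_qi]
  exact hev_hmQ _ _ _
theorem hev_AZ (K : Hm ℤ) (Z W : M9 ℤ) (x : Fin 3 → ℂ) :
    hev (rH (GR.cA (GR.qr K Z W) (GR.qi K Z W))) x =
      2 * (sq2 (GR.qr (rH K) (rM Z) (rM W)) (GR.qi (rH K) (rM Z) (rM W)) x x).re := by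
  rw [rH, GR.mp_cA, GR.mp_qr, GR.mp_qi]
  exact hev_cA _ _ _
theorem hev_BZ (K : Hm ℤ) (Z W : M9 ℤ) (x : Fin 3 → ℂ) :
    hev (rH (GR.cB (GR.qr K Z W) (GR.qi K Z W))) x =
      2 * (sq2 (GR.qr (rH K) (rM Z) (rM W)) (GR.qi (rH K) (rM Z) (rM W)) x x).im := by
  rw [rH, GR.mp_cB, GR.mp_qr, GR.mp_qi]
  exact hev_cB _ _ _
theorem rM_qr (K : Hm ℤ) (Z W : M9 ℤ) : rM (GR.qr K Z W) = GR.qr (rH K) (rM Z) (rM W) :=
  GR.mp_qr _ _ _ _
theorem rM_qi (K : Hm ℤ) (Z W : M9 ℤ) : rM (GR.qi K Z W) = GR.qi (rH K) (rM Z) (rM W) :=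
  GR.mp_qi _ _ _ _

/-- the value of the node in terms of `Vn` -/
theorem Vn_reg (k : KN.Nd) (c1 c2 : ℝ) (q : ℂ) :
    Vn k c1 0 c2 0 0 q 0 = 2 ^ 62 * c1 + zer k * (2 * q.re) + (zei k * (2 * q.im) + zs2 k * c2) := by
  have e1 : ((k.i : ℂ) * 2 ^ 11 * Zu k) = ((k.i * 2048 : ℝ) : ℂ) * Zu k := by
    push_cast; norm_num
  simp only [Vn, e1, Zu_mul, zer, zei, zs2]
  simp
  ring

/-- upper bounds of the slack -/
theorem dE_le {x i : ℕ} (hx : x ≤ 2 ^ 17) (hi : i ≤ 256) : KN.dE x i ≤ 2 ^ 57 := by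
  simp only [KN.dE]
  show x * (i * i) * _ + _ ≤ _
  have h1 : i * i ≤ 256 * 256 := Nat.mul_le_mul hi hi
  have h2 := Nat.mul_le_mul hx h1
  omega
theorem dU_le {x i : ℕ} (hx : x ≤ 2 ^ 17) (hi : i ≤ 256) : KN.dU x i ≤ 2 ^ 57 := by
  simp only [KN.dU]
  show x * (i * i) * _ + _ ≤ _
  have h1 : i * i ≤ 256 * 256 := Nat.mul_le_mul hi hi
  have h2 := Nat.mul_le_mul hx h1
  omega
theorem dS_le {i : ℕ} (hi : i ≤ 256) : KN.dS i ≤ 2 ^ 54 := by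
  simp only [KN.dS]
  show (i * i) * _ ≤ _
  have h1 : i * i ≤ 256 * 256 := Nat.mul_le_mul hi hi
  omega

end Pool.Agent.Helper94.CXF.SD
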