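import Pool.Agent.Helper94.CXF.S6

/-!
FARL: soundness of the main test, on a chord.
-/

set_option autoImplicit false
set_option exponentiation.threshold 4000
noncomputable section
namespace Pool.Agent.Helper94.CXF.SD

open Pool.Agent.Helper86.CX renaming Hm → Hm, ev → hev
open Pool.Agent.Helper94.CXF (M9)
open Pool.Agent.Helper94.CXF
open Complex ComplexConjugate

/-- the form of an affine family of true matrices, bounded below by the integer matrices -/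
theorem F_near {K : Hm ℤ} {T : M9 ℝ × M9 ℝ} {N0 N1 : M9 ℕ} {Z0 Z1 : M9 ℤ} (hK : BH (2 ^ 27) K)
    (h0 : OkT T.1 N0 Z0) (h1 : OkT T.2 N1 Z1) {e : ℂ} (he : ‖e‖ ≤ 1 / 8) (x : Fin 3 → ℂ) :
    (sq2 (GR.qr (rH K) (rM Z0) (rM Z0)) (GR.qi (rH K) (rM Z0) (rM Z0)) x x).re +
      2 * (e * sq2 (GR.qr (rH K) (rM Z0) (rM Z1)) (GR.qi (rH K) (rM Z0) (rM Z1)) x x).re +
      normSq e * (sq2 (GR.qr (rH K) (rM Z1) (rM Z1)) (GR.qi (rH K) (rM Z1) (rM Z1)) x x).re -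
      59 * 2 ^ 90 * nr x ≤ 2 ^ 96 * hev (rH K) (ap T e x) := by
  rw [← hev_sm, hev_ap]
  have a := Q_near hK h0 h0 x
  have b := Q_near hK h0 h1 x
  have c := Q_near hK h1 h1 x
  set p := sq2 (GR.qr (rH K) (rM Z0) (rM Z0)) (GR.qi (rH K) (rM Z0) (rM Z0)) x x
  set q := sq2 (GR.qr (rH K) (rM Z0) (rM Z1)) (GR.qi (rH K) (rM Z0) (rM Z1)) x x
  set s := sq2 (GR.qr (rH K) (rM Z1) (rM Z1)) (GR.qi (rH K) (rM Z1) (rM Z1)) x x
  set p' := sq2 (GR.qr (rH K) (smM (2 ^ 48) T.1) (smM (2 ^ 48) T.1))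
    (GR.qi (rH K) (smM (2 ^ 48) T.1) (smM (2 ^ 48) T.1)) x x
  set q' := sq2 (GR.qr (rH K) (smM (2 ^ 48) T.1) (smM (2 ^ 48) T.2))
    (GR.qi (rH K) (smM (2 ^ 48) T.1) (smM (2 ^ 48) T.2)) x x
  set s' := sq2 (GR.qr (rH K) (smM (2 ^ 48) T.2) (smM (2 ^ 48) T.2))
    (GR.qi (rH K) (smM (2 ^ 48) T.2) (smM (2 ^ 48) T.2)) x x
  have n0 := nr_nonneg x
  have a1 : p.re - p'.re ≤ 46 * 2 ^ 90 * nr x := by
    rw [← sub_re]; exact (re_le_norm _).trans a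
  have c1 : s.re - s'.re ≤ 46 * 2 ^ 90 * nr x := by
    rw [← sub_re]; exact (re_le_norm _).trans c
  have b1 : (e * q).re - (e * q').re ≤ 1 / 8 * (46 * 2 ^ 90 * nr x) := by
    rw [← sub_re, ← mul_sub]
    refine (re_le_norm _).trans ?_
    rw [norm_mul]
    exact mul_le_mul he b (norm_nonneg _) (by norm_num)
  have e0 : 0 ≤ normSq e := normSq_nonneg _
  have e1 : normSq e ≤ 1 / 64 := by
    rw [normSq_eq_norm_sq]
    have := pow_le_pow_left₀ (norm_nonneg e) he 2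
    norm_num at this
    linarith
  have c2 : normSq e * s.re - normSq e * s'.re ≤ 1 / 64 * (46 * 2 ^ 90 * nr x) := by
    rw [← mul_sub]
    rcases le_total (s.re - s'.re) 0 with h | h
    · have : normSq e * (s.re - s'.re) ≤ 0 := mul_nonpos_of_nonneg_of_nonpos e0 h
      have : 0 ≤ 1 / 64 * (46 * 2 ^ 90 * nr x) := by positivity
      linarith
    · exact mul_le_mul e1 c1 h (by norm_num)
  linarith

section
variable {x0 : ℝ} {x : ℕ} {k0 k1 : KN.Nd} {u0 u1 u : ℂ} {s : ℝ}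
  {K' K : Hm ℕ} {Kz' Kz : Hm ℤ} {T : M9 ℝ × M9 ℝ} {N : M9 ℕ × M9 ℕ} {Z0 Z1 : M9 ℤ}

/-- parameter of a chord -/
theorem exists_t {a b s : ℝ} (ha : a ≤ s) (hb : s ≤ b) (hab : a < b) :
    ∃ t : ℝ, 0 ≤ t ∧ t ≤ 1 ∧ s = (1 - t) * a + t * b := by
  refine ⟨(s - a) / (b - a), div_nonneg (by linarith) (by linarith), ?_, ?_⟩
  · rw [div_le_one (by linarith)]; linarith
  · have : b - a ≠ 0 := by linarith
    field_simp
    ring

theorem smul_bd {l n m dd1 dd2 p : ℕ} (hl : l ≤ 2 ^ 40) (hn : n ≤ 2 ^ 145) (hm : m ≤ 2 ^ 145)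
    (h1 : dd1 ≤ 2 ^ 57) (h2 : dd2 ≤ 2 ^ 57) (hp : p ≤ 2 ^ 160) :
    |-((l * (dd1 * n + dd2 * m + p) : ℕ) : ℤ)| ≤ 2 ^ 250 := by
  rw [abs_neg, abs_of_nonneg (by positivity)]
  have a1 : dd1 * n ≤ 2 ^ 57 * 2 ^ 145 := Nat.mul_le_mul h1 hn
  have a2 : dd2 * m ≤ 2 ^ 57 * 2 ^ 145 := Nat.mul_le_mul h2 hm
  have a3 : dd1 * n + dd2 * m + p ≤ 2 ^ 57 * 2 ^ 145 + 2 ^ 57 * 2 ^ 145 + 2 ^ 160 := by omega
  have a4 : l * (dd1 * n + dd2 * m + p) ≤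
      2 ^ 40 * (2 ^ 57 * 2 ^ 145 + 2 ^ 57 * 2 ^ 145 + 2 ^ 160) := Nat.mul_le_mul hl a3
  have a5 : 2 ^ 40 * (2 ^ 57 * 2 ^ 145 + 2 ^ 57 * 2 ^ 145 + 2 ^ 160) ≤ 2 ^ 250 := by norm_num
  exact_mod_cast a4.trans a5

theorem p158_eq : KN.p158 = 2 ^ 158 := by decide +kernel
theorem sl4_eq (x d n m : ℕ) :
    KN.sl4 x d n m = KN.dE x d * n + KN.dS d * m + 2 ^ 158 := by
  rw [← p158_eq]; rfl

/-- THE MAIN TEST on a chord -/
theorem ct_sound (hK' : RH K' Kz') (bK' : BH (2 ^ 27) Kz') (hK : RH K Kz) (bK : BH (2 ^ 27) Kz)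
    (o0 : OkT T.1 N.1 Z0) (o1 : OkT T.2 N.2 Z1) (hx : |x0| ≤ (x : ℝ) / 2 ^ 16) (hx2 : x ≤ 2 ^ 17)
    {n m : ℕ} (hn : n ≤ 2 ^ 145) (hm : m ≤ 2 ^ 145)
    (qn : KN.nq (KN.qr K' N.1 N.2) (KN.qi K' N.1 N.2) n = true)
    (qm : KN.np (KN.qr K' N.2 N.2) (KN.qi K' N.2 N.2) m = true)
    (h0 : NdR x0 k0 u0) (h1 : NdR x0 k1 u1) {l : ℕ}
    (hc : KN.ct x n m (KN.hm (KN.qr K' N.1 N.1) (KN.qi K' N.1 N.1))
      (KN.cA (KN.qr K' N.1 N.2) (KN.qi K' N.1 N.2)) (KN.cB (KN.qr K' N.1 N.2) (KN.qi K' N.1 N.2))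
      (KN.hm (KN.qr K' N.2 N.2) (KN.qi K' N.2 N.2)) (KN.smH KN.c182 K) k0 k1 l = true)
    (hu : Cv x0 s u) (s0 : (k0.i : ℝ) / 2048 ≤ s) (s1 : s ≤ (k1.i : ℝ) / 2048)
    {v : Fin 3 → ℂ} (hv : v ≠ 0) (hKv : 0 ≤ hev (rH Kz) v) :
    0 < hev (rH Kz') (ap T (s * u) v) := by
  unfold KN.ct at hc
  simp only [andB_iff] at hc
  obtain ⟨⟨l1, l2⟩, hi, p0, p1⟩ := hc
  have l1 : 1 ≤ l := Nat.le_of_ble_eq_true l1
  have l2 : l ≤ 2 ^ 40 := Nat.le_of_ble_eq_true l2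
  have hi : k0.i + 1 ≤ k1.i := Nat.le_of_ble_eq_true hi
  -- integer objects
  have R00 := qr_rep hK' o0.rep o0.rep
  have J00 := qi_rep hK' o0.rep o0.rep
  have R01 := qr_rep hK' o0.rep o1.rep
  have J01 := qi_rep hK' o0.rep o1.rep
  have R11 := qr_rep hK' o1.rep o1.rep
  have J11 := qi_rep hK' o1.rep o1.rep
  have b00 := (qr_bd bK' o0.bd o0.bd).mono (b := 2 ^ 140) (by norm_num)
  have c00 := (qi_bd bK' o0.bd o0.bd).mono (b := 2 ^ 140) (by norm_num)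
  have b01 := (qr_bd bK' o0.bd o1.bd).mono (b := 2 ^ 140) (by norm_num)
  have c01 := (qi_bd bK' o0.bd o1.bd).mono (b := 2 ^ 140) (by norm_num)
  have b11 := (qr_bd bK' o1.bd o1.bd).mono (b := 2 ^ 140) (by norm_num)
  have c11 := (qi_bd bK' o1.bd o1.bd).mono (b := 2 ^ 140) (by norm_num)
  have m1 : (2 : ℤ) ^ 140 ≤ 2 ^ 200 := by norm_num
  have Nn := nq_sound R01 J01 (b01.mono m1) (c01.mono m1) qn
  have Nm := np_sound R11 J11 (b11.mono m1) (c11.mono m1) qm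
  have B1 := sq2_bd4 Nn v
  have B2 := sq2_bd Nm v
  rw [rM_qr, rM_qi] at B1 B2
  -- the slack
  have bi : k1.i - k0.i ≤ 256 := by
    have := (h1.bd).2.2
    rw [abs_of_nonneg (by positivity)] at this
    have : k1.i ≤ 256 := by exact_mod_cast this
    omega
  have eD := sl4_eq x (k1.i - k0.i) n m
  change KN.psd (KN.nd l (KN.ng (Nat.mul l (KN.sl4 x (k1.i - k0.i) n m))) _ _ _ _ _ _) = true at p0 p1
  generalize KN.sl4 x (k1.i - k0.i) n m = D at p0 p1 eD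
  have hdR : Rp (KN.ng (Nat.mul l D)) (-((l * D : ℕ) : ℤ)) :=
    rp_ng (Pool.Agent.Helper17.PAK.Rep.nat KN.MM (l * D))
  have hdB : |-((l * D : ℕ) : ℤ)| ≤ 2 ^ 250 := by
    rw [eD]
    exact smul_bd l2 hn hm (dE_le hx2 bi) ((dS_le bi).trans (by norm_num)) (by norm_num)
  have KR := smH_rep rep_c182 hK
  have KB : BH (2 ^ 250) (GR.smH (-2 ^ 182) Kz) :=
    (smH_bd (r := 2 ^ 182) (by rw [abs_neg, abs_of_nonneg (by positivity)]) bK).mono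
      (by norm_num)
  have node : ∀ (k : KN.Nd) (w : ℂ), NdR x0 k w →
      KN.psd (KN.nd l (KN.ng (Nat.mul l D)) k (KN.hm (KN.qr K' N.1 N.1) (KN.qi K' N.1 N.1))
        (KN.cA (KN.qr K' N.1 N.2) (KN.qi K' N.1 N.2)) (KN.cB (KN.qr K' N.1 N.2)
        (KN.qi K' N.1 N.2)) (KN.hm (KN.qr K' N.2 N.2) (KN.qi K' N.2 N.2))
        (KN.smH KN.c182 K)) = true →
      (l * D : ℝ) * nr v + 2 ^ 182 * hev (rH Kz) v ≤
        l * Vn k (sq2 (GR.qr (rH Kz') (rM Z0) (rM Z0)) (GR.qi (rH Kz') (rM Z0) (rM Z0)) v v).re 0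
          (sq2 (GR.qr (rH Kz') (rM Z1) (rM Z1)) (GR.qi (rH Kz') (rM Z1) (rM Z1)) v v).re 0 0
          (sq2 (GR.qr (rH Kz') (rM Z0) (rM Z1)) (GR.qi (rH Kz') (rM Z0) (rM Z1)) v v) 0 := by
    intro k w hk hp
    have hR := nd_rep (l := l) (k := k) hdR (hm_rep R00 J00) (cA_rep R01 J01) (cB_rep R01 J01)
      (hm_rep R11 J11) KR
    have hB := Ndz_bd hk l2 hdB (hm_bd b00 c00) ((cA_bd b01 c01).mono (by norm_num))
      ((cB_bd b01 c01).mono (by norm_num)) (hm_bd b11 c11) KB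
    have hz := PDz_hev (psd_sound hR hB hp) v
    rw [Ndz_hev, hev_PZ, hev_PZ, hev_AZ, hev_BZ, hev_sm'] at hz
    rw [Vn_reg]
    push_cast at hz
    linarith
  have V0 := node k0 u0 h0 p0
  have V1 := node k1 u1 h1 p1
  -- the chord
  have hi' : (k0.i : ℝ) / 2048 < (k1.i : ℝ) / 2048 := by
    have : (k0.i : ℝ) + 1 ≤ k1.i := by exact_mod_cast hi
    linarith
  obtain ⟨t, t0, t1, hs⟩ := exists_t s0 s1 hi'
  have n0 := nr_nonneg v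
  have npos := nr_pos hv
  have CV := chordV (cs := 0) (c3 := 0) (qu := 0) (qg := 0) (nu := 0) (ng := 0) (m3 := 0)
    (c1 := (sq2 (GR.qr (rH Kz') (rM Z0) (rM Z0)) (GR.qi (rH Kz') (rM Z0) (rM Z0)) v v).re)
    (c2 := (sq2 (GR.qr (rH Kz') (rM Z1) (rM Z1)) (GR.qi (rH Kz') (rM Z1) (rM Z1)) v v).re)
    (qe := sq2 (GR.qr (rH Kz') (rM Z0) (rM Z1)) (GR.qi (rH Kz') (rM Z0) (rM Z1)) v v)
    h0 h1 hu hx hx2 t0 t1 hs (by omega) (by simp) B1 (by simp)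
    ((abs_re_le_norm _).trans B2) (by simp)
  have FN := F_near bK' o0 o1 (e := s * u) (by
    rw [norm_mul, Complex.norm_real, Real.norm_eq_abs, abs_of_nonneg hu.s0, hu.norm, mul_one]
    exact hu.s1) v
  have nse : normSq ((s : ℂ) * u) = s ^ 2 := by
    rw [normSq_mul, normSq_ofReal, hu.nm]; ring
  rw [nse] at FN
  have hlpos : (0 : ℝ) < l := by exact_mod_cast l1
  have Dr : (D : ℝ) = (KN.dE x (k1.i - k0.i) : ℝ) * n + (KN.dS (k1.i - k0.i) : ℝ) * m + 2 ^ 158 := by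
    rw [eD]; push_cast; ring
  simp only [Vv] at CV
  -- combine
  have A0 := mul_le_mul_of_nonneg_left V0 (sub_nonneg.2 t1)
  have A1 := mul_le_mul_of_nonneg_left V1 t0
  set W0 := Vn k0 (sq2 (GR.qr (rH Kz') (rM Z0) (rM Z0)) (GR.qi (rH Kz') (rM Z0) (rM Z0)) v v).re 0
          (sq2 (GR.qr (rH Kz') (rM Z1) (rM Z1)) (GR.qi (rH Kz') (rM Z1) (rM Z1)) v v).re 0 0
          (sq2 (GR.qr (rH Kz') (rM Z0) (rM Z1)) (GR.qi (rH Kz') (rM Z0) (rM Z1)) v v) 0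
  set W1 := Vn k1 (sq2 (GR.qr (rH Kz') (rM Z0) (rM Z0)) (GR.qi (rH Kz') (rM Z0) (rM Z0)) v v).re 0
          (sq2 (GR.qr (rH Kz') (rM Z1) (rM Z1)) (GR.qi (rH Kz') (rM Z1) (rM Z1)) v v).re 0 0
          (sq2 (GR.qr (rH Kz') (rM Z0) (rM Z1)) (GR.qi (rH Kz') (rM Z0) (rM Z1)) v v) 0
  have hKv' : 0 ≤ (2 : ℝ) ^ 182 * hev (rH Kz) v := mul_nonneg (pow_nonneg (by norm_num) _) hKv
  have key : (l : ℝ) * (D * nr v) ≤ l * ((1 - t) * W0 + t * W1) := by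
    generalize (2 : ℝ) ^ 182 * hev (rH Kz) v = q at A0 A1 hKv'
    have e9 : (1 - t) * (↑l * ↑D * nr v + q) + t * (↑l * ↑D * nr v + q) =
        ↑l * (↑D * nr v) + q := by ring
    have e10 : (1 - t) * (↑l * W0) + t * (↑l * W1) = ↑l * ((1 - t) * W0 + t * W1) := by ring
    linarith
  have key2 : (D : ℝ) * nr v ≤ (1 - t) * W0 + t * W1 := le_of_mul_le_mul_left key hlpos
  rw [Dr] at key2
  have e5 : (0 : ℝ) < 2 ^ 62 * (2 ^ 96 * hev (rH Kz') (ap T (s * u) v)) := by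
    have FN' := mul_le_mul_of_nonneg_left FN (show (0 : ℝ) ≤ 2 ^ 62 by positivity)
    have e6 : (0 : ℝ) < 2 ^ 158 * nr v - 59 * 2 ^ 152 * nr v := by
      have : (0 : ℝ) < (2 ^ 158 - 59 * 2 ^ 152) * nr v := mul_pos (by norm_num) npos
      linarith
    refine lt_of_lt_of_le e6 (le_trans ?_ FN')
    simp only [mul_zero, zero_re, add_zero] at CV
    linarith
  have e7 : (0 : ℝ) < 2 ^ 62 * 2 ^ 96 := by positivity
  have e8 : (2 : ℝ) ^ 62 * (2 ^ 96 * hev (rH Kz') (ap T (s * u) v)) =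
      (2 ^ 62 * 2 ^ 96) * hev (rH Kz') (ap T (s * u) v) := by ring
  rw [e8] at e5
  exact (pos_iff_pos_of_mul_pos e5).1 e7

end

end Pool.Agent.Helper94.CXF.SD
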