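import Pool.Agent.Helper94.CXF.S8

/-!
FARL: soundness of the affine test and of the test of two runs of two from `Y`.
-/

set_option autoImplicit false
set_option exponentiation.threshold 4000
noncomputable section
namespace Pool.Agent.Helper94.CXF.SD

open Pool.Agent.Helper86.CX renaming Hm → Hm, ev → hev
open Pool.Agent.Helper94.CXF (M9)
open Pool.Agent.Helper94.CXF
open Complex ComplexConjugate

/-- `s 2 ^ 62` at a node -/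
def zs19 (k : KN.Nd) : ℤ := k.i * 2251799813685248

theorem rp_fs9 (k : KN.Nd) : Rp (KN.fs k) (zs19 k) :=
  (Pool.Agent.Helper17.PAK.Rep.nat KN.MM k.i).mul
    (Pool.Agent.Helper17.PAK.Rep.nat KN.MM 2251799813685248)

theorem zs1_bd9 {x0 : ℝ} {k : KN.Nd} {u : ℂ} (h : NdR x0 k u) : |zs19 k| ≤ 2 ^ 60 := by
  obtain ⟨_, _, h3⟩ := h.bd
  have := abs_mul_le h3 (show |(2251799813685248 : ℤ)| ≤ 2 ^ 51 by norm_num)
  exact this.trans (by norm_num)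

theorem rep_c120 : Rp KN.c120 (-2 ^ 120) := by
  unfold Rp Pool.Agent.Helper17.PAK.Rep Int.ModEq
  decide +kernel

/-- the integer form of the affine test -/
def Afz (l : ℕ) (d : ℤ) (k : KN.Nd) (V0 V1 H0 H1 : Hm ℤ) : Hm ℤ :=
  GR.adH (GR.adH (GR.smH (l : ℤ) (GR.adH (GR.smH (2 ^ 62) V0) (GR.smH (zs19 k) V1)))
    (GR.smH (-2 ^ 120) (GR.adH (GR.smH (2 ^ 62) H0) (GR.smH (zs19 k) H1)))) (GR.idH d)

theorem af_rep {l d : ℕ} {dz : ℤ} {k : KN.Nd} {V0 V1 H0 H1 : Hm ℕ} {V0' V1' H0' H1' : Hm ℤ}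
    (hd : Rp d dz) (a : RH V0 V0') (b : RH V1 V1') (c : RH H0 H0') (f : RH H1 H1') :
    RH (KN.nd2 l (KN.fs k) d V0 V1 H0 H1) (Afz l dz k V0' V1' H0' H1') := by
  have hl := Pool.Agent.Helper17.PAK.Rep.nat KN.MM l
  have e : ∀ {a b c s : ℕ} {a' b' c' s' : ℤ}, Rp a a' → Rp b b' → Rp c c' → Rp s s' →
      Rp (KN.e2 l (KN.fs k) a b c s)
        ((l : ℤ) * (2 ^ 62 * a' + zs19 k * b') + -2 ^ 120 * (2 ^ 62 * c' + zs19 k * s')) := by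
    intro a b c s a' b' c' s' h1 h2 h3 h4
    exact ((hl.mul ((rp_o62.mul h1).add ((rp_fs9 k).mul h2))).add
      (rep_c120.mul ((rp_o62.mul h3).add ((rp_fs9 k).mul h4)))).mod
  exact ⟨(e a.a b.a c.a f.a).add hd, (e a.b b.b c.b f.b).add hd, (e a.c b.c c.c f.c).add hd,
    rp0 (e a.d b.d c.d f.d), rp0 (e a.e b.e c.e f.e), rp0 (e a.f b.f c.f f.f),
    rp0 (e a.g b.g c.g f.g), rp0 (e a.h b.h c.h f.h), rp0 (e a.i b.i c.i f.i)⟩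

theorem Afz_hev (l : ℕ) (d : ℤ) (k : KN.Nd) (V0 V1 H0 H1 : Hm ℤ) (x : Fin 3 → ℂ) :
    hev (rH (Afz l d k V0 V1 H0 H1)) x = l * (2 ^ 62 * hev (rH V0) x + zs19 k * hev (rH V1) x) -
      2 ^ 120 * (2 ^ 62 * hev (rH H0) x + zs19 k * hev (rH H1) x) + d * nr x := by
  rw [Afz]
  simp only [hev_ad, hev_sm', hev_id']
  push_cast
  ring

theorem Afz_bd {x0 : ℝ} {l : ℕ} {d : ℤ} {k : KN.Nd} {u : ℂ} (h : NdR x0 k u)
    {V0 V1 H0 H1 : Hm ℤ} (hl : l ≤ 2 ^ 40) (hd : |d| ≤ 2 ^ 250) (a : BH (2 ^ 140) V0)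
    (b : BH (2 ^ 140) V1) (c : BH (2 ^ 27) H0) (f : BH (2 ^ 27) H1) :
    BH (2 ^ 256) (Afz l d k V0 V1 H0 H1) := by
  have hl' : |(l : ℤ)| ≤ 2 ^ 40 := by
    rw [abs_of_nonneg (by positivity)]; exact_mod_cast hl
  refine (adH_bd (adH_bd (smH_bd hl' (adH_bd (smH_bd (r := 2 ^ 62) (by norm_num) a)
    (smH_bd (zs1_bd9 h) b))) (smH_bd (r := 2 ^ 120) (by norm_num)
    (adH_bd (smH_bd (r := 2 ^ 62) (by norm_num) c) (smH_bd (zs1_bd9 h) f))))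
    (idH_bd hd)).mono ?_
  norm_num

section
variable {x0 : ℝ} {k0 k1 : KN.Nd} {u0 u1 u : ℂ} {s : ℝ} {V0 V1 H0 H1 : Hm ℕ}
  {V0z V1z H0z H1z : Hm ℤ}

theorem c2_sound (a : RH V0 V0z) (b : RH V1 V1z) (c : RH H0 H0z) (f : RH H1 H1z)
    (a' : BH (2 ^ 140) V0z) (b' : BH (2 ^ 140) V1z) (c' : BH (2 ^ 27) H0z) (f' : BH (2 ^ 27) H1z)
    (h0 : NdR x0 k0 u0) (h1 : NdR x0 k1 u1) {l : ℕ} (hc : KN.c2 V0 V1 H0 H1 k0 k1 l = true)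
    (s0 : (k0.i : ℝ) / 2048 ≤ s) (s1 : s ≤ (k1.i : ℝ) / 2048) (x : Fin 3 → ℂ)
    (hH : 0 ≤ hev (rH H0z) x + s * hev (rH H1z) x) :
    2 ^ 96 * nr x ≤ hev (rH V0z) x + s * hev (rH V1z) x := by
  unfold KN.c2 at hc
  simp only [andB_iff] at hc
  obtain ⟨⟨l1, l2⟩, hi, p0, p1⟩ := hc
  have l1 : 1 ≤ l := Nat.le_of_ble_eq_true l1
  have l2 : l ≤ 2 ^ 40 := Nat.le_of_ble_eq_true l2
  have hi : k0.i + 1 ≤ k1.i := Nat.le_of_ble_eq_true hi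
  have eD := p158_eq
  generalize KN.p158 = D at p0 p1 eD
  have hdR : Rp (KN.ng (Nat.mul l D)) (-((l * D : ℕ) : ℤ)) :=
    rp_ng (Pool.Agent.Helper17.PAK.Rep.nat KN.MM (l * D))
  have hdB : |-((l * D : ℕ) : ℤ)| ≤ 2 ^ 250 := by
    rw [abs_neg, abs_of_nonneg (by positivity), eD]
    have a4 : l * 2 ^ 158 ≤ 2 ^ 40 * 2 ^ 158 := Nat.mul_le_mul l2 le_rfl
    exact_mod_cast a4.trans (by norm_num)
  have node : ∀ (k : KN.Nd) (w : ℂ), NdR x0 k w →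
      KN.psd (KN.nd2 l (KN.fs k) (KN.ng (Nat.mul l D)) V0 V1 H0 H1) = true →
      0 ≤ l * (hev (rH V0z) x + (k.i : ℝ) / 2048 * hev (rH V1z) x) -
        2 ^ 120 * (hev (rH H0z) x + (k.i : ℝ) / 2048 * hev (rH H1z) x) - l * 2 ^ 96 * nr x := by
    intro k w hk hp
    have hz := PDz_hev (psd_sound (af_rep (l := l) (k := k) hdR a b c f)
      (Afz_bd hk l2 hdB a' b' c' f') hp) x
    rw [Afz_hev, eD] at hz
    have e1 : ((zs19 k : ℤ) : ℝ) = 2 ^ 62 * ((k.i : ℝ) / 2048) := by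
      rw [zs19]; push_cast; ring
    rw [e1] at hz
    have hz' : 0 ≤ 2 ^ 62 * (l * (hev (rH V0z) x + (k.i : ℝ) / 2048 * hev (rH V1z) x) -
        2 ^ 120 * (hev (rH H0z) x + (k.i : ℝ) / 2048 * hev (rH H1z) x) - l * 2 ^ 96 * nr x) := by
      refine hz.trans (le_of_eq ?_)
      push_cast
      ring
    exact nonneg_of_mul_nonneg_right hz' (by positivity)
  have V0' := node k0 u0 h0 p0
  have V1' := node k1 u1 h1 p1
  have hi' : (k0.i : ℝ) / 2048 < (k1.i : ℝ) / 2048 := by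
    have : (k0.i : ℝ) + 1 ≤ k1.i := by exact_mod_cast hi
    linarith
  obtain ⟨t, t0, t1, hs⟩ := exists_t s0 s1 hi'
  have A0 := mul_nonneg (sub_nonneg.2 t1) V0'
  have A1 := mul_nonneg t0 V1'
  have hlpos : (0 : ℝ) < l := by exact_mod_cast l1
  generalize hev (rH V0z) x = v0 at *
  generalize hev (rH V1z) x = v1 at *
  generalize hev (rH H0z) x = w0 at *
  generalize hev (rH H1z) x = w1 at *
  have key : 0 ≤ (l : ℝ) * (v0 + s * v1 - 2 ^ 96 * nr x) := by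
    have e3 : (1 - t) * (l * (v0 + (k0.i : ℝ) / 2048 * v1) -
        2 ^ 120 * (w0 + (k0.i : ℝ) / 2048 * w1) - l * 2 ^ 96 * nr x) +
        t * (l * (v0 + (k1.i : ℝ) / 2048 * v1) -
        2 ^ 120 * (w0 + (k1.i : ℝ) / 2048 * w1) - l * 2 ^ 96 * nr x) =
        l * (v0 + s * v1 - 2 ^ 96 * nr x) - 2 ^ 120 * (w0 + s * w1) := by
      rw [hs]; ring
    have : (0 : ℝ) ≤ 2 ^ 120 * (w0 + s * w1) := mul_nonneg (by positivity) hH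
    linarith
  have := nonneg_of_mul_nonneg_right key hlpos
  linarith

theorem aff_sound {P : KN.Pc} (hP : PcOk x0 P) (a : RH V0 V0z) (b : RH V1 V1z) (c : RH H0 H0z)
    (f : RH H1 H1z) (a' : BH (2 ^ 140) V0z) (b' : BH (2 ^ 140) V1z) (c' : BH (2 ^ 27) H0z)
    (f' : BH (2 ^ 27) H1z) {t : List ℕ}
    (h : KN.aff P.ns (KN.kst P) (KN.ken P) t V0 V1 H0 H1 = true) (hu : InP x0 P s u)
    (x : Fin 3 → ℂ) (hH : 0 ≤ hev (rH H0z) x + s * hev (rH H1z) x) :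
    2 ^ 96 * nr x ≤ hev (rH V0z) x + s * hev (rH V1z) x := by
  unfold KN.aff at h
  refine chs_sound (x0 := x0) (Q := fun s => 0 ≤ hev (rH H0z) x + s * hev (rH H1z) x →
    2 ^ 96 * nr x ≤ hev (rH V0z) x + s * hev (rH V1z) x) hP.ns ?_ ?_ t _ hP.st h hP.lt s
    hu.s0 hu.s1 hH
  · intro k0 k1 l hc
    unfold KN.c2 at hc
    simp only [andB_iff] at hc
    exact Nat.le_of_ble_eq_true hc.2.1
  · rintro k0 k1 l ⟨u0, h0⟩ ⟨u1, h1⟩ hc s s0 s1 hH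
    exact c2_sound a b c f a' b' c' f' h0 h1 hc s0 s1 x hH

end

/-! ### two runs of two, from `Y` -/

def zur9 (k : KN.Nd) : ℤ := zX k * 4194304
def zui9 (k : KN.Nd) : ℤ := k.Y * 4194304

theorem rp_fur9 (k : KN.Nd) : Rp (KN.fur k) (zur9 k) :=
  (rp_nX k).mul (Pool.Agent.Helper17.PAK.Rep.nat KN.MM 4194304)
theorem rp_fui9 (k : KN.Nd) : Rp (KN.fui k) (zui9 k) :=
  (Pool.Agent.Helper17.PAK.Rep.nat KN.MM k.Y).mul (Pool.Agent.Helper17.PAK.Rep.nat KN.MM 4194304)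

section
variable {x0 : ℝ} {k : KN.Nd} {u : ℂ}
theorem zur_bd9 (h : NdR x0 k u) : |zur9 k| ≤ 2 ^ 63 := by
  obtain ⟨h1, _, _⟩ := h.bd
  have := abs_mul_le h1 (show |(4194304 : ℤ)| ≤ 2 ^ 22 by norm_num)
  exact this.trans (by norm_num)
theorem zui_bd9 (h : NdR x0 k u) : |zui9 k| ≤ 2 ^ 63 := by
  obtain ⟨_, h2, _⟩ := h.bd
  have := abs_mul_le h2 (show |(4194304 : ℤ)| ≤ 2 ^ 22 by norm_num)
  exact this.trans (by norm_num)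
end

/-- the integer form `e7` -/
def V7 (k : KN.Nd) (P1 S0 S1 A0 B0 A1 B1 : Hm ℤ) : Hm ℤ :=
  GR.adH (GR.adH (GR.smH (2 ^ 62) P1) (GR.adH (GR.smH (zs19 k) S0) (GR.smH (zs2 k) S1)))
    (GR.adH (GR.adH (GR.smH (zur9 k) A0) (GR.smH (zui9 k) B0))
      (GR.adH (GR.smH (zer k) A1) (GR.smH (zei k) B1)))

theorem e7_rep9 {k : KN.Nd} {a b c d e f g : ℕ} {a' b' c' d' e' f' g' : ℤ} (h1 : Rp a a')
    (h2 : Rp b b') (h3 : Rp c c') (h4 : Rp d d') (h5 : Rp e e') (h6 : Rp f f') (h7 : Rp g g') :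
    Rp (KN.e7 (KN.fs k) (KN.fs2 k) (KN.fur k) (KN.fui k) (KN.fer k) (KN.fei k) a b c d e f g)
      ((2 ^ 62 * a' + (zs19 k * b' + zs2 k * c')) +
        ((zur9 k * d' + zui9 k * e') + (zer k * f' + zei k * g'))) :=
  (((rp_o62.mul h1).add (((rp_fs9 k).mul h2).add ((rp_fs2 k).mul h3))).add
    ((((rp_fur9 k).mul h4).add ((rp_fui9 k).mul h5)).add
      (((rp_fer k).mul h6).add ((rp_fei k).mul h7)))).mod

theorem vr_rep {k : KN.Nd} {P1 S0 S1 A0 B0 A1 B1 : Hm ℕ} {P1' S0' S1' A0' B0' A1' B1' : Hm ℤ}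
    (h1 : RH P1 P1') (h2 : RH S0 S0') (h3 : RH S1 S1') (h4 : RH A0 A0') (h5 : RH B0 B0')
    (h6 : RH A1 A1') (h7 : RH B1 B1') :
    RH (KN.vr k P1 S0 S1 A0 B0 A1 B1) (V7 k P1' S0' S1' A0' B0' A1' B1') :=
  ⟨e7_rep9 h1.a h2.a h3.a h4.a h5.a h6.a h7.a, e7_rep9 h1.b h2.b h3.b h4.b h5.b h6.b h7.b,
   e7_rep9 h1.c h2.c h3.c h4.c h5.c h6.c h7.c, e7_rep9 h1.d h2.d h3.d h4.d h5.d h6.d h7.d,
   e7_rep9 h1.e h2.e h3.e h4.e h5.e h6.e h7.e, e7_rep9 h1.f h2.f h3.f h4.f h5.f h6.f h7.f,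
   e7_rep9 h1.g h2.g h3.g h4.g h5.g h6.g h7.g, e7_rep9 h1.h h2.h h3.h h4.h h5.h h6.h h7.h,
   e7_rep9 h1.i h2.i h3.i h4.i h5.i h6.i h7.i⟩

theorem V7_hev (k : KN.Nd) (P1 S0 S1 A0 B0 A1 B1 : Hm ℤ) (x : Fin 3 → ℂ) :
    hev (rH (V7 k P1 S0 S1 A0 B0 A1 B1)) x = (2 ^ 62 * hev (rH P1) x + (zs19 k * hev (rH S0) x +
      zs2 k * hev (rH S1) x)) + ((zur9 k * hev (rH A0) x + zui9 k * hev (rH B0) x) +
      (zer k * hev (rH A1) x + zei k * hev (rH B1) x)) := by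
  rw [V7]
  simp only [hev_ad, hev_sm']
  push_cast
  ring

theorem V7_bd {x0 : ℝ} {k : KN.Nd} {u : ℂ} (h : NdR x0 k u) {P1 S0 S1 A0 B0 A1 B1 : Hm ℤ}
    (h1 : BH (2 ^ 141) P1) (h2 : BH (2 ^ 141) S0) (h3 : BH (2 ^ 141) S1) (h4 : BH (2 ^ 141) A0)
    (h5 : BH (2 ^ 141) B0) (h6 : BH (2 ^ 141) A1) (h7 : BH (2 ^ 141) B1) :
    BH (2 ^ 208) (V7 k P1 S0 S1 A0 B0 A1 B1) := by
  refine (adH_bd (adH_bd (smH_bd (r := 2 ^ 62) (by norm_num) h1) (adH_bd (smH_bd (zs1_bd9 h) h2)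
    (smH_bd (zs2_bd h) h3))) (adH_bd (adH_bd (smH_bd (zur_bd9 h) h4) (smH_bd (zui_bd9 h) h5))
    (adH_bd (smH_bd (zer_bd h) h6) (smH_bd (zei_bd h) h7)))).mono ?_
  norm_num

/-- `l V + K + d` -/
def Lvz (l : ℕ) (d : ℤ) (V K : Hm ℤ) : Hm ℤ := GR.adH (GR.adH (GR.smH (l : ℤ) V) K) (GR.idH d)

theorem lVK_rep {l d : ℕ} {dz : ℤ} {V K : Hm ℕ} {V' K' : Hm ℤ} (hd : Rp d dz) (hV : RH V V')
    (hK : RH K K') : RH (KN.lVK l d V K) (Lvz l dz V' K') := by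
  have hl := Pool.Agent.Helper17.PAK.Rep.nat KN.MM l
  exact ⟨((hl.mul hV.a).add hK.a).add hd, ((hl.mul hV.b).add hK.b).add hd,
    ((hl.mul hV.c).add hK.c).add hd, rp0 ((hl.mul hV.d).add hK.d), rp0 ((hl.mul hV.e).add hK.e),
    rp0 ((hl.mul hV.f).add hK.f), rp0 ((hl.mul hV.g).add hK.g), rp0 ((hl.mul hV.h).add hK.h),
    rp0 ((hl.mul hV.i).add hK.i)⟩

theorem Lvz_hev (l : ℕ) (d : ℤ) (V K : Hm ℤ) (x : Fin 3 → ℂ) :
    hev (rH (Lvz l d V K)) x = l * hev (rH V) x + hev (rH K) x + d * nr x := by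
  rw [Lvz]
  simp only [hev_ad, hev_sm', hev_id']
  push_cast
  ring

theorem Lvz_bd {l : ℕ} {d : ℤ} {V K : Hm ℤ} (hl : l ≤ 2 ^ 40) (hd : |d| ≤ 2 ^ 250)
    (hV : BH (2 ^ 208) V) (hK : BH (2 ^ 250) K) : BH (2 ^ 256) (Lvz l d V K) := by
  have hl' : |(l : ℤ)| ≤ 2 ^ 40 := by
    rw [abs_of_nonneg (by positivity)]; exact_mod_cast hl
  refine (adH_bd (adH_bd (smH_bd hl' hV) hK) (idH_bd hd)).mono ?_
  norm_num

/-- the value of the node in terms of `Vn` -/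
theorem Vn_seven (k : KN.Nd) (c1 cs c2 : ℝ) (qu qe : ℂ) :
    Vn k c1 cs c2 0 qu qe 0 = (2 ^ 62 * c1 + (zs19 k * cs + zs2 k * c2)) +
      ((zur9 k * (2 * qu.re) + zui9 k * (2 * qu.im)) +
        (zer k * (2 * qe.re) + zei k * (2 * qe.im))) := by
  have e1 : ((k.i : ℂ) * 2 ^ 11 * Zu k) = ((k.i * 2048 : ℝ) : ℂ) * Zu k := by
    push_cast; norm_num
  have e2 : ((2 : ℂ) ^ 22 * Zu k) = ((4194304 : ℝ) : ℂ) * Zu k := by
    push_cast; norm_num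
  simp only [Vn, e1, e2, Zu_mul, zer, zei, zs2, zur9, zui9, zs19]
  simp
  ring

theorem p160_eq9 : KN.p160 = 2 ^ 160 := by decide +kernel
theorem slr_eq9 (x d nu ne m : ℕ) :
    KN.slr x d nu ne m = KN.dU x d * nu + KN.dE x d * ne + (KN.dS d * m + 2 ^ 160) := by
  rw [← p160_eq9]; rfl

theorem smul_bd3 {l n1 n2 m d1 d2 d3 : ℕ} (hl : l ≤ 2 ^ 40) (hn : n1 ≤ 2 ^ 145)
    (hn2 : n2 ≤ 2 ^ 145) (hm : m ≤ 2 ^ 145) (h1 : d1 ≤ 2 ^ 57) (h2 : d2 ≤ 2 ^ 57)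
    (h3 : d3 ≤ 2 ^ 57) : |-((l * (d1 * n1 + d2 * n2 + (d3 * m + 2 ^ 160)) : ℕ) : ℤ)| ≤ 2 ^ 250 := by
  rw [abs_neg, abs_of_nonneg (by positivity)]
  have a1 : d1 * n1 ≤ 2 ^ 57 * 2 ^ 145 := Nat.mul_le_mul h1 hn
  have a2 : d2 * n2 ≤ 2 ^ 57 * 2 ^ 145 := Nat.mul_le_mul h2 hn2
  have a3 : d3 * m ≤ 2 ^ 57 * 2 ^ 145 := Nat.mul_le_mul h3 hm
  have a4 : d1 * n1 + d2 * n2 + (d3 * m + 2 ^ 160) ≤
      2 ^ 57 * 2 ^ 145 + 2 ^ 57 * 2 ^ 145 + (2 ^ 57 * 2 ^ 145 + 2 ^ 160) := by omega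
  have a5 : l * (d1 * n1 + d2 * n2 + (d3 * m + 2 ^ 160)) ≤
      2 ^ 40 * (2 ^ 57 * 2 ^ 145 + 2 ^ 57 * 2 ^ 145 + (2 ^ 57 * 2 ^ 145 + 2 ^ 160)) :=
    Nat.mul_le_mul hl a4
  exact_mod_cast a5.trans (by norm_num)

/-- difference of two real parts -/
theorem re_near9 {a b c : ℂ} {r m : ℝ} (hc : ‖c‖ ≤ m) (h : ‖a - b‖ ≤ r) :
    (c * a).re - (c * b).re ≤ m * r := by
  rw [← sub_re, ← mul_sub]
  refine (re_le_norm _).trans ?_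
  rw [norm_mul]
  exact mul_le_mul hc h (norm_nonneg _) ((norm_nonneg _).trans hc)

section
variable {x0 : ℝ} {x : ℕ} {k0 k1 : KN.Nd} {u0 u1 u : ℂ} {s : ℝ}
  {KA KB K : Hm ℕ} {KAz KBz Kz : Hm ℤ} {T : M9 ℝ × M9 ℝ} {N : M9 ℕ × M9 ℕ} {Z0 Z1 : M9 ℤ}

/-- the test on a chord -/
theorem c7_sound (hA : RH KA KAz) (bA : BH (2 ^ 27) KAz) (hB : RH KB KBz) (bB : BH (2 ^ 27) KBz)
    (hK : RH K Kz) (bK : BH (2 ^ 27) Kz) (o0 : OkT T.1 N.1 Z0) (o1 : OkT T.2 N.2 Z1)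
    (hx : |x0| ≤ (x : ℝ) / 2 ^ 16) (hx2 : x ≤ 2 ^ 17) {nu ne m : ℕ} (hnu : nu ≤ 2 ^ 145)
    (hne : ne ≤ 2 ^ 145) (hm : m ≤ 2 ^ 145)
    (qu : KN.nq (KN.qr KA N.1 N.2) (KN.qi KA N.1 N.2) nu = true)
    (qe : KN.nq (KN.qr KB N.1 N.2) (KN.qi KB N.1 N.2) ne = true)
    (qm : KN.np (KN.qr KB N.2 N.2) (KN.qi KB N.2 N.2) m = true)
    (h0 : NdR x0 k0 u0) (h1 : NdR x0 k1 u1) {l : ℕ}
    (hc : KN.c7 x nu ne m (KN.hm (KN.qr KB N.1 N.1) (KN.qi KB N.1 N.1))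
      (KN.hm (KN.qr KA N.2 N.2) (KN.qi KA N.2 N.2)) (KN.hm (KN.qr KB N.2 N.2) (KN.qi KB N.2 N.2))
      (KN.cA (KN.qr KA N.1 N.2) (KN.qi KA N.1 N.2)) (KN.cB (KN.qr KA N.1 N.2) (KN.qi KA N.1 N.2))
      (KN.cA (KN.qr KB N.1 N.2) (KN.qi KB N.1 N.2)) (KN.cB (KN.qr KB N.1 N.2) (KN.qi KB N.1 N.2))
      (KN.smH KN.c182 K) k0 k1 l = true)
    (hu : Cv x0 s u) (s0 : (k0.i : ℝ) / 2048 ≤ s) (s1 : s ≤ (k1.i : ℝ) / 2048)
    {v : Fin 3 → ℂ} (hv : v ≠ 0) (hKv : 0 ≤ hev (rH Kz) v) :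
    2 ^ 98 * nr v ≤ Vv s u
      (sq2 (GR.qr (rH KBz) (rM Z0) (rM Z0)) (GR.qi (rH KBz) (rM Z0) (rM Z0)) v v).re
      (sq2 (GR.qr (rH KAz) (rM Z1) (rM Z1)) (GR.qi (rH KAz) (rM Z1) (rM Z1)) v v).re
      (sq2 (GR.qr (rH KBz) (rM Z1) (rM Z1)) (GR.qi (rH KBz) (rM Z1) (rM Z1)) v v).re 0
      (sq2 (GR.qr (rH KAz) (rM Z0) (rM Z1)) (GR.qi (rH KAz) (rM Z0) (rM Z1)) v v)
      (sq2 (GR.qr (rH KBz) (rM Z0) (rM Z1)) (GR.qi (rH KBz) (rM Z0) (rM Z1)) v v) 0 := by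
  unfold KN.c7 at hc
  simp only [andB_iff] at hc
  obtain ⟨⟨l1, l2⟩, hi, p0, p1⟩ := hc
  have l1 : 1 ≤ l := Nat.le_of_ble_eq_true l1
  have l2 : l ≤ 2 ^ 40 := Nat.le_of_ble_eq_true l2
  have hi : k0.i + 1 ≤ k1.i := Nat.le_of_ble_eq_true hi
  have RA01 := qr_rep hA o0.rep o1.rep
  have JA01 := qi_rep hA o0.rep o1.rep
  have RB01 := qr_rep hB o0.rep o1.rep
  have JB01 := qi_rep hB o0.rep o1.rep
  have RA11 := qr_rep hA o1.rep o1.rep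
  have JA11 := qi_rep hA o1.rep o1.rep
  have RB11 := qr_rep hB o1.rep o1.rep
  have JB11 := qi_rep hB o1.rep o1.rep
  have RB00 := qr_rep hB o0.rep o0.rep
  have JB00 := qi_rep hB o0.rep o0.rep
  have bd := fun {K : Hm ℤ} (b : BH (2 ^ 27) K) {Z W : M9 ℤ} (z : BM (2 ^ 54) Z)
    (w : BM (2 ^ 54) W) => And.intro ((qr_bd b z w).mono (b := 2 ^ 140) (by norm_num))
      ((qi_bd b z w).mono (b := 2 ^ 140) (by norm_num))
  have m1 : (2 : ℤ) ^ 140 ≤ 2 ^ 200 := by norm_num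
  have Nu := nq_sound RA01 JA01 ((bd bA o0.bd o1.bd).1.mono m1) ((bd bA o0.bd o1.bd).2.mono m1) qu
  have Ne := nq_sound RB01 JB01 ((bd bB o0.bd o1.bd).1.mono m1) ((bd bB o0.bd o1.bd).2.mono m1) qe
  have Nm := np_sound RB11 JB11 ((bd bB o1.bd o1.bd).1.mono m1) ((bd bB o1.bd o1.bd).2.mono m1) qm
  have B1 := sq2_bd4 Nu v
  have B2 := sq2_bd4 Ne v
  have B3 := sq2_bd Nm v
  rw [rM_qr, rM_qi] at B1 B2 B3
  have bi : k1.i - k0.i ≤ 256 := by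
    have := (h1.bd).2.2
    rw [abs_of_nonneg (by positivity)] at this
    have : k1.i ≤ 256 := by exact_mod_cast this
    omega
  have eD := slr_eq9 x (k1.i - k0.i) nu ne m
  change KN.psd (KN.lVK l (KN.ng (Nat.mul l (KN.slr x (k1.i - k0.i) nu ne m))) _ _) = true at p0 p1
  generalize KN.slr x (k1.i - k0.i) nu ne m = D at p0 p1 eD
  have hdR : Rp (KN.ng (Nat.mul l D)) (-((l * D : ℕ) : ℤ)) :=
    rp_ng (Pool.Agent.Helper17.PAK.Rep.nat KN.MM (l * D))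
  have hdB : |-((l * D : ℕ) : ℤ)| ≤ 2 ^ 250 := by
    rw [eD]
    exact smul_bd3 l2 hnu hne hm (dU_le hx2 bi) (dE_le hx2 bi) ((dS_le bi).trans (by norm_num))
  have KR := smH_rep rep_c182 hK
  have KB' : BH (2 ^ 250) (GR.smH (-2 ^ 182) Kz) :=
    (smH_bd (r := 2 ^ 182) (by rw [abs_neg, abs_of_nonneg (by positivity)]) bK).mono
      (by norm_num)
  have e41 : (2 : ℤ) ^ 140 ≤ 2 ^ 141 := by norm_num
  have node : ∀ (k : KN.Nd) (w : ℂ), NdR x0 k w →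
      KN.psd (KN.lVK l (KN.ng (Nat.mul l D)) (KN.vr k (KN.hm (KN.qr KB N.1 N.1) (KN.qi KB N.1 N.1))
      (KN.hm (KN.qr KA N.2 N.2) (KN.qi KA N.2 N.2)) (KN.hm (KN.qr KB N.2 N.2) (KN.qi KB N.2 N.2))
      (KN.cA (KN.qr KA N.1 N.2) (KN.qi KA N.1 N.2)) (KN.cB (KN.qr KA N.1 N.2) (KN.qi KA N.1 N.2))
      (KN.cA (KN.qr KB N.1 N.2) (KN.qi KB N.1 N.2)) (KN.cB (KN.qr KB N.1 N.2) (KN.qi KB N.1 N.2)))
      (KN.smH KN.c182 K)) = true →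
      (l * D : ℝ) * nr v + 2 ^ 182 * hev (rH Kz) v ≤ l * Vn k
        (sq2 (GR.qr (rH KBz) (rM Z0) (rM Z0)) (GR.qi (rH KBz) (rM Z0) (rM Z0)) v v).re
        (sq2 (GR.qr (rH KAz) (rM Z1) (rM Z1)) (GR.qi (rH KAz) (rM Z1) (rM Z1)) v v).re
        (sq2 (GR.qr (rH KBz) (rM Z1) (rM Z1)) (GR.qi (rH KBz) (rM Z1) (rM Z1)) v v).re 0
        (sq2 (GR.qr (rH KAz) (rM Z0) (rM Z1)) (GR.qi (rH KAz) (rM Z0) (rM Z1)) v v)
        (sq2 (GR.qr (rH KBz) (rM Z0) (rM Z1)) (GR.qi (rH KBz) (rM Z0) (rM Z1)) v v) 0 := by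
    intro k w hk hp
    have hR := lVK_rep (l := l) hdR (vr_rep (k := k) (hm_rep RB00 JB00) (hm_rep RA11 JA11)
      (hm_rep RB11 JB11) (cA_rep RA01 JA01) (cB_rep RA01 JA01) (cA_rep RB01 JB01)
      (cB_rep RB01 JB01)) KR
    have hB := Lvz_bd l2 hdB (V7_bd hk
      ((hm_bd (bd bB o0.bd o0.bd).1 (bd bB o0.bd o0.bd).2).mono e41)
      ((hm_bd (bd bA o1.bd o1.bd).1 (bd bA o1.bd o1.bd).2).mono e41)
      ((hm_bd (bd bB o1.bd o1.bd).1 (bd bB o1.bd o1.bd).2).mono e41)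
      ((cA_bd (bd bA o0.bd o1.bd).1 (bd bA o0.bd o1.bd).2).mono (by norm_num))
      ((cB_bd (bd bA o0.bd o1.bd).1 (bd bA o0.bd o1.bd).2).mono (by norm_num))
      ((cA_bd (bd bB o0.bd o1.bd).1 (bd bB o0.bd o1.bd).2).mono (by norm_num))
      ((cB_bd (bd bB o0.bd o1.bd).1 (bd bB o0.bd o1.bd).2).mono (by norm_num))) KB'
    have hz := PDz_hev (psd_sound hR hB hp) v
    rw [Lvz_hev, V7_hev, hev_PZ, hev_PZ, hev_PZ, hev_AZ, hev_BZ, hev_AZ, hev_BZ, hev_sm'] at hz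
    rw [Vn_seven]
    push_cast at hz
    linarith
  have V0 := node k0 u0 h0 p0
  have V1 := node k1 u1 h1 p1
  have hi' : (k0.i : ℝ) / 2048 < (k1.i : ℝ) / 2048 := by
    have : (k0.i : ℝ) + 1 ≤ k1.i := by exact_mod_cast hi
    linarith
  obtain ⟨t, t0, t1, hs⟩ := exists_t s0 s1 hi'
  have n0 := nr_nonneg v
  have hlpos : (0 : ℝ) < l := by exact_mod_cast l1
  have hKv' : 0 ≤ (2 : ℝ) ^ 182 * hev (rH Kz) v := mul_nonneg (pow_nonneg (by norm_num) _) hKv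
  generalize (sq2 (GR.qr (rH KBz) (rM Z0) (rM Z0)) (GR.qi (rH KBz) (rM Z0) (rM Z0)) v v).re = c1
    at *
  generalize (sq2 (GR.qr (rH KAz) (rM Z1) (rM Z1)) (GR.qi (rH KAz) (rM Z1) (rM Z1)) v v).re = cs
    at *
  generalize sq2 (GR.qr (rH KBz) (rM Z1) (rM Z1)) (GR.qi (rH KBz) (rM Z1) (rM Z1)) v v = c2 at *
  generalize sq2 (GR.qr (rH KAz) (rM Z0) (rM Z1)) (GR.qi (rH KAz) (rM Z0) (rM Z1)) v v = q1 at *
  generalize sq2 (GR.qr (rH KBz) (rM Z0) (rM Z1)) (GR.qi (rH KBz) (rM Z0) (rM Z1)) v v = q2 at *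
  generalize (2 : ℝ) ^ 182 * hev (rH Kz) v = q at V0 V1 hKv'
  have CV := chordV (cs := cs) (c3 := 0) (qg := 0) (ng := 0) (m3 := 0)
    (c1 := c1) (c2 := c2.re) (qu := q1) (qe := q2)
    h0 h1 hu hx hx2 t0 t1 hs (by omega) B1 B2 (by simp)
    ((abs_re_le_norm _).trans B3) (by simp)
  have Dr : (D : ℝ) = (KN.dU x (k1.i - k0.i) : ℝ) * nu + (KN.dE x (k1.i - k0.i) : ℝ) * ne +
      ((KN.dS (k1.i - k0.i) : ℝ) * m + 2 ^ 160) := by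
    rw [eD]; push_cast; ring
  have A0 := mul_le_mul_of_nonneg_left V0 (sub_nonneg.2 t1)
  have A1 := mul_le_mul_of_nonneg_left V1 t0
  generalize Vn k0 c1 cs c2.re 0 q1 q2 0 = W0 at *
  generalize Vn k1 c1 cs c2.re 0 q1 q2 0 = W1 at *
  have key : (l : ℝ) * (D * nr v) ≤ l * ((1 - t) * W0 + t * W1) := by
    have e9 : (1 - t) * (↑l * ↑D * nr v + q) + t * (↑l * ↑D * nr v + q) =
        ↑l * (↑D * nr v) + q := by ring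
    have e10 : (1 - t) * (↑l * W0) + t * (↑l * W1) = ↑l * ((1 - t) * W0 + t * W1) := by ring
    linarith
  have key2 : (D : ℝ) * nr v ≤ (1 - t) * W0 + t * W1 := le_of_mul_le_mul_left key hlpos
  rw [Dr] at key2
  have e5 : (2 : ℝ) ^ 62 * (2 ^ 98 * nr v) ≤ 2 ^ 62 * Vv s u c1 cs c2.re 0 q1 q2 0 := by
    have : (2 : ℝ) ^ 62 * (2 ^ 98 * nr v) = 2 ^ 160 * nr v := by ring
    rw [this]
    linarith
  exact le_of_mul_le_mul_left e5 (by positivity)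

/-- THE TEST of two runs of two from `Y` -/
theorem t2_sound {P : KN.Pc} (hP : PcOk x0 P) (hA : RH KA KAz) (bA : BH (2 ^ 27) KAz)
    (hB : RH KB KBz) (bB : BH (2 ^ 27) KBz) (hK : RH K Kz) (bK : BH (2 ^ 27) Kz)
    (o0 : OkT T.1 N.1 Z0) (o1 : OkT T.2 N.2 Z1) {t : KN.L2}
    (h : KN.t2 P.ns P.x (KN.kst P) (KN.ken P) t KA KB K N = true) (hu : InP x0 P s u)
    {v : Fin 3 → ℂ} (hv : v ≠ 0) (hKv : 0 ≤ hev (rH Kz) v) (hT : hev (rH KAz) (ap1 T.1 v) = 0) :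
    ∃ c : ℝ, 0 < c ∧ hev (rH KAz) (ap T (s * u) v) + s * hev (rH KBz) (ap T (s * u) v) =
      s * c := by
  unfold KN.t2 KN.t22 at h
  simp only [andB_iff] at h
  obtain ⟨hnu, hne, hm, qu, qe, qm, hc⟩ := h
  have hnu : t.nu ≤ 2 ^ 145 := Nat.le_of_ble_eq_true hnu
  have hne : t.ne ≤ 2 ^ 145 := Nat.le_of_ble_eq_true hne
  have hm : t.m ≤ 2 ^ 145 := Nat.le_of_ble_eq_true hm
  have main := chs_sound (x0 := x0) (Q := fun s => ∀ u, Cv x0 s u → 2 ^ 98 * nr v ≤ Vv s u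
      (sq2 (GR.qr (rH KBz) (rM Z0) (rM Z0)) (GR.qi (rH KBz) (rM Z0) (rM Z0)) v v).re
      (sq2 (GR.qr (rH KAz) (rM Z1) (rM Z1)) (GR.qi (rH KAz) (rM Z1) (rM Z1)) v v).re
      (sq2 (GR.qr (rH KBz) (rM Z1) (rM Z1)) (GR.qi (rH KBz) (rM Z1) (rM Z1)) v v).re 0
      (sq2 (GR.qr (rH KAz) (rM Z0) (rM Z1)) (GR.qi (rH KAz) (rM Z0) (rM Z1)) v v)
      (sq2 (GR.qr (rH KBz) (rM Z0) (rM Z1)) (GR.qi (rH KBz) (rM Z0) (rM Z1)) v v) 0) hP.ns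
      (by
        intro k0 k1 l hc
        unfold KN.c7 at hc
        simp only [andB_iff] at hc
        exact Nat.le_of_ble_eq_true hc.2.1)
      (by
        rintro k0 k1 l ⟨u0, h0⟩ ⟨u1, h1⟩ hc s s0 s1 u hu
        exact c7_sound hA bA hB bB hK bK o0 o1 hP.hx hP.hx2 hnu hne hm qu qe qm h0 h1 hc hu s0 s1
          hv hKv)
      t.c _ hP.st hc hP.lt s hu.s0 hu.s1 u hu.cv
  have n0 := nr_nonneg v
  have npos := nr_pos hv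
  -- the true forms
  have a := Q_near bA o0 o1 v
  have b := Q_near bA o1 o1 v
  have c := Q_near bB o0 o0 v
  have d := Q_near bB o0 o1 v
  have e := Q_near bB o1 o1 v
  have HA := hev_sm (rH KAz) T (s * u) v
  have HB := hev_sm (rH KBz) T (s * u) v
  have HT : hev (rH KAz) (ap1 (smM (2 ^ 48) T.1) v) = 0 := by
    rw [ap1_sm, ev_smul, hT, mul_zero]
  rw [hev_P, hev_hmQ] at HT
  rw [hev_ap] at HA HB
  have nse : normSq ((s : ℂ) * u) = s ^ 2 := by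
    rw [normSq_mul, normSq_ofReal, hu.cv.nm]; ring
  rw [nse] at HA HB
  generalize sq2 (GR.qr (rH KBz) (rM Z0) (rM Z0)) (GR.qi (rH KBz) (rM Z0) (rM Z0)) v v = pB at *
  generalize sq2 (GR.qr (rH KAz) (rM Z1) (rM Z1)) (GR.qi (rH KAz) (rM Z1) (rM Z1)) v v = sA at *
  generalize sq2 (GR.qr (rH KBz) (rM Z1) (rM Z1)) (GR.qi (rH KBz) (rM Z1) (rM Z1)) v v = sB at *
  generalize sq2 (GR.qr (rH KAz) (rM Z0) (rM Z1)) (GR.qi (rH KAz) (rM Z0) (rM Z1)) v v = qA at *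
  generalize sq2 (GR.qr (rH KBz) (rM Z0) (rM Z1)) (GR.qi (rH KBz) (rM Z0) (rM Z1)) v v = qB at *
  generalize sq2 (GR.qr (rH KAz) (smM (2 ^ 48) T.1) (smM (2 ^ 48) T.1))
    (GR.qi (rH KAz) (smM (2 ^ 48) T.1) (smM (2 ^ 48) T.1)) v v = pA' at *
  generalize sq2 (GR.qr (rH KBz) (smM (2 ^ 48) T.1) (smM (2 ^ 48) T.1))
    (GR.qi (rH KBz) (smM (2 ^ 48) T.1) (smM (2 ^ 48) T.1)) v v = pB' at *
  generalize sq2 (GR.qr (rH KAz) (smM (2 ^ 48) T.1) (smM (2 ^ 48) T.2))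
    (GR.qi (rH KAz) (smM (2 ^ 48) T.1) (smM (2 ^ 48) T.2)) v v = qA' at *
  generalize sq2 (GR.qr (rH KBz) (smM (2 ^ 48) T.1) (smM (2 ^ 48) T.2))
    (GR.qi (rH KBz) (smM (2 ^ 48) T.1) (smM (2 ^ 48) T.2)) v v = qB' at *
  generalize sq2 (GR.qr (rH KAz) (smM (2 ^ 48) T.2) (smM (2 ^ 48) T.2))
    (GR.qi (rH KAz) (smM (2 ^ 48) T.2) (smM (2 ^ 48) T.2)) v v = sA' at *
  generalize sq2 (GR.qr (rH KBz) (smM (2 ^ 48) T.2) (smM (2 ^ 48) T.2))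
    (GR.qi (rH KBz) (smM (2 ^ 48) T.2) (smM (2 ^ 48) T.2)) v v = sB' at *
  have s0 := hu.cv.s0
  have s1 := hu.cv.s1
  have nu : ‖u‖ ≤ 1 := hu.cv.norm.le
  have nsu : ‖(s : ℂ) * u‖ ≤ 1 / 8 := by
    rw [norm_mul, Complex.norm_real, Real.norm_eq_abs, abs_of_nonneg s0, hu.cv.norm, mul_one]
    exact s1
  have ns : ‖(s : ℂ)‖ ≤ 1 / 8 := by
    rw [Complex.norm_real, Real.norm_eq_abs, abs_of_nonneg s0]; exact s1
  have ns2 : ‖((s ^ 2 : ℝ) : ℂ)‖ ≤ 1 / 64 := by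
    rw [Complex.norm_real, Real.norm_eq_abs, abs_of_nonneg (by positivity)]
    nlinarith
  have r1 := re_near9 nu a
  have r2 := re_near9 ns b
  have r3 := re_near9 (c := 1) (m := 1) (by simp) c
  have r4 := re_near9 nsu d
  have r5 := re_near9 ns2 e
  rw [re_ofReal_mul, re_ofReal_mul] at r2 r5
  rw [one_mul, one_mul] at r3
  refine ⟨(Vv s u pB'.re sA'.re sB'.re 0 qA' qB' 0) / 2 ^ 96, ?_, ?_⟩
  · have : 0 < Vv s u pB'.re sA'.re sB'.re 0 qA' qB' 0 := by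
      have e1 : (0 : ℝ) < 2 ^ 98 * nr v - 200 * 2 ^ 90 * nr v := by
        have : (0 : ℝ) < (2 ^ 98 - 200 * 2 ^ 90) * nr v := mul_pos (by norm_num) npos
        linarith
      simp only [Vv, mul_zero, zero_re, add_zero] at main ⊢
      linarith
    positivity
  · have e1 : 2 ^ 96 * (hev (rH KAz) (ap T (s * u) v) + s * hev (rH KBz) (ap T (s * u) v)) =
        s * Vv s u pB'.re sA'.re sB'.re 0 qA' qB' 0 := by
      rw [mul_add, ← HA]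
      have : 2 ^ 96 * (s * hev (rH KBz) (ap T (s * u) v)) =
        s * (2 ^ 96 * hev (rH KBz) (ap T (s * u) v)) := by ring
      rw [this, ← HB, HT]
      have e2 : ((s : ℂ) * u * qA').re = s * (u * qA').re := by
        rw [mul_assoc, re_ofReal_mul]
      simp only [Vv, mul_zero, zero_re, add_zero, e2]
      ring
    field_simp
    linarith

end

end Pool.Agent.Helper94.CXF.SD
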